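import Pool.Agent.Lib_helper86.RatW.FamD
import Pool.Agent.Lib_helper83.G3Main
import Pool.Agent.Lib_helper36.Rat.G3II

/-!
The system of the pattern (1,0,0) has no bounded positive solution.
-/

set_option autoImplicit false

namespace Pool.Agent.RatRec

theorem ii_gain : Pool.Agent.RatG3.II_gain_Stmt := by
  intro om be A p h1 h2 h3 h4 h5 h6 y v r h7 h8 h9 h10 h11
  exact Pool.Agent.RatG3.II_gain h1 h2 h3 h4 h5 h6 h7 h8 h9 h10 h11

theorem g3Stmt : G3Stmt := by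
  intro A al b1 b3 b4 B1 B4 hA hal hb1 hb4 hB1 hb3 hB4 hcase z y r hz hy _ Hz Hy Hr
  exact Pool.Agent.RatG3.G3_of ii_gain hA hal hb1 hb3 hb4 hB1 hB4 hcase hz hy Hz Hy Hr

end Pool.Agent.RatRec
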