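import Pool.Agent.Lib_helper86.RatW.FamA

/-!
Families of cases with pinned patterns of periods five and nine.
-/

set_option autoImplicit false

namespace Pool.Agent.RatRec

/-- Growth of a bounded sequence from a product inequality. -/
theorem no_growth' {z : ℕ → ℝ} {c g : ℝ} (hc : 0 < c) (hg : 0 < g) (hz : ∀ j, 0 < z j)
    (hz1 : ∀ j, z j ≤ 1) (h : ∀ j, z j * (c + g) ≤ c * z (j + 1)) : False := by
  refine no_growth (t := 1 + g / c) (by have := div_pos hg hc; linarith) hz hz1 ?_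
  intro j
  have e : (1 + g / c) * z j = z j * (c + g) / c := by field_simp
  rw [e, div_le_iff₀ hc]
  have := h j
  linarith

/-- Product of two equations. -/
theorem prod_step {z w z' P Q a c : ℝ} (h1 : z * P = a * w) (h2 : w * Q = c * z') :
    z * (P * Q) = a * c * z' := by
  calc z * (P * Q) = (z * P) * Q := by ring
    _ = a * (w * Q) := by rw [h1]; ring
    _ = _ := by rw [h2]; ring

/-- The algebra of the pattern (1,1,0,0,0). -/
theorem alg_F6 {B0 B2 B3 b1 b2 b3 b4 r s y z' w' : ℝ} (hB0 : 0 ≤ B0) (hB2 : 0 < B2) (hB3 : 0 < B3)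
    (hb1 : 0 < b1) (hb2 : 0 ≤ b2) (hb3 : 0 ≤ b3) (hb4 : 0 < b4)
    (hr : 0 < r) (hs : 0 < s) (hy : 0 < y) (hz : 0 < z') (hw : 0 < w')
    (e2 : B3 * r * z' = b3 * z' + b4 * w') (e3 : s * (B2 * z' + B3 * w') = b2 * z' + b3 * w')
    (e4 : B2 * y * w' = b1 * z' + b2 * w') :
    b1 * b4 + min (b1 * b3 + B3 * b1 * b2 / (B2 + B3) * (B3 / B2))
      (b2 * b4 + B2 * b3 * b4 / (B2 + B3) * (B2 / B3)) ≤
      (B0 + B2 * r + B3 * s) * (B0 + B2 * s + B3 * y) := by
  have hzw : 0 < z' * w' := mul_pos hz hw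
  have hlow : (B2 * r + B3 * s) * (B2 * s + B3 * y) ≤
      (B0 + B2 * r + B3 * s) * (B0 + B2 * s + B3 * y) := by
    apply mul_le_mul
    · linarith
    · linarith
    · positivity
    · positivity
  refine le_trans ?_ hlow
  -- the product of the two equations
  have hprod : (B3 * r) * (B2 * y) * (z' * w') =
      (b3 * z' + b4 * w') * (b1 * z' + b2 * w') := by
    rw [← e2, ← e4]; ring
  rcases le_total w' z' with hle | hle
  · refine le_trans (add_le_add_right (min_le_left _ _) _) ?_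
    have h1 : b1 * b4 + b1 * b3 ≤ (B3 * r) * (B2 * y) := by
      have : (b1 * b4 + b1 * b3) * (z' * w') ≤ (B3 * r) * (B2 * y) * (z' * w') := by
        rw [hprod]
        have t1 : 0 ≤ b1 * b3 * z' * (z' - w') := by
          have := sub_nonneg.mpr hle
          positivity
        have t2 : 0 ≤ b2 * b3 * (z' * w') := by positivity
        have t3 : 0 ≤ b2 * b4 * (w' * w') := by positivity
        nlinarith
      exact le_of_mul_le_mul_right this hzw
    have h2 : b2 / (B2 + B3) ≤ s := by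
      rw [div_le_iff₀ (by positivity)]
      have t1 : B2 * z' + B3 * w' ≤ (B2 + B3) * z' := by nlinarith
      have t2 : b2 * z' ≤ s * ((B2 + B3) * z') := by
        calc b2 * z' ≤ b2 * z' + b3 * w' := by nlinarith
          _ = s * (B2 * z' + B3 * w') := e3.symm
          _ ≤ _ := mul_le_mul_of_nonneg_left t1 hs.le
      have t3 : b2 * z' ≤ (s * (B2 + B3)) * z' := by linarith
      exact le_of_mul_le_mul_right t3 hz
    have h3 : b1 / B2 ≤ y := by
      rw [div_le_iff₀ hB2]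
      have t3 : b1 * w' ≤ (y * B2) * w' := by
        have : 0 ≤ b2 * w' := by positivity
        have : b1 * w' ≤ b1 * z' := mul_le_mul_of_nonneg_left hle hb1.le
        linarith
      exact le_of_mul_le_mul_right t3 hw
    have h4 : b2 / (B2 + B3) * (b1 / B2) ≤ s * y :=
      mul_le_mul h2 h3 (by positivity) hs.le
    have h5 : B3 * b1 * b2 / (B2 + B3) * (B3 / B2) = B3 * B3 * (b2 / (B2 + B3) * (b1 / B2)) := by
      field_simp
    rw [h5]
    have h6 := mul_le_mul_of_nonneg_left h4 (mul_pos hB3 hB3).le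
    have h7 : 0 < B2 * B2 * (r * s) := by positivity
    have h8 : 0 < B2 * B3 * (s * s) := by positivity
    nlinarith
  · refine le_trans (add_le_add_right (min_le_right _ _) _) ?_
    have h1 : b1 * b4 + b2 * b4 ≤ (B3 * r) * (B2 * y) := by
      have : (b1 * b4 + b2 * b4) * (z' * w') ≤ (B3 * r) * (B2 * y) * (z' * w') := by
        rw [hprod]
        have t1 : 0 ≤ b2 * b4 * w' * (w' - z') := by
          have := sub_nonneg.mpr hle
          positivity
        have t2 : 0 ≤ b2 * b3 * (z' * w') := by positivity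
        have t3 : 0 ≤ b1 * b3 * (z' * z') := by positivity
        nlinarith
      exact le_of_mul_le_mul_right this hzw
    have h2 : b3 / (B2 + B3) ≤ s := by
      rw [div_le_iff₀ (by positivity)]
      have t1 : B2 * z' + B3 * w' ≤ (B2 + B3) * w' := by nlinarith
      have t2 : b3 * w' ≤ s * ((B2 + B3) * w') := by
        calc b3 * w' ≤ b2 * z' + b3 * w' := by nlinarith
          _ = s * (B2 * z' + B3 * w') := e3.symm
          _ ≤ _ := mul_le_mul_of_nonneg_left t1 hs.le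
      have t3 : b3 * w' ≤ (s * (B2 + B3)) * w' := by linarith
      exact le_of_mul_le_mul_right t3 hw
    have h3 : b4 / B3 ≤ r := by
      rw [div_le_iff₀ hB3]
      have t3 : b4 * z' ≤ (r * B3) * z' := by
        have : 0 ≤ b3 * z' := by positivity
        have : b4 * z' ≤ b4 * w' := mul_le_mul_of_nonneg_left hle hb4.le
        linarith
      exact le_of_mul_le_mul_right t3 hz
    have h4 : b3 / (B2 + B3) * (b4 / B3) ≤ s * r :=
      mul_le_mul h2 h3 (by positivity) hs.le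
    have h5 : B2 * b3 * b4 / (B2 + B3) * (B2 / B3) = B2 * B2 * (b3 / (B2 + B3) * (b4 / B3)) := by
      field_simp
    rw [h5]
    have h6 := mul_le_mul_of_nonneg_left h4 (mul_pos hB2 hB2).le
    have h7 : 0 < B3 * B3 * (s * y) := by positivity
    have h8 : 0 < B2 * B3 * (s * s) := by positivity
    nlinarith

/-- Pattern (1,1,0,0,0). -/
theorem fam_F6 {b B : Fin 5 → ℝ} {S T : Finset (Fin 5)} (hb : SupportedOn b S)
    (hB : SupportedOn B T) (hT : ∀ k ∈ T, k = 0 ∨ k = 2 ∨ k = 3)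
    (hS1 : 1 ∈ S) (hS4 : 4 ∈ S) (hS23 : 2 ∈ S ∨ 3 ∈ S) (hT2 : 2 ∈ T) (hT3 : 3 ∈ T)
    {v : ℕ → ℤ} (hv0 : ∀ j, v (5 * j) = 1) (hv1 : ∀ j, v (5 * j + 1) = 1)
    (hv2 : ∀ j, v (5 * j + 2) = 0) (hv3 : ∀ j, v (5 * j + 3) = 0)
    (hv4 : ∀ j, v (5 * j + 4) = 0) {u : ℕ → ℝ}
    (h : LimSol 1 v b B S T u) : False := by
  have hv5 : ∀ j, v (5 * j + 5) = 1 := fun j => hv0 (j + 1)
  have hv6 : ∀ j, v (5 * j + 6) = 1 := fun j => hv1 (j + 1)
  have hv7 : ∀ j, v (5 * j + 7) = 0 := fun j => hv2 (j + 1)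
  have hv8 : ∀ j, v (5 * j + 8) = 0 := fun j => hv3 (j + 1)
  have B1 : B 1 = 0 := hB.2 1 (fun hk => by have := hT 1 hk; simp at this)
  have B4 : B 4 = 0 := hB.2 4 (fun hk => by have := hT 4 hk; simp at this)
  have b1 := hb.1 1 hS1
  have b4 := hb.1 4 hS4
  have b2 := hb.nonneg 2
  have b3 := hb.nonneg 3
  have B2 := hB.1 2 hT2
  have B3 := hB.1 3 hT3
  have B0 := hB.nonneg 0
  have e0 : ∀ j, _ := fun j => h.eq (5 * j) 1
    (by intro k hk; have := hT k hk; fin_cases k <;> simp_all [vv])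
    (by intro k hk; fin_cases k <;> simp_all [vv])
  have e1 : ∀ j, _ := fun j => h.eq (5 * j + 1) 1
    (by intro k hk; have := hT k hk; fin_cases k <;> simp_all [vv, Nat.add_assoc])
    (by intro k hk; fin_cases k <;> simp_all [vv, Nat.add_assoc])
  have e2 : ∀ j, _ := fun j => h.eq (5 * j + 2) 1
    (by intro k hk; have := hT k hk; fin_cases k <;> simp_all [vv, Nat.add_assoc])
    (by intro k hk; fin_cases k <;> simp_all [vv, Nat.add_assoc])
  have e3 : ∀ j, _ := fun j => h.eq (5 * j + 3) 1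
    (by intro k hk; have := hT k hk; fin_cases k <;> simp_all [vv, Nat.add_assoc])
    (by intro k hk; fin_cases k <;> simp_all [vv, Nat.add_assoc])
  have e4 : ∀ j, _ := fun j => h.eq (5 * j + 4) 1
    (by intro k hk; have := hT k hk; fin_cases k <;> simp_all [vv, Nat.add_assoc])
    (by intro k hk; fin_cases k <;> simp_all [vv, Nat.add_assoc])
  simp [Fin.sum_univ_succ, vv, uu, Nat.add_assoc, hv0, hv1, hv2, hv3, hv4, hv5, hv6, hv7, hv8,
    B1, B4] at e0 e1 e2 e3 e4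
  have hu := h.pos
  have hg : 0 < min (b 1 * b 3 + B 3 * b 1 * b 2 / (B 2 + B 3) * (B 3 / B 2))
      (b 2 * b 4 + B 2 * b 3 * b 4 / (B 2 + B 3) * (B 2 / B 3)) := by
    rcases hS23 with h2 | h3
    · have := hb.1 2 h2
      apply lt_min <;> positivity
    · have := hb.1 3 h3
      apply lt_min <;> positivity
  refine no_growth' (c := b 1 * b 4) (mul_pos b1 b4) hg (z := fun j => u (5 * j)) (fun j => hu _)
    (fun j => h.le_one _ (hv0 j)) ?_
  intro j
  have h5 : 5 * (j + 1) = 5 * j + 5 := by ring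
  simp only [h5]
  have f0 := e0 j
  have f1 := e1 j
  have f2 := e2 j
  have f3 := e3 j
  have f4 := e4 j
  have key := alg_F6 B0 B2 B3 b1 b2 b3 b4 (hu (5 * j + 2)) (hu (5 * j + 3)) (hu (5 * j + 4))
    (hu (5 * j + 5)) (hu (5 * j + 6)) (by linarith) (by linarith) (by linarith)
  have g1 := prod_step (z := u (5 * j)) (w := u (5 * j + 1)) (z' := u (5 * j + 5))
    (P := B 0 + B 2 * u (5 * j + 2) + B 3 * u (5 * j + 3))
    (Q := B 0 + B 2 * u (5 * j + 3) + B 3 * u (5 * j + 4)) (a := b 1) (c := b 4)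
    (by linarith) (by linarith)
  rw [← g1]
  exact mul_le_mul_of_nonneg_left key (hu _).le

/-- Pattern (1,0,1,0,0). -/
theorem fam_F7 {b B : Fin 5 → ℝ} {S T : Finset (Fin 5)} (hb : SupportedOn b S)
    (hB : SupportedOn B T) (hT : ∀ k ∈ T, k = 0 ∨ k = 1 ∨ k = 4)
    (hS2 : 2 ∈ S) (hS3 : 3 ∈ S) (hS14 : 1 ∈ S ∨ 4 ∈ S) (hT1 : 1 ∈ T) (hT4 : 4 ∈ T)
    {v : ℕ → ℤ} (hv0 : ∀ j, v (5 * j) = 1) (hv1 : ∀ j, v (5 * j + 1) = 0)
    (hv2 : ∀ j, v (5 * j + 2) = 1) (hv3 : ∀ j, v (5 * j + 3) = 0)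
    (hv4 : ∀ j, v (5 * j + 4) = 0) {u : ℕ → ℝ}
    (h : LimSol 1 v b B S T u) : False := by
  have hv5 : ∀ j, v (5 * j + 5) = 1 := fun j => hv0 (j + 1)
  have hv6 : ∀ j, v (5 * j + 6) = 0 := fun j => hv1 (j + 1)
  have hv7 : ∀ j, v (5 * j + 7) = 1 := fun j => hv2 (j + 1)
  have hv8 : ∀ j, v (5 * j + 8) = 0 := fun j => hv3 (j + 1)
  have B2 : B 2 = 0 := hB.2 2 (fun hk => by have := hT 2 hk; simp at this)
  have B3 : B 3 = 0 := hB.2 3 (fun hk => by have := hT 3 hk; simp at this)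
  have b2 := hb.1 2 hS2
  have b3 := hb.1 3 hS3
  have b1 := hb.nonneg 1
  have b4 := hb.nonneg 4
  have B1 := hB.1 1 hT1
  have B4 := hB.1 4 hT4
  have B0 := hB.nonneg 0
  have e0 : ∀ j, _ := fun j => h.eq (5 * j) 1
    (by intro k hk; have := hT k hk; fin_cases k <;> simp_all [vv])
    (by intro k hk; fin_cases k <;> simp_all [vv])
  have e1 : ∀ j, _ := fun j => h.eq (5 * j + 1) 1
    (by intro k hk; have := hT k hk; fin_cases k <;> simp_all [vv, Nat.add_assoc])
    (by intro k hk; fin_cases k <;> simp_all [vv, Nat.add_assoc])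
  have e2 : ∀ j, _ := fun j => h.eq (5 * j + 2) 1
    (by intro k hk; have := hT k hk; fin_cases k <;> simp_all [vv, Nat.add_assoc])
    (by intro k hk; fin_cases k <;> simp_all [vv, Nat.add_assoc])
  have e3 : ∀ j, _ := fun j => h.eq (5 * j + 3) 1
    (by intro k hk; have := hT k hk; fin_cases k <;> simp_all [vv, Nat.add_assoc])
    (by intro k hk; fin_cases k <;> simp_all [vv, Nat.add_assoc])
  have e4 : ∀ j, _ := fun j => h.eq (5 * j + 4) 1
    (by intro k hk; have := hT k hk; fin_cases k <;> simp_all [vv, Nat.add_assoc])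
    (by intro k hk; fin_cases k <;> simp_all [vv, Nat.add_assoc])
  simp [Fin.sum_univ_succ, vv, uu, Nat.add_assoc, hv0, hv1, hv2, hv3, hv4, hv5, hv6, hv7, hv8,
    B2, B3] at e0 e1 e2 e3 e4
  have hu := h.pos
  -- the product
  have hstep : ∀ j, u (5 * j) * ((B 0 + B 1 * u (5 * j + 1) + B 4 * u (5 * j + 4)) *
      (B 0 + B 1 * u (5 * j + 3) + B 4 * u (5 * j + 6))) = b 2 * b 3 * u (5 * j + 5) := by
    intro j
    have f0 := e0 j
    have f2 := e2 j
    exact prod_step (w := u (5 * j + 2)) (by linarith) (by linarith)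
  -- lower bound of the product
  have hprod : ∀ j, (b 2 * b 3 + b 1 * b 4) * (u (5 * j + 5) * u (5 * j + 7)) +
      b 1 * b 2 * u (5 * j + 5) ^ 2 + b 3 * b 4 * u (5 * j + 7) ^ 2 ≤
      ((B 0 + B 1 * u (5 * j + 1) + B 4 * u (5 * j + 4)) *
      (B 0 + B 1 * u (5 * j + 3) + B 4 * u (5 * j + 6))) * (u (5 * j + 5) * u (5 * j + 7)) := by
    intro j
    have f3 := e3 j
    have f4 := e4 j
    have p1 := hu (5 * j + 1)
    have p3 := hu (5 * j + 3)
    have p4 := hu (5 * j + 4)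
    have p5 := hu (5 * j + 5)
    have p6 := hu (5 * j + 6)
    have p7 := hu (5 * j + 7)
    have h1 : (B 1 * u (5 * j + 4)) * (B 4 * u (5 * j + 3)) * (u (5 * j + 5) * u (5 * j + 7)) =
        (b 1 * u (5 * j + 5) + b 3 * u (5 * j + 7)) *
          (b 2 * u (5 * j + 5) + b 4 * u (5 * j + 7)) := by
      have g3 : B 4 * u (5 * j + 3) * u (5 * j + 7) =
        b 2 * u (5 * j + 5) + b 4 * u (5 * j + 7) := by linarith
      have g4 : B 1 * u (5 * j + 4) * u (5 * j + 5) =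
        b 1 * u (5 * j + 5) + b 3 * u (5 * j + 7) := by linarith
      rw [← g3, ← g4]; ring
    have h2 : (B 4 * u (5 * j + 4)) * (B 1 * u (5 * j + 3)) ≤
        (B 0 + B 1 * u (5 * j + 1) + B 4 * u (5 * j + 4)) *
        (B 0 + B 1 * u (5 * j + 3) + B 4 * u (5 * j + 6)) := by
      apply mul_le_mul
      · have : 0 < B 1 * u (5 * j + 1) := by positivity
        linarith
      · have : 0 < B 4 * u (5 * j + 6) := by positivity
        linarith
      · positivity
      · positivity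
    have h3 := mul_le_mul_of_nonneg_right h2 (mul_pos p5 p7).le
    have h4 : (B 4 * u (5 * j + 4)) * (B 1 * u (5 * j + 3)) * (u (5 * j + 5) * u (5 * j + 7)) =
        (b 2 * b 3 + b 1 * b 4) * (u (5 * j + 5) * u (5 * j + 7)) +
      b 1 * b 2 * u (5 * j + 5) ^ 2 + b 3 * b 4 * u (5 * j + 7) ^ 2 := by
      linear_combination h1
    linarith
  have h50 : ∀ j, 5 * (j + 1) = 5 * j + 5 := fun j => by ring
  -- monotone
  have hmono : ∀ j, u (5 * j) ≤ u (5 * j + 5) := by
    intro j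
    have g1 := hstep j
    have g2 := hprod j
    have p0 := hu (5 * j)
    have p5 := hu (5 * j + 5)
    have p7 := hu (5 * j + 7)
    have p57 := mul_pos p5 p7
    have g3 : b 2 * b 3 ≤ (B 0 + B 1 * u (5 * j + 1) + B 4 * u (5 * j + 4)) *
      (B 0 + B 1 * u (5 * j + 3) + B 4 * u (5 * j + 6)) := by
      have : b 2 * b 3 * (u (5 * j + 5) * u (5 * j + 7)) ≤
        (B 0 + B 1 * u (5 * j + 1) + B 4 * u (5 * j + 4)) *
      (B 0 + B 1 * u (5 * j + 3) + B 4 * u (5 * j + 6)) * (u (5 * j + 5) * u (5 * j + 7)) := by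
        have t1 : 0 ≤ b 1 * b 4 * (u (5 * j + 5) * u (5 * j + 7)) := by positivity
        have t2 : 0 ≤ b 1 * b 2 * u (5 * j + 5) ^ 2 := by positivity
        have t3 : 0 ≤ b 3 * b 4 * u (5 * j + 7) ^ 2 := by positivity
        linarith
      exact le_of_mul_le_mul_right this p57
    have g4 := mul_le_mul_of_nonneg_left g3 p0.le
    rw [g1] at g4
    have g5 : u (5 * j) * (b 2 * b 3) ≤ u (5 * j + 5) * (b 2 * b 3) := by linarith
    exact le_of_mul_le_mul_right g5 (mul_pos b2 b3)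
  have hz0 : ∀ j, u 0 ≤ u (5 * j) := by
    intro j
    induction j with
    | zero => simp
    | succ j ih =>
      rw [h50 j]
      exact le_trans ih (hmono j)
  have p0 := hu 0
  have hz5 : ∀ j, u 0 ≤ u (5 * j + 5) := fun j => by rw [← h50]; exact hz0 _
  have hz51 : ∀ j, u (5 * j + 5) ≤ 1 := fun j => h.le_one _ (hv5 j)
  have hw7 : ∀ j, u (5 * j + 7) ≤ 1 := fun j => h.le_one _ (hv7 j)
  have hw2 : ∀ j, u (5 * j + 2) ≤ 1 := fun j => h.le_one _ (hv2 j)
  rcases hS14 with h1 | h4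
  · have b1 := hb.1 1 h1
    refine no_growth' (c := b 2 * b 3) (g := b 1 * b 2 * u 0) (mul_pos b2 b3) (by positivity)
      (z := fun j => u (5 * j)) (fun j => hu _) (fun j => h.le_one _ (hv0 j)) ?_
    intro j
    simp only [h50]
    rw [← hstep j]
    apply mul_le_mul_of_nonneg_left _ (hu _).le
    have p5 := hu (5 * j + 5)
    have p7 := hu (5 * j + 7)
    have p57 := mul_pos p5 p7
    have g2 := hprod j
    have : (b 2 * b 3 + b 1 * b 2 * u 0) * (u (5 * j + 5) * u (5 * j + 7)) ≤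
        (B 0 + B 1 * u (5 * j + 1) + B 4 * u (5 * j + 4)) *
      (B 0 + B 1 * u (5 * j + 3) + B 4 * u (5 * j + 6)) * (u (5 * j + 5) * u (5 * j + 7)) := by
      have t1 : 0 ≤ b 1 * b 4 * (u (5 * j + 5) * u (5 * j + 7)) := by positivity
      have t3 : 0 ≤ b 3 * b 4 * u (5 * j + 7) ^ 2 := by positivity
      have t4 : u 0 * u (5 * j + 7) ≤ u (5 * j + 5) * 1 :=
        mul_le_mul (hz5 j) (hw7 j) p7.le p5.le
      have t5 : b 1 * b 2 * u (5 * j + 5) * (u 0 * u (5 * j + 7)) ≤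
          b 1 * b 2 * u (5 * j + 5) * (u (5 * j + 5) * 1) :=
        mul_le_mul_of_nonneg_left t4 (by positivity)
      linarith
    exact le_of_mul_le_mul_right this p57
  · have b4 := hb.1 4 h4
    -- lower bound for the second argument
    have hw : ∀ j, u 0 * (B 1 * (b 4 * u 0 / (B 1 + B 4))) / b 2 ≤ u (5 * j + 2) := by
      intro j
      have f0 := e0 j
      have f1 := e1 j
      have p1 := hu (5 * j + 1)
      have p2 := hu (5 * j + 2)
      have p4 := hu (5 * j + 4)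
      have p5 := hu (5 * j + 5)
      have pp := hu (5 * j)
      have t1 : b 4 * u 0 / (B 1 + B 4) ≤ u (5 * j + 1) := by
        rw [div_le_iff₀ (by positivity)]
        have s1 : b 4 * u 0 ≤ b 4 * u (5 * j + 5) := mul_le_mul_of_nonneg_left (hz5 j) b4.le
        have s2 : B 1 * u (5 * j + 2) + B 4 * u (5 * j + 5) ≤ B 1 + B 4 := by
          have := mul_le_mul_of_nonneg_left (hw2 j) B1.le
          have := mul_le_mul_of_nonneg_left (hz51 j) B4.le
          linarith
        have s3 := mul_le_mul_of_nonneg_left s2 p1.le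
        have s4 : 0 ≤ b 1 * u (5 * j + 2) := by positivity
        linarith
      rw [div_le_iff₀ b2]
      have t2 : u 0 * (B 1 * (b 4 * u 0 / (B 1 + B 4))) ≤ u (5 * j) * (B 1 * u (5 * j + 1)) :=
        mul_le_mul (hz0 j) (mul_le_mul_of_nonneg_left t1 B1.le) (by positivity) pp.le
      have t3 : 0 ≤ B 0 * u (5 * j) := by positivity
      have t4 : 0 < B 4 * (u (5 * j) * u (5 * j + 4)) := by positivity
      linarith
    set κ := u 0 * (B 1 * (b 4 * u 0 / (B 1 + B 4))) / b 2 with hκ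
    have hκ0 : 0 < κ := by rw [hκ]; positivity
    have hw7' : ∀ j, κ ≤ u (5 * j + 7) := by
      intro j
      have := hw (j + 1)
      rwa [h50, Nat.add_assoc] at this
    refine no_growth' (c := b 2 * b 3) (g := b 3 * b 4 * κ) (mul_pos b2 b3) (by positivity)
      (z := fun j => u (5 * j)) (fun j => hu _) (fun j => h.le_one _ (hv0 j)) ?_
    intro j
    simp only [h50]
    rw [← hstep j]
    apply mul_le_mul_of_nonneg_left _ (hu _).le
    have p5 := hu (5 * j + 5)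
    have p7 := hu (5 * j + 7)
    have p57 := mul_pos p5 p7
    have g2 := hprod j
    have : (b 2 * b 3 + b 3 * b 4 * κ) * (u (5 * j + 5) * u (5 * j + 7)) ≤
        (B 0 + B 1 * u (5 * j + 1) + B 4 * u (5 * j + 4)) *
      (B 0 + B 1 * u (5 * j + 3) + B 4 * u (5 * j + 6)) * (u (5 * j + 5) * u (5 * j + 7)) := by
      have t1 : 0 ≤ b 1 * b 4 * (u (5 * j + 5) * u (5 * j + 7)) := by positivity
      have t3 : 0 ≤ b 1 * b 2 * u (5 * j + 5) ^ 2 := by positivity
      have t4 : κ * u (5 * j + 5) ≤ u (5 * j + 7) * 1 :=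
        mul_le_mul (hw7' j) (hz51 j) p5.le p7.le
      have t5 : b 3 * b 4 * u (5 * j + 7) * (κ * u (5 * j + 5)) ≤
          b 3 * b 4 * u (5 * j + 7) * (u (5 * j + 7) * 1) :=
        mul_le_mul_of_nonneg_left t4 (by positivity)
      linarith
    exact le_of_mul_le_mul_right this p57

/-- Pattern (1,-1,1,0,0). -/
theorem fam_F8 {b B : Fin 5 → ℝ} {S T : Finset (Fin 5)} (hb : SupportedOn b S)
    (hB : SupportedOn B T) (hS : ∀ k ∈ S, k = 0 ∨ k = 2 ∨ k = 3)
    (hT : ∀ k ∈ T, k = 0 ∨ k = 1 ∨ k = 4)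
    (hS2 : 2 ∈ S) (hS3 : 3 ∈ S) (hT0 : 0 ∈ T) (hT1 : 1 ∈ T) (hT4 : 4 ∈ T)
    {v : ℕ → ℤ} (hv0 : ∀ j, v (5 * j) = 1) (hv1 : ∀ j, v (5 * j + 1) = -1)
    (hv2 : ∀ j, v (5 * j + 2) = 1) (hv3 : ∀ j, v (5 * j + 3) = 0)
    (hv4 : ∀ j, v (5 * j + 4) = 0) {u : ℕ → ℝ}
    (h : LimSol 1 v b B S T u) : False := by
  have hv5 : ∀ j, v (5 * j + 5) = 1 := fun j => hv0 (j + 1)
  have hv6 : ∀ j, v (5 * j + 6) = -1 := fun j => hv1 (j + 1)
  have hv7 : ∀ j, v (5 * j + 7) = 1 := fun j => hv2 (j + 1)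
  have hv8 : ∀ j, v (5 * j + 8) = 0 := fun j => hv3 (j + 1)
  have B2 : B 2 = 0 := hB.2 2 (fun hk => by have := hT 2 hk; simp at this)
  have B3 : B 3 = 0 := hB.2 3 (fun hk => by have := hT 3 hk; simp at this)
  have b1 : b 1 = 0 := hb.2 1 (fun hk => by have := hS 1 hk; simp at this)
  have b4 : b 4 = 0 := hb.2 4 (fun hk => by have := hS 4 hk; simp at this)
  have b2 := hb.1 2 hS2
  have b3 := hb.1 3 hS3
  have B0 := hB.1 0 hT0
  have B1 := hB.1 1 hT1
  have B4 := hB.1 4 hT4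
  have e0 : ∀ j, _ := fun j => h.eq (5 * j) 1
    (by intro k hk; have := hT k hk; fin_cases k <;> simp_all [vv])
    (by intro k hk; have := hS k hk; fin_cases k <;> simp_all [vv])
  have e2 : ∀ j, _ := fun j => h.eq (5 * j + 2) 1
    (by intro k hk; have := hT k hk; fin_cases k <;> simp_all [vv, Nat.add_assoc])
    (by intro k hk; have := hS k hk; fin_cases k <;> simp_all [vv, Nat.add_assoc])
  have e3 : ∀ j, _ := fun j => h.eq (5 * j + 3) 1
    (by intro k hk; have := hT k hk; fin_cases k <;> simp_all [vv, Nat.add_assoc])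
    (by intro k hk; have := hS k hk; fin_cases k <;> simp_all [vv, Nat.add_assoc])
  have e4 : ∀ j, _ := fun j => h.eq (5 * j + 4) 1
    (by intro k hk; have := hT k hk; fin_cases k <;> simp_all [vv, Nat.add_assoc])
    (by intro k hk; have := hS k hk; fin_cases k <;> simp_all [vv, Nat.add_assoc])
  simp [Fin.sum_univ_succ, vv, uu, Nat.add_assoc, hv0, hv1, hv2, hv3, hv4, hv5, hv6, hv7, hv8,
    b1, b4, B2, B3] at e0 e2 e3 e4
  have hu := h.pos
  refine no_growth' (c := b 2 * b 3) (g := B 0 * B 0) (mul_pos b2 b3) (mul_pos B0 B0)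
      (z := fun j => u (5 * j)) (fun j => hu _) (fun j => h.le_one _ (hv0 j)) ?_
  intro j
  have h5 : 5 * (j + 1) = 5 * j + 5 := by ring
  simp only [h5]
  have f0 := e0 j
  have f2 := e2 j
  have f3 := e3 j
  have f4 := e4 j
  have p0 := hu (5 * j)
  have p3 := hu (5 * j + 3)
  have p4 := hu (5 * j + 4)
  have p5 := hu (5 * j + 5)
  have p7 := hu (5 * j + 7)
  have p57 := mul_pos p5 p7
  have g1 := prod_step (z := u (5 * j)) (w := u (5 * j + 2)) (z' := u (5 * j + 5))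
    (P := B 0 + B 4 * u (5 * j + 4))
    (Q := B 0 + B 1 * u (5 * j + 3)) (a := b 2) (c := b 3)
    (by linarith) (by linarith)
  rw [← g1]
  apply mul_le_mul_of_nonneg_left _ p0.le
  have h1 : (B 1 * u (5 * j + 4)) * (B 4 * u (5 * j + 3)) = b 2 * b 3 := by
    have g3 : B 4 * u (5 * j + 3) * u (5 * j + 7) = b 2 * u (5 * j + 5) := by linarith
    have g4 : B 1 * u (5 * j + 4) * u (5 * j + 5) = b 3 * u (5 * j + 7) := by linarith
    have : ((B 1 * u (5 * j + 4)) * (B 4 * u (5 * j + 3)) - b 2 * b 3) *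
        (u (5 * j + 5) * u (5 * j + 7)) = 0 := by
      have : (B 1 * u (5 * j + 4) * u (5 * j + 5)) * (B 4 * u (5 * j + 3) * u (5 * j + 7)) =
        (b 3 * u (5 * j + 7)) * (b 2 * u (5 * j + 5)) := by rw [g3, g4]
      linear_combination this
    rcases mul_eq_zero.mp this with h | h
    · linarith
    · exact absurd h p57.ne'
  have t1 : 0 < B 0 * (B 1 * u (5 * j + 3)) := by positivity
  have t2 : 0 < B 0 * (B 4 * u (5 * j + 4)) := by positivity
  nlinarith

/-- Pattern (1,1,0,-1,0). -/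
theorem fam_F9 {b B : Fin 5 → ℝ} {S T : Finset (Fin 5)} (hb : SupportedOn b S)
    (hB : SupportedOn B T) (hS : ∀ k ∈ S, k = 0 ∨ k = 1 ∨ k = 4)
    (hT : ∀ k ∈ T, k = 0 ∨ k = 2 ∨ k = 3)
    (hS1 : 1 ∈ S) (hS4 : 4 ∈ S) (hT0 : 0 ∈ T) (hT2 : 2 ∈ T) (hT3 : 3 ∈ T)
    {v : ℕ → ℤ} (hv0 : ∀ j, v (5 * j) = 1) (hv1 : ∀ j, v (5 * j + 1) = 1)
    (hv2 : ∀ j, v (5 * j + 2) = 0) (hv3 : ∀ j, v (5 * j + 3) = -1)
    (hv4 : ∀ j, v (5 * j + 4) = 0) {u : ℕ → ℝ}
    (h : LimSol 1 v b B S T u) : False := by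
  have hv5 : ∀ j, v (5 * j + 5) = 1 := fun j => hv0 (j + 1)
  have hv6 : ∀ j, v (5 * j + 6) = 1 := fun j => hv1 (j + 1)
  have hv7 : ∀ j, v (5 * j + 7) = 0 := fun j => hv2 (j + 1)
  have hv8 : ∀ j, v (5 * j + 8) = -1 := fun j => hv3 (j + 1)
  have b2 : b 2 = 0 := hb.2 2 (fun hk => by have := hS 2 hk; simp at this)
  have b3 : b 3 = 0 := hb.2 3 (fun hk => by have := hS 3 hk; simp at this)
  have B1 : B 1 = 0 := hB.2 1 (fun hk => by have := hT 1 hk; simp at this)
  have B4 : B 4 = 0 := hB.2 4 (fun hk => by have := hT 4 hk; simp at this)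
  have b1 := hb.1 1 hS1
  have b4 := hb.1 4 hS4
  have B0 := hB.1 0 hT0
  have B2 := hB.1 2 hT2
  have B3 := hB.1 3 hT3
  have e0 : ∀ j, _ := fun j => h.eq (5 * j) 1
    (by intro k hk; have := hT k hk; fin_cases k <;> simp_all [vv])
    (by intro k hk; have := hS k hk; fin_cases k <;> simp_all [vv])
  have e1 : ∀ j, _ := fun j => h.eq (5 * j + 1) 1
    (by intro k hk; have := hT k hk; fin_cases k <;> simp_all [vv, Nat.add_assoc])
    (by intro k hk; have := hS k hk; fin_cases k <;> simp_all [vv, Nat.add_assoc])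
  have e2 : ∀ j, _ := fun j => h.eq (5 * j + 2) 1
    (by intro k hk; have := hT k hk; fin_cases k <;> simp_all [vv, Nat.add_assoc])
    (by intro k hk; have := hS k hk; fin_cases k <;> simp_all [vv, Nat.add_assoc])
  have e4 : ∀ j, _ := fun j => h.eq (5 * j + 4) 1
    (by intro k hk; have := hT k hk; fin_cases k <;> simp_all [vv, Nat.add_assoc])
    (by intro k hk; have := hS k hk; fin_cases k <;> simp_all [vv, Nat.add_assoc])
  simp [Fin.sum_univ_succ, vv, uu, Nat.add_assoc, hv0, hv1, hv2, hv3, hv4, hv5, hv6, hv7, hv8,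
    b2, b3, B1, B4] at e0 e1 e2 e4
  have hu := h.pos
  refine no_growth' (c := b 1 * b 4) (g := B 0 * B 0) (mul_pos b1 b4) (mul_pos B0 B0)
      (z := fun j => u (5 * j)) (fun j => hu _) (fun j => h.le_one _ (hv0 j)) ?_
  intro j
  have h5 : 5 * (j + 1) = 5 * j + 5 := by ring
  simp only [h5]
  have f0 := e0 j
  have f1 := e1 j
  have f2 := e2 j
  have f4 := e4 j
  have p0 := hu (5 * j)
  have p2 := hu (5 * j + 2)
  have p4 := hu (5 * j + 4)
  have p5 := hu (5 * j + 5)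
  have p6 := hu (5 * j + 6)
  have p56 := mul_pos p5 p6
  have g1 := prod_step (z := u (5 * j)) (w := u (5 * j + 1)) (z' := u (5 * j + 5))
    (P := B 0 + B 2 * u (5 * j + 2))
    (Q := B 0 + B 3 * u (5 * j + 4)) (a := b 1) (c := b 4)
    (by linarith) (by linarith)
  rw [← g1]
  apply mul_le_mul_of_nonneg_left _ p0.le
  have h1 : (B 2 * u (5 * j + 2)) * (B 3 * u (5 * j + 4)) = b 1 * b 4 := by
    have g3 : B 3 * u (5 * j + 2) * u (5 * j + 5) = b 4 * u (5 * j + 6) := by linarith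
    have g4 : B 2 * u (5 * j + 4) * u (5 * j + 6) = b 1 * u (5 * j + 5) := by linarith
    have : ((B 2 * u (5 * j + 2)) * (B 3 * u (5 * j + 4)) - b 1 * b 4) *
        (u (5 * j + 5) * u (5 * j + 6)) = 0 := by
      have : (B 3 * u (5 * j + 2) * u (5 * j + 5)) * (B 2 * u (5 * j + 4) * u (5 * j + 6)) =
        (b 4 * u (5 * j + 6)) * (b 1 * u (5 * j + 5)) := by rw [g3, g4]
      linear_combination this
    rcases mul_eq_zero.mp this with h | h
    · linarith
    · exact absurd h p56.ne'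
  have t1 : 0 < B 0 * (B 2 * u (5 * j + 2)) := by positivity
  have t2 : 0 < B 0 * (B 3 * u (5 * j + 4)) := by positivity
  nlinarith

/-- The pattern (2,-1,1,-1,-1,-1,-2,1,-2), `S = {0,2}`, `T = {1,3,4}`. -/
theorem fam_F10 {b B : Fin 5 → ℝ} {S T : Finset (Fin 5)} (hb : SupportedOn b S)
    (hB : SupportedOn B T) (hS : ∀ k ∈ S, k = 0 ∨ k = 2)
    (hT : ∀ k ∈ T, k = 1 ∨ k = 3 ∨ k = 4)
    (hS0 : 0 ∈ S) (hS2 : 2 ∈ S) (hT1 : 1 ∈ T) (hT3 : 3 ∈ T) (hT4 : 4 ∈ T)
    {v : ℕ → ℤ} (hv0 : ∀ j, v (9 * j) = 2) (hv1 : ∀ j, v (9 * j + 1) = -1)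
    (hv2 : ∀ j, v (9 * j + 2) = 1) (hv3 : ∀ j, v (9 * j + 3) = -1)
    (hv4 : ∀ j, v (9 * j + 4) = -1) (hv5 : ∀ j, v (9 * j + 5) = -1)
    (hv6 : ∀ j, v (9 * j + 6) = -2) (hv7 : ∀ j, v (9 * j + 7) = 1)
    (hv8 : ∀ j, v (9 * j + 8) = -2) {u : ℕ → ℝ}
    (h : LimSol 2 v b B S T u) : False := by
  have hv9 : ∀ j, v (9 * j + 9) = 2 := fun j => hv0 (j + 1)
  have b1 : b 1 = 0 := hb.2 1 (fun hk => by have := hS 1 hk; simp at this)
  have b3 : b 3 = 0 := hb.2 3 (fun hk => by have := hS 3 hk; simp at this)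
  have b4 : b 4 = 0 := hb.2 4 (fun hk => by have := hS 4 hk; simp at this)
  have B0 : B 0 = 0 := hB.2 0 (fun hk => by have := hT 0 hk; simp at this)
  have B2 : B 2 = 0 := hB.2 2 (fun hk => by have := hT 2 hk; simp at this)
  have b0 := hb.1 0 hS0
  have b2 := hb.1 2 hS2
  have B1 := hB.1 1 hT1
  have B3 := hB.1 3 hT3
  have B4 := hB.1 4 hT4
  have e0 : ∀ j, _ := fun j => h.eq (9 * j) 1
    (by intro k hk; have := hT k hk; fin_cases k <;> simp_all [vv])
    (by intro k hk; have := hS k hk; fin_cases k <;> simp_all [vv])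
  have e2 : ∀ j, _ := fun j => h.eq (9 * j + 2) 0
    (by intro k hk; have := hT k hk; fin_cases k <;> simp_all [vv, Nat.add_assoc])
    (by intro k hk; have := hS k hk; fin_cases k <;> simp_all [vv, Nat.add_assoc])
  have e3 : ∀ j, _ := fun j => h.eq (9 * j + 3) 0
    (by intro k hk; have := hT k hk; fin_cases k <;> simp_all [vv, Nat.add_assoc])
    (by intro k hk; have := hS k hk; fin_cases k <;> simp_all [vv, Nat.add_assoc])
  have e4 : ∀ j, _ := fun j => h.eq (9 * j + 4) 0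
    (by intro k hk; have := hT k hk; fin_cases k <;> simp_all [vv, Nat.add_assoc])
    (by intro k hk; have := hS k hk; fin_cases k <;> simp_all [vv, Nat.add_assoc])
  have e5 : ∀ j, _ := fun j => h.eq (9 * j + 5) 1
    (by intro k hk; have := hT k hk; fin_cases k <;> simp_all [vv, Nat.add_assoc])
    (by intro k hk; have := hS k hk; fin_cases k <;> simp_all [vv, Nat.add_assoc])
  simp [Fin.sum_univ_succ, vv, uu, Nat.add_assoc, hv0, hv1, hv2, hv3, hv4, hv5, hv6, hv7, hv8,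
    hv9, b1, b3, b4, B0, B2] at e0 e2 e3 e4 e5
  have hu := h.pos
  have hB4 : 0 < B 4 ^ 2 := by positivity
  have hB3 : 0 < B 3 ^ 2 := by positivity
  refine no_growth' (c := B 4 ^ 2) (g := B 3 ^ 2) hB4 hB3
      (z := fun j => u (9 * j)) (fun j => hu _) (fun j => h.le_one _ (hv0 j)) ?_
  intro j
  have h9 : 9 * (j + 1) = 9 * j + 9 := by ring
  simp only [h9]
  have f0 := e0 j
  have f2 := e2 j
  have f3 := e3 j
  have f4 := e4 j
  have f5 := e5 j
  have p0 := hu (9 * j)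
  have p1 := hu (9 * j + 1)
  have p2 := hu (9 * j + 2)
  have p3 := hu (9 * j + 3)
  have p4 := hu (9 * j + 4)
  have p5 := hu (9 * j + 5)
  have p7 := hu (9 * j + 7)
  have p9 := hu (9 * j + 9)
  set u0 := u (9 * j)
  set u1 := u (9 * j + 1)
  set u2 := u (9 * j + 2)
  set u3 := u (9 * j + 3)
  set u4 := u (9 * j + 4)
  set u5 := u (9 * j + 5)
  set u7 := u (9 * j + 7)
  set u9 := u (9 * j + 9)
  -- u4 = (B4 / B3) u3
  have g1 : B 3 * u4 = B 4 * u3 := by
    have : (B 3 * u4 - B 4 * u3) * u7 = 0 := by linarith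
    rcases mul_eq_zero.mp this with h | h
    · linarith
    · exact absurd h p7.ne'
  -- u3 u5 B4^2 u9 = b0 b2
  have g2 : B 4 ^ 2 * (u3 * u5 * u9) = b 0 * b 2 := by
    have : (B 4 ^ 2 * (u3 * u5 * u9) - b 0 * b 2) * u7 = 0 := by
      have : (B 4 * (u3 * u7)) * (B 4 * (u5 * u9)) = b 0 * (b 2 * u7) := by
        rw [f3, f5]
      linear_combination this
    rcases mul_eq_zero.mp this with h | h
    · linarith
    · exact absurd h p7.ne'
  -- the product
  have g3 : u0 * ((B 1 * u1 + B 3 * u3 + B 4 * u4) * (B 1 * u3 + B 3 * u5)) = b 2 * b 0 := by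
    have t1 : u0 * (B 1 * u1 + B 3 * u3 + B 4 * u4) = b 2 * u2 := by linarith
    have t2 : u2 * (B 1 * u3 + B 3 * u5) = b 0 * 1 := by linarith
    have := prod_step t1 t2
    linarith
  have g4 : (B 3 * u3 + B 4 * u4) * (B 3 * u5) ≤
      (B 1 * u1 + B 3 * u3 + B 4 * u4) * (B 1 * u3 + B 3 * u5) := by
    apply mul_le_mul
    · have : 0 < B 1 * u1 := by positivity
      linarith
    · have : 0 < B 1 * u3 := by positivity
      linarith
    · positivity
    · positivity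
  have g5 : (B 3 * u3 + B 4 * u4) * (B 3 * u5) = (B 3 ^ 2 + B 4 ^ 2) * (u3 * u5) := by
    linear_combination B 4 * u5 * g1
  rw [g5] at g4
  have g6 := mul_le_mul_of_nonneg_left g4 p0.le
  rw [g3] at g6
  -- u0 (B3^2 + B4^2) u3 u5 ≤ b0 b2 = B4^2 u3 u5 u9
  have g7 : (u0 * (B 4 ^ 2 + B 3 ^ 2)) * (u3 * u5) ≤ (B 4 ^ 2 * u9) * (u3 * u5) := by
    have : (B 4 ^ 2 * u9) * (u3 * u5) = b 2 * b 0 := by linarith
    rw [this]
    linarith
  exact le_of_mul_le_mul_right g7 (mul_pos p3 p5)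

end Pool.Agent.RatRec
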