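import Pool.Agent.Lib_helper86.RatW.FamA

/-!
The pattern (1,0,0) in general: reduction to a system of three equations.
-/

set_option autoImplicit false

namespace Pool.Agent.RatRec

/-- The system of three sequences has no bounded positive solution. -/
def G3Stmt : Prop := ∀ A al b1 b3 b4 B1 B4 : ℝ, 0 ≤ A → 0 ≤ al → 0 ≤ b1 → 0 ≤ b4 → 0 ≤ B1 →
  0 < b3 → 0 < B4 → (0 < b1 ∧ (0 < B1 ∨ 0 < A ∨ 0 < b4) ∨ 0 < b4 ∧ 0 < B1) →
  ∀ z y r : ℕ → ℝ, (∀ j, 0 < z j) → (∀ j, 0 < y j) → (∀ j, 0 < r j) →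
  (∀ j, z j * (A + B1 * y j + B4 * y (j + 1)) = b3 * z (j + 1)) →
  (∀ j, y j * (A + B1 * r j + B4 * r (j + 1)) =
    al + b1 * r j + b4 * r (j + 1) + b3 * y (j + 1)) →
  (∀ j, r j * (B1 * z (j + 1) + B4 * z (j + 2)) = b1 * z (j + 1) + b4 * z (j + 2)) →
  ¬ BddAbove (Set.range z)

/-- Pattern (1,0,0), `3 ∈ S`, `2 ∉ S`, `4 ∈ T ⊆ {0,1,4}`. -/
theorem fam_G3 (hG : G3Stmt) {b B : Fin 5 → ℝ} {S T : Finset (Fin 5)} (hb : SupportedOn b S)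
    (hB : SupportedOn B T) (hS : ∀ k ∈ S, k ≠ 2) (hT : ∀ k ∈ T, k = 0 ∨ k = 1 ∨ k = 4)
    (hS3 : 3 ∈ S) (hT4 : 4 ∈ T)
    (hor : (1 ∈ S ∧ (1 ∈ T ∨ 0 ∈ T ∨ 4 ∈ S)) ∨ (4 ∈ S ∧ 1 ∈ T))
    {v : ℕ → ℤ} (hv0 : ∀ j, v (3 * j) = 1) (hv1 : ∀ j, v (3 * j + 1) = 0)
    (hv2 : ∀ j, v (3 * j + 2) = 0) {u : ℕ → ℝ} (h : LimSol 1 v b B S T u) : False := by
  have hv3 : ∀ j, v (3 * j + 3) = 1 := fun j => hv0 (j + 1)
  have hv4 : ∀ j, v (3 * j + 4) = 0 := fun j => hv1 (j + 1)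
  have hv5 : ∀ j, v (3 * j + 5) = 0 := fun j => hv2 (j + 1)
  have hv6 : ∀ j, v (3 * j + 6) = 1 := fun j => hv0 (j + 2)
  have b2 : b 2 = 0 := hb.2 2 (fun hk => (hS 2 hk) rfl)
  have B2 : B 2 = 0 := hB.2 2 (fun hk => by have := hT 2 hk; simp at this)
  have B3 : B 3 = 0 := hB.2 3 (fun hk => by have := hT 3 hk; simp at this)
  have b3 := hb.1 3 hS3
  have B4 := hB.1 4 hT4
  have e0 : ∀ j, _ := fun j => h.eq (3 * j) 1
    (by intro k hk; have := hT k hk; fin_cases k <;> simp_all [vv])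
    (by intro k hk; have := hS k hk; fin_cases k <;> simp_all [vv])
  have e1 : ∀ j, _ := fun j => h.eq (3 * j + 1) 0
    (by intro k hk; have := hT k hk; fin_cases k <;> simp_all [vv, Nat.add_assoc])
    (by intro k hk; have := hS k hk; fin_cases k <;> simp_all [vv, Nat.add_assoc])
  have e2 : ∀ j, _ := fun j => h.eq (3 * j + 2) 1
    (by intro k hk; have := hT k hk; fin_cases k <;> simp_all [vv, Nat.add_assoc])
    (by intro k hk; have := hS k hk; fin_cases k <;> simp_all [vv, Nat.add_assoc])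
  simp [Fin.sum_univ_succ, vv, uu, Nat.add_assoc, hv0, hv1, hv2, hv3, hv4, hv5, hv6, b2,
    B2, B3] at e0 e1 e2
  have hu := h.pos
  have h3 : ∀ j, 3 * (j + 1) = 3 * j + 3 := fun j => by ring
  have h6 : ∀ j, 3 * (j + 2) = 3 * j + 6 := fun j => by ring
  refine hG (B 0) (b 0) (b 1) (b 3) (b 4) (B 1) (B 4) (hB.nonneg 0) (hb.nonneg 0) (hb.nonneg 1)
    (hb.nonneg 4) (hB.nonneg 1) b3 B4 ?_ (fun j => u (3 * j)) (fun j => u (3 * j + 1))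
    (fun j => u (3 * j + 2)) (fun j => hu _) (fun j => hu _) (fun j => hu _) ?_ ?_ ?_ ?_
  · rcases hor with ⟨h1, h2 | h2 | h2⟩ | ⟨h1, h2⟩
    · exact Or.inl ⟨hb.1 1 h1, Or.inl (hB.1 1 h2)⟩
    · exact Or.inl ⟨hb.1 1 h1, Or.inr (Or.inl (hB.1 0 h2))⟩
    · exact Or.inl ⟨hb.1 1 h1, Or.inr (Or.inr (hb.1 4 h2))⟩
    · exact Or.inr ⟨hb.1 4 h1, hB.1 1 h2⟩
  · intro j
    have e := e0 j
    simp only [h3, Nat.add_assoc]
    norm_num
    linarith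
  · intro j
    have e := e1 j
    simp only [h3, Nat.add_assoc]
    norm_num
    linarith
  · intro j
    have e := e2 j
    simp only [h3, h6]
    linarith
  · refine ⟨1, ?_⟩
    rintro _ ⟨j, rfl⟩
    exact h.le_one _ (hv0 j)

end Pool.Agent.RatRec
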