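import Pool.Agent.Lib_helper86.RatW.Data
import Pool.Agent.Lib_helper61.Rat.Interval
import Pool.Agent.Lib_helper86.RatW.PinCases
import Pool.Agent.Lib_helper86.RatW.G3
import Pool.Agent.Lib_helper53.Rat.Lyness
import Pool.Agent.Lib_helper42.Rat.Cases26
import Pool.Agent.Lib_helper42.Rat.C2818
import Pool.Agent.Lib_helper42.Rat.Case20
import Pool.Agent.Lib_helper9.Rat.C320
import Pool.Agent.Lib_helper9.Rat.C518
import Pool.Agent.Lib_helper55.Rat.C524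
import Pool.Agent.Lib_helper86.RatW.Item4b

/-!
Counting the cases with bounded solutions only.
-/

set_option autoImplicit false

namespace Pool.Agent.RatRec

theorem fs_inj {a b : ℕ} (ha : a < 32) (hb : b < 32) (h : fs a = fs b) : a = b := by
  apply Nat.eq_of_testBit_eq
  intro i
  by_cases hi : i < 5
  · have h1 : (⟨i, hi⟩ : Fin 5) ∈ fs a ↔ (⟨i, hi⟩ : Fin 5) ∈ fs b := by rw [h]
    simp only [fs, Finset.mem_filter, Finset.mem_univ, true_and] at h1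
    exact Bool.eq_iff_iff.mpr h1
  · have hp : 32 ≤ 2 ^ i := by
      have : 2 ^ 5 ≤ 2 ^ i := Nat.pow_le_pow_right (by norm_num) (by omega)
      omega
    rw [Nat.testBit_lt_two_pow (lt_of_lt_of_le ha hp),
      Nat.testBit_lt_two_pow (lt_of_lt_of_le hb hp)]

theorem fs_nonempty {a : ℕ} (ha : a < 32) (h0 : 0 < a) : (fs a).Nonempty := by
  rw [Finset.nonempty_iff_ne_empty]
  intro h
  have : fs a = fs 0 := by
    rw [h]
    decide
  have := fs_inj ha (by norm_num) this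
  omega

/-- The list has no repetitions, and the masks are between 1 and 31. -/
def countB : List (ℕ × ℕ) → ℕ → Bool
  | [], _ => true
  | p :: l, acc => Nat.blt p.1 32 && Nat.blt p.2 32 && Nat.blt 0 p.1 && Nat.blt 0 p.2 &&
      !(acc.testBit (32 * p.1 + p.2)) && countB l (acc ||| 2 ^ (32 * p.1 + p.2))

theorem countB_sound {l : List (ℕ × ℕ)} {acc : ℕ} (h : countB l acc = true) :
    l.Nodup ∧ ∀ p ∈ l, p.1 < 32 ∧ p.2 < 32 ∧ 0 < p.1 ∧ 0 < p.2 ∧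
      acc.testBit (32 * p.1 + p.2) = false := by
  induction l generalizing acc with
  | nil => simp
  | cons a l ih =>
    simp only [countB, Bool.and_eq_true, Nat.blt_eq, Bool.not_eq_true'] at h
    obtain ⟨⟨⟨⟨⟨h1, h2⟩, h3⟩, h4⟩, h5⟩, h6⟩ := h
    obtain ⟨g1, g2⟩ := ih h6
    refine ⟨List.nodup_cons.mpr ⟨?_, g1⟩, ?_⟩
    · intro ha
      have := (g2 a ha).2.2.2.2
      simp [Nat.testBit_or] at this
    · intro p hp
      rcases List.mem_cons.mp hp with rfl | hp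
      · exact ⟨h1, h2, h3, h4, h5⟩
      · obtain ⟨k1, k2, k3, k4, k5⟩ := g2 p hp
        rw [Nat.testBit_or, Bool.or_eq_false_iff] at k5
        exact ⟨k1, k2, k3, k4, k5.1⟩

/-- The number of special cases with bounded solutions only. -/
noncomputable def numBounded : ℕ :=
  Nat.card {p : Finset (Fin 5) × Finset (Fin 5) //
    p.1.Nonempty ∧ p.2.Nonempty ∧ BoundedOnly p.1 p.2}

theorem length_le_numBounded {l : List (ℕ × ℕ)} (h : countB l 0 = true)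
    (hl : ∀ p ∈ l, BoundedOnly (fs p.1) (fs p.2)) : l.length ≤ numBounded := by
  classical
  obtain ⟨h1, h2⟩ := countB_sound h
  have e1 : numBounded = (Finset.univ.filter (fun p : Finset (Fin 5) × Finset (Fin 5) =>
      p.1.Nonempty ∧ p.2.Nonempty ∧ BoundedOnly p.1 p.2)).card := by
    unfold numBounded
    rw [Nat.card_eq_fintype_card, Fintype.card_subtype]
  rw [e1]
  have e2 : (l.toFinset.image (fun p => (fs p.1, fs p.2))).card = l.length := by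
    rw [Finset.card_image_of_injOn, List.toFinset_card_of_nodup h1]
    intro p hp q hq hpq
    simp only [List.coe_toFinset, Set.mem_ofPred_eq] at hp hq
    simp only [Prod.mk.injEq] at hpq
    obtain ⟨a1, a2, _⟩ := h2 p hp
    obtain ⟨b1, b2, _⟩ := h2 q hq
    exact Prod.ext (fs_inj a1 b1 hpq.1) (fs_inj a2 b2 hpq.2)
  rw [← e2]
  apply Finset.card_le_card
  intro q hq
  simp only [Finset.mem_image, List.mem_toFinset] at hq
  obtain ⟨p, hp, rfl⟩ := hq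
  obtain ⟨a1, a2, a3, a4, _⟩ := h2 p hp
  simp only [Finset.mem_filter, Finset.mem_univ, true_and]
  exact ⟨fs_nonempty a1 a3, fs_nonempty a2 a4, hl p hp⟩

/-- The tropical cases. -/
def tropPairs : List (ℕ × ℕ) :=
  (certs0 ++ certs1 ++ certs2 ++ certs3 ++ certs4 ++ certs5 ++ certs6 ++ certs7 ++ certs8).map
    (fun c => (c.S, c.T))

theorem tropPairs_ok : ∀ p ∈ tropPairs, BoundedOnly (fs p.1) (fs p.2) := by
  intro p hp
  simp only [tropPairs, List.mem_map, List.mem_append] at hp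
  obtain ⟨e, he, rfl⟩ := hp
  rcases he with (((((((he | he) | he) | he) | he) | he) | he) | he) | he
  · exact of_AllB certs0_ok e he
  · exact of_AllB certs1_ok e he
  · exact of_AllB certs2_ok e he
  · exact of_AllB certs3_ok e he
  · exact of_AllB certs4_ok e he
  · exact of_AllB certs5_ok e he
  · exact of_AllB certs6_ok e he
  · exact of_AllB certs7_ok e he
  · exact of_AllB certs8_ok e he

/-- The cases with an invariant interval. -/
def intPairs : List (ℕ × ℕ) :=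
    [(1, 2), (1, 4), (1, 6), (1, 8), (1, 10), (1, 12), (1, 14), (1, 16), (1, 18), (1, 20), (1,
    22), (1, 24), (1, 26), (1, 28), (1, 30)]

theorem intPairs_ok : ∀ p ∈ intPairs, BoundedOnly (fs p.1) (fs p.2) := by
  have h : ∀ p ∈ intPairs, fs p.1 = {0} ∧ (fs p.2).Nonempty ∧ (0 : Fin 5) ∉ fs p.2 := by
    decide
  intro p hp
  obtain ⟨h1, h2, h3⟩ := h p hp
  exact boundedOnly_interval h1 h2 h3

/-- Cases with a pinned pattern. -/
def pinPairs : List (ℕ × ℕ) :=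
    [(5, 26), (9, 3), (9, 5), (9, 17), (9, 19), (10, 2), (10, 3), (10, 5), (11, 2), (11, 3),
    (11, 5), (12, 4), (12, 5), (12, 19), (13, 4), (13, 5), (13, 19), (14, 4), (14, 5), (14,
    18), (14, 19), (15, 4), (15, 5), (15, 18), (15, 19), (17, 7), (17, 13), (18, 13), (19,
    13), (22, 12), (22, 13), (23, 12), (23, 13), (24, 16), (24, 17), (25, 16), (25, 17), (26,
    12), (26, 13), (27, 12), (27, 13), (28, 19), (29, 18), (29, 19), (30, 12), (30, 13), (30,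
    18), (30, 19), (31, 12), (31, 13), (31, 18), (31, 19)]

theorem pinPairs_ok :
    ∀ p ∈ pinPairs, BoundedOnly (fs p.1) (fs p.2) :=
  List.forall_mem_cons.2 ⟨bdd_5_26,
  List.forall_mem_cons.2 ⟨bdd_9_3,
  List.forall_mem_cons.2 ⟨bdd_9_5,
  List.forall_mem_cons.2 ⟨bdd_9_17,
  List.forall_mem_cons.2 ⟨bdd_9_19,
  List.forall_mem_cons.2 ⟨bdd_10_2,
  List.forall_mem_cons.2 ⟨bdd_10_3,
  List.forall_mem_cons.2 ⟨bdd_10_5,
  List.forall_mem_cons.2 ⟨bdd_11_2,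
  List.forall_mem_cons.2 ⟨bdd_11_3,
  List.forall_mem_cons.2 ⟨bdd_11_5,
  List.forall_mem_cons.2 ⟨bdd_12_4,
  List.forall_mem_cons.2 ⟨bdd_12_5,
  List.forall_mem_cons.2 ⟨bdd_12_19,
  List.forall_mem_cons.2 ⟨bdd_13_4,
  List.forall_mem_cons.2 ⟨bdd_13_5,
  List.forall_mem_cons.2 ⟨bdd_13_19,
  List.forall_mem_cons.2 ⟨bdd_14_4,
  List.forall_mem_cons.2 ⟨bdd_14_5,
  List.forall_mem_cons.2 ⟨bdd_14_18,
  List.forall_mem_cons.2 ⟨bdd_14_19,
  List.forall_mem_cons.2 ⟨bdd_15_4,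
  List.forall_mem_cons.2 ⟨bdd_15_5,
  List.forall_mem_cons.2 ⟨bdd_15_18,
  List.forall_mem_cons.2 ⟨bdd_15_19,
  List.forall_mem_cons.2 ⟨bdd_17_7,
  List.forall_mem_cons.2 ⟨bdd_17_13,
  List.forall_mem_cons.2 ⟨bdd_18_13,
  List.forall_mem_cons.2 ⟨bdd_19_13,
  List.forall_mem_cons.2 ⟨bdd_22_12,
  List.forall_mem_cons.2 ⟨bdd_22_13,
  List.forall_mem_cons.2 ⟨bdd_23_12,
  List.forall_mem_cons.2 ⟨bdd_23_13,
  List.forall_mem_cons.2 ⟨bdd_24_16,
  List.forall_mem_cons.2 ⟨bdd_24_17,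
  List.forall_mem_cons.2 ⟨bdd_25_16,
  List.forall_mem_cons.2 ⟨bdd_25_17,
  List.forall_mem_cons.2 ⟨bdd_26_12,
  List.forall_mem_cons.2 ⟨bdd_26_13,
  List.forall_mem_cons.2 ⟨bdd_27_12,
  List.forall_mem_cons.2 ⟨bdd_27_13,
  List.forall_mem_cons.2 ⟨bdd_28_19,
  List.forall_mem_cons.2 ⟨bdd_29_18,
  List.forall_mem_cons.2 ⟨bdd_29_19,
  List.forall_mem_cons.2 ⟨bdd_30_12,
  List.forall_mem_cons.2 ⟨bdd_30_13,
  List.forall_mem_cons.2 ⟨bdd_30_18,
  List.forall_mem_cons.2 ⟨bdd_30_19,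
  List.forall_mem_cons.2 ⟨bdd_31_12,
  List.forall_mem_cons.2 ⟨bdd_31_13,
  List.forall_mem_cons.2 ⟨bdd_31_18,
  List.forall_mem_cons.2 ⟨bdd_31_19,
  List.forall_mem_nil _⟩⟩⟩⟩⟩⟩⟩⟩⟩⟩⟩⟩⟩⟩⟩⟩⟩⟩⟩⟩⟩⟩⟩⟩⟩⟩⟩⟩⟩⟩⟩⟩⟩⟩⟩⟩⟩⟩⟩⟩⟩⟩⟩⟩⟩⟩⟩⟩⟩⟩⟩⟩

/-- Cases of the pattern (1,0,0). -/
def g3Pairs : List (ℕ × ℕ) :=
    [(10, 17), (10, 18), (10, 19), (11, 17), (11, 18), (11, 19), (24, 18), (24, 19), (25, 18),
    (25, 19), (26, 16), (26, 17), (26, 18), (26, 19), (27, 16), (27, 17), (27, 18), (27, 19)]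

theorem g3Pairs_ok :
    ∀ p ∈ g3Pairs, BoundedOnly (fs p.1) (fs p.2) :=
  List.forall_mem_cons.2 ⟨bdd_10_17 g3Stmt,
  List.forall_mem_cons.2 ⟨bdd_10_18 g3Stmt,
  List.forall_mem_cons.2 ⟨bdd_10_19 g3Stmt,
  List.forall_mem_cons.2 ⟨bdd_11_17 g3Stmt,
  List.forall_mem_cons.2 ⟨bdd_11_18 g3Stmt,
  List.forall_mem_cons.2 ⟨bdd_11_19 g3Stmt,
  List.forall_mem_cons.2 ⟨bdd_24_18 g3Stmt,
  List.forall_mem_cons.2 ⟨bdd_24_19 g3Stmt,
  List.forall_mem_cons.2 ⟨bdd_25_18 g3Stmt,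
  List.forall_mem_cons.2 ⟨bdd_25_19 g3Stmt,
  List.forall_mem_cons.2 ⟨bdd_26_16 g3Stmt,
  List.forall_mem_cons.2 ⟨bdd_26_17 g3Stmt,
  List.forall_mem_cons.2 ⟨bdd_26_18 g3Stmt,
  List.forall_mem_cons.2 ⟨bdd_26_19 g3Stmt,
  List.forall_mem_cons.2 ⟨bdd_27_16 g3Stmt,
  List.forall_mem_cons.2 ⟨bdd_27_17 g3Stmt,
  List.forall_mem_cons.2 ⟨bdd_27_18 g3Stmt,
  List.forall_mem_cons.2 ⟨bdd_27_19 g3Stmt,
  List.forall_mem_nil _⟩⟩⟩⟩⟩⟩⟩⟩⟩⟩⟩⟩⟩⟩⟩⟩⟩⟩

/-- Cases proved separately. -/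
def donePairs : List (ℕ × ℕ) :=
    [(2, 4), (3, 4), (4, 16), (5, 16), (12, 26), (28, 26), (28, 18), (4, 18), (4, 24), (4,
    26), (20, 18), (20, 26), (3, 20), (5, 24), (5, 18)]

theorem donePairs_ok :
    ∀ p ∈ donePairs, BoundedOnly (fs p.1) (fs p.2) :=
  List.forall_mem_cons.2 ⟨bdd_2_4,
  List.forall_mem_cons.2 ⟨bdd_3_4,
  List.forall_mem_cons.2 ⟨bdd_4_16,
  List.forall_mem_cons.2 ⟨bdd_5_16,
  List.forall_mem_cons.2 ⟨bdd_12_26,
  List.forall_mem_cons.2 ⟨bdd_28_26,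
  List.forall_mem_cons.2 ⟨bdd_28_18,
  List.forall_mem_cons.2 ⟨bdd_4_18,
  List.forall_mem_cons.2 ⟨bdd_4_24,
  List.forall_mem_cons.2 ⟨bdd_4_26,
  List.forall_mem_cons.2 ⟨bdd_20_18,
  List.forall_mem_cons.2 ⟨bdd_20_26,
  List.forall_mem_cons.2 ⟨bdd_3_20,
  List.forall_mem_cons.2 ⟨bdd_5_24,
  List.forall_mem_cons.2 ⟨bdd_5_18,
  List.forall_mem_nil _⟩⟩⟩⟩⟩⟩⟩⟩⟩⟩⟩⟩⟩⟩⟩

/-- The cases with bounded solutions only. -/
def allPairs : List (ℕ × ℕ) :=
  tropPairs ++ intPairs ++ pinPairs ++ g3Pairs ++ donePairs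

theorem allPairs_ok : ∀ p ∈ allPairs, BoundedOnly (fs p.1) (fs p.2) := by
  intro p hp
  simp only [allPairs, List.mem_append] at hp
  rcases hp with (((hp | hp) | hp) | hp) | hp
  · exact tropPairs_ok p hp
  · exact intPairs_ok p hp
  · exact pinPairs_ok p hp
  · exact g3Pairs_ok p hp
  · exact donePairs_ok p hp

theorem countB_allPairs : countB allPairs 0 = true := by decide +kernel

theorem length_allPairs : allPairs.length = 544 := by decide +kernel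

theorem numBounded_ge : 544 ≤ numBounded := by
  have h := length_le_numBounded countB_allPairs allPairs_ok
  rwa [length_allPairs] at h

end Pool.Agent.RatRec
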