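import Pool.Agent.Lib_helper86.RatV.Pack

/-!
A checker with packed forms for case trees over windows of logarithms, with one real error
constant; the leaves choose one of several alternatives.
-/

set_option autoImplicit false

namespace Pool.Agent.RatRec

/-- Conjunction by the recursor. -/
def bn (a b : Bool) : Bool := Bool.rec false b a

theorem bn_iff {a b : Bool} : bn a b = true ↔ a = true ∧ b = true := by
  cases a <;> simp [bn]

/-- Case trees with alternatives; a leaf gives for every form of the alternative a number which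
packs the multiplier, the number of atoms and their code. -/
inductive BTree where
  | leaf (g : ℕ) (cs : List ℕ)
  | splS (d : ℕ) (ch : BTree)
  | splT (d : ℕ) (ch : BTree)
  | cons (a b : BTree)
  | nil

/-- The data of a check. -/
structure BData where
  /-- the numerator mask -/
  mS : ℕ
  /-- the denominator mask -/
  mT : ℕ
  /-- the numerator indices -/
  lS : List ℕ
  /-- the denominator indices -/
  lT : List ℕ
  /-- window -/
  W : ℕ
  /-- the bound for the sums of the multipliers -/
  M : ℕ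
  /-- the alternatives: for every form the packed positive part and the packed negative part -/
  alts : List (List (ℕ × ℕ))
  /-- the place of the additional hypothesis `- y_k - y_0 ≤ c`, or `0` -/
  kx : ℕ

/-- An atom. -/
def atomB (D : BData) (ctx m d i j : ℕ) (k : ℕ → ℕ → ℕ → Bool) (ty : ℕ) : Bool :=
  Nat.rec
    -- type 0
    (bn (Nat.blt d D.W) (k m (Nat.pow PB (Nat.succ d)) PB))
    (fun ty1 _ => Nat.rec
      -- type 1
      (bn (bt ctx (Nat.add (Nat.mul 16 d) i)) (bn (bt D.mT j)
        (k m (Nat.add (Nat.pow PB (Nat.succ d)) (zP d j)) (zP d i))))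
      (fun ty2 _ => Nat.rec
        -- type 2
        (bn (bt ctx (Nat.add (Nat.add (Nat.mul 16 d) 8) j)) (bn (bt D.mS i)
          (k m (zP d i) (Nat.add (Nat.pow PB (Nat.succ d)) (zP d j)))))
        (fun ty3 _ => Nat.rec
          -- type 3
          (bn (bt ctx (Nat.add (Nat.mul 16 d) j)) (bn (bt D.mS i) (k m (zP d i) (zP d j))))
          (fun ty4 _ => Nat.rec
            -- type 4
            (bn (bt ctx (Nat.add (Nat.add (Nat.mul 16 d) 8) j)) (bn (bt D.mT i)
              (k m (zP d i) (zP d j))))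
            -- type 5
            (fun _ _ => bn (Nat.blt 0 D.kx) (k m 0 (Nat.add (Nat.pow PB (Nat.succ D.kx)) PB)))
            ty4) ty3) ty2) ty1) ty

/-- The atom with code `a`. -/
def atomBC (D : BData) (ctx a : ℕ) (k : ℕ → ℕ → ℕ → Bool) : Bool :=
  atomB D ctx (Nat.shiftRight a 15) (Nat.land (Nat.shiftRight a 3) 63)
    (Nat.land (Nat.shiftRight a 9) 7) (Nat.land (Nat.shiftRight a 12) 7) k (Nat.land a 7)

/-- The loop over the atoms of a certificate of the form with parts `fp`, `fn` and multiplier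
`m0`. -/
def certB (D : BData) (ctx fp fn m0 n : ℕ) : ℕ → ℕ → ℕ → ℕ → Bool :=
  Nat.rec (motive := fun _ => ℕ → ℕ → ℕ → ℕ → Bool)
    (fun _ U V M => bn (Nat.beq (Nat.add U (Nat.mul m0 fn)) (Nat.add V (Nat.mul m0 fp)))
      (bn (Nat.ble M D.M) (bn (Nat.ble 1 m0)
        (Nat.blt (Nat.add (Nat.mul 2 M) (Nat.mul m0 65536)) PB))))
    (fun _ ih c U V M => atomBC D ctx (Nat.land c 16777215)
      (fun m l r => ih (Nat.shiftRight c 24) (Nat.add U (Nat.mul m l)) (Nat.add V (Nat.mul m r))
        (Nat.add M m))) n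

/-- Every form of the list is certified. -/
def formsB (D : BData) (ctx : ℕ) (fs : List (ℕ × ℕ)) : List ℕ → Bool :=
  List.rec (motive := fun _ => List ℕ → Bool)
    (fun cs => List.rec true (fun _ _ _ => false) cs)
    (fun f _ ih cs => List.rec false (fun c r _ =>
      bn (certB D ctx f.1 f.2 (Nat.land c 255) (Nat.land (Nat.shiftRight c 8) 255)
        (Nat.shiftRight c 16) 0 0 0) (ih r)) cs) fs

/-- The entry of a list, if there is one. -/
def withNth {α : Type} (l : List α) (k : α → Bool) : ℕ → Bool :=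
  List.rec (motive := fun _ => ℕ → Bool) (fun _ => false)
    (fun a _ ih n => Nat.rec (k a) (fun n' _ => ih n') n) l

theorem withNth_iff {α : Type} {l : List α} {k : α → Bool} {n : ℕ} (h : withNth l k n = true) :
    ∃ a ∈ l, k a = true := by
  induction l generalizing n with
  | nil => exact absurd h (by simp [withNth])
  | cons a l ih =>
    cases n with
    | zero => exact ⟨a, by simp, h⟩
    | succ n =>
      obtain ⟨b, hb, h1⟩ := ih (n := n) h
      exact ⟨b, List.mem_cons_of_mem _ hb, h1⟩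

/-- The checker. -/
noncomputable def chkB (D : BData) (t : BTree) : ℕ → ℕ → Option (List ℕ) → Bool :=
  BTree.rec (motive := fun _ => ℕ → ℕ → Option (List ℕ) → Bool)
    (fun g cs ctx _ pend => Option.rec (withNth D.alts (fun fs => formsB D ctx fs cs) g)
      (fun _ => false) pend)
    (fun d _ ih ctx _ pend => Option.rec (bn (Nat.blt (Nat.add d 4) D.W)
      (ih ctx (Nat.mul 16 d) (some D.lS))) (fun _ => false) pend)
    (fun d _ ih ctx _ pend => Option.rec (bn (Nat.blt (Nat.add d 4) D.W)
      (ih ctx (Nat.add (Nat.mul 16 d) 8) (some D.lT))) (fun _ => false) pend)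
    (fun _ _ iha ihb ctx base pend => Option.rec false
      (fun l => List.rec false (fun i r _ => bn (iha (sb ctx (Nat.add base i)) 0 none)
        (ihb ctx base (some r))) l) pend)
    (fun _ _ pend => Option.rec false (fun l => List.rec true (fun _ _ _ => false) l) pend) t

/-- The meaning of a fact. -/
def BFact (D : BData) (y : ℕ → ℝ) (d k i : ℕ) : Prop :=
  d + 4 < D.W ∧ ((k = 0 ∧ bt D.mS i = true ∧ ∀ j, bt D.mS j = true → zv y d j ≤ zv y d i) ∨
    (k = 1 ∧ bt D.mT i = true ∧ ∀ j, bt D.mT j = true → zv y d j ≤ zv y d i))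

/-- The facts of a context. -/
def BCtx (D : BData) (y : ℕ → ℝ) (ctx : ℕ) : Prop :=
  ∀ t, bt ctx t = true → BFact D y (t / 16) (t / 8 % 2) (t % 8)

/-- The hypotheses. -/
structure BHolds (D : BData) (c : ℝ) (y : ℕ → ℝ) : Prop where
  hc : 0 ≤ c
  winS : ∀ d i j, d + 4 < D.W → bt D.mS i = true →
    (∀ k, bt D.mS k = true → zv y d k ≤ zv y d i) → bt D.mT j = true →
      y d + zv y d j ≤ zv y d i + c
  winT : ∀ d i j, d + 4 < D.W → bt D.mT j = true →
    (∀ k, bt D.mT k = true → zv y d k ≤ zv y d j) → bt D.mS i = true →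
      zv y d i ≤ y d + zv y d j + c
  hrec : ∀ s, s < D.W → y s ≤ y 0 + c
  hkx : 0 < D.kx → 0 ≤ y D.kx + y 0 + c

theorem atomB_sound {D : BData} {c : ℝ} {y : ℕ → ℝ} (hD : BHolds D c y) {ctx : ℕ}
    (hctx : BCtx D y ctx) {m d i j : ℕ} (hi : i < 8) (hj : j < 8) {k : ℕ → ℕ → ℕ → Bool}
    {ty : ℕ} (h : atomB D ctx m d i j k ty = true) :
    ∃ (l r : ℕ) (ul ur : ℝ), k m l r = true ∧ Rep y l 2 ul ∧ Rep y r 2 ur ∧ ul ≤ ur + c := by
  have hc := hD.hc
  match ty with
  | 0 =>
    have h6 : bn (Nat.blt d D.W) (k m (PB ^ (d + 1)) PB) = true := h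
    rw [bn_iff, Nat.blt_eq] at h6
    have h7 : Rep y PB 1 (y 0) := by simpa using Rep.var (y := y) 0
    exact ⟨_, _, _, _, h6.2, (Rep.var d).mono (by omega), h7.mono (by omega), hD.hrec d h6.1⟩
  | 1 =>
    have h6 : bn (bt ctx (16 * d + i)) (bn (bt D.mT j)
        (k m (PB ^ (d + 1) + zP d j) (zP d i))) = true := h
    rw [bn_iff, bn_iff] at h6
    obtain ⟨h6, h7, h8⟩ := h6
    have h9 := hctx _ h6
    have e1 : (16 * d + i) / 16 = d := by omega
    have e2 : (16 * d + i) / 8 % 2 = 0 := by omega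
    have e3 : (16 * d + i) % 8 = i := by omega
    rw [e1, e2, e3] at h9
    obtain ⟨hd, h9⟩ := h9
    rcases h9 with ⟨_, h9, h10⟩ | ⟨h0, _⟩
    · exact ⟨_, _, _, _, h8, (Rep.var d).add (rep_zP y d j), (rep_zP y d i).mono (by omega),
        hD.winS d i j hd h9 h10 h7⟩
    · omega
  | 2 =>
    have h6 : bn (bt ctx (16 * d + 8 + j)) (bn (bt D.mS i)
        (k m (zP d i) (PB ^ (d + 1) + zP d j))) = true := h
    rw [bn_iff, bn_iff] at h6
    obtain ⟨h6, h7, h8⟩ := h6
    have h9 := hctx _ h6
    have e1 : (16 * d + 8 + j) / 16 = d := by omega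
    have e2 : (16 * d + 8 + j) / 8 % 2 = 1 := by omega
    have e3 : (16 * d + 8 + j) % 8 = j := by omega
    rw [e1, e2, e3] at h9
    obtain ⟨hd, h9⟩ := h9
    rcases h9 with ⟨h0, _⟩ | ⟨_, h9, h10⟩
    · omega
    · exact ⟨_, _, _, _, h8, (rep_zP y d i).mono (by omega), (Rep.var d).add (rep_zP y d j),
        hD.winT d i j hd h9 h10 h7⟩
  | 3 =>
    have h6 : bn (bt ctx (16 * d + j)) (bn (bt D.mS i) (k m (zP d i) (zP d j))) = true := h
    rw [bn_iff, bn_iff] at h6
    obtain ⟨h6, h7, h8⟩ := h6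
    have h9 := hctx _ h6
    have e1 : (16 * d + j) / 16 = d := by omega
    have e2 : (16 * d + j) / 8 % 2 = 0 := by omega
    have e3 : (16 * d + j) % 8 = j := by omega
    rw [e1, e2, e3] at h9
    obtain ⟨hd, h9⟩ := h9
    rcases h9 with ⟨_, h9, h10⟩ | ⟨h0, _⟩
    · exact ⟨_, _, _, _, h8, (rep_zP y d i).mono (by omega), (rep_zP y d j).mono (by omega), by
        have := h10 i h7
        linarith⟩
    · omega
  | 4 =>
    have h6 : bn (bt ctx (16 * d + 8 + j)) (bn (bt D.mT i) (k m (zP d i) (zP d j))) = true := h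
    rw [bn_iff, bn_iff] at h6
    obtain ⟨h6, h7, h8⟩ := h6
    have h9 := hctx _ h6
    have e1 : (16 * d + 8 + j) / 16 = d := by omega
    have e2 : (16 * d + 8 + j) / 8 % 2 = 1 := by omega
    have e3 : (16 * d + 8 + j) % 8 = j := by omega
    rw [e1, e2, e3] at h9
    obtain ⟨hd, h9⟩ := h9
    rcases h9 with ⟨h0, _⟩ | ⟨_, h9, h10⟩
    · omega
    · exact ⟨_, _, _, _, h8, (rep_zP y d i).mono (by omega), (rep_zP y d j).mono (by omega), by
        have := h10 i h7
        linarith⟩
  | n + 5 =>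
    have h6 : bn (Nat.blt 0 D.kx) (k m 0 (PB ^ (D.kx + 1) + PB)) = true := h
    rw [bn_iff, Nat.blt_eq] at h6
    have h7 : Rep y PB 1 (y 0) := by simpa using Rep.var (y := y) 0
    exact ⟨_, _, _, _, h6.2, Rep.zero.mono (by omega), (Rep.var D.kx).add h7, hD.hkx h6.1⟩

theorem certB_sound {D : BData} {cc : ℝ} {y : ℕ → ℝ} (hD : BHolds D cc y) {ctx : ℕ}
    (hctx : BCtx D y ctx) {fp fn m0 : ℕ} {rp rn : ℝ} (hp : Rep y fp 65536 rp)
    (hn : Rep y fn 65536 rn) (n : ℕ) : ∀ (c U V M : ℕ) (u v : ℝ),
      certB D ctx fp fn m0 n c U V M = true → Rep y U (2 * M) u → Rep y V (2 * M) v →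
      u ≤ v + M * cc → rp - rn ≤ D.M * cc := by
  have hcc := hD.hc
  induction n with
  | zero =>
    intro c U V M u v h hU hV huv
    have h1 : bn (Nat.beq (U + m0 * fn) (V + m0 * fp)) (bn (Nat.ble M D.M) (bn (Nat.ble 1 m0)
        (Nat.blt (2 * M + m0 * 65536) PB))) = true := h
    rw [bn_iff, bn_iff, bn_iff, Nat.beq_eq, Nat.ble_eq, Nat.ble_eq, Nat.blt_eq] at h1
    obtain ⟨h1, h2, h3, h4⟩ := h1
    have h5 := hU.add (hn.smul m0)
    have h6 := hV.add (hp.smul m0)
    rw [h1] at h5
    have h7 := h5.eq h6 h4 h4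
    have hm1 : (1 : ℝ) ≤ m0 := by exact_mod_cast h3
    have hM : (M : ℝ) * cc ≤ D.M * cc :=
      mul_le_mul_of_nonneg_right (by exact_mod_cast h2) hcc
    have hM0 : 0 ≤ (D.M : ℝ) * cc := mul_nonneg (Nat.cast_nonneg _) hcc
    by_cases h0 : rp - rn ≤ 0
    · exact h0.trans hM0
    · push Not at h0
      have : rp - rn ≤ m0 * (rp - rn) := by
        calc rp - rn = 1 * (rp - rn) := by ring
          _ ≤ m0 * (rp - rn) := mul_le_mul_of_nonneg_right hm1 h0.le
      linarith
  | succ n ih =>
    intro c U V M u v h hU hV huv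
    have h1 : atomB D ctx (Nat.shiftRight (Nat.land c 16777215) 15)
      (Nat.land (Nat.shiftRight (Nat.land c 16777215) 3) 63)
      (Nat.land (Nat.shiftRight (Nat.land c 16777215) 9) 7)
      (Nat.land (Nat.shiftRight (Nat.land c 16777215) 12) 7)
      (fun m l r => certB D ctx fp fn m0 n (Nat.shiftRight c 24) (Nat.add U (Nat.mul m l))
        (Nat.add V (Nat.mul m r)) (Nat.add M m))
      (Nat.land (Nat.land c 16777215) 7) = true := h
    have h7 : ∀ x : ℕ, Nat.land x 7 < 8 := by
      intro x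
      have : Nat.land x 7 = x &&& (2 ^ 3 - 1) := rfl
      rw [this, Nat.and_two_pow_sub_one_eq_mod]
      exact Nat.mod_lt _ (by norm_num)
    obtain ⟨l, r, ul, ur, h2, h3, h4, h5⟩ := atomB_sound hD hctx (h7 _) (h7 _) h1
    set m := Nat.shiftRight (Nat.land c 16777215) 15 with hm
    have e : Nat.add M m = M + m := rfl
    refine ih _ _ _ _ (u + m * ul) (v + m * ur) h2 ?_ ?_ ?_
    · exact (hU.add (h3.smul m)).mono (by rw [e]; omega)
    · exact (hV.add (h4.smul m)).mono (by rw [e]; omega)
    · have h8 := mul_le_mul_of_nonneg_left h5 (Nat.cast_nonneg (α := ℝ) m)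
      rw [e]
      push_cast
      linarith

/-- The meaning of the forms. -/
def FormRep (y : ℕ → ℝ) (f : List ℤ) (p : ℕ × ℕ) : Prop :=
  ∃ rp rn : ℝ, Rep y p.1 65536 rp ∧ Rep y p.2 65536 rn ∧ ev y 0 f = rp - rn

theorem formsB_sound {D : BData} {cc : ℝ} {y : ℕ → ℝ} (hD : BHolds D cc y) {ctx : ℕ}
    (hctx : BCtx D y ctx) (fs : List (List ℤ)) : ∀ (ps : List (ℕ × ℕ)) (cs : List ℕ),
      List.Forall₂ (FormRep y) fs ps → formsB D ctx ps cs = true →
      ∀ f ∈ fs, ev y 0 f ≤ D.M * cc := by
  induction fs with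
  | nil => intro ps cs _ _ f hf; simp at hf
  | cons f fs ih =>
    intro ps cs hF h
    cases hF with
    | cons h1 h2 =>
      rename_i p ps
      cases cs with
      | nil => exact absurd h (by simp [formsB])
      | cons c cs =>
        have h3 : bn (certB D ctx p.1 p.2 (Nat.land c 255) (Nat.land (Nat.shiftRight c 8) 255)
          (Nat.shiftRight c 16) 0 0 0) (formsB D ctx ps cs) = true := h
        rw [bn_iff] at h3
        obtain ⟨rp, rn, g1, g2, g3⟩ := h1
        intro f' hf'
        rcases List.mem_cons.mp hf' with rfl | hf'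
        · rw [g3]
          exact certB_sound hD hctx g1 g2 _ _ 0 0 0 0 0 h3.1 (by simpa using Rep.zero)
            (by simpa using Rep.zero) (by simp)
        · exact ih ps cs h2 h3.2 f' hf'

theorem chkB_sound {D : BData} {cc : ℝ} {y : ℕ → ℝ} (hD : BHolds D cc y) (hS : D.lS = bits D.mS)
    (hT : D.lT = bits D.mT) (hmS : D.mS < 32) (hmT : D.mT < 32) (hS0 : bits D.mS ≠ [])
    (hT0 : bits D.mT ≠ []) {alts : List (List (List ℤ))}
    (halts : List.Forall₂ (List.Forall₂ (FormRep y)) alts D.alts) (t : BTree) :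
    ∀ ctx base pend, chkB D t ctx base pend = true → BCtx D y ctx →
      ((pend = none → ∃ alt ∈ alts, ∀ f ∈ alt, ev y 0 f ≤ D.M * cc) ∧
        ∀ d k l, pend = some l → base = 16 * d + 8 * k → k < 2 →
          (∃ i ∈ l, i < 8 ∧ BFact D y d k i) →
            ∃ alt ∈ alts, ∀ f ∈ alt, ev y 0 f ≤ D.M * cc) := by
  have hbt : ∀ {m : ℕ}, m < 32 → ∀ j, bt m j = true → j ∈ bits m := by
    intro m hm j hj
    have hj' := bt_iff.mp hj
    simp only [bits, List.mem_filter, List.mem_range]
    refine ⟨?_, hj'⟩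
    by_contra h5
    have h6 : m < 2 ^ j := lt_of_lt_of_le hm (by
      calc (32 : ℕ) = 2 ^ 5 := by norm_num
        _ ≤ 2 ^ j := Nat.pow_le_pow_right (by norm_num) (by omega))
    rw [Nat.testBit_lt_two_pow h6] at hj'
    simp at hj'
  have hbm : ∀ {m i : ℕ}, i ∈ bits m → bt m i = true ∧ i < 5 := by
    intro m i h
    simp only [bits, List.mem_filter, List.mem_range] at h
    exact ⟨bt_iff.mpr h.2, h.1⟩
  induction t with
  | leaf g cs =>
    intro ctx base pend hc hctx
    cases pend with
    | some p => exact absurd hc (by simp [chkB])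
    | none =>
      refine ⟨fun _ => ?_, fun d k l h => by simp at h⟩
      obtain ⟨ps, hps, h1⟩ := withNth_iff (l := D.alts) (k := fun fs => formsB D ctx fs cs) hc
      obtain ⟨i, hi, hps'⟩ := List.mem_iff_getElem.mp hps
      have hl := halts.length_eq
      have h2 : List.Forall₂ (FormRep y) (alts[i]'(by omega)) (D.alts[i]) :=
        (List.forall₂_iff_get.mp halts).2 i (by omega) hi
      rw [hps'] at h2
      exact ⟨alts[i]'(by omega), List.getElem_mem _, formsB_sound hD hctx _ _ _ h2 h1⟩
  | splS d ch ih =>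
    intro ctx base pend hc hctx
    cases pend with
    | some p => exact absurd hc (by simp [chkB])
    | none =>
      refine ⟨fun _ => ?_, fun d k l h => by simp at h⟩
      have hc' : bn (Nat.blt (d + 4) D.W) (chkB D ch ctx (16 * d) (some D.lS)) = true := hc
      rw [bn_iff, Nat.blt_eq] at hc'
      obtain ⟨h1, h2⟩ := hc'
      refine (ih ctx _ _ h2 hctx).2 d 0 _ rfl (by omega) (by omega) ?_
      rw [hS]
      obtain ⟨i, hi, hm⟩ := exists_max y d hS0
      exact ⟨i, hi, by have := (hbm hi).2; omega, h1,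
        Or.inl ⟨rfl, (hbm hi).1, fun j hj => hm j (hbt hmS j hj)⟩⟩
  | splT d ch ih =>
    intro ctx base pend hc hctx
    cases pend with
    | some p => exact absurd hc (by simp [chkB])
    | none =>
      refine ⟨fun _ => ?_, fun d k l h => by simp at h⟩
      have hc' : bn (Nat.blt (d + 4) D.W) (chkB D ch ctx (16 * d + 8) (some D.lT)) = true := hc
      rw [bn_iff, Nat.blt_eq] at hc'
      obtain ⟨h1, h2⟩ := hc'
      refine (ih ctx _ _ h2 hctx).2 d 1 _ rfl (by omega) (by omega) ?_
      rw [hT]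
      obtain ⟨i, hi, hm⟩ := exists_max y d hT0
      exact ⟨i, hi, by have := (hbm hi).2; omega, h1,
        Or.inr ⟨rfl, (hbm hi).1, fun j hj => hm j (hbt hmT j hj)⟩⟩
  | cons a b iha ihb =>
    intro ctx base pend hc hctx
    cases pend with
    | none => exact absurd hc (by simp [chkB])
    | some l =>
      refine ⟨fun h => by simp at h, ?_⟩
      intro d k l' hp hb hk hex
      simp only [Option.some.injEq] at hp
      subst hp
      cases l with
      | nil => simp at hex
      | cons i r =>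
        have hc' : bn (chkB D a (sb ctx (base + i)) 0 none) (chkB D b ctx base (some r)) = true :=
          hc
        rw [bn_iff] at hc'
        obtain ⟨h1, h2⟩ := hc'
        obtain ⟨i', hi', hi8, hf⟩ := hex
        rcases List.mem_cons.mp hi' with rfl | hi'
        · refine (iha _ _ _ h1 ?_).1 rfl
          intro t ht
          rcases bt_sb ht with ht | rfl
          · exact hctx t ht
          · have e1 : (base + i') / 16 = d := by omega
            have e2 : (base + i') / 8 % 2 = k := by omega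
            have e3 : (base + i') % 8 = i' := by omega
            rw [e1, e2, e3]
            exact hf
        · exact (ihb _ _ _ h2 hctx).2 d k r rfl hb hk ⟨i', hi', hi8, hf⟩
  | nil =>
    intro ctx base pend hc hctx
    cases pend with
    | none => exact absurd hc (by simp [chkB])
    | some l =>
      refine ⟨fun h => by simp at h, ?_⟩
      intro d k l' hp hb hk hex
      simp only [Option.some.injEq] at hp
      subst hp
      cases l with
      | nil => simp at hex
      | cons i r => exact absurd hc (by simp [chkB])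

/-- The hypotheses from a window. -/
theorem bHolds_of_window {D : BData} {c : ℝ} {y : ℕ → ℝ} (hmS : D.mS < 32) (hmT : D.mT < 32)
    (hc : 0 ≤ c) (hw : Window (bits D.mS) (bits D.mT) c D.W y)
    (hr : ∀ t, t ≤ D.W - 1 → y t ≤ y 0 + c) (hx : 0 < D.kx → 0 ≤ y D.kx + y 0 + c) :
    BHolds D c y := by
  have hbt : ∀ {m : ℕ}, m < 32 → ∀ j, bt m j = true → j ∈ bits m := by
    intro m hm j hj
    have hj' := bt_iff.mp hj
    simp only [bits, List.mem_filter, List.mem_range]
    refine ⟨?_, hj'⟩
    by_contra h5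
    have h6 : m < 2 ^ j := lt_of_lt_of_le hm (by
      calc (32 : ℕ) = 2 ^ 5 := by norm_num
        _ ≤ 2 ^ j := Nat.pow_le_pow_right (by norm_num) (by omega))
    rw [Nat.testBit_lt_two_pow h6] at hj'
    simp at hj'
  have hbm : ∀ {m i : ℕ}, i ∈ bits m → bt m i = true := by
    intro m i h
    simp only [bits, List.mem_filter, List.mem_range] at h
    exact bt_iff.mpr h.2
  refine ⟨hc, ?_, ?_, fun s hs => hr s (by omega), hx⟩
  · intro d i j hd hi hmax hj
    have := (hw d hd).1 i (hbt hmS i hi) (fun k hk => hmax k (hbm hk)) j (hbt hmT j hj)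
    linarith
  · intro d i j hd hj hmax hi
    have := (hw d hd).2 j (hbt hmT j hj) (fun k hk => hmax k (hbm hk)) i (hbt hmS i hi)
    linarith

/-- The packed positive part of a form. -/
def pkP : List ℤ → ℕ → ℕ
  | [], _ => 0
  | a :: l, s => a.toNat * PB ^ (s + 1) + pkP l (s + 1)

/-- The packed negative part of a form. -/
def pkM : List ℤ → ℕ → ℕ
  | [], _ => 0
  | a :: l, s => (-a).toNat * PB ^ (s + 1) + pkM l (s + 1)

/-- The sum of the absolute values. -/
def absSum : List ℤ → ℕ
  | [] => 0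
  | a :: l => a.natAbs + absSum l

theorem formRep_aux (y : ℕ → ℝ) (f : List ℤ) (s : ℕ) :
    ∃ rp rn : ℝ, Rep y (pkP f s) (absSum f) rp ∧ Rep y (pkM f s) (absSum f) rn ∧
      ev y s f = rp - rn := by
  induction f generalizing s with
  | nil => exact ⟨0, 0, by simpa [pkP] using Rep.zero.mono (Nat.zero_le _),
      by simpa [pkM] using Rep.zero.mono (Nat.zero_le _), by simp [ev]⟩
  | cons a f ih =>
    obtain ⟨rp, rn, h1, h2, h3⟩ := ih (s + 1)
    refine ⟨a.toNat * y s + rp, (-a).toNat * y s + rn, ?_, ?_, ?_⟩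
    · exact (((Rep.var s).smul a.toNat).add h1).mono (by simp only [absSum]; omega)
    · exact (((Rep.var s).smul (-a).toNat).add h2).mono (by simp only [absSum]; omega)
    · have h4 : ((a : ℤ) : ℝ) = ((a.toNat : ℕ) : ℝ) - (((-a).toNat : ℕ) : ℝ) := by
        have : (a : ℤ) = ((a.toNat : ℕ) : ℤ) - (((-a).toNat : ℕ) : ℤ) := by omega
        exact_mod_cast congrArg (Int.cast (R := ℝ)) this
      simp only [ev, h3, h4]
      ring

/-- The alternative with packed forms. -/
def packAlt (a : List (List ℤ)) : List (ℕ × ℕ) := a.map (fun f => (pkP f 0, pkM f 0))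

theorem forall₂_packAlt (y : ℕ → ℝ) (a : List (List ℤ)) (h : ∀ f ∈ a, absSum f ≤ 65536) :
    List.Forall₂ (FormRep y) a (packAlt a) := by
  induction a with
  | nil => exact List.Forall₂.nil
  | cons f a ih =>
    refine List.Forall₂.cons ?_ (ih (fun g hg => h g (List.mem_cons_of_mem _ hg)))
    obtain ⟨rp, rn, h1, h2, h3⟩ := formRep_aux y f 0
    have h4 := h f (by simp)
    exact ⟨rp, rn, h1.mono h4, h2.mono h4, h3⟩

theorem forall₂_packAlts (y : ℕ → ℝ) (as : List (List (List ℤ)))
    (h : ∀ a ∈ as, ∀ f ∈ a, absSum f ≤ 65536) :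
    List.Forall₂ (List.Forall₂ (FormRep y)) as (as.map packAlt) := by
  induction as with
  | nil => exact List.Forall₂.nil
  | cons a as ih =>
    exact List.Forall₂.cons (forall₂_packAlt y a (h a (by simp)))
      (ih (fun b hb => h b (List.mem_cons_of_mem _ hb)))

end Pool.Agent.RatRec
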