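import Pool.Agent.Lib_helper86.RatW.BChk

/-!
Boundedness from a packed certificate.
-/

set_option autoImplicit false

namespace Pool.Agent.RatRec

/-- A packed certificate: masks, lists of indices, window, tree. -/
structure BCert where
  S : ℕ
  T : ℕ
  lS : List ℕ
  lT : List ℕ
  W : ℕ
  t : BTree

/-- The data of the check. -/
def BCert.data (c : BCert) : BData := ⟨c.S, c.T, c.lS, c.lT, c.W, 1000000, [[(PB, 0)]], 0⟩

/-- The check. -/
noncomputable def BCert.ok (c : BCert) : Bool :=
  Nat.ble 1 c.W && !c.lS.isEmpty && !c.lT.isEmpty && Nat.blt c.S 32 && Nat.blt c.T 32 &&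
    decide (c.lS = bits c.S) && decide (c.lT = bits c.T) && chkB c.data c.t 0 0 none

theorem BCert.boundedOnly {c : BCert} (h : c.ok = true) : BoundedOnly (fs c.S) (fs c.T) := by
  simp only [BCert.ok, Bool.and_eq_true, Bool.not_eq_true', List.isEmpty_eq_false_iff,
    Nat.ble_eq, Nat.blt_eq, decide_eq_true_eq] at h
  obtain ⟨⟨⟨⟨⟨⟨⟨hW, hS0⟩, hT0⟩, hmS⟩, hmT⟩, hlS⟩, hlT⟩, hchk⟩ := h
  have hS : bits c.S ≠ [] := by rw [← hlS]; exact hS0
  have hT : bits c.T ≠ [] := by rw [← hlT]; exact hT0
  have hS' : (fs c.S).Nonempty := by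
    obtain ⟨a, l, hl⟩ := List.exists_cons_of_ne_nil hS
    obtain ⟨i, _, hi⟩ := mem_bits (m := c.S) (k := a) (by rw [hl]; simp)
    exact ⟨i, hi⟩
  have hT' : (fs c.T).Nonempty := by
    obtain ⟨a, l, hl⟩ := List.exists_cons_of_ne_nil hT
    obtain ⟨i, _, hi⟩ := mem_bits (m := c.T) (k := a) (by rw [hl]; simp)
    exact ⟨i, hi⟩
  apply boundedOnly_of_record hS' hT'
  intro b B hb hB
  refine ⟨Real.exp ((1000000 : ℕ) * wc b B), c.W - 1, ?_⟩
  intro x hx N hN hrec
  have hw := window_back hb hB hx (N := N) (W := c.W) (by omega)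
  have hc := wc_nonneg b B
  have hr : ∀ t, t ≤ c.W - 1 → back x N t ≤ back x N 0 + wc b B := by
    intro t ht
    have h1 : x (N - t) ≤ x N := by
      rcases Nat.eq_zero_or_pos t with rfl | h0
      · simp
      · exact hrec _ (by omega)
    have h2 := Real.log_le_log (hx.pos _) h1
    simp only [back, Nat.sub_zero]
    linarith
  have hD : BHolds c.data (wc b B) (back x N) :=
    bHolds_of_window (D := c.data) hmS hmT hc hw hr (fun h => absurd h (lt_irrefl 0))
  have hF : List.Forall₂ (List.Forall₂ (FormRep (back x N))) [[[1]]] c.data.alts := by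
    refine List.Forall₂.cons (List.Forall₂.cons ?_ List.Forall₂.nil) List.Forall₂.nil
    refine ⟨back x N 0, 0, ?_, Rep.zero.mono (Nat.zero_le _), by simp [ev]⟩
    have h7 : Rep (back x N) PB 1 (back x N 0) := by simpa using Rep.var (y := back x N) 0
    exact h7.mono (by norm_num)
  obtain ⟨alt, halt, hall⟩ := (chkB_sound hD hlS hlT hmS hmT hS hT hF c.t 0 0 none hchk (by
    intro t ht
    rw [bt_iff] at ht
    simp at ht)).1 rfl
  have h2 : back x N 0 ≤ ((1000000 : ℕ) : ℝ) * wc b B := by
    have h3 : alt = [[1]] := by simpa using halt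
    subst h3
    have h4 := hall [1] (by simp)
    have h5 : ((c.data.M : ℕ) : ℝ) = ((1000000 : ℕ) : ℝ) := rfl
    rw [h5] at h4
    simpa [ev] using h4
  have h3 : back x N 0 = Real.log (x N) := by simp [back]
  rw [h3] at h2
  exact (Real.log_le_iff_le_exp (hx.pos N)).mp h2

/-- A list of certificates which are all correct. -/
def AllB (l : List BCert) : Prop := ∀ c ∈ l, c.ok = true

/-- All certificates of the list are correct. -/
noncomputable def okB : List BCert → Bool
  | [] => true
  | c :: l => bn c.ok (okB l)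

theorem allB_of_okB {l : List BCert} (h : okB l = true) : AllB l := by
  induction l with
  | nil => simp [AllB]
  | cons c l ih =>
    have h1 : bn c.ok (okB l) = true := h
    rw [bn_iff] at h1
    intro d hd
    rcases List.mem_cons.mp hd with rfl | hd
    · exact h1.1
    · exact ih h1.2 d hd

theorem of_AllB {l : List BCert} (h : AllB l) : ∀ c ∈ l, BoundedOnly (fs c.S) (fs c.T) :=
  fun c hc => BCert.boundedOnly (h c hc)

end Pool.Agent.RatRec
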