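import Pool.Agent.Lib_helper86.RatW.Code

/-!
Data: the packed certificates of the cases with bounded solutions only.
-/

set_option autoImplicit false
set_option maxRecDepth 100000

namespace Pool.Agent.RatRec

/-- Certificates. -/
def certs0 : List BCert :=
  [
   ⟨1, 1, [0], [0], 6, (.splS 0 (.cons (.leaf 0 [0x80010101]) .nil))⟩,
   ⟨1, 3, [0], [0, 1], 6, (.splS 0 (.cons (.leaf 0 [0x80010101]) .nil))⟩,
   ⟨1, 5, [0], [0, 2], 6, (.splS 0 (.cons (.leaf 0 [0x80010101]) .nil))⟩,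
   ⟨1, 7, [0], [0, 1, 2], 6, (.splS 0 (.cons (.leaf 0 [0x80010101]) .nil))⟩,
   ⟨1, 9, [0], [0, 3], 6, (.splS 0 (.cons (.leaf 0 [0x80010101]) .nil))⟩,
   ⟨1, 11, [0], [0, 1, 3], 6, (.splS 0 (.cons (.leaf 0 [0x80010101]) .nil))⟩,
   ⟨1, 13, [0], [0, 2, 3], 6, (.splS 0 (.cons (.leaf 0 [0x80010101]) .nil))⟩,
   ⟨1, 15, [0], [0, 1, 2, 3], 6, (.splS 0 (.cons (.leaf 0 [0x80010101]) .nil))⟩,
   ⟨1, 17, [0], [0, 4], 6, (.splS 0 (.cons (.leaf 0 [0x80010101]) .nil))⟩,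
   ⟨1, 19, [0], [0, 1, 4], 6, (.splS 0 (.cons (.leaf 0 [0x80010101]) .nil))⟩,
   ⟨1, 21, [0], [0, 2, 4], 6, (.splS 0 (.cons (.leaf 0 [0x80010101]) .nil))⟩,
   ⟨1, 23, [0], [0, 1, 2, 4], 6, (.splS 0 (.cons (.leaf 0 [0x80010101]) .nil))⟩,
   ⟨1, 25, [0], [0, 3, 4], 6, (.splS 0 (.cons (.leaf 0 [0x80010101]) .nil))⟩,
   ⟨1, 27, [0], [0, 1, 3, 4], 6, (.splS 0 (.cons (.leaf 0 [0x80010101]) .nil))⟩,
   ⟨1, 29, [0], [0, 2, 3, 4], 6, (.splS 0 (.cons (.leaf 0 [0x80010101]) .nil))⟩,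
   ⟨1, 31, [0], [0, 1, 2, 3, 4], 6, (.splS 0 (.cons (.leaf 0 [0x80010101]) .nil))⟩,
   ⟨2, 2, [1], [1], 6, (.splS 0 (.cons (.leaf 0 [0x92010101]) .nil))⟩,
   ⟨2, 3, [1], [0, 1], 6, (.splS 0 (.cons (.leaf 0 [0x92010101]) .nil))⟩,
   ⟨2, 5, [1], [0, 2], 6, (.splS 0 (.cons (.splS 1 (.cons (.leaf 0 [0x820900a2010201]) .nil))
   .nil))⟩,
   ⟨2, 6, [1], [1, 2], 6, (.splS 0 (.cons (.leaf 0 [0x92010101]) .nil))⟩,
   ⟨2, 7, [1], [0, 1, 2], 6, (.splS 0 (.cons (.leaf 0 [0x92010101]) .nil))⟩,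
   ⟨2, 9, [1], [0, 3], 8, (.splS 0 (.cons (.splS 1 (.cons (.splS 2 (.cons (.leaf 0
   [0x821100820900b2010301]) .nil)) .nil)) .nil))⟩,
   ⟨2, 10, [1], [1, 3], 6, (.splS 0 (.cons (.leaf 0 [0x92010101]) .nil))⟩,
   ⟨2, 11, [1], [0, 1, 3], 6, (.splS 0 (.cons (.leaf 0 [0x92010101]) .nil))⟩,
   ⟨2, 13, [1], [0, 2, 3], 6, (.splS 0 (.cons (.splS 1 (.cons (.leaf 0 [0x820900a2010201]) .nil))
   .nil))⟩,
   ⟨2, 14, [1], [1, 2, 3], 6, (.splS 0 (.cons (.leaf 0 [0x92010101]) .nil))⟩,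
   ⟨2, 15, [1], [0, 1, 2, 3], 6, (.splS 0 (.cons (.leaf 0 [0x92010101]) .nil))⟩,
   ⟨2, 17, [1], [0, 4], 8, (.splS 0 (.cons (.splS 1 (.cons (.splS 2 (.cons (.splS 3 (.cons (.leaf
   0 [0x821900821100820900c2010401]) .nil)) .nil)) .nil)) .nil))⟩,
   ⟨2, 18, [1], [1, 4], 6, (.splS 0 (.cons (.leaf 0 [0x92010101]) .nil))⟩,
   ⟨2, 19, [1], [0, 1, 4], 6, (.splS 0 (.cons (.leaf 0 [0x92010101]) .nil))⟩,
   ⟨2, 21, [1], [0, 2, 4], 6, (.splS 0 (.cons (.splS 1 (.cons (.leaf 0 [0x820900a2010201]) .nil))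
   .nil))⟩,
   ⟨2, 22, [1], [1, 2, 4], 6, (.splS 0 (.cons (.leaf 0 [0x92010101]) .nil))⟩,
   ⟨2, 23, [1], [0, 1, 2, 4], 6, (.splS 0 (.cons (.leaf 0 [0x92010101]) .nil))⟩,
   ⟨2, 25, [1], [0, 3, 4], 8, (.splS 0 (.cons (.splS 1 (.cons (.splS 2 (.cons (.leaf 0
   [0x821100820900b2010301]) .nil)) .nil)) .nil))⟩,
   ⟨2, 26, [1], [1, 3, 4], 6, (.splS 0 (.cons (.leaf 0 [0x92010101]) .nil))⟩,
   ⟨2, 27, [1], [0, 1, 3, 4], 6, (.splS 0 (.cons (.leaf 0 [0x92010101]) .nil))⟩,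
   ⟨2, 29, [1], [0, 2, 3, 4], 6, (.splS 0 (.cons (.splS 1 (.cons (.leaf 0 [0x820900a2010201])
   .nil)) .nil))⟩,
   ⟨2, 30, [1], [1, 2, 3, 4], 6, (.splS 0 (.cons (.leaf 0 [0x92010101]) .nil))⟩,
   ⟨2, 31, [1], [0, 1, 2, 3, 4], 6, (.splS 0 (.cons (.leaf 0 [0x92010101]) .nil))⟩,
   ⟨3, 2, [0, 1], [1], 6, (.splS 0 (.cons (.splT 1 (.cons (.leaf 0 [0x920a0090010201]) .nil))
   (.cons (.leaf 0 [0x92010101]) .nil)))⟩,
   ⟨3, 3, [0, 1], [0, 1], 6, (.splS 0 (.cons (.leaf 0 [0x80010101]) (.cons (.leaf 0 [0x92010101])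
   .nil)))⟩,
   ⟨3, 5, [0, 1], [0, 2], 6, (.splS 0 (.cons (.leaf 0 [0x80010101]) (.cons (.splS 1 (.cons (.leaf
   0 [0x80090082010201]) (.cons (.leaf 0 [0x820900a2010201]) .nil))) .nil)))⟩,
   ⟨3, 6, [0, 1], [1, 2], 8, (.splS 0 (.cons (.splT 2 (.cons (.leaf 0 [0x921200a0010201]) (.cons
   (.splT 1 (.cons (.leaf 0 [0x900a00a0010090010302]) (.cons (.leaf 0
   [0xa00a00a21200a0010090010080200501]) .nil))) .nil))) (.cons (.leaf 0 [0x92010101]) .nil)))⟩,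
   ⟨3, 7, [0, 1], [0, 1, 2], 6, (.splS 0 (.cons (.leaf 0 [0x80010101]) (.cons (.leaf 0
   [0x92010101]) .nil)))⟩,
   ⟨3, 9, [0, 1], [0, 3], 8, (.splS 0 (.cons (.leaf 0 [0x80010101]) (.cons (.splS 1 (.cons (.leaf
   0 [0x80090082010201]) (.cons (.splS 2 (.cons (.leaf 0 [0x80110082090082010301]) (.cons (.leaf 0
   [0x821100820900b2010301]) .nil))) .nil))) .nil)))⟩,
   ⟨3, 10, [0, 1], [1, 3], 8, (.splS 0 (.cons (.splT 1 (.cons (.leaf 0 [0x920a0090010201]) (.cons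
   (.splT 3 (.cons (.leaf 0 [0x921a00b0010201]) (.cons (.leaf 0
   [0xb21a00b00a00b0010090010080300501]) .nil))) .nil))) (.cons (.leaf 0 [0x92010101]) .nil)))⟩,
   ⟨3, 11, [0, 1], [0, 1, 3], 6, (.splS 0 (.cons (.leaf 0 [0x80010101]) (.cons (.leaf 0
   [0x92010101]) .nil)))⟩,
   ⟨3, 13, [0, 1], [0, 2, 3], 6, (.splS 0 (.cons (.leaf 0 [0x80010101]) (.cons (.splS 1 (.cons
   (.leaf 0 [0x80090082010201]) (.cons (.leaf 0 [0x820900a2010201]) .nil))) .nil)))⟩,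
   ⟨3, 14, [0, 1], [1, 2, 3], 8, (.splS 0 (.cons (.splT 3 (.cons (.leaf 0 [0x921a00b0010201])
   (.cons (.splT 1 (.cons (.leaf 0 [0x900a00a0010090010302]) (.cons (.leaf 0
   [0xa00a00b0010090010302]) (.cons (.leaf 0 [0xb00a00a21a00b0010090010080280501]) .nil)))) (.cons
   (.splT 1 (.cons (.leaf 0 [0x900a00a0010090010302]) (.cons (.leaf 0 [0xa00a00b0010090010302])
   (.cons (.leaf 0 [0xb00a00b21a00b0010090010080300501]) .nil)))) .nil)))) (.cons (.leaf 0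
   [0x92010101]) .nil)))⟩,
   ⟨3, 15, [0, 1], [0, 1, 2, 3], 6, (.splS 0 (.cons (.leaf 0 [0x80010101]) (.cons (.leaf 0
   [0x92010101]) .nil)))⟩]

theorem certs0_ok : AllB certs0 := allB_of_okB (by decide +kernel)

/-- Certificates. -/
def certs1 : List BCert :=
  [
   ⟨3, 17, [0, 1], [0, 4], 8, (.splS 0 (.cons (.leaf 0 [0x80010101]) (.cons (.splS 1 (.cons (.leaf
   0 [0x80090082010201]) (.cons (.splS 2 (.cons (.leaf 0 [0x80110082090082010301]) (.cons (.splS 3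
   (.cons (.leaf 0 [0x80190082110082090082010401]) (.cons (.leaf 0 [0x821900821100820900c2010401])
   .nil))) .nil))) .nil))) .nil)))⟩,
   ⟨3, 18, [0, 1], [1, 4], 10, (.splS 0 (.cons (.splT 1 (.cons (.leaf 0 [0x920a0090010201]) (.cons
   (.splT 4 (.cons (.leaf 0 [0x922200c0010201]) (.cons (.leaf 0
   [0xc22200c00a00c0010090010080400501]) .nil))) .nil))) (.cons (.leaf 0 [0x92010101]) .nil)))⟩,
   ⟨3, 19, [0, 1], [0, 1, 4], 6, (.splS 0 (.cons (.leaf 0 [0x80010101]) (.cons (.leaf 0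
   [0x92010101]) .nil)))⟩,
   ⟨3, 21, [0, 1], [0, 2, 4], 6, (.splS 0 (.cons (.leaf 0 [0x80010101]) (.cons (.splS 1 (.cons
   (.leaf 0 [0x80090082010201]) (.cons (.leaf 0 [0x820900a2010201]) .nil))) .nil)))⟩,
   ⟨3, 22, [0, 1], [1, 2, 4], 10, (.splS 0 (.cons (.splS 3 (.cons (.splS 5 (.cons (.splT 2 (.cons
   (.leaf 0 [0x921200a0010201]) (.cons (.leaf 0 [0xa01200c00100a0010302]) (.cons (.leaf 0
   [0xc01200822b00a0010301]) .nil)))) (.cons (.splT 1 (.cons (.leaf 0 [0x900a00a0010090010302])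
   (.cons (.splT 2 (.cons (.leaf 0 [0x921200a0010201]) (.cons (.leaf 0 [0xa01200c00100a0010302])
   (.cons (.leaf 0 [0xc21200a00a00a0010090010080300501]) .nil)))) (.cons (.leaf 0
   [0xc00a0092290090010301]) .nil)))) .nil))) (.cons (.leaf 0 [0x901b00c0010201]) .nil))) (.cons
   (.leaf 0 [0x92010101]) .nil)))⟩,
   ⟨3, 23, [0, 1], [0, 1, 2, 4], 6, (.splS 0 (.cons (.leaf 0 [0x80010101]) (.cons (.leaf 0
   [0x92010101]) .nil)))⟩,
   ⟨3, 25, [0, 1], [0, 3, 4], 8, (.splS 0 (.cons (.leaf 0 [0x80010101]) (.cons (.splS 1 (.cons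
   (.leaf 0 [0x80090082010201]) (.cons (.splS 2 (.cons (.leaf 0 [0x80110082090082010301]) (.cons
   (.leaf 0 [0x821100820900b2010301]) .nil))) .nil))) .nil)))⟩,
   ⟨3, 26, [0, 1], [1, 3, 4], 10, (.splS 0 (.cons (.splS 2 (.cons (.splS 5 (.cons (.splT 1 (.cons
   (.leaf 0 [0x920a0090010201]) (.cons (.leaf 0 [0xb00a00c0010090010302]) (.cons (.splT 4 (.cons
   (.leaf 0 [0x922200c0010201]) (.cons (.leaf 0 [0xb22200c00a00c0010090010080380501]) (.cons
   (.leaf 0 [0xc22201400a00b02900c0010110010503]) .nil)))) .nil)))) (.cons (.splT 1 (.cons (.leaf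
   0 [0x920a0090010201]) (.cons (.leaf 0 [0xb00a00c0010090010302]) (.cons (.leaf 0
   [0xc00a0092290090010301]) .nil)))) .nil))) (.cons (.leaf 0 [0x901300b0010201]) .nil))) (.cons
   (.leaf 0 [0x92010101]) .nil)))⟩,
   ⟨3, 27, [0, 1], [0, 1, 3, 4], 6, (.splS 0 (.cons (.leaf 0 [0x80010101]) (.cons (.leaf 0
   [0x92010101]) .nil)))⟩,
   ⟨3, 29, [0, 1], [0, 2, 3, 4], 6, (.splS 0 (.cons (.leaf 0 [0x80010101]) (.cons (.splS 1 (.cons
   (.leaf 0 [0x80090082010201]) (.cons (.leaf 0 [0x820900a2010201]) .nil))) .nil)))⟩,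
   ⟨3, 30, [0, 1], [1, 2, 3, 4], 10, (.splS 0 (.cons (.splS 5 (.cons (.splT 1 (.cons (.leaf 0
   [0x900a00a0010090010302]) (.cons (.leaf 0 [0xa00a00b0010090010302]) (.cons (.leaf 0
   [0xb00a00c0010090010302]) (.cons (.splT 4 (.cons (.leaf 0 [0x922200c0010201]) (.cons (.leaf 0
   [0xa22200c00a00822b00c0010090010502]) (.cons (.leaf 0 [0xb22201400a00a02900c0010110010503])
   (.cons (.leaf 0 [0xc22201400a00b02900c0010110010503]) .nil))))) .nil))))) (.cons (.splT 1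
   (.cons (.leaf 0 [0x900a00a0010090010302]) (.cons (.leaf 0 [0xa00a00b0010090010302]) (.cons
   (.leaf 0 [0xb00a00c0010090010302]) (.cons (.leaf 0 [0xc00a0092290090010301]) .nil))))) .nil)))
   (.cons (.leaf 0 [0x92010101]) .nil)))⟩,
   ⟨3, 31, [0, 1], [0, 1, 2, 3, 4], 6, (.splS 0 (.cons (.leaf 0 [0x80010101]) (.cons (.leaf 0
   [0x92010101]) .nil)))⟩,
   ⟨4, 4, [2], [2], 6, (.splS 0 (.cons (.leaf 0 [0xa4010101]) .nil))⟩,
   ⟨4, 5, [2], [0, 2], 6, (.splS 0 (.cons (.leaf 0 [0xa4010101]) .nil))⟩,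
   ⟨4, 6, [2], [1, 2], 6, (.splS 0 (.cons (.leaf 0 [0xa4010101]) .nil))⟩,
   ⟨4, 7, [2], [0, 1, 2], 6, (.splS 0 (.cons (.leaf 0 [0xa4010101]) .nil))⟩,
   ⟨4, 12, [2], [2, 3], 6, (.splS 0 (.cons (.leaf 0 [0xa4010101]) .nil))⟩,
   ⟨4, 13, [2], [0, 2, 3], 6, (.splS 0 (.cons (.leaf 0 [0xa4010101]) .nil))⟩,
   ⟨4, 14, [2], [1, 2, 3], 6, (.splS 0 (.cons (.leaf 0 [0xa4010101]) .nil))⟩,
   ⟨4, 15, [2], [0, 1, 2, 3], 6, (.splS 0 (.cons (.leaf 0 [0xa4010101]) .nil))⟩,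
   ⟨4, 17, [2], [0, 4], 8, (.splS 0 (.cons (.splS 2 (.cons (.leaf 0 [0x841100c4010201]) .nil))
   .nil))⟩,
   ⟨4, 19, [2], [0, 1, 4], 8, (.splS 0 (.cons (.splS 2 (.cons (.leaf 0 [0x841100c4010201]) .nil))
   .nil))⟩,
   ⟨4, 20, [2], [2, 4], 6, (.splS 0 (.cons (.leaf 0 [0xa4010101]) .nil))⟩,
   ⟨4, 21, [2], [0, 2, 4], 6, (.splS 0 (.cons (.leaf 0 [0xa4010101]) .nil))⟩,
   ⟨4, 22, [2], [1, 2, 4], 6, (.splS 0 (.cons (.leaf 0 [0xa4010101]) .nil))⟩,
   ⟨4, 23, [2], [0, 1, 2, 4], 6, (.splS 0 (.cons (.leaf 0 [0xa4010101]) .nil))⟩,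
   ⟨4, 25, [2], [0, 3, 4], 8, (.splS 0 (.cons (.splS 2 (.cons (.leaf 0 [0x841100c4010201]) .nil))
   .nil))⟩,
   ⟨4, 27, [2], [0, 1, 3, 4], 8, (.splS 0 (.cons (.splS 2 (.cons (.leaf 0 [0x841100c4010201])
   .nil)) .nil))⟩,
   ⟨4, 28, [2], [2, 3, 4], 6, (.splS 0 (.cons (.leaf 0 [0xa4010101]) .nil))⟩,
   ⟨4, 29, [2], [0, 2, 3, 4], 6, (.splS 0 (.cons (.leaf 0 [0xa4010101]) .nil))⟩,
   ⟨4, 30, [2], [1, 2, 3, 4], 6, (.splS 0 (.cons (.leaf 0 [0xa4010101]) .nil))⟩,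
   ⟨4, 31, [2], [0, 1, 2, 3, 4], 6, (.splS 0 (.cons (.leaf 0 [0xa4010101]) .nil))⟩,
   ⟨5, 4, [0, 2], [2], 8, (.splS 0 (.cons (.splT 2 (.cons (.leaf 0 [0xa41200a0010201]) .nil))
   (.cons (.leaf 0 [0xa4010101]) .nil)))⟩,
   ⟨5, 5, [0, 2], [0, 2], 6, (.splS 0 (.cons (.leaf 0 [0x80010101]) (.cons (.leaf 0 [0xa4010101])
   .nil)))⟩,
   ⟨5, 6, [0, 2], [1, 2], 6, (.splS 0 (.cons (.splT 1 (.cons (.leaf 0 [0x900a00a0010090010302])
   (.cons (.leaf 0 [0xa40a0090010201]) .nil))) (.cons (.leaf 0 [0xa4010101]) .nil)))⟩,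
   ⟨5, 7, [0, 2], [0, 1, 2], 6, (.splS 0 (.cons (.leaf 0 [0x80010101]) (.cons (.leaf 0
   [0xa4010101]) .nil)))⟩,
   ⟨5, 12, [0, 2], [2, 3], 8, (.splS 0 (.cons (.splS 1 (.cons (.splT 2 (.cons (.leaf 0
   [0xa41200a0010201]) (.cons (.splT 3 (.cons (.leaf 0 [0xa41a00b0010201]) (.cons (.leaf 0
   [0xb41a00b01200b00100a0010080300501]) .nil))) .nil))) (.cons (.leaf 0 [0xa00b00b0010201])
   .nil))) (.cons (.leaf 0 [0xa4010101]) .nil)))⟩,
   ⟨5, 13, [0, 2], [0, 2, 3], 6, (.splS 0 (.cons (.leaf 0 [0x80010101]) (.cons (.leaf 0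
   [0xa4010101]) .nil)))⟩,
   ⟨5, 14, [0, 2], [1, 2, 3], 8, (.splS 0 (.cons (.splT 2 (.cons (.leaf 0
   [0x901200b00100a0010302]) (.cons (.leaf 0 [0xa41200a0010201]) (.cons (.splT 1 (.cons (.leaf 0
   [0x900a00a0010090010302]) (.cons (.leaf 0 [0xa00a00b0010090010302]) (.cons (.leaf 0
   [0xb00a00b41200a0010090010080280501]) .nil)))) .nil)))) (.cons (.leaf 0 [0xa4010101]) .nil)))⟩,
   ⟨5, 15, [0, 2], [0, 1, 2, 3], 6, (.splS 0 (.cons (.leaf 0 [0x80010101]) (.cons (.leaf 0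
   [0xa4010101]) .nil)))⟩,
   ⟨5, 17, [0, 2], [0, 4], 8, (.splS 0 (.cons (.leaf 0 [0x80010101]) (.cons (.splS 2 (.cons (.leaf
   0 [0x80110084010201]) (.cons (.leaf 0 [0x841100c4010201]) .nil))) .nil)))⟩,
   ⟨5, 19, [0, 2], [0, 1, 4], 8, (.splS 0 (.cons (.leaf 0 [0x80010101]) (.cons (.splS 2 (.cons
   (.leaf 0 [0x80110084010201]) (.cons (.leaf 0 [0x841100c4010201]) .nil))) .nil)))⟩,
   ⟨5, 20, [0, 2], [2, 4], 10, (.splS 0 (.cons (.splT 4 (.cons (.leaf 0 [0xa42200c0010201]) (.cons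
   (.splT 2 (.cons (.leaf 0 [0xa01200c00100a0010302]) (.cons (.leaf 0
   [0xc01200c42200c00100a0010080400501]) .nil))) .nil))) (.cons (.leaf 0 [0xa4010101]) .nil)))⟩,
   ⟨5, 21, [0, 2], [0, 2, 4], 6, (.splS 0 (.cons (.leaf 0 [0x80010101]) (.cons (.leaf 0
   [0xa4010101]) .nil)))⟩,
   ⟨5, 22, [0, 2], [1, 2, 4], 10, (.splS 0 (.cons (.splT 1 (.cons (.leaf 0
   [0x900a00a0010090010302]) (.cons (.leaf 0 [0xa40a0090010201]) (.cons (.splS 5 (.cons (.splT 2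
   (.cons (.leaf 0 [0x901200c40a00a0010090010080280501]) (.cons (.leaf 0 [0xa01200c00100a0010302])
   (.cons (.leaf 0 [0xc01200902900c00a00a0010090010502]) .nil)))) (.cons (.leaf 0
   [0xa42900c00a0090010301]) .nil))) .nil)))) (.cons (.leaf 0 [0xa4010101]) .nil)))⟩,
   ⟨5, 23, [0, 2], [0, 1, 2, 4], 6, (.splS 0 (.cons (.leaf 0 [0x80010101]) (.cons (.leaf 0
   [0xa4010101]) .nil)))⟩,
   ⟨5, 25, [0, 2], [0, 3, 4], 8, (.splS 0 (.cons (.leaf 0 [0x80010101]) (.cons (.splS 2 (.cons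
   (.leaf 0 [0x80110084010201]) (.cons (.leaf 0 [0x841100c4010201]) .nil))) .nil)))⟩,
   ⟨5, 27, [0, 2], [0, 1, 3, 4], 8, (.splS 0 (.cons (.leaf 0 [0x80010101]) (.cons (.splS 2 (.cons
   (.leaf 0 [0x80110084010201]) (.cons (.leaf 0 [0x841100c4010201]) .nil))) .nil)))⟩,
   ⟨5, 28, [0, 2], [2, 3, 4], 10, (.splS 0 (.cons (.splS 1 (.cons (.splS 5 (.cons (.splT 4 (.cons
   (.leaf 0 [0xa42200c0010201]) (.cons (.leaf 0 [0xb02200842b00c0010301]) (.cons (.splT 2 (.cons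
   (.leaf 0 [0xa01200c00100a0010302]) (.cons (.leaf 0 [0xb01200c02200b02900c00100a0010502]) (.cons
   (.leaf 0 [0xc01200c42200c00100a0010080400501]) .nil)))) .nil)))) (.cons (.splT 4 (.cons (.leaf
   0 [0xa42200c0010201]) (.cons (.splT 2 (.cons (.leaf 0 [0xa01200c00100a0010302]) (.cons (.leaf 0
   [0xb01200a42900a0010301]) (.cons (.leaf 0 [0xc01200b42200c00100a0010080380501]) .nil)))) (.cons
   (.splT 2 (.cons (.leaf 0 [0xa01200c00100a0010302]) (.cons (.leaf 0 [0xb01200a42900a0010301])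
   (.cons (.leaf 0 [0xc01200c42200c00100a0010080400501]) .nil)))) .nil)))) .nil))) (.cons (.leaf 0
   [0xa00b00b0010201]) .nil))) (.cons (.leaf 0 [0xa4010101]) .nil)))⟩,
   ⟨5, 29, [0, 2], [0, 2, 3, 4], 6, (.splS 0 (.cons (.leaf 0 [0x80010101]) (.cons (.leaf 0
   [0xa4010101]) .nil)))⟩]

theorem certs1_ok : AllB certs1 := allB_of_okB (by decide +kernel)

/-- Certificates. -/
def certs2 : List BCert :=
  [
   ⟨5, 30, [0, 2], [1, 2, 3, 4], 8, (.splS 0 (.cons (.splT 3 (.cons (.leaf 0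
   [0x901a00c00100b0010302]) (.cons (.leaf 0 [0xa41a00b0010201]) (.cons (.splT 1 (.cons (.leaf 0
   [0x900a00a0010090010302]) (.cons (.leaf 0 [0xa00a00b0010090010302]) (.cons (.leaf 0
   [0xb00a00c0010090010302]) (.cons (.leaf 0 [0xc00a00b41a00b0010090010080300501]) .nil)))))
   (.cons (.splT 1 (.cons (.leaf 0 [0x900a00a0010090010302]) (.cons (.leaf 0
   [0xa00a00b0010090010302]) (.cons (.leaf 0 [0xb00a00c0010090010302]) (.cons (.leaf 0
   [0xc00a00c41a00b0010090010080380501]) .nil))))) .nil))))) (.cons (.leaf 0 [0xa4010101])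
   .nil)))⟩,
   ⟨5, 31, [0, 2], [0, 1, 2, 3, 4], 6, (.splS 0 (.cons (.leaf 0 [0x80010101]) (.cons (.leaf 0
   [0xa4010101]) .nil)))⟩,
   ⟨6, 4, [1, 2], [2], 8, (.splS 0 (.cons (.splS 1 (.cons (.splT 3 (.cons (.leaf 0
   [0xa41a00a20900a2010301]) .nil)) (.cons (.splT 2 (.cons (.leaf 0 [0xa41200a40900a2010301])
   .nil)) .nil))) (.cons (.leaf 0 [0xa4010101]) .nil)))⟩,
   ⟨6, 5, [1, 2], [0, 2], 6, (.splS 0 (.cons (.splS 1 (.cons (.leaf 0 [0x820900a2010201]) (.cons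
   (.leaf 0 [0xa4090082010201]) .nil))) (.cons (.leaf 0 [0xa4010101]) .nil)))⟩,
   ⟨6, 6, [1, 2], [1, 2], 6, (.splS 0 (.cons (.leaf 0 [0x92010101]) (.cons (.leaf 0 [0xa4010101])
   .nil)))⟩,
   ⟨6, 7, [1, 2], [0, 1, 2], 6, (.splS 0 (.cons (.leaf 0 [0x92010101]) (.cons (.leaf 0
   [0xa4010101]) .nil)))⟩,
   ⟨6, 12, [1, 2], [2, 3], 10, (.splS 0 (.cons (.splS 1 (.cons (.splT 3 (.cons (.leaf 0
   [0xa41a00a20900a2010301]) (.cons (.splT 4 (.cons (.leaf 0 [0xa42200b20900a2010301]) (.cons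
   (.splT 5 (.cons (.leaf 0 [0xa42a00b42200b41a00b20900a2090122010080380701]) (.cons (.leaf 0
   [0xb42a00b42200b41a00b20900a2090122010080400701]) .nil))) .nil))) .nil))) (.cons (.splT 3
   (.cons (.leaf 0 [0xa41a00a40900b2010301]) (.cons (.splT 4 (.cons (.leaf 0
   [0xa42200b40900b2010301]) (.cons (.splT 2 (.cons (.leaf 0 [0xa21200b40900a2010301]) (.cons
   (.leaf 0 [0xb21200b42200b41a00b40900a40900b20100a2010080380801]) .nil))) .nil))) .nil)))
   .nil))) (.cons (.leaf 0 [0xa4010101]) .nil)))⟩,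
   ⟨6, 13, [1, 2], [0, 2, 3], 6, (.splS 0 (.cons (.splS 1 (.cons (.leaf 0 [0x820900a2010201])
   (.cons (.leaf 0 [0x840900b2010201]) .nil))) (.cons (.leaf 0 [0xa4010101]) .nil)))⟩,
   ⟨6, 14, [1, 2], [1, 2, 3], 6, (.splS 0 (.cons (.leaf 0 [0x92010101]) (.cons (.leaf 0
   [0xa4010101]) .nil)))⟩,
   ⟨6, 15, [1, 2], [0, 1, 2, 3], 6, (.splS 0 (.cons (.leaf 0 [0x92010101]) (.cons (.leaf 0
   [0xa4010101]) .nil)))⟩,
   ⟨6, 17, [1, 2], [0, 4], 10, (.splS 0 (.cons (.splS 1 (.cons (.splS 2 (.cons (.splS 3 (.cons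
   (.leaf 0 [0x821900821100820900c2010401]) (.cons (.leaf 0 [0x841900821100c2090082010401])
   .nil))) (.cons (.leaf 0 [0x841100820900c2010301]) .nil))) (.cons (.splS 3 (.cons (.leaf 0
   [0x821900840900c2010301]) (.cons (.leaf 0 [0x841900c4090082010301]) .nil))) .nil))) (.cons
   (.splS 2 (.cons (.splS 3 (.cons (.leaf 0 [0x821900821100c4010301]) (.cons (.splS 5 (.cons
   (.leaf 0 [0x822900841900c2110084010401]) (.cons (.leaf 0 [0x842900c4190082110084010401])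
   .nil))) .nil))) (.cons (.leaf 0 [0x841100c4010201]) .nil))) .nil)))⟩,
   ⟨6, 18, [1, 2], [1, 4], 12, (.splS 0 (.cons (.leaf 0 [0x92010101]) (.cons (.splS 2 (.cons
   (.splT 1 (.cons (.leaf 0 [0x920a0092110094010301]) (.cons (.splT 4 (.cons (.leaf 0
   [0x922200921100c4010301]) (.cons (.leaf 0 [0xc22200c20a00921100c4010094010080400601]) .nil)))
   .nil))) (.cons (.splT 3 (.cons (.leaf 0 [0x921a00941100c4010301]) (.cons (.splT 6 (.cons (.leaf
   0 [0x923200c41100c4010301]) (.cons (.splT 1 (.cons (.leaf 0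
   [0x920a00c23200c21a00c41100941100c4010094010080500801]) (.cons (.leaf 0
   [0xc20a00c23200c41a00c4110094110144010094010080500802]) .nil))) .nil))) .nil))) .nil)))
   .nil)))⟩,
   ⟨6, 19, [1, 2], [0, 1, 4], 8, (.splS 0 (.cons (.leaf 0 [0x92010101]) (.cons (.splS 2 (.cons
   (.leaf 0 [0x92110084010201]) (.cons (.leaf 0 [0x841100c4010201]) .nil))) .nil)))⟩,
   ⟨6, 21, [1, 2], [0, 2, 4], 6, (.splS 0 (.cons (.splS 1 (.cons (.leaf 0 [0x820900a2010201])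
   (.cons (.leaf 0 [0xa4090082010201]) .nil))) (.cons (.leaf 0 [0xa4010101]) .nil)))⟩,
   ⟨6, 22, [1, 2], [1, 2, 4], 6, (.splS 0 (.cons (.leaf 0 [0x92010101]) (.cons (.leaf 0
   [0xa4010101]) .nil)))⟩,
   ⟨6, 23, [1, 2], [0, 1, 2, 4], 6, (.splS 0 (.cons (.leaf 0 [0x92010101]) (.cons (.leaf 0
   [0xa4010101]) .nil)))⟩,
   ⟨6, 25, [1, 2], [0, 3, 4], 8, (.splS 0 (.cons (.splS 1 (.cons (.splS 2 (.cons (.leaf 0
   [0x821100820900b2010301]) (.cons (.leaf 0 [0x841100820900c2010301]) .nil))) (.cons (.leaf 0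
   [0x840900b2010201]) .nil))) (.cons (.splS 2 (.cons (.leaf 0 [0x821100b4010201]) (.cons (.leaf 0
   [0x841100c4010201]) .nil))) .nil)))⟩,
   ⟨6, 26, [1, 2], [1, 3, 4], 10, (.splS 0 (.cons (.leaf 0 [0x92010101]) (.cons (.splS 2 (.cons
   (.splT 1 (.cons (.leaf 0 [0x920a0092110094010301]) (.cons (.leaf 0 [0xb20c00c4010201]) (.cons
   (.leaf 0 [0xc20a00b21100b4010094010402]) .nil)))) (.cons (.splS 4 (.cons (.splT 1 (.cons (.splT
   3 (.cons (.leaf 0 [0x921a00941100c4010301]) (.cons (.leaf 0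
   [0xb21a00920a00c41100941100c4010094010602]) (.cons (.leaf 0
   [0xc21a01120a00b22100b4110094110114010602]) .nil)))) (.cons (.leaf 0 [0xb20c00c4010201]) (.cons
   (.leaf 0 [0xc20a00b41100c4010094010402]) .nil)))) (.cons (.splT 1 (.cons (.splT 3 (.cons (.leaf
   0 [0x921a00941100c4010301]) (.cons (.leaf 0 [0xb21a00920a00c41100941100c4010094010602]) (.cons
   (.leaf 0 [0xc21a01120a00b42100c4110094110114010602]) .nil)))) (.cons (.leaf 0
   [0xb20c00c4010201]) (.cons (.leaf 0 [0xc20a00b41100c4010094010402]) .nil)))) .nil))) .nil)))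
   .nil)))⟩,
   ⟨6, 27, [1, 2], [0, 1, 3, 4], 8, (.splS 0 (.cons (.leaf 0 [0x92010101]) (.cons (.splS 2 (.cons
   (.leaf 0 [0x821100b4010201]) (.cons (.leaf 0 [0x841100c4010201]) .nil))) .nil)))⟩,
   ⟨6, 29, [1, 2], [0, 2, 3, 4], 6, (.splS 0 (.cons (.splS 1 (.cons (.leaf 0 [0x820900a2010201])
   (.cons (.leaf 0 [0x840900b2010201]) .nil))) (.cons (.leaf 0 [0xa4010101]) .nil)))⟩,
   ⟨6, 30, [1, 2], [1, 2, 3, 4], 6, (.splS 0 (.cons (.leaf 0 [0x92010101]) (.cons (.leaf 0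
   [0xa4010101]) .nil)))⟩,
   ⟨6, 31, [1, 2], [0, 1, 2, 3, 4], 6, (.splS 0 (.cons (.leaf 0 [0x92010101]) (.cons (.leaf 0
   [0xa4010101]) .nil)))⟩,
   ⟨7, 4, [0, 1, 2], [2], 8, (.splS 0 (.cons (.splT 2 (.cons (.leaf 0 [0xa41200a0010201]) .nil))
   (.cons (.splS 1 (.cons (.splT 3 (.cons (.splT 2 (.cons (.leaf 0 [0xa41200a41a00a00900a2010401])
   .nil)) .nil)) (.cons (.splT 3 (.cons (.leaf 0 [0xa41a00a20900a2010301]) .nil)) (.cons (.splT 2
   (.cons (.leaf 0 [0xa41200a40900a2010301]) .nil)) .nil)))) (.cons (.leaf 0 [0xa4010101])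
   .nil))))⟩,
   ⟨7, 5, [0, 1, 2], [0, 2], 6, (.splS 0 (.cons (.leaf 0 [0x80010101]) (.cons (.splS 1 (.cons
   (.leaf 0 [0x80090082010201]) (.cons (.leaf 0 [0x820900a2010201]) (.cons (.leaf 0
   [0xa4090082010201]) .nil)))) (.cons (.leaf 0 [0xa4010101]) .nil))))⟩,
   ⟨7, 6, [0, 1, 2], [1, 2], 6, (.splS 0 (.cons (.splT 1 (.cons (.leaf 0 [0x900a00a0010090010302])
   (.cons (.leaf 0 [0xa40a0090010201]) .nil))) (.cons (.leaf 0 [0x92010101]) (.cons (.leaf 0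
   [0xa4010101]) .nil))))⟩,
   ⟨7, 7, [0, 1, 2], [0, 1, 2], 6, (.splS 0 (.cons (.leaf 0 [0x80010101]) (.cons (.leaf 0
   [0x92010101]) (.cons (.leaf 0 [0xa4010101]) .nil))))⟩,
   ⟨7, 12, [0, 1, 2], [2, 3], 10, (.splS 0 (.cons (.splT 2 (.cons (.leaf 0 [0xa41200a0010201])
   (.cons (.splT 3 (.cons (.leaf 0 [0xa41a00b0010201]) (.cons (.leaf 0
   [0xb41a00b01200b00100a0010080300501]) .nil))) .nil))) (.cons (.splS 1 (.cons (.splT 3 (.cons
   (.leaf 0 [0x1241a00a00900b2010301]) (.cons (.splT 4 (.cons (.splT 2 (.cons (.leaf 0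
   [0xa01200b00900a2010301]) (.cons (.leaf 0 [0xb01201242200b41a01300900b20100a2010080300701])
   .nil))) (.cons (.splT 2 (.cons (.leaf 0 [0xa01200b00900a2010301]) (.cons (.leaf 0
   [0x1301201342201341a01300900a00900b2010122010100380801]) .nil))) .nil))) .nil))) (.cons (.splT
   3 (.cons (.leaf 0 [0xa41a00a20900a2010301]) (.cons (.splT 4 (.cons (.leaf 0
   [0xa42200b20900a2010301]) (.cons (.leaf 0 [0xb42200b01a00b20900a2090122010080380601]) .nil)))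
   .nil))) (.cons (.leaf 0 [0xa40900a00b00b2010301]) .nil)))) (.cons (.leaf 0 [0xa4010101])
   .nil))))⟩,
   ⟨7, 13, [0, 1, 2], [0, 2, 3], 6, (.splS 0 (.cons (.leaf 0 [0x80010101]) (.cons (.splS 1 (.cons
   (.leaf 0 [0x80090082010201]) (.cons (.leaf 0 [0x820900a2010201]) (.cons (.leaf 0
   [0x840900b2010201]) .nil)))) (.cons (.leaf 0 [0xa4010101]) .nil))))⟩,
   ⟨7, 14, [0, 1, 2], [1, 2, 3], 8, (.splS 0 (.cons (.splT 2 (.cons (.leaf 0
   [0x901200b00100a0010302]) (.cons (.leaf 0 [0xa41200a0010201]) (.cons (.splT 1 (.cons (.leaf 0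
   [0x900a00a0010090010302]) (.cons (.leaf 0 [0xa00a00b0010090010302]) (.cons (.leaf 0
   [0xb00a00b41200a0010090010080280501]) .nil)))) .nil)))) (.cons (.leaf 0 [0x92010101]) (.cons
   (.leaf 0 [0xa4010101]) .nil))))⟩,
   ⟨7, 15, [0, 1, 2], [0, 1, 2, 3], 6, (.splS 0 (.cons (.leaf 0 [0x80010101]) (.cons (.leaf 0
   [0x92010101]) (.cons (.leaf 0 [0xa4010101]) .nil))))⟩,
   ⟨7, 17, [0, 1, 2], [0, 4], 10, (.splS 0 (.cons (.leaf 0 [0x80010101]) (.cons (.splS 1 (.cons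
   (.leaf 0 [0x80090082010201]) (.cons (.splS 2 (.cons (.leaf 0 [0x80110082090082010301]) (.cons
   (.splS 3 (.cons (.leaf 0 [0x80190082110082090082010401]) (.cons (.leaf 0
   [0x821900821100820900c2010401]) (.cons (.leaf 0 [0x841900821100c2090082010401]) .nil)))) (.cons
   (.leaf 0 [0x841100820900c2010301]) .nil)))) (.cons (.splS 3 (.cons (.leaf 0
   [0x80190084090082010301]) (.cons (.leaf 0 [0x821900840900c2010301]) (.cons (.leaf 0
   [0x841900c4090082010301]) .nil)))) .nil)))) (.cons (.splS 2 (.cons (.leaf 0 [0x80110084010201])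
   (.cons (.splS 3 (.cons (.leaf 0 [0x80190082110084010301]) (.cons (.leaf 0
   [0x821900821100c4010301]) (.cons (.splS 5 (.cons (.leaf 0 [0x80290084190082110084010401])
   (.cons (.leaf 0 [0x822900841900c2110084010401]) (.cons (.leaf 0 [0x842900c4190082110084010401])
   .nil)))) .nil)))) (.cons (.leaf 0 [0x841100c4010201]) .nil)))) .nil))))⟩,
   ⟨7, 18, [0, 1, 2], [1, 4], 12, (.splS 0 (.cons (.splT 1 (.cons (.leaf 0 [0x920a0090010201])
   (.cons (.splT 4 (.cons (.leaf 0 [0x922200c0010201]) (.cons (.leaf 0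
   [0xc22200c00a00c0010090010080400501]) .nil))) .nil))) (.cons (.leaf 0 [0x92010101]) (.cons
   (.splS 2 (.cons (.splT 4 (.cons (.splT 3 (.cons (.leaf 0 [0x901a00901100c4010301]) (.cons
   (.splT 6 (.cons (.leaf 0 [0x923200922200c01100c4010401]) (.cons (.leaf 0
   [0xc23200c41a00922200902200c0110090110144010080500801]) .nil))) .nil))) (.cons (.splT 3 (.cons
   (.leaf 0 [0x901a00901100c4010301]) (.cons (.splT 1 (.cons (.splT 6 (.cons (.leaf 0
   [0x923200920a00c0110094010401]) (.cons (.leaf 0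
   [0xc23201120a00c01a00c0110090110114010080500701]) .nil))) (.cons (.leaf 0
   [0x1420a00c41a00c22200901100c4010114010080400080380801]) .nil))) .nil))) .nil))) (.cons (.splT
   1 (.cons (.leaf 0 [0x920a0092110094010301]) (.cons (.splT 4 (.cons (.leaf 0
   [0x922200921100c4010301]) (.cons (.leaf 0 [0xc22200c20a00921100c4010094010080400601]) .nil)))
   .nil))) (.cons (.splT 3 (.cons (.leaf 0 [0x921a00941100c4010301]) (.cons (.splT 6 (.cons (.leaf
   0 [0x923200c41100c4010301]) (.cons (.leaf 0 [0xc23200c01a00c4110094110144010080500601]) .nil)))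
   .nil))) .nil)))) .nil))))⟩,
   ⟨7, 19, [0, 1, 2], [0, 1, 4], 8, (.splS 0 (.cons (.leaf 0 [0x80010101]) (.cons (.leaf 0
   [0x92010101]) (.cons (.splS 2 (.cons (.leaf 0 [0x80110084010201]) (.cons (.leaf 0
   [0x92110084010201]) (.cons (.leaf 0 [0x841100c4010201]) .nil)))) .nil))))⟩,
   ⟨7, 20, [0, 1, 2], [2, 4], 12, (.splS 0 (.cons (.splT 2 (.cons (.leaf 0
   [0xa01200c00100a0010302]) (.cons (.splT 4 (.cons (.leaf 0 [0xa42200c0010201]) (.cons (.leaf 0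
   [0xc42200c01200c00100a0010080400501]) .nil))) .nil))) (.cons (.splS 1 (.cons (.splT 4 (.cons
   (.splT 5 (.cons (.leaf 0 [0xa42a00a42200c00900c2010401]) (.cons (.splT 3 (.cons (.leaf 0
   [0xa01a01242200c00900a0090142010502]) (.cons (.leaf 0
   [0xc01a00c42a01242200c00900a0090142010080480701]) .nil))) .nil))) (.cons (.splT 5 (.cons (.splT
   2 (.cons (.leaf 0 [0xa01201242a01400900c20100a2010502]) (.cons (.leaf 0
   [0xc01201242a00c42201400900c20100a2010080400701]) .nil))) (.cons (.splT 2 (.cons (.splT 3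
   (.cons (.leaf 0 [0xa01a00a01200c00900a00900c20100a2010602]) (.cons (.leaf 0
   [0xc01a00a01200c42a00c00900a00900c20100a2010080480801]) .nil))) (.cons (.splS 7 (.cons (.leaf 0
   [0x843b00c01200c22a00c00900a2010501]) (.cons (.splT 3 (.cons (.leaf 0
   [0xa01a00c01200c42200c00900a00900c20100a2010080400801]) (.cons (.leaf 0
   [0x1401a01223901c01201422a00c42201400901200900c20101a2010180400a01]) .nil))) (.cons (.splT 3
   (.cons (.leaf 0 [0xa01a00c01200c42200c00900a00900c20100a2010080400801]) (.cons (.leaf 0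
   [0x1401a01243900c01200c42201200900c20100a2010080400801]) .nil))) .nil)))) .nil))) .nil)))
   .nil))) (.cons (.splT 5 (.cons (.leaf 0 [0xa42a00c20900a2010301]) (.cons (.splT 3 (.cons (.leaf
   0 [0xa01a00c20900a2090122010402]) (.cons (.leaf 0 [0xc01a00c42a00c20900a2090122010080480601])
   .nil))) .nil))) (.cons (.splT 2 (.cons (.leaf 0 [0xa01201240900c20100a2010402]) (.cons (.splT 4
   (.cons (.leaf 0 [0xa42200a40900c2010301]) (.cons (.leaf 0
   [0xc42200c01201240900c20100a2010080400601]) .nil))) .nil))) .nil)))) (.cons (.leaf 0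
   [0xa4010101]) .nil))))⟩,
   ⟨7, 21, [0, 1, 2], [0, 2, 4], 6, (.splS 0 (.cons (.leaf 0 [0x80010101]) (.cons (.splS 1 (.cons
   (.leaf 0 [0x80090082010201]) (.cons (.leaf 0 [0x820900a2010201]) (.cons (.leaf 0
   [0xa4090082010201]) .nil)))) (.cons (.leaf 0 [0xa4010101]) .nil))))⟩,
   ⟨7, 22, [0, 1, 2], [1, 2, 4], 10, (.splS 0 (.cons (.splT 1 (.cons (.leaf 0
   [0x900a00a0010090010302]) (.cons (.leaf 0 [0xa40a0090010201]) (.cons (.splT 4 (.cons (.leaf 0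
   [0x922200c0010201]) (.cons (.leaf 0 [0xa42200c0010201]) (.cons (.leaf 0
   [0xc22200c00a00c0010090010080400501]) .nil)))) .nil)))) (.cons (.leaf 0 [0x92010101]) (.cons
   (.leaf 0 [0xa4010101]) .nil))))⟩,
   ⟨7, 23, [0, 1, 2], [0, 1, 2, 4], 6, (.splS 0 (.cons (.leaf 0 [0x80010101]) (.cons (.leaf 0
   [0x92010101]) (.cons (.leaf 0 [0xa4010101]) .nil))))⟩,
   ⟨7, 25, [0, 1, 2], [0, 3, 4], 8, (.splS 0 (.cons (.leaf 0 [0x80010101]) (.cons (.splS 1 (.cons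
   (.leaf 0 [0x80090082010201]) (.cons (.splS 2 (.cons (.leaf 0 [0x80110082090082010301]) (.cons
   (.leaf 0 [0x821100820900b2010301]) (.cons (.leaf 0 [0x841100820900c2010301]) .nil)))) (.cons
   (.leaf 0 [0x840900b2010201]) .nil)))) (.cons (.splS 2 (.cons (.leaf 0 [0x80110084010201])
   (.cons (.leaf 0 [0x821100b4010201]) (.cons (.leaf 0 [0x841100c4010201]) .nil)))) .nil))))⟩,
   ⟨7, 26, [0, 1, 2], [1, 3, 4], 10, (.splS 0 (.cons (.splS 2 (.cons (.splT 3 (.cons (.leaf 0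
   [0x901a00c00100b0010302]) (.cons (.splT 1 (.cons (.leaf 0 [0x920a0090010201]) (.cons (.leaf 0
   [0xb00a00c0010090010302]) (.cons (.leaf 0 [0xc00a00b41a00b0010090010080300501]) .nil)))) (.cons
   (.splT 1 (.cons (.leaf 0 [0x920a0090010201]) (.cons (.leaf 0 [0xb00a00c0010090010302]) (.cons
   (.leaf 0 [0xc00a00c41a00b0010090010080380501]) .nil)))) .nil)))) (.cons (.leaf 0
   [0x901300b0010201]) (.cons (.leaf 0 [0xa01300c0010201]) .nil)))) (.cons (.leaf 0 [0x92010101])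
   (.cons (.splS 2 (.cons (.splT 1 (.cons (.splS 4 (.cons (.splT 5 (.cons (.leaf 0
   [0x902a01120a00c01100b0110114010502]) (.cons (.splT 3 (.cons (.leaf 0 [0x901a00901100c4010301])
   (.cons (.leaf 0 [0xb01a00c01100b4010301]) (.cons (.leaf 0
   [0xc01a00b42a01120a00b0110090110114010080400701]) .nil)))) (.cons (.splT 3 (.cons (.leaf 0
   [0x901a00901100c4010301]) (.cons (.leaf 0 [0xb01a00c01100b4010301]) (.cons (.leaf 0
   [0xc01a00c42a01120a00b0110090110114010080480701]) .nil)))) .nil)))) (.cons (.leaf 0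
   [0x902300920a00b0110094010401]) (.cons (.leaf 0 [0xa02300920a00c0110094010401]) .nil)))) (.cons
   (.leaf 0 [0xb20c00c4010201]) (.cons (.leaf 0 [0xc00a00b0110094010301]) .nil)))) (.cons (.leaf 0
   [0x921100901300b4010301]) (.cons (.splS 4 (.cons (.splT 3 (.cons (.leaf 0
   [0x921a00941100c4010301]) (.cons (.leaf 0 [0xb01a00c4110094110144010402]) (.cons (.leaf 0
   [0xc01a00b02100941100a01300c4010501]) .nil)))) (.cons (.leaf 0 [0x902300b41100c4010301]) (.cons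
   (.leaf 0 [0xa02300c41100c4010301]) .nil)))) .nil)))) .nil))))⟩,
   ⟨7, 27, [0, 1, 2], [0, 1, 3, 4], 8, (.splS 0 (.cons (.leaf 0 [0x80010101]) (.cons (.leaf 0
   [0x92010101]) (.cons (.splS 2 (.cons (.leaf 0 [0x80110084010201]) (.cons (.leaf 0
   [0x821100b4010201]) (.cons (.leaf 0 [0x841100c4010201]) .nil)))) .nil))))⟩,
   ⟨7, 28, [0, 1, 2], [2, 3, 4], 12, (.splS 0 (.cons (.splS 1 (.cons (.splT 3 (.cons (.leaf 0
   [0xa41a00b0010201]) (.cons (.splT 4 (.cons (.leaf 0 [0xa42200c0010201]) (.cons (.leaf 0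
   [0xb42200b81c00c0010301]) (.cons (.leaf 0 [0xc42200b01a00c00100b0010080400501]) .nil)))) (.cons
   (.splT 4 (.cons (.leaf 0 [0xa42200c0010201]) (.cons (.splT 2 (.cons (.leaf 0
   [0xa01200c00100a0010302]) (.cons (.leaf 0 [0xb01200c41a00b00100a0010080380501]) (.cons (.leaf 0
   [0xc01200b42200c00100a0010080380501]) .nil)))) (.cons (.splT 2 (.cons (.leaf 0
   [0xa01200c00100a0010302]) (.cons (.leaf 0 [0xb01200c41a00b00100a0010080380501]) (.cons (.leaf 0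
   [0xc01200c42200c00100a0010080400501]) .nil)))) .nil)))) .nil)))) (.cons (.leaf 0
   [0x900b00a0010201]) (.cons (.leaf 0 [0xa00b00b0010201]) .nil)))) (.cons (.splS 1 (.cons (.splS
   2 (.cons (.splS 3 (.cons (.splT 4 (.cons (.leaf 0 [0x1242200b00900c2010301]) (.cons (.splS 6
   (.cons (.leaf 0 [0x1023301302200b00900c2010401]) (.cons (.splS 7 (.cons (.splT 6 (.cons (.leaf
   0 [0x1223201023b01342200b00900c2010501]) (.cons (.leaf 0
   [0xb23200a03900b42200b02200b00900c2010601]) (.cons (.leaf 0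
   [0xc23200b03900b42200b02200b00900c2010601]) .nil)))) (.cons (.splT 5 (.cons (.splT 2 (.cons
   (.leaf 0 [0xa01200b00900a2010301]) (.cons (.leaf 0 [0xb01200c00900a2010301]) (.cons (.leaf 0
   [0xc01201242a00b42201400900c20100a2010080380701]) .nil)))) (.cons (.splT 2 (.cons (.leaf 0
   [0xa01200b00900a2010301]) (.cons (.leaf 0 [0xb01200c00900a2010301]) (.cons (.leaf 0
   [0xc01200b42a00a23100c00900a2010501]) .nil)))) (.cons (.leaf 0
   [0xc42a00a23900b02200b82400c00900c2010601]) .nil)))) (.cons (.leaf 0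
   [0x1243901302200b00900c2010401]) .nil)))) (.cons (.splS 7 (.cons (.leaf 0
   [0x1023b01223301302200b00900c2010501]) (.cons (.splT 5 (.cons (.splT 2 (.cons (.leaf 0
   [0xa01200b00900a2010301]) (.cons (.leaf 0 [0xb01200c00900a2010301]) (.cons (.leaf 0
   [0xc01200a42a00a43100c00900a2010501]) .nil)))) (.cons (.splT 2 (.cons (.leaf 0
   [0xa01200b00900a2010301]) (.cons (.leaf 0 [0xb01200c00900a2010301]) (.cons (.leaf 0
   [0xc01200b42a00a43100b82400c00900a2010601]) .nil)))) (.cons (.leaf 0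
   [0xc42a00a23900b02200b82400c00900c2010601]) .nil)))) (.cons (.leaf 0
   [0x1243901302200b00900c2010401]) .nil)))) .nil)))) (.cons (.splS 6 (.cons (.leaf 0
   [0x1043301402200b00900c2010401]) (.cons (.splS 7 (.cons (.leaf 0
   [0x1023b01402200b00900c2010401]) (.cons (.splT 5 (.cons (.splT 2 (.cons (.leaf 0
   [0xa01200b00900a2010301]) (.cons (.leaf 0 [0xb01200c00900a2010301]) (.cons (.leaf 0
   [0xc01200a42a00a23100c62400c00900a2010601]) .nil)))) (.cons (.splT 2 (.cons (.leaf 0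
   [0xa01200b00900a2010301]) (.cons (.leaf 0 [0xb01200c00900a2010301]) (.cons (.leaf 0
   [0xc01200b42a00a23100c00900a2010501]) .nil)))) (.cons (.leaf 0
   [0xc42a00a23901143300c02200c00900c2010601]) .nil)))) (.cons (.leaf 0
   [0x1243901143301402200b00900c2010501]) .nil)))) (.cons (.splS 7 (.cons (.leaf 0
   [0x1023b01402200b00900c2010401]) (.cons (.splT 2 (.cons (.leaf 0 [0xa01200b00900a2010301])
   (.cons (.leaf 0 [0xb01200c00900a2010301]) (.cons (.splT 3 (.cons (.leaf 0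
   [0xa01a00c00900b2010301]) (.cons (.leaf 0 [0xb01a00c01201243100a00900a2010501]) (.cons (.splT 5
   (.cons (.leaf 0 [0xa42a00c01200a43100c00900a2010501]) (.cons (.leaf 0
   [0xb42a00c01a01401201243100c00900a0090122010080400801]) (.cons (.leaf 0
   [0xc62c00c01a00c01200a23900a43100a00900a2010701]) .nil)))) .nil)))) .nil)))) (.cons (.splT 3
   (.cons (.leaf 0 [0xa01a00c00900b2010301]) (.cons (.leaf 0 [0x1301a01243100a00900b2010401])
   (.cons (.leaf 0 [0x1401a01243900a00900b2010401]) .nil)))) .nil)))) .nil)))) .nil)))) (.cons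
   (.leaf 0 [0x1101b00b00900c2010301]) (.cons (.splT 4 (.cons (.leaf 0
   [0xa42200a01b00c00900c2010401]) (.cons (.splT 2 (.cons (.leaf 0
   [0xa01201201b01400900c20100a2010502]) (.cons (.leaf 0 [0xb01200c00900a2010301]) (.cons (.leaf 0
   [0xc01200b42201201b01400900c20100a2010080380701]) .nil)))) (.cons (.splT 2 (.cons (.leaf 0
   [0xa01201201b01400900c20100a2010502]) (.cons (.leaf 0 [0xb01200c00900a2010301]) (.cons (.leaf 0
   [0xc01200c42201201b01400900c20100a2010080400701]) .nil)))) .nil)))) .nil)))) (.cons (.leaf 0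
   [0x1101300a00900b2010301]) (.cons (.leaf 0 [0x1201300b00900c2010301]) .nil)))) (.cons (.splS 2
   (.cons (.splT 5 (.cons (.leaf 0 [0xa42a00c20900a2010301]) (.cons (.splT 3 (.cons (.leaf 0
   [0xa01a00c20900a2090122010402]) (.cons (.leaf 0 [0xb01a00c01100a20900900b00a2010501]) (.cons
   (.leaf 0 [0xc01a00b42a00c20900a2090122010080400601]) .nil)))) (.cons (.splT 3 (.cons (.leaf 0
   [0xa01a00c20900a2090122010402]) (.cons (.leaf 0 [0xb01a00c01100a20900900b00a2010501]) (.cons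
   (.leaf 0 [0xc01a00c42a00c20900a2090122010080480601]) .nil)))) .nil)))) (.cons (.leaf 0
   [0x901300a20900a2010301]) (.cons (.leaf 0 [0xa01300b20900a2010301]) .nil)))) (.cons (.leaf 0
   [0xa40900a00b00b2010301]) .nil)))) (.cons (.leaf 0 [0xa4010101]) .nil))))⟩,
   ⟨7, 29, [0, 1, 2], [0, 2, 3, 4], 6, (.splS 0 (.cons (.leaf 0 [0x80010101]) (.cons (.splS 1
   (.cons (.leaf 0 [0x80090082010201]) (.cons (.leaf 0 [0x820900a2010201]) (.cons (.leaf 0
   [0x840900b2010201]) .nil)))) (.cons (.leaf 0 [0xa4010101]) .nil))))⟩,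
   ⟨7, 30, [0, 1, 2], [1, 2, 3, 4], 8, (.splS 0 (.cons (.splT 3 (.cons (.leaf 0
   [0x901a00c00100b0010302]) (.cons (.leaf 0 [0xa41a00b0010201]) (.cons (.splT 1 (.cons (.leaf 0
   [0x900a00a0010090010302]) (.cons (.leaf 0 [0xa00a00b0010090010302]) (.cons (.leaf 0
   [0xb00a00c0010090010302]) (.cons (.leaf 0 [0xc00a00b41a00b0010090010080300501]) .nil)))))
   (.cons (.splT 1 (.cons (.leaf 0 [0x900a00a0010090010302]) (.cons (.leaf 0
   [0xa00a00b0010090010302]) (.cons (.leaf 0 [0xb00a00c0010090010302]) (.cons (.leaf 0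
   [0xc00a00c41a00b0010090010080380501]) .nil))))) .nil))))) (.cons (.leaf 0 [0x92010101]) (.cons
   (.leaf 0 [0xa4010101]) .nil))))⟩,
   ⟨7, 31, [0, 1, 2], [0, 1, 2, 3, 4], 6, (.splS 0 (.cons (.leaf 0 [0x80010101]) (.cons (.leaf 0
   [0x92010101]) (.cons (.leaf 0 [0xa4010101]) .nil))))⟩,
   ⟨8, 8, [3], [3], 6, (.splS 0 (.cons (.leaf 0 [0xb6010101]) .nil))⟩,
   ⟨8, 9, [3], [0, 3], 6, (.splS 0 (.cons (.leaf 0 [0xb6010101]) .nil))⟩,
   ⟨8, 10, [3], [1, 3], 6, (.splS 0 (.cons (.leaf 0 [0xb6010101]) .nil))⟩,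
   ⟨8, 11, [3], [0, 1, 3], 6, (.splS 0 (.cons (.leaf 0 [0xb6010101]) .nil))⟩,
   ⟨8, 12, [3], [2, 3], 6, (.splS 0 (.cons (.leaf 0 [0xb6010101]) .nil))⟩,
   ⟨8, 13, [3], [0, 2, 3], 6, (.splS 0 (.cons (.leaf 0 [0xb6010101]) .nil))⟩]

theorem certs2_ok : AllB certs2 := allB_of_okB (by decide +kernel)

/-- Certificates. -/
def certs3 : List BCert :=
  [
   ⟨8, 14, [3], [1, 2, 3], 6, (.splS 0 (.cons (.leaf 0 [0xb6010101]) .nil))⟩,
   ⟨8, 15, [3], [0, 1, 2, 3], 6, (.splS 0 (.cons (.leaf 0 [0xb6010101]) .nil))⟩,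
   ⟨8, 24, [3], [3, 4], 6, (.splS 0 (.cons (.leaf 0 [0xb6010101]) .nil))⟩,
   ⟨8, 25, [3], [0, 3, 4], 6, (.splS 0 (.cons (.leaf 0 [0xb6010101]) .nil))⟩,
   ⟨8, 26, [3], [1, 3, 4], 6, (.splS 0 (.cons (.leaf 0 [0xb6010101]) .nil))⟩,
   ⟨8, 27, [3], [0, 1, 3, 4], 6, (.splS 0 (.cons (.leaf 0 [0xb6010101]) .nil))⟩,
   ⟨8, 28, [3], [2, 3, 4], 6, (.splS 0 (.cons (.leaf 0 [0xb6010101]) .nil))⟩,
   ⟨8, 29, [3], [0, 2, 3, 4], 6, (.splS 0 (.cons (.leaf 0 [0xb6010101]) .nil))⟩,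
   ⟨8, 30, [3], [1, 2, 3, 4], 6, (.splS 0 (.cons (.leaf 0 [0xb6010101]) .nil))⟩,
   ⟨8, 31, [3], [0, 1, 2, 3, 4], 6, (.splS 0 (.cons (.leaf 0 [0xb6010101]) .nil))⟩,
   ⟨9, 8, [0, 3], [3], 8, (.splS 0 (.cons (.splT 3 (.cons (.leaf 0 [0xb61a00b0010201]) .nil))
   (.cons (.leaf 0 [0xb6010101]) .nil)))⟩,
   ⟨9, 9, [0, 3], [0, 3], 6, (.splS 0 (.cons (.leaf 0 [0x80010101]) (.cons (.leaf 0 [0xb6010101])
   .nil)))⟩,
   ⟨9, 10, [0, 3], [1, 3], 8, (.splS 0 (.cons (.splT 1 (.cons (.splT 3 (.cons (.leaf 0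
   [0x901a00960a00b0010090010080100501]) (.cons (.leaf 0 [0xb61a00b0010201]) .nil))) (.cons (.leaf
   0 [0xb60a0090010201]) .nil))) (.cons (.leaf 0 [0xb6010101]) .nil)))⟩,
   ⟨9, 11, [0, 3], [0, 1, 3], 6, (.splS 0 (.cons (.leaf 0 [0x80010101]) (.cons (.leaf 0
   [0xb6010101]) .nil)))⟩,
   ⟨9, 12, [0, 3], [2, 3], 8, (.splS 0 (.cons (.splT 2 (.cons (.splT 3 (.cons (.leaf 0
   [0xa01a00a61200b00100a0010080200501]) (.cons (.leaf 0 [0xb61a00b0010201]) .nil))) (.cons (.leaf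
   0 [0xb61200a0010201]) .nil))) (.cons (.leaf 0 [0xb6010101]) .nil)))⟩,
   ⟨9, 13, [0, 3], [0, 2, 3], 6, (.splS 0 (.cons (.leaf 0 [0x80010101]) (.cons (.leaf 0
   [0xb6010101]) .nil)))⟩,
   ⟨9, 14, [0, 3], [1, 2, 3], 6, (.splS 0 (.cons (.splT 1 (.cons (.leaf 0
   [0x900a00a0010090010302]) (.cons (.leaf 0 [0xa00a00b0010090010302]) (.cons (.leaf 0
   [0xb60a0090010201]) .nil)))) (.cons (.leaf 0 [0xb6010101]) .nil)))⟩,
   ⟨9, 15, [0, 3], [0, 1, 2, 3], 6, (.splS 0 (.cons (.leaf 0 [0x80010101]) (.cons (.leaf 0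
   [0xb6010101]) .nil)))⟩,
   ⟨9, 24, [0, 3], [3, 4], 10, (.splS 0 (.cons (.splS 1 (.cons (.splT 3 (.cons (.leaf 0
   [0xb61a00b0010201]) (.cons (.splT 4 (.cons (.leaf 0 [0xb62200c0010201]) (.cons (.leaf 0
   [0xc62200c01a00c00100b0010080400501]) .nil))) .nil))) (.cons (.leaf 0 [0xb00b00c0010201])
   .nil))) (.cons (.leaf 0 [0xb6010101]) .nil)))⟩,
   ⟨9, 25, [0, 3], [0, 3, 4], 6, (.splS 0 (.cons (.leaf 0 [0x80010101]) (.cons (.leaf 0
   [0xb6010101]) .nil)))⟩,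
   ⟨9, 26, [0, 3], [1, 3, 4], 10, (.splS 0 (.cons (.splT 3 (.cons (.leaf 0
   [0x901a00c00100b0010302]) (.cons (.leaf 0 [0xb61a00b0010201]) (.cons (.splT 4 (.cons (.leaf 0
   [0x962200c01a00c00100b0010080280501]) (.cons (.leaf 0 [0xb62200c0010201]) (.cons (.leaf 0
   [0xc62200c01a00c00100b0010080400501]) .nil)))) .nil)))) (.cons (.leaf 0 [0xb6010101]) .nil)))⟩,
   ⟨9, 27, [0, 3], [0, 1, 3, 4], 6, (.splS 0 (.cons (.leaf 0 [0x80010101]) (.cons (.leaf 0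
   [0xb6010101]) .nil)))⟩,
   ⟨9, 28, [0, 3], [2, 3, 4], 8, (.splS 0 (.cons (.splS 1 (.cons (.splT 2 (.cons (.leaf 0
   [0xa01200c00100a0010302]) (.cons (.leaf 0 [0xb61200a0010201]) (.cons (.splT 3 (.cons (.leaf 0
   [0xa61a00c61200b00100a0010402]) (.cons (.leaf 0 [0xb61a00b0010201]) (.cons (.leaf 0
   [0xc61a00c01200b00100a0010080380501]) .nil)))) .nil)))) (.cons (.leaf 0 [0xb00b00c0010201])
   .nil))) (.cons (.leaf 0 [0xb6010101]) .nil)))⟩,
   ⟨9, 29, [0, 3], [0, 2, 3, 4], 6, (.splS 0 (.cons (.leaf 0 [0x80010101]) (.cons (.leaf 0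
   [0xb6010101]) .nil)))⟩,
   ⟨9, 30, [0, 3], [1, 2, 3, 4], 8, (.splS 0 (.cons (.splT 2 (.cons (.leaf 0
   [0x901200b00100a0010302]) (.cons (.leaf 0 [0xa01200c00100a0010302]) (.cons (.leaf 0
   [0xb61200a0010201]) (.cons (.splT 1 (.cons (.leaf 0 [0x900a00a0010090010302]) (.cons (.leaf 0
   [0xa00a00b0010090010302]) (.cons (.leaf 0 [0xb00a00c0010090010302]) (.cons (.leaf 0
   [0xc00a00c61200a0010090010080300501]) .nil))))) .nil))))) (.cons (.leaf 0 [0xb6010101])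
   .nil)))⟩,
   ⟨9, 31, [0, 3], [0, 1, 2, 3, 4], 6, (.splS 0 (.cons (.leaf 0 [0x80010101]) (.cons (.leaf 0
   [0xb6010101]) .nil)))⟩,
   ⟨10, 8, [1, 3], [3], 10, (.splS 0 (.cons (.splS 1 (.cons (.splT 3 (.cons (.splS 2 (.cons (.splT
   5 (.cons (.splT 4 (.cons (.leaf 0 [0xb62200b62a00b21100b20900b2010501]) .nil)) .nil)) (.cons
   (.splT 4 (.cons (.leaf 0 [0xb62200b61100b61a00b20900b2010501]) .nil)) .nil))) .nil)) (.cons
   (.splT 3 (.cons (.leaf 0 [0xb61a00b60900b2010301]) .nil)) .nil))) (.cons (.leaf 0 [0xb6010101])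
   .nil)))⟩,
   ⟨10, 9, [1, 3], [0, 3], 8, (.splS 0 (.cons (.splS 1 (.cons (.splS 2 (.cons (.leaf 0
   [0x821100820900b2010301]) (.cons (.leaf 0 [0xb6110082090082010301]) .nil))) (.cons (.leaf 0
   [0xb6090082010201]) .nil))) (.cons (.leaf 0 [0xb6010101]) .nil)))⟩,
   ⟨10, 10, [1, 3], [1, 3], 6, (.splS 0 (.cons (.leaf 0 [0x92010101]) (.cons (.leaf 0
   [0xb6010101]) .nil)))⟩,
   ⟨10, 11, [1, 3], [0, 1, 3], 6, (.splS 0 (.cons (.leaf 0 [0x92010101]) (.cons (.leaf 0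
   [0xb6010101]) .nil)))⟩,
   ⟨10, 12, [1, 3], [2, 3], 10, (.splS 0 (.cons (.splS 1 (.cons (.splT 3 (.cons (.splT 4 (.cons
   (.leaf 0 [0xa22200a61a00b20900a2090122010502]) (.cons (.leaf 0 [0xb62200b20900a2010301])
   .nil))) (.cons (.leaf 0 [0xb61a00a20900a2010301]) .nil))) (.cons (.splT 2 (.cons (.splT 3
   (.cons (.leaf 0 [0xa21a00a61201360900b20100a2010502]) (.cons (.leaf 0 [0xb61a00b60900b2010301])
   .nil))) (.cons (.leaf 0 [0xb61200b60900a2010301]) .nil))) .nil))) (.cons (.leaf 0 [0xb6010101])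
   .nil)))⟩,
   ⟨10, 13, [1, 3], [0, 2, 3], 6, (.splS 0 (.cons (.splS 1 (.cons (.leaf 0 [0x820900a2010201])
   (.cons (.leaf 0 [0xb6090082010201]) .nil))) (.cons (.leaf 0 [0xb6010101]) .nil)))⟩,
   ⟨10, 14, [1, 3], [1, 2, 3], 6, (.splS 0 (.cons (.leaf 0 [0x92010101]) (.cons (.leaf 0
   [0xb6010101]) .nil)))⟩,
   ⟨10, 15, [1, 3], [0, 1, 2, 3], 6, (.splS 0 (.cons (.leaf 0 [0x92010101]) (.cons (.leaf 0
   [0xb6010101]) .nil)))⟩,
   ⟨10, 24, [1, 3], [3, 4], 18, (.splS 0 (.cons (.splS 1 (.cons (.splS 2 (.cons (.splT 5 (.cons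
   (.leaf 0 [0x1362a00b21100c20900b2010401]) (.cons (.splS 3 (.cons (.splT 6 (.cons (.leaf 0
   [0x1363200961b00c21100b20900b2010501]) (.cons (.splS 10 (.cons (.splS 7 (.cons (.leaf 0
   [0x963b00c63200c62a00c21100c20900b2010601]) (.cons (.splT 0 (.cons (.splT 1 (.cons (.splT 4
   (.cons (.splT 3 (.cons (.leaf 0 [0xb21a01362200c21100b2090132010080080601]) (.cons (.splT 8
   (.cons (.leaf 0 [0xb64201362200c63200c62a00c21100b2110132090132010080500901]) (.cons (.splS 12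
   (.cons (.splT 11 (.cons (.leaf 0
   [0xb25a01464202362200c25101463201462a0142110132110232090232010080600080500c02]) (.cons (.leaf 0
   [0xc25a00b26100c64200c64401362200b25100c63200c62a00c21100b2110132090132010c02]) .nil))) (.cons
   (.leaf 0 [0xb66100c24200b62200c62a00b21100b20900b2010701]) .nil))) .nil))) .nil))) (.cons
   (.splT 7 (.cons (.leaf 0 [0x1363a01462201463201462a01421100b21100c20901320901b2010100500a01])
   (.cons (.leaf 0 [0x1463a01462201463201462a01421100b21100c20901320901b2010100580a01]) .nil)))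
   .nil))) (.cons (.splT 4 (.cons (.leaf 0 [0x1362200c60c00b21100b20900b2010501]) (.cons (.splT 7
   (.cons (.leaf 0 [0x1363a01462201463201462a01421100b21100c20901320901b2010100500a01]) (.cons
   (.leaf 0 [0x1463a01462201463201462a01421100b21100c20901320901b2010100580a01]) .nil))) .nil)))
   .nil))) (.cons (.splT 1 (.cons (.splT 4 (.cons (.splT 8 (.cons (.leaf 0
   [0xb64201362200c63200c62a00c21100b2110132090132010080500901]) (.cons (.splS 12 (.cons (.splT 11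
   (.cons (.leaf 0 [0xb25a01464202362200c25101463201462a0142110132110232090232010080600080500c02])
   (.cons (.leaf 0 [0xc25a00b26100c64200c64401362200b25100c63200c62a00c21100b2110132090132010c02])
   .nil))) (.cons (.leaf 0 [0xb66100c24200b62200c62a00b21100b20900b2010701]) .nil))) .nil)))
   (.cons (.splT 3 (.cons (.leaf 0 [0xb61a00b21a01460400c21100b20900b2010601]) (.cons (.leaf 0
   [0x1421a01462201460401463201462a01421100b21100c20901320901b2010100500b01]) .nil))) .nil)))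
   (.cons (.splT 4 (.cons (.leaf 0 [0x1362200c60c00b21100b20900b2010501]) (.cons (.splT 3 (.cons
   (.leaf 0 [0xb61a00b21a01460400c21100b20900b2010601]) (.cons (.leaf 0
   [0x1421a01462201460401463201462a01421100b21100c20901320901b2010100500b01]) .nil))) .nil)))
   .nil))) .nil))) .nil))) (.cons (.leaf 0 [0x1365101463201422a00b21100c20900b2010601]) .nil)))
   .nil))) (.cons (.splT 4 (.cons (.leaf 0 [0x1362200b21b00c21100b20900b2010501]) (.cons (.splS 9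
   (.cons (.splT 7 (.cons (.splT 6 (.cons (.leaf 0
   [0x1363200b63a00c62200c62a01421100c20900b2090132010080480901]) (.cons (.leaf 0
   [0x1463201363a01462201462a01421100b21100c20901320901b2010100500a01]) .nil))) (.cons (.splT 6
   (.cons (.splS 11 (.cons (.splT 10 (.cons (.leaf 0
   [0xb25202363201463a00c24901462201462a0242110142090132090232010080580080480c02]) (.cons (.leaf 0
   [0xc25200b25901363200c63a00c63c00b24900c62200c62a01421100c20900b2090132010c02]) .nil))) (.cons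
   (.leaf 0 [0xb65900b63200c23a00c62200c21100b20900b2010701]) .nil))) (.cons (.leaf 0
   [0x1463201463a01462201462a01421100b21100c20901320901b2010100580a01]) .nil))) .nil))) (.cons
   (.leaf 0 [0x1364901422200b21b01462a00c21100b20900b2010701]) .nil))) .nil))) .nil))) .nil)))
   (.cons (.splT 3 (.cons (.leaf 0 [0x1361a00b61100b21300c20900b2010501]) (.cons (.splT 4 (.cons
   (.leaf 0 [0x1362200b61100b20900c2010401]) (.cons (.splT 6 (.cons (.leaf 0
   [0x1b63200c62200c61a01461101420900c20100b2010080400801]) (.cons (.splT 5 (.cons (.splS 8 (.cons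
   (.splS 10 (.cons (.splT 9 (.cons (.leaf 0
   [0xb24a00c24102362a01463201462201461a0236110242090142010132010080500080400c02]) (.cons (.leaf 0
   [0xc24a00b25100b24100b62a01463200c62200c61a00c61100b61101420900c20100b2010c02]) .nil))) (.cons
   (.leaf 0 [0xb65100b62a00c23200c61a00b61100c20900b2010701]) .nil))) (.cons (.leaf 0
   [0xb64100b62a00c62200c21a00b61100c20900b2010701]) .nil))) (.cons (.leaf 0
   [0x1462a01463201462201461a01b61101420900b20900c2010132010100500a01]) .nil))) .nil))) .nil)))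
   .nil))) .nil))) (.cons (.splT 3 (.cons (.leaf 0 [0xb61a00b60900b2010301]) (.cons (.splT 4
   (.cons (.leaf 0 [0xb62200b60900c2010301]) (.cons (.splT 2 (.cons (.leaf 0
   [0xb61200b60900b20b00c2010401]) (.cons (.leaf 0
   [0xc21200c62200c61a01360900b20b0142010080400701]) .nil))) .nil))) .nil))) .nil))) (.cons (.leaf
   0 [0xb6010101]) .nil)))⟩,
   ⟨10, 25, [1, 3], [0, 3, 4], 8, (.splS 0 (.cons (.splS 1 (.cons (.splS 2 (.cons (.leaf 0
   [0x821100820900b2010301]) (.cons (.leaf 0 [0x861100c2090082010301]) .nil))) (.cons (.leaf 0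
   [0x860900c2010201]) .nil))) (.cons (.leaf 0 [0xb6010101]) .nil)))⟩,
   ⟨10, 26, [1, 3], [1, 3, 4], 6, (.splS 0 (.cons (.leaf 0 [0x92010101]) (.cons (.leaf 0
   [0xb6010101]) .nil)))⟩,
   ⟨10, 27, [1, 3], [0, 1, 3, 4], 6, (.splS 0 (.cons (.leaf 0 [0x92010101]) (.cons (.leaf 0
   [0xb6010101]) .nil)))⟩,
   ⟨10, 28, [1, 3], [2, 3, 4], 10, (.splS 0 (.cons (.splS 1 (.cons (.splS 2 (.cons (.splT 3 (.cons
   (.splT 5 (.cons (.splT 4 (.cons (.leaf 0 [0xa22200a61a00a21a00c20901220901a2010603]) (.cons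
   (.leaf 0 [0xb62200a21a00c20900a2090122010502]) (.cons (.leaf 0
   [0xc62200a62a00a21a01420900a20901a2010603]) .nil)))) (.cons (.leaf 0 [0xb62a00c20900a2010301])
   (.cons (.splT 4 (.cons (.leaf 0 [0xa22200a61a00a21a00c20901220901a2010603]) (.cons (.leaf 0
   [0xb62200a21a00c20900a2090122010502]) (.cons (.leaf 0
   [0xc22200c62a00a21a00c20900a2090122010080480701]) .nil)))) .nil)))) (.cons (.leaf 0
   [0xb61a00a20900a2010301]) (.cons (.splT 4 (.cons (.leaf 0 [0xa62200c61a00b20900a2090122010502])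
   (.cons (.leaf 0 [0xb62200b20900a2010301]) (.cons (.splT 5 (.cons (.leaf 0
   [0xa62a00c62200c20900b2090122010502]) (.cons (.leaf 0 [0xb62a00c20900a2010301]) (.cons (.leaf 0
   [0xc62a00c62200c21a00c20900a2090122010080480701]) .nil)))) .nil)))) .nil)))) (.cons (.splT 3
   (.cons (.splT 5 (.cons (.splT 4 (.cons (.leaf 0 [0xa22200a61a00a21a00c20901220901a2010603])
   (.cons (.leaf 0 [0xb62200a21a00c20900a2090122010502]) (.cons (.leaf 0
   [0xc62200a62a00a21a01420900a20901a2010603]) .nil)))) (.cons (.leaf 0 [0xb62a00c20900a2010301])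
   (.cons (.splT 4 (.cons (.leaf 0 [0xa22200a61a00a21a00c20901220901a2010603]) (.cons (.leaf 0
   [0xb62200a21a00c20900a2090122010502]) (.cons (.leaf 0
   [0xc22200c62a00a21a00c20900a2090122010080480701]) .nil)))) .nil)))) (.cons (.leaf 0
   [0xb61a00a20900a2010301]) (.cons (.splT 4 (.cons (.leaf 0 [0xa62200c61a00b20900a2090122010502])
   (.cons (.leaf 0 [0xb62200b20900a2010301]) (.cons (.splT 5 (.cons (.leaf 0
   [0xa62a00c62200c20900b2090122010502]) (.cons (.leaf 0 [0xb62a00c20900a2010301]) (.cons (.leaf 0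
   [0xc62a00c62200c21a00c20900a2090122010080480701]) .nil)))) .nil)))) .nil)))) .nil))) (.cons
   (.splT 3 (.cons (.leaf 0 [0xa21a00c60900b2010301]) (.cons (.leaf 0 [0xb61a00a60900c2010301])
   (.cons (.splT 4 (.cons (.leaf 0 [0xa62200c61a00b60900a6090142010502]) (.cons (.leaf 0
   [0xb62200b60900c2010301]) (.cons (.splT 2 (.cons (.leaf 0
   [0xa21200c62200c21a01360900c20100a2010080400701]) (.cons (.leaf 0 [0xb61200b60900a2010301])
   (.cons (.leaf 0 [0xc21200c62200c61a01360900c20100a2010080400701]) .nil)))) .nil)))) .nil))))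
   .nil))) (.cons (.leaf 0 [0xb6010101]) .nil)))⟩,
   ⟨10, 29, [1, 3], [0, 2, 3, 4], 6, (.splS 0 (.cons (.splS 1 (.cons (.leaf 0 [0x820900a2010201])
   (.cons (.leaf 0 [0x860900c2010201]) .nil))) (.cons (.leaf 0 [0xb6010101]) .nil)))⟩,
   ⟨10, 30, [1, 3], [1, 2, 3, 4], 6, (.splS 0 (.cons (.leaf 0 [0x92010101]) (.cons (.leaf 0
   [0xb6010101]) .nil)))⟩,
   ⟨10, 31, [1, 3], [0, 1, 2, 3, 4], 6, (.splS 0 (.cons (.leaf 0 [0x92010101]) (.cons (.leaf 0
   [0xb6010101]) .nil)))⟩,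
   ⟨11, 8, [0, 1, 3], [3], 10, (.splS 0 (.cons (.splT 3 (.cons (.leaf 0 [0xb61a00b0010201]) .nil))
   (.cons (.splS 1 (.cons (.splT 4 (.cons (.splT 3 (.cons (.leaf 0 [0xb61a00b62200b00900b2010401])
   .nil)) .nil)) (.cons (.splT 3 (.cons (.splS 2 (.cons (.splT 5 (.cons (.splT 4 (.cons (.leaf 0
   [0xb62200b62a00b01100b61a00b20900b2010601]) .nil)) .nil)) (.cons (.splT 5 (.cons (.splT 4
   (.cons (.leaf 0 [0xb62200b62a00b21100b20900b2010501]) .nil)) .nil)) (.cons (.splT 4 (.cons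
   (.leaf 0 [0xb62200b61100b61a00b20900b2010501]) .nil)) .nil)))) .nil)) (.cons (.splT 3 (.cons
   (.leaf 0 [0xb61a00b60900b2010301]) .nil)) .nil)))) (.cons (.leaf 0 [0xb6010101]) .nil))))⟩,
   ⟨11, 9, [0, 1, 3], [0, 3], 8, (.splS 0 (.cons (.leaf 0 [0x80010101]) (.cons (.splS 1 (.cons
   (.leaf 0 [0x80090082010201]) (.cons (.splS 2 (.cons (.leaf 0 [0x80110082090082010301]) (.cons
   (.leaf 0 [0x821100820900b2010301]) (.cons (.leaf 0 [0xb6110082090082010301]) .nil)))) (.cons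
   (.leaf 0 [0xb6090082010201]) .nil)))) (.cons (.leaf 0 [0xb6010101]) .nil))))⟩,
   ⟨11, 10, [0, 1, 3], [1, 3], 6, (.splS 0 (.cons (.splT 1 (.cons (.leaf 0 [0x920a0090010201])
   (.cons (.leaf 0 [0xb60a0090010201]) .nil))) (.cons (.leaf 0 [0x92010101]) (.cons (.leaf 0
   [0xb6010101]) .nil))))⟩,
   ⟨11, 11, [0, 1, 3], [0, 1, 3], 6, (.splS 0 (.cons (.leaf 0 [0x80010101]) (.cons (.leaf 0
   [0x92010101]) (.cons (.leaf 0 [0xb6010101]) .nil))))⟩,
   ⟨11, 12, [0, 1, 3], [2, 3], 10, (.splS 0 (.cons (.splT 2 (.cons (.splT 3 (.cons (.leaf 0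
   [0xa21a00a61200b00100a0010402]) (.cons (.leaf 0 [0xb61a00b0010201]) .nil))) (.cons (.leaf 0
   [0xb61200a0010201]) .nil))) (.cons (.splS 1 (.cons (.splT 3 (.cons (.splT 2 (.cons (.leaf 0
   [0xa01200b00900a2010301]) (.cons (.splT 4 (.cons (.leaf 0
   [0xa22201361200a61a00b00900a0090122010602]) (.cons (.leaf 0 [0xb62200b61200b00900a2010401])
   .nil))) .nil))) (.cons (.leaf 0 [0x1361a00a00900b2010301]) .nil))) (.cons (.splT 3 (.cons
   (.splT 4 (.cons (.leaf 0 [0xa22200a61a00b20900a2090122010502]) (.cons (.leaf 0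
   [0xb62200b20900a2010301]) .nil))) (.cons (.leaf 0 [0xb61a00a20900a2010301]) .nil))) (.cons
   (.splT 2 (.cons (.splT 3 (.cons (.leaf 0 [0xa21a00a61201360900b20100a2010502]) (.cons (.leaf 0
   [0xb61a00b60900b2010301]) .nil))) (.cons (.leaf 0 [0xb61200b60900a2010301]) .nil))) .nil))))
   (.cons (.leaf 0 [0xb6010101]) .nil))))⟩,
   ⟨11, 13, [0, 1, 3], [0, 2, 3], 6, (.splS 0 (.cons (.leaf 0 [0x80010101]) (.cons (.splS 1 (.cons
   (.leaf 0 [0x80090082010201]) (.cons (.leaf 0 [0x820900a2010201]) (.cons (.leaf 0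
   [0xb6090082010201]) .nil)))) (.cons (.leaf 0 [0xb6010101]) .nil))))⟩,
   ⟨11, 14, [0, 1, 3], [1, 2, 3], 6, (.splS 0 (.cons (.splT 1 (.cons (.leaf 0
   [0x900a00a0010090010302]) (.cons (.leaf 0 [0xa00a00b0010090010302]) (.cons (.leaf 0
   [0xb60a0090010201]) .nil)))) (.cons (.leaf 0 [0x92010101]) (.cons (.leaf 0 [0xb6010101])
   .nil))))⟩,
   ⟨11, 15, [0, 1, 3], [0, 1, 2, 3], 6, (.splS 0 (.cons (.leaf 0 [0x80010101]) (.cons (.leaf 0
   [0x92010101]) (.cons (.leaf 0 [0xb6010101]) .nil))))⟩]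

theorem certs3_ok : AllB certs3 := allB_of_okB (by decide +kernel)

/-- Certificates. -/
def certs4 : List BCert :=
  [
   ⟨11, 24, [0, 1, 3], [3, 4], 12, (.splS 0 (.cons (.splT 3 (.cons (.leaf 0 [0xb61a00b0010201])
   (.cons (.splT 4 (.cons (.leaf 0 [0xb62200c0010201]) (.cons (.leaf 0
   [0xc62200c01a00c00100b0010080400501]) .nil))) .nil))) (.cons (.splS 1 (.cons (.splT 4 (.cons
   (.leaf 0 [0x1362200b00900c2010301]) (.cons (.splT 3 (.cons (.splT 5 (.cons (.leaf 0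
   [0xb62a00b61a00c00900b2010401]) (.cons (.leaf 0
   [0xc62a01361a00c02200c00900b0090132010080480701]) .nil))) (.cons (.splT 5 (.cons (.leaf 0
   [0x1362a00c01a00c62201400900c20100b2010080400701]) (.cons (.leaf 0
   [0x1462a01401a01462201400900b00900c2010132010100480801]) .nil))) .nil))) .nil))) (.cons (.splT
   3 (.cons (.splS 2 (.cons (.splT 5 (.cons (.leaf 0 [0xb62a00c01100b01a00c20900b2010501]) (.cons
   (.splT 4 (.cons (.leaf 0 [0xb62200c01100b01a00b20900b2010501]) (.cons (.leaf 0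
   [0xc02200c62a01401101301a00c20900b2090132010080480801]) .nil))) .nil))) (.cons (.splT 5 (.cons
   (.leaf 0 [0x1362a00b21100c20900b2010401]) (.cons (.splT 4 (.cons (.leaf 0
   [0xb02200c21100b81c00b20900b2010501]) (.cons (.leaf 0
   [0xc02200c62a01421101301a00c20900b2090232010080480100080901]) .nil))) .nil))) (.cons (.leaf 0
   [0xc61100b01a00c20900b2010401]) .nil)))) (.cons (.splS 2 (.cons (.splT 4 (.cons (.splT 5 (.cons
   (.leaf 0 [0xb62a01362200b01100b20900c2010501]) (.cons (.splT 6 (.cons (.leaf 0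
   [0xb63201362200c01100b20900c2010501]) (.cons (.leaf 0
   [0xc63200c02a02362200c01100b0110132090142010080500801]) .nil))) .nil))) (.cons (.splT 5 (.cons
   (.leaf 0 [0x2362a00c62201301100c01a01420900c20100b2010080400801]) (.cons (.splT 6 (.cons (.leaf
   0 [0x1b63201462a01462201c01101401a01420900b20900c2010132010100480a01]) (.cons (.leaf 0
   [0x1c63201c62a01c62201c01100b01101c01a01420901320900c20101b2010180500b01]) .nil))) .nil)))
   .nil))) (.cons (.splT 5 (.cons (.leaf 0 [0x1362a00b21100c20900b2010401]) (.cons (.splT 4 (.cons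
   (.splT 6 (.cons (.leaf 0 [0xb63200b62200c21100b20900b2010501]) (.cons (.leaf 0
   [0xc63201362200c02a00c21100b2110132090132010080500801]) .nil))) (.cons (.splT 6 (.cons (.leaf 0
   [0x1363200c02200c62a01421100c20900b2090132010080480801]) (.cons (.leaf 0
   [0x1463201402201462a01421100b21100c20901320901b2010100500901]) .nil))) .nil))) .nil))) (.cons
   (.splT 4 (.cons (.leaf 0 [0xb62200b61100b01300c20900c2010501]) (.cons (.leaf 0
   [0xc62201361101301300c01a01420900c20100b2010080400801]) .nil))) .nil)))) .nil))) (.cons (.leaf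
   0 [0xb60900b00b00c2010301]) .nil)))) (.cons (.leaf 0 [0xb6010101]) .nil))))⟩,
   ⟨11, 25, [0, 1, 3], [0, 3, 4], 8, (.splS 0 (.cons (.leaf 0 [0x80010101]) (.cons (.splS 1 (.cons
   (.leaf 0 [0x80090082010201]) (.cons (.splS 2 (.cons (.leaf 0 [0x80110082090082010301]) (.cons
   (.leaf 0 [0x821100820900b2010301]) (.cons (.leaf 0 [0x861100c2090082010301]) .nil)))) (.cons
   (.leaf 0 [0x860900c2010201]) .nil)))) (.cons (.leaf 0 [0xb6010101]) .nil))))⟩,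
   ⟨11, 26, [0, 1, 3], [1, 3, 4], 10, (.splS 0 (.cons (.splT 1 (.cons (.leaf 0 [0x920a0090010201])
   (.cons (.leaf 0 [0xb00a00c0010090010302]) (.cons (.splT 4 (.cons (.leaf 0 [0x922200c0010201])
   (.cons (.leaf 0 [0xb62200c0010201]) (.cons (.leaf 0 [0xc22200c00a00c0010090010080400501])
   .nil)))) .nil)))) (.cons (.leaf 0 [0x92010101]) (.cons (.leaf 0 [0xb6010101]) .nil))))⟩,
   ⟨11, 27, [0, 1, 3], [0, 1, 3, 4], 6, (.splS 0 (.cons (.leaf 0 [0x80010101]) (.cons (.leaf 0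
   [0x92010101]) (.cons (.leaf 0 [0xb6010101]) .nil))))⟩,
   ⟨11, 28, [0, 1, 3], [2, 3, 4], 10, (.splS 0 (.cons (.splS 1 (.cons (.splT 2 (.cons (.leaf 0
   [0xa01200c00100a0010302]) (.cons (.leaf 0 [0xb61200a0010201]) (.cons (.splT 3 (.cons (.leaf 0
   [0xa61a00c61200b00100a0010402]) (.cons (.leaf 0 [0xb61a00b0010201]) (.cons (.leaf 0
   [0xc61a00c01200b00100a0010080380501]) .nil)))) .nil)))) (.cons (.leaf 0 [0x900b00a0010201])
   (.cons (.leaf 0 [0xb00b00c0010201]) .nil)))) (.cons (.splS 1 (.cons (.splT 3 (.cons (.leaf 0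
   [0xa01a00c00900b2010301]) (.cons (.leaf 0 [0x1361a00a00900b2010301]) (.cons (.splT 4 (.cons
   (.leaf 0 [0xa62200c61a00b00900b2010401]) (.cons (.leaf 0 [0x1362200b00900c2010301]) (.cons
   (.splT 2 (.cons (.leaf 0 [0xa01200b00900a2010301]) (.cons (.leaf 0 [0xb01200c00900a2010301])
   (.cons (.leaf 0 [0x1401201462201461a01300900a00900b2010122010100400801]) .nil)))) .nil))))
   .nil)))) (.cons (.splS 2 (.cons (.splT 4 (.cons (.leaf 0 [0xa02200c01100b20900900b00a2010501])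
   (.cons (.leaf 0 [0xb62200b20900a2010301]) (.cons (.splT 3 (.cons (.leaf 0
   [0xa01a00c20900a2090122010402]) (.cons (.leaf 0 [0xb61a00a20900a2010301]) (.cons (.leaf 0
   [0xc01a00c62200b20900a2090122010080400601]) .nil)))) .nil)))) (.cons (.leaf 0
   [0x901300a20900a2010301]) (.cons (.leaf 0 [0xb01300c20900a2010301]) .nil)))) (.cons (.leaf 0
   [0xb60900b00b00c2010301]) .nil)))) (.cons (.leaf 0 [0xb6010101]) .nil))))⟩,
   ⟨11, 29, [0, 1, 3], [0, 2, 3, 4], 6, (.splS 0 (.cons (.leaf 0 [0x80010101]) (.cons (.splS 1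
   (.cons (.leaf 0 [0x80090082010201]) (.cons (.leaf 0 [0x820900a2010201]) (.cons (.leaf 0
   [0x860900c2010201]) .nil)))) (.cons (.leaf 0 [0xb6010101]) .nil))))⟩,
   ⟨11, 30, [0, 1, 3], [1, 2, 3, 4], 8, (.splS 0 (.cons (.splT 2 (.cons (.leaf 0
   [0x901200b00100a0010302]) (.cons (.leaf 0 [0xa01200c00100a0010302]) (.cons (.leaf 0
   [0xb61200a0010201]) (.cons (.splT 1 (.cons (.leaf 0 [0x900a00a0010090010302]) (.cons (.leaf 0
   [0xa00a00b0010090010302]) (.cons (.leaf 0 [0xb00a00c0010090010302]) (.cons (.leaf 0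
   [0xc00a00c61200a0010090010080300501]) .nil))))) .nil))))) (.cons (.leaf 0 [0x92010101]) (.cons
   (.leaf 0 [0xb6010101]) .nil))))⟩,
   ⟨11, 31, [0, 1, 3], [0, 1, 2, 3, 4], 6, (.splS 0 (.cons (.leaf 0 [0x80010101]) (.cons (.leaf 0
   [0x92010101]) (.cons (.leaf 0 [0xb6010101]) .nil))))⟩,
   ⟨12, 12, [2, 3], [2, 3], 6, (.splS 0 (.cons (.leaf 0 [0xa4010101]) (.cons (.leaf 0
   [0xb6010101]) .nil)))⟩,
   ⟨12, 13, [2, 3], [0, 2, 3], 6, (.splS 0 (.cons (.leaf 0 [0xa4010101]) (.cons (.leaf 0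
   [0xb6010101]) .nil)))⟩,
   ⟨12, 14, [2, 3], [1, 2, 3], 6, (.splS 0 (.cons (.leaf 0 [0xa4010101]) (.cons (.leaf 0
   [0xb6010101]) .nil)))⟩,
   ⟨12, 15, [2, 3], [0, 1, 2, 3], 6, (.splS 0 (.cons (.leaf 0 [0xa4010101]) (.cons (.leaf 0
   [0xb6010101]) .nil)))⟩,
   ⟨12, 24, [2, 3], [3, 4], 12, (.splS 0 (.cons (.splS 1 (.cons (.splS 2 (.cons (.splT 5 (.cons
   (.leaf 0 [0xb62a00b41100c4010301]) (.cons (.splT 6 (.cons (.leaf 0 [0xb63200c41100c4010301])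
   (.cons (.splT 7 (.cons (.leaf 0 [0xb63a00c63200c42a00c41100b4110144010080500701]) (.cons (.leaf
   0 [0xc63a00c63200c42a00c41100b4110144010080580701]) .nil))) .nil))) .nil))) (.cons (.splT 3
   (.cons (.leaf 0 [0xb41a00c61100b4010301]) (.cons (.splT 4 (.cons (.leaf 0
   [0xb62200b61100c4010301]) (.cons (.splT 5 (.cons (.leaf 0
   [0xb62a00c62200c41a01361100c40100b4010080400701]) (.cons (.leaf 0
   [0xc62a00c62200c41a01361100c40100b4010080480701]) .nil))) .nil))) .nil))) .nil))) (.cons (.splS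
   2 (.cons (.splT 5 (.cons (.leaf 0 [0xb62a00b41100c4010301]) (.cons (.splT 6 (.cons (.leaf 0
   [0xb63200c41100c4010301]) (.cons (.splT 7 (.cons (.leaf 0
   [0xb63a00c63200c42a00c41100b4110144010080500701]) (.cons (.leaf 0
   [0xc63a00c63200c42a00c41100b4110144010080580701]) .nil))) .nil))) .nil))) (.cons (.splT 3
   (.cons (.leaf 0 [0xb41a00c61100b4010301]) (.cons (.splT 4 (.cons (.leaf 0
   [0xb62200b61100c4010301]) (.cons (.splT 5 (.cons (.leaf 0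
   [0xb62a00c62200c41a01361100c40100b4010080400701]) (.cons (.leaf 0
   [0xc62a00c62200c41a01361100c40100b4010080480701]) .nil))) .nil))) .nil))) .nil))) .nil)))
   (.cons (.leaf 0 [0xb6010101]) .nil)))⟩,
   ⟨12, 25, [2, 3], [0, 3, 4], 8, (.splS 0 (.cons (.splS 2 (.cons (.leaf 0 [0x841100c4010201])
   (.cons (.leaf 0 [0xb6110084010201]) .nil))) (.cons (.leaf 0 [0xb6010101]) .nil)))⟩,
   ⟨12, 27, [2, 3], [0, 1, 3, 4], 8, (.splS 0 (.cons (.splS 2 (.cons (.leaf 0 [0x841100c4010201])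
   (.cons (.leaf 0 [0xb6110084010201]) .nil))) (.cons (.leaf 0 [0xb6010101]) .nil)))⟩,
   ⟨12, 28, [2, 3], [2, 3, 4], 6, (.splS 0 (.cons (.leaf 0 [0xa4010101]) (.cons (.leaf 0
   [0xb6010101]) .nil)))⟩,
   ⟨12, 29, [2, 3], [0, 2, 3, 4], 6, (.splS 0 (.cons (.leaf 0 [0xa4010101]) (.cons (.leaf 0
   [0xb6010101]) .nil)))⟩,
   ⟨12, 30, [2, 3], [1, 2, 3, 4], 6, (.splS 0 (.cons (.leaf 0 [0xa4010101]) (.cons (.leaf 0
   [0xb6010101]) .nil)))⟩,
   ⟨12, 31, [2, 3], [0, 1, 2, 3, 4], 6, (.splS 0 (.cons (.leaf 0 [0xa4010101]) (.cons (.leaf 0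
   [0xb6010101]) .nil)))⟩,
   ⟨13, 12, [0, 2, 3], [2, 3], 8, (.splS 0 (.cons (.splT 2 (.cons (.leaf 0 [0xa41200a0010201])
   (.cons (.leaf 0 [0xb61200a0010201]) .nil))) (.cons (.leaf 0 [0xa4010101]) (.cons (.leaf 0
   [0xb6010101]) .nil))))⟩,
   ⟨13, 13, [0, 2, 3], [0, 2, 3], 6, (.splS 0 (.cons (.leaf 0 [0x80010101]) (.cons (.leaf 0
   [0xa4010101]) (.cons (.leaf 0 [0xb6010101]) .nil))))⟩,
   ⟨13, 14, [0, 2, 3], [1, 2, 3], 6, (.splS 0 (.cons (.splT 1 (.cons (.leaf 0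
   [0x900a00a0010090010302]) (.cons (.leaf 0 [0xa00a00b0010090010302]) (.cons (.leaf 0
   [0xb60a0090010201]) .nil)))) (.cons (.leaf 0 [0xa4010101]) (.cons (.leaf 0 [0xb6010101])
   .nil))))⟩,
   ⟨13, 15, [0, 2, 3], [0, 1, 2, 3], 6, (.splS 0 (.cons (.leaf 0 [0x80010101]) (.cons (.leaf 0
   [0xa4010101]) (.cons (.leaf 0 [0xb6010101]) .nil))))⟩,
   ⟨13, 24, [0, 2, 3], [3, 4], 12, (.splS 0 (.cons (.splT 3 (.cons (.leaf 0 [0xb61a00b0010201])
   (.cons (.splT 4 (.cons (.leaf 0 [0xb62200c0010201]) (.cons (.leaf 0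
   [0xc62200c01a00c00100b0010080400501]) .nil))) .nil))) (.cons (.splS 1 (.cons (.splS 2 (.cons
   (.splT 4 (.cons (.splT 5 (.cons (.leaf 0 [0xb62a00b62200b01100c4010401]) (.cons (.splT 6 (.cons
   (.leaf 0 [0xb63200b62200c01100c4010401]) (.cons (.leaf 0
   [0xc63200c42a00b62200b02200c01100b0110144010080500801]) .nil))) .nil))) (.cons (.splT 5 (.cons
   (.splT 3 (.cons (.leaf 0 [0xb01a00c01100b4010301]) (.cons (.leaf 0
   [0xc01a01362a00c62201301100c40100b4010080400701]) .nil))) (.cons (.splT 3 (.cons (.leaf 0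
   [0xb01a00c01100b4010301]) (.cons (.splT 6 (.cons (.leaf 0
   [0x1363200c01a00c62201401100c40100b4010080400701]) (.cons (.leaf 0
   [0xc63200c01a00c62a00c62200c01100b01100c40100b4010080500901]) .nil))) .nil))) .nil))) .nil)))
   (.cons (.splT 5 (.cons (.leaf 0 [0xb62a00b41100c4010301]) (.cons (.splT 6 (.cons (.leaf 0
   [0xb63200c41100c4010301]) (.cons (.leaf 0 [0xc63200c02a00c41100b4110144010080500601]) .nil)))
   .nil))) (.cons (.splT 3 (.cons (.leaf 0 [0xb41a00c61100b4010301]) (.cons (.splT 4 (.cons (.leaf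
   0 [0xb62200b61100c4010301]) (.cons (.leaf 0 [0xc62200c01a01361100c40100b4010080400601]) .nil)))
   .nil))) .nil)))) (.cons (.splS 2 (.cons (.splT 5 (.cons (.leaf 0
   [0xb62a00b01100a00b00b4010401]) (.cons (.splT 6 (.cons (.leaf 0 [0xb63200c01100a00b00b4010401])
   (.cons (.leaf 0 [0xc63200c02a00c01100b01101200b0134010080500701]) .nil))) .nil))) (.cons (.splT
   5 (.cons (.leaf 0 [0xb62a00b41100c4010301]) (.cons (.splT 6 (.cons (.leaf 0
   [0xb63200c41100c4010301]) (.cons (.leaf 0 [0xc63200c02a00c41100b4110144010080500601]) .nil)))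
   .nil))) (.cons (.leaf 0 [0xb61100a00b00b4010301]) .nil)))) (.cons (.splS 2 (.cons (.splT 5
   (.cons (.leaf 0 [0xb62a00b01100b00b00c4010401]) (.cons (.splT 6 (.cons (.leaf 0
   [0xb63200c01100b00b00c4010401]) (.cons (.leaf 0
   [0xc63200c02a00c01100b01101300b0144010080500701]) .nil))) .nil))) (.cons (.splT 5 (.cons (.leaf
   0 [0xb62a00b41100c4010301]) (.cons (.splT 6 (.cons (.leaf 0 [0xb63200c41100c4010301]) (.cons
   (.leaf 0 [0xc63200c02a00c41100b4110144010080500601]) .nil))) .nil))) (.cons (.leaf 0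
   [0xb61100b00b00c4010301]) .nil)))) .nil)))) (.cons (.leaf 0 [0xb6010101]) .nil))))⟩,
   ⟨13, 25, [0, 2, 3], [0, 3, 4], 8, (.splS 0 (.cons (.leaf 0 [0x80010101]) (.cons (.splS 2 (.cons
   (.leaf 0 [0x80110084010201]) (.cons (.leaf 0 [0x841100c4010201]) (.cons (.leaf 0
   [0xb6110084010201]) .nil)))) (.cons (.leaf 0 [0xb6010101]) .nil))))⟩,
   ⟨13, 26, [0, 2, 3], [1, 3, 4], 10, (.splS 0 (.cons (.splT 3 (.cons (.leaf 0
   [0x901a00c00100b0010302]) (.cons (.leaf 0 [0xb61a00b0010201]) (.cons (.splT 1 (.cons (.leaf 0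
   [0x900a0090010084030301]) (.cons (.leaf 0 [0xb00a00c0010090010302]) (.cons (.leaf 0
   [0xc00a00c41a00b0010090010080380501]) .nil)))) .nil)))) (.cons (.splS 1 (.cons (.splS 2 (.cons
   (.splT 4 (.cons (.leaf 0 [0x902200b01100c4010301]) (.cons (.splT 5 (.cons (.leaf 0
   [0x902a01362200c01100b0110144010502]) (.cons (.leaf 0 [0xb62a00b62200b01100c4010401]) (.cons
   (.splT 3 (.cons (.leaf 0 [0x901a00901100c4010301]) (.cons (.leaf 0 [0xb01a00c01100b4010301])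
   (.cons (.leaf 0 [0xc01a00c42a01362200b0110090110144010080480701]) .nil)))) .nil)))) (.cons
   (.splT 5 (.cons (.leaf 0 [0x962c00c02200c01100c4010401]) (.cons (.splT 1 (.cons (.leaf 0
   [0x900a01362a0130110094010401]) (.cons (.leaf 0 [0xb20c00c4010201]) (.cons (.leaf 0
   [0xc00a00b0110094010301]) .nil)))) (.cons (.splT 3 (.cons (.leaf 0 [0x901a00901100c4010301])
   (.cons (.leaf 0 [0xb01a00c01100b4010301]) (.cons (.leaf 0
   [0x1401a01462a01462201301100901101440100b4010100480801]) .nil)))) .nil)))) .nil)))) (.cons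
   (.splT 5 (.cons (.leaf 0 [0x902a00c41100b4110144010402]) (.cons (.leaf 0
   [0xb62a00b41100c4010301]) (.cons (.splT 3 (.cons (.leaf 0 [0x901a00941100860b00c4010401])
   (.cons (.leaf 0 [0xb01a00c4110094110144010402]) (.cons (.leaf 0
   [0xc01a00c42a00b4110094110144010080480601]) .nil)))) .nil)))) (.cons (.splT 3 (.cons (.leaf 0
   [0x901a01361100c40100b4010402]) (.cons (.leaf 0 [0xb41a00c61100b4010301]) (.cons (.splT 1
   (.cons (.leaf 0 [0x900a0136110094010301]) (.cons (.leaf 0 [0xb20c00c4010201]) (.cons (.leaf 0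
   [0xc00a00c41a01361100b4010094010080380601]) .nil)))) .nil)))) .nil)))) (.cons (.splS 2 (.cons
   (.leaf 0 [0x901101200b00b4010301]) (.cons (.leaf 0 [0x941100a00b00c4010301]) (.cons (.leaf 0
   [0xb61100a00b00b4010301]) .nil)))) (.cons (.splS 2 (.cons (.splT 5 (.cons (.leaf 0
   [0x902a00c01100b01101300b0144010502]) (.cons (.leaf 0 [0xb62a00b01100b00b00c4010401]) (.cons
   (.splT 3 (.cons (.leaf 0 [0x901a00901100c4010301]) (.cons (.leaf 0
   [0xb01a00c01100901101300b0144010502]) (.cons (.leaf 0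
   [0xc01a00c42a00b01100901101300b0144010080480701]) .nil)))) .nil)))) (.cons (.splT 5 (.cons
   (.leaf 0 [0x902a00c41100b4110144010402]) (.cons (.leaf 0 [0xb62a00b41100c4010301]) (.cons
   (.splT 3 (.cons (.leaf 0 [0x901a0094110144010080100401]) (.cons (.leaf 0
   [0xb01a00c4110094110144010402]) (.cons (.leaf 0 [0xc01a00c42a00b4110094110144010080480601])
   .nil)))) .nil)))) (.cons (.leaf 0 [0xb61100b00b00c4010301]) .nil)))) .nil)))) (.cons (.leaf 0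
   [0xb6010101]) .nil))))⟩,
   ⟨13, 27, [0, 2, 3], [0, 1, 3, 4], 8, (.splS 0 (.cons (.leaf 0 [0x80010101]) (.cons (.splS 2
   (.cons (.leaf 0 [0x80110084010201]) (.cons (.leaf 0 [0x841100c4010201]) (.cons (.leaf 0
   [0xb6110084010201]) .nil)))) (.cons (.leaf 0 [0xb6010101]) .nil))))⟩,
   ⟨13, 28, [0, 2, 3], [2, 3, 4], 8, (.splS 0 (.cons (.splS 1 (.cons (.splT 2 (.cons (.leaf 0
   [0xa01200c00100a0010302]) (.cons (.leaf 0 [0xb61200a0010201]) (.cons (.splT 3 (.cons (.leaf 0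
   [0xa41a00b0010201]) (.cons (.leaf 0 [0xb61a00b0010201]) (.cons (.leaf 0
   [0xc61a00c01200b00100a0010080380501]) .nil)))) .nil)))) (.cons (.leaf 0 [0xa00b00b0010201])
   (.cons (.leaf 0 [0xb00b00c0010201]) .nil)))) (.cons (.leaf 0 [0xa4010101]) (.cons (.leaf 0
   [0xb6010101]) .nil))))⟩,
   ⟨13, 29, [0, 2, 3], [0, 2, 3, 4], 6, (.splS 0 (.cons (.leaf 0 [0x80010101]) (.cons (.leaf 0
   [0xa4010101]) (.cons (.leaf 0 [0xb6010101]) .nil))))⟩,
   ⟨13, 30, [0, 2, 3], [1, 2, 3, 4], 8, (.splS 0 (.cons (.splT 2 (.cons (.leaf 0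
   [0x901200b00100a0010302]) (.cons (.leaf 0 [0xa01200c00100a0010302]) (.cons (.leaf 0
   [0xb61200a0010201]) (.cons (.splT 1 (.cons (.leaf 0 [0x900a00a0010090010302]) (.cons (.leaf 0
   [0xa00a00b0010090010302]) (.cons (.leaf 0 [0xb00a00c0010090010302]) (.cons (.leaf 0
   [0xc00a00c61200a0010090010080300501]) .nil))))) .nil))))) (.cons (.leaf 0 [0xa4010101]) (.cons
   (.leaf 0 [0xb6010101]) .nil))))⟩,
   ⟨13, 31, [0, 2, 3], [0, 1, 2, 3, 4], 6, (.splS 0 (.cons (.leaf 0 [0x80010101]) (.cons (.leaf 0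
   [0xa4010101]) (.cons (.leaf 0 [0xb6010101]) .nil))))⟩,
   ⟨14, 12, [1, 2, 3], [2, 3], 8, (.splS 0 (.cons (.splS 1 (.cons (.splT 3 (.cons (.leaf 0
   [0xa41a00a20900a2010301]) (.cons (.leaf 0 [0xb61a00a20900a2010301]) .nil))) (.cons (.splT 2
   (.cons (.leaf 0 [0xa21200b40900a2010301]) (.cons (.leaf 0 [0xb61200a40900a2010301]) .nil)))
   (.cons (.splT 2 (.cons (.leaf 0 [0xa41200b60900a2010301]) (.cons (.leaf 0
   [0xb61200b60900a2010301]) .nil))) .nil)))) (.cons (.leaf 0 [0xa4010101]) (.cons (.leaf 0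
   [0xb6010101]) .nil))))⟩,
   ⟨14, 13, [1, 2, 3], [0, 2, 3], 6, (.splS 0 (.cons (.splS 1 (.cons (.leaf 0 [0x820900a2010201])
   (.cons (.leaf 0 [0x840900b2010201]) (.cons (.leaf 0 [0xb6090082010201]) .nil)))) (.cons (.leaf
   0 [0xa4010101]) (.cons (.leaf 0 [0xb6010101]) .nil))))⟩,
   ⟨14, 14, [1, 2, 3], [1, 2, 3], 6, (.splS 0 (.cons (.leaf 0 [0x92010101]) (.cons (.leaf 0
   [0xa4010101]) (.cons (.leaf 0 [0xb6010101]) .nil))))⟩,
   ⟨14, 15, [1, 2, 3], [0, 1, 2, 3], 6, (.splS 0 (.cons (.leaf 0 [0x92010101]) (.cons (.leaf 0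
   [0xa4010101]) (.cons (.leaf 0 [0xb6010101]) .nil))))⟩,
   ⟨14, 24, [1, 2, 3], [3, 4], 12, (.splS 0 (.cons (.splS 1 (.cons (.splS 2 (.cons (.splT 5 (.cons
   (.leaf 0 [0x1362a00b21100c20900b2010401]) (.cons (.splT 4 (.cons (.splT 6 (.cons (.leaf 0
   [0xb63200b62200c21100b20900b2010501]) (.cons (.splT 3 (.cons (.leaf 0
   [0xb21a01362200c21100b2090132010080080601]) (.cons (.leaf 0
   [0xc21a00c63201b62200c42a00c21100b21101320901b2010080500080080a01]) .nil))) .nil))) (.cons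
   (.splT 6 (.cons (.leaf 0 [0x1b63200c42200c62a01421100c20900b2090132010080480801]) (.cons (.splT
   7 (.cons (.leaf 0 [0x1363a01463201462201462a01421100b21100c20901320901b2010100500a01]) (.cons
   (.leaf 0 [0x1463a01463201462201462a01421100b21100c20901320901b2010100580a01]) .nil))) .nil)))
   .nil))) .nil))) (.cons (.splT 5 (.cons (.leaf 0 [0x1362a00b41100c20900c2010401]) (.cons (.splT
   4 (.cons (.splT 6 (.cons (.leaf 0 [0xb63200b62200c41100b20900c2010501]) (.cons (.splT 3 (.cons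
   (.leaf 0 [0xb21a00b62200c41100b20900b2010501]) (.cons (.leaf 0
   [0xc21a00c63201362200c42a00c41100b41101320900c20100b2010080500a01]) .nil))) .nil))) (.cons
   (.splT 6 (.cons (.leaf 0 [0x1b63200c42200c62a01441100c20900b2090142010080480801]) (.cons (.splT
   3 (.cons (.leaf 0 [0xb61a00b21a00c41100a21300b20900b2010601]) (.cons (.leaf 0
   [0x1421a01463201462201462a01441100b41100c20901320900c2010132010100500b01]) .nil))) .nil)))
   .nil))) .nil))) (.cons (.splT 3 (.cons (.leaf 0 [0xb61a00b41a00c61100b21300c20900b2010601])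
   (.cons (.splT 4 (.cons (.leaf 0 [0x1362200b61100b20900c2010401]) (.cons (.splT 5 (.cons (.leaf
   0 [0x1b62a00c62200c41a01361101420900c20100b2010080400801]) (.cons (.splT 6 (.cons (.leaf 0
   [0x1363200c62a00c62200c41a01461101420900c20100b2010080480901]) (.cons (.leaf 0
   [0x1463201462a01462201441a01461100b61101420900b20900c2010132010100500b01]) .nil))) .nil)))
   .nil))) .nil))) .nil)))) (.cons (.splT 4 (.cons (.leaf 0 [0xb62200b40900b2010301]) (.cons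
   (.splT 5 (.cons (.leaf 0 [0xb62a00c40900b2010301]) (.cons (.splT 2 (.cons (.leaf 0
   [0xb21200c40900a20b00b2010401]) (.cons (.leaf 0
   [0xc21200c62a00c42200c40900b40900a20b0132010080480801]) .nil))) .nil))) .nil))) (.cons (.splT 3
   (.cons (.leaf 0 [0xb61a00b60900b2010301]) (.cons (.splT 4 (.cons (.leaf 0
   [0xb62200b60900c2010301]) (.cons (.splT 2 (.cons (.leaf 0 [0xb41200c60900b20b00c2010401])
   (.cons (.leaf 0 [0xc21200c62200c61a01360900b20b0142010080400701]) .nil))) .nil))) .nil)))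
   .nil)))) (.cons (.splS 1 (.cons (.splS 2 (.cons (.splT 5 (.cons (.leaf 0
   [0xb62a00b21100b4010301]) (.cons (.splT 6 (.cons (.leaf 0 [0xb63200c21100b4010301]) (.cons
   (.splT 7 (.cons (.leaf 0 [0xb63a00c63200c42a00c21100b2110134010080500701]) (.cons (.leaf 0
   [0xc63a00c63200c42a00c21100b2110134010080580701]) .nil))) .nil))) .nil))) (.cons (.splT 5
   (.cons (.leaf 0 [0xb62a00b41100c4010301]) (.cons (.splT 6 (.cons (.leaf 0
   [0xb63200c41100c4010301]) (.cons (.splT 3 (.cons (.leaf 0 [0xb21a00c41100b4010301]) (.cons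
   (.leaf 0 [0xc21a00c63200c42a00c41100b41100c40100b4010080500801]) .nil))) .nil))) .nil))) (.cons
   (.splT 3 (.cons (.leaf 0 [0xb41a00c61100b4010301]) (.cons (.splT 4 (.cons (.leaf 0
   [0xb62200b61100c4010301]) (.cons (.splT 1 (.cons (.leaf 0 [0xb20a00b61100c40100a2030401])
   (.cons (.leaf 0 [0xc20a00c62200c41a01361100c40100b40100a2030080400801]) .nil))) .nil))) .nil)))
   .nil)))) (.cons (.leaf 0 [0xa20b00b4010201]) (.cons (.leaf 0 [0xb20b00c4010201]) .nil))))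
   (.cons (.leaf 0 [0xb6010101]) .nil))))⟩,
   ⟨14, 25, [1, 2, 3], [0, 3, 4], 8, (.splS 0 (.cons (.splS 1 (.cons (.splS 2 (.cons (.leaf 0
   [0x821100820900b2010301]) (.cons (.leaf 0 [0x841100820900c2010301]) (.cons (.leaf 0
   [0x861100c2090082010301]) .nil)))) (.cons (.leaf 0 [0x840900b2010201]) (.cons (.leaf 0
   [0x860900c2010201]) .nil)))) (.cons (.splS 2 (.cons (.leaf 0 [0x821100b4010201]) (.cons (.leaf
   0 [0x841100c4010201]) (.cons (.leaf 0 [0xb6110084010201]) .nil)))) (.cons (.leaf 0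
   [0xb6010101]) .nil))))⟩,
   ⟨14, 26, [1, 2, 3], [1, 3, 4], 10, (.splS 0 (.cons (.leaf 0 [0x92010101]) (.cons (.splS 2
   (.cons (.splT 1 (.cons (.leaf 0 [0x920a0092110094010301]) (.cons (.leaf 0 [0xb20c00c4010201])
   (.cons (.leaf 0 [0xc20c00961300b4010301]) .nil)))) (.cons (.splT 5 (.cons (.leaf 0
   [0x922a00b41100c4010301]) (.cons (.leaf 0 [0xb62a00b41100c4010301]) (.cons (.splT 3 (.cons
   (.leaf 0 [0x921a00941100c4010301]) (.cons (.leaf 0 [0xb21a00c41100b4010301]) (.cons (.splT 1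
   (.cons (.leaf 0 [0x920a00c21a00c42a00b41100941100c4010094010080480801]) (.cons (.leaf 0
   [0xb20c00c4010201]) (.cons (.leaf 0 [0xc20c00a61300c4010301]) .nil)))) .nil)))) .nil)))) (.cons
   (.splT 3 (.cons (.leaf 0 [0x921a00b61100b4010301]) (.cons (.leaf 0 [0xb41a00c61100b4010301])
   (.cons (.splT 1 (.cons (.leaf 0 [0x920a00b6110094010301]) (.cons (.leaf 0 [0xb20c00c4010201])
   (.cons (.leaf 0 [0xc20a00c41a00b61100b4010094010080380601]) .nil)))) .nil)))) .nil)))) (.cons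
   (.leaf 0 [0xb6010101]) .nil))))⟩,
   ⟨14, 27, [1, 2, 3], [0, 1, 3, 4], 8, (.splS 0 (.cons (.leaf 0 [0x92010101]) (.cons (.splS 2
   (.cons (.leaf 0 [0x821100b4010201]) (.cons (.leaf 0 [0x841100c4010201]) (.cons (.leaf 0
   [0xb6110084010201]) .nil)))) (.cons (.leaf 0 [0xb6010101]) .nil))))⟩,
   ⟨14, 28, [1, 2, 3], [2, 3, 4], 10, (.splS 0 (.cons (.splS 1 (.cons (.splT 3 (.cons (.leaf 0
   [0xa41a00a20900a2010301]) (.cons (.leaf 0 [0xb61a00a20900a2010301]) (.cons (.splT 4 (.cons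
   (.leaf 0 [0xa42200b20900a2010301]) (.cons (.leaf 0 [0xb62200b20900a2010301]) (.cons (.splT 5
   (.cons (.leaf 0 [0xa42a00c20900a2010301]) (.cons (.leaf 0 [0xb62a00c20900a2010301]) (.cons
   (.leaf 0 [0xc62a00c62200c21a00c20900a2090122010080480701]) .nil)))) .nil)))) .nil)))) (.cons
   (.splT 3 (.cons (.leaf 0 [0xa41a00a40900b2010301]) (.cons (.leaf 0 [0xb61a00a40900b2010301])
   (.cons (.splT 4 (.cons (.leaf 0 [0xa42200a40900c2010301]) (.cons (.leaf 0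
   [0xb62200a40900c2010301]) (.cons (.splT 2 (.cons (.leaf 0 [0xa21200b40900a2010301]) (.cons
   (.leaf 0 [0xb21200c40900a2010301]) (.cons (.leaf 0
   [0xc21200c62200c61a01240900c20100a2010080400701]) .nil)))) .nil)))) .nil)))) (.cons (.splT 3
   (.cons (.leaf 0 [0xa21a00c60900b2010301]) (.cons (.leaf 0 [0xb61a00a60900c2010301]) (.cons
   (.splT 4 (.cons (.leaf 0 [0xa42200b60900c2010301]) (.cons (.leaf 0 [0xb62200b60900c2010301])
   (.cons (.splT 2 (.cons (.leaf 0 [0xa41200b60900a2010301]) (.cons (.leaf 0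
   [0xb41200c60900a2010301]) (.cons (.leaf 0 [0xc21200c62200c61a01360900c20100a2010080400701])
   .nil)))) .nil)))) .nil)))) .nil)))) (.cons (.leaf 0 [0xa4010101]) (.cons (.leaf 0 [0xb6010101])
   .nil))))⟩,
   ⟨14, 29, [1, 2, 3], [0, 2, 3, 4], 6, (.splS 0 (.cons (.splS 1 (.cons (.leaf 0
   [0x820900a2010201]) (.cons (.leaf 0 [0x840900b2010201]) (.cons (.leaf 0 [0x860900c2010201])
   .nil)))) (.cons (.leaf 0 [0xa4010101]) (.cons (.leaf 0 [0xb6010101]) .nil))))⟩,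
   ⟨14, 30, [1, 2, 3], [1, 2, 3, 4], 6, (.splS 0 (.cons (.leaf 0 [0x92010101]) (.cons (.leaf 0
   [0xa4010101]) (.cons (.leaf 0 [0xb6010101]) .nil))))⟩,
   ⟨14, 31, [1, 2, 3], [0, 1, 2, 3, 4], 6, (.splS 0 (.cons (.leaf 0 [0x92010101]) (.cons (.leaf 0
   [0xa4010101]) (.cons (.leaf 0 [0xb6010101]) .nil))))⟩,
   ⟨15, 12, [0, 1, 2, 3], [2, 3], 8, (.splS 0 (.cons (.splT 2 (.cons (.leaf 0 [0xa41200a0010201])
   (.cons (.leaf 0 [0xb61200a0010201]) .nil))) (.cons (.splS 1 (.cons (.splT 3 (.cons (.leaf 0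
   [0x1241a00a00900b2010301]) (.cons (.leaf 0 [0x1361a00a00900b2010301]) .nil))) (.cons (.splT 3
   (.cons (.leaf 0 [0xa41a00a20900a2010301]) (.cons (.leaf 0 [0xb61a00a20900a2010301]) .nil)))
   (.cons (.leaf 0 [0xa40900a00b00b2010301]) (.cons (.splT 2 (.cons (.leaf 0
   [0xa41200b60900a2010301]) (.cons (.leaf 0 [0xb61200b60900a2010301]) .nil))) .nil))))) (.cons
   (.leaf 0 [0xa4010101]) (.cons (.leaf 0 [0xb6010101]) .nil)))))⟩,
   ⟨15, 13, [0, 1, 2, 3], [0, 2, 3], 6, (.splS 0 (.cons (.leaf 0 [0x80010101]) (.cons (.splS 1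
   (.cons (.leaf 0 [0x80090082010201]) (.cons (.leaf 0 [0x820900a2010201]) (.cons (.leaf 0
   [0x840900b2010201]) (.cons (.leaf 0 [0xb6090082010201]) .nil))))) (.cons (.leaf 0 [0xa4010101])
   (.cons (.leaf 0 [0xb6010101]) .nil)))))⟩,
   ⟨15, 14, [0, 1, 2, 3], [1, 2, 3], 6, (.splS 0 (.cons (.splT 1 (.cons (.leaf 0
   [0x900a00a0010090010302]) (.cons (.leaf 0 [0xa00a00b0010090010302]) (.cons (.leaf 0
   [0xb60a0090010201]) .nil)))) (.cons (.leaf 0 [0x92010101]) (.cons (.leaf 0 [0xa4010101]) (.cons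
   (.leaf 0 [0xb6010101]) .nil)))))⟩,
   ⟨15, 15, [0, 1, 2, 3], [0, 1, 2, 3], 6, (.splS 0 (.cons (.leaf 0 [0x80010101]) (.cons (.leaf 0
   [0x92010101]) (.cons (.leaf 0 [0xa4010101]) (.cons (.leaf 0 [0xb6010101]) .nil)))))⟩,
   ⟨15, 24, [0, 1, 2, 3], [3, 4], 12, (.splS 0 (.cons (.splT 3 (.cons (.leaf 0 [0xb61a00b0010201])
   (.cons (.splT 4 (.cons (.leaf 0 [0xb62200c0010201]) (.cons (.leaf 0
   [0xc62200c01a00c00100b0010080400501]) .nil))) .nil))) (.cons (.splS 1 (.cons (.splT 4 (.cons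
   (.leaf 0 [0x1362200b00900c2010301]) (.cons (.splT 3 (.cons (.splT 5 (.cons (.leaf 0
   [0xb62a00b61a00c00900b2010401]) (.cons (.leaf 0
   [0xc62a01361a00c02200c00900b0090132010080480701]) .nil))) (.cons (.splT 5 (.cons (.leaf 0
   [0x1362a00c01a00c62201400900c20100b2010080400701]) (.cons (.leaf 0
   [0x1462a01401a01462201400900b00900c2010132010100480801]) .nil))) .nil))) .nil))) (.cons (.splS
   2 (.cons (.splT 4 (.cons (.splT 5 (.cons (.leaf 0 [0xb62a01362200b01100b20900c2010501]) (.cons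
   (.splT 6 (.cons (.leaf 0 [0xb63201362200c01100b20900c2010501]) (.cons (.leaf 0
   [0xc63200c42a01b62200b02200c01100b0110132090142010080500901]) .nil))) .nil))) (.cons (.splT 5
   (.cons (.splT 3 (.cons (.leaf 0 [0xb01a00b62a00c01100c20900b2010501]) (.cons (.leaf 0
   [0xc01a02362a00c62201301101420900c20100b2010080400801]) .nil))) (.cons (.splT 3 (.cons (.leaf 0
   [0x1301a00c62a00c02201401100c20900b2090132010080480801]) (.cons (.splT 6 (.cons (.leaf 0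
   [0x1b63201401a01462a01462201c01101420900b20900c2010132010100480a01]) (.cons (.leaf 0
   [0x1c63201c01a01c62a01c62201c01100b01101420901320900c20101b2010180500b01]) .nil))) .nil)))
   .nil))) .nil))) (.cons (.splT 5 (.cons (.leaf 0 [0x1362a00b21100c20900b2010401]) (.cons (.splT
   4 (.cons (.splT 6 (.cons (.leaf 0 [0xb63200b62200c21100b20900b2010501]) (.cons (.leaf 0
   [0xc63201362200c02a00c21100b2110132090132010080500801]) .nil))) (.cons (.splT 6 (.cons (.leaf 0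
   [0x1363200c02200c62a01421100c20900b2090132010080480801]) (.cons (.leaf 0
   [0x1463201402201462a01421100b21100c20901320901b2010100500901]) .nil))) .nil))) .nil))) (.cons
   (.splT 5 (.cons (.leaf 0 [0xb62a00b41100a01300b20900c2010501]) (.cons (.splT 6 (.cons (.leaf 0
   [0xb63200c41100a01300b20900c2010501]) (.cons (.leaf 0
   [0xc63200c02a00c41100b4110120130132090142010080500801]) .nil))) .nil))) (.cons (.splT 4 (.cons
   (.leaf 0 [0xb62200b61100b01300c20900c2010501]) (.cons (.splT 3 (.cons (.leaf 0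
   [0xb01a00c61100c20900b2010401]) (.cons (.leaf 0
   [0xc01a00c62201361101301301420900c20100b2010080400801]) .nil))) .nil))) .nil))))) (.cons (.splT
   4 (.cons (.leaf 0 [0xb62200b40900b2010301]) (.cons (.splT 5 (.cons (.leaf 0
   [0xb62a00c40900b2010301]) (.cons (.leaf 0 [0xc62a00c02200c40900b4090132010080480601]) .nil)))
   .nil))) (.cons (.leaf 0 [0xb60900b00b00c2010301]) .nil))))) (.cons (.splS 1 (.cons (.splT 3
   (.cons (.leaf 0 [0xb61a00820b00b4010301]) (.cons (.splT 4 (.cons (.leaf 0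
   [0xb62200820b00c4010301]) (.cons (.leaf 0 [0xc62200c01a01020b00c40100b4010080400601]) .nil)))
   .nil))) (.cons (.splS 2 (.cons (.splT 4 (.cons (.splT 5 (.cons (.leaf 0
   [0xb62a00b62200b01100c4010401]) (.cons (.splT 6 (.cons (.leaf 0 [0xb63200b62200c01100c4010401])
   (.cons (.leaf 0 [0xc63200c42a00b62200b02200c01100b0110144010080500801]) .nil))) .nil))) (.cons
   (.splT 5 (.cons (.splT 3 (.cons (.leaf 0 [0xb01a00c01100b4010301]) (.cons (.leaf 0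
   [0xc01a01362a00c62201301100c40100b4010080400701]) .nil))) (.cons (.splT 3 (.cons (.leaf 0
   [0xb01a00c01100b4010301]) (.cons (.splT 6 (.cons (.leaf 0
   [0x1363200c01a00c62201401100c40100b4010080400701]) (.cons (.leaf 0
   [0xc63200c01a00c62a00c62200c01100b01100c40100b4010080500901]) .nil))) .nil))) .nil))) .nil)))
   (.cons (.splT 5 (.cons (.leaf 0 [0xb62a00b21100b4010301]) (.cons (.splT 6 (.cons (.leaf 0
   [0xb63200c21100b4010301]) (.cons (.leaf 0 [0xc63200c02a00c21100b2110134010080500601]) .nil)))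
   .nil))) (.cons (.splT 5 (.cons (.leaf 0 [0xb62a00b41100c4010301]) (.cons (.splT 6 (.cons (.leaf
   0 [0xb63200c41100c4010301]) (.cons (.leaf 0 [0xc63200c02a00c41100b4110144010080500601]) .nil)))
   .nil))) (.cons (.splT 3 (.cons (.leaf 0 [0xb41a00c61100b4010301]) (.cons (.splT 4 (.cons (.leaf
   0 [0xb62200b61100c4010301]) (.cons (.leaf 0 [0xc62200c01a01361100c40100b4010080400601]) .nil)))
   .nil))) .nil))))) (.cons (.leaf 0 [0xa20b00b4010201]) (.cons (.leaf 0 [0xb20b00c4010201])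
   .nil))))) (.cons (.leaf 0 [0xb6010101]) .nil)))))⟩,
   ⟨15, 25, [0, 1, 2, 3], [0, 3, 4], 8, (.splS 0 (.cons (.leaf 0 [0x80010101]) (.cons (.splS 1
   (.cons (.leaf 0 [0x80090082010201]) (.cons (.splS 2 (.cons (.leaf 0 [0x80110082090082010301])
   (.cons (.leaf 0 [0x821100820900b2010301]) (.cons (.leaf 0 [0x841100820900c2010301]) (.cons
   (.leaf 0 [0x861100c2090082010301]) .nil))))) (.cons (.leaf 0 [0x840900b2010201]) (.cons (.leaf
   0 [0x860900c2010201]) .nil))))) (.cons (.splS 2 (.cons (.leaf 0 [0x80110084010201]) (.cons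
   (.leaf 0 [0x821100b4010201]) (.cons (.leaf 0 [0x841100c4010201]) (.cons (.leaf 0
   [0xb6110084010201]) .nil))))) (.cons (.leaf 0 [0xb6010101]) .nil)))))⟩,
   ⟨15, 26, [0, 1, 2, 3], [1, 3, 4], 10, (.splS 0 (.cons (.splT 3 (.cons (.leaf 0
   [0x901a00c00100b0010302]) (.cons (.leaf 0 [0xb61a00b0010201]) (.cons (.splT 1 (.cons (.leaf 0
   [0x920a0090010201]) (.cons (.leaf 0 [0xb00a00c0010090010302]) (.cons (.leaf 0
   [0xc00a00c41a00b0010090010080380501]) .nil)))) .nil)))) (.cons (.leaf 0 [0x92010101]) (.cons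
   (.splS 2 (.cons (.splT 1 (.cons (.splT 5 (.cons (.leaf 0 [0x902a01120a00c01100b0110114010502])
   (.cons (.leaf 0 [0xb62a00920a00b0110094010401]) (.cons (.splT 3 (.cons (.leaf 0
   [0x901a00901100c4010301]) (.cons (.leaf 0 [0xb01a00c01100b4010301]) (.cons (.leaf 0
   [0xc01a00c42a01120a00b0110090110114010080480701]) .nil)))) .nil)))) (.cons (.leaf 0
   [0xb20c00c4010201]) (.cons (.leaf 0 [0xc20a0086130094010301]) .nil)))) (.cons (.leaf 0
   [0x921100901300b4010301]) (.cons (.splT 5 (.cons (.leaf 0 [0x902a00c41100b4110144010402])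
   (.cons (.leaf 0 [0xb62a00b41100c4010301]) (.cons (.splT 3 (.cons (.leaf 0
   [0x921a00941100c4010301]) (.cons (.leaf 0 [0xb01a00c4110094110144010402]) (.cons (.leaf 0
   [0xc01a00c42a00b4110094110144010080480601]) .nil)))) .nil)))) (.cons (.splT 3 (.cons (.leaf 0
   [0x901a01361100c40100b4010402]) (.cons (.leaf 0 [0xb41a00c61100b4010301]) (.cons (.splT 1
   (.cons (.leaf 0 [0x920a00b6110094010301]) (.cons (.leaf 0 [0xb20c00c4010201]) (.cons (.leaf 0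
   [0xc20a00c41a00b61100b4010094010080380601]) .nil)))) .nil)))) .nil))))) (.cons (.leaf 0
   [0xb6010101]) .nil)))))⟩]

theorem certs4_ok : AllB certs4 := allB_of_okB (by decide +kernel)

/-- Certificates. -/
def certs5 : List BCert :=
  [
   ⟨15, 27, [0, 1, 2, 3], [0, 1, 3, 4], 8, (.splS 0 (.cons (.leaf 0 [0x80010101]) (.cons (.leaf 0
   [0x92010101]) (.cons (.splS 2 (.cons (.leaf 0 [0x80110084010201]) (.cons (.leaf 0
   [0x821100b4010201]) (.cons (.leaf 0 [0x841100c4010201]) (.cons (.leaf 0 [0xb6110084010201])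
   .nil))))) (.cons (.leaf 0 [0xb6010101]) .nil)))))⟩,
   ⟨15, 28, [0, 1, 2, 3], [2, 3, 4], 10, (.splS 0 (.cons (.splT 2 (.cons (.leaf 0
   [0xa01200c00100a0010302]) (.cons (.leaf 0 [0xb61200a0010201]) (.cons (.splT 3 (.cons (.leaf 0
   [0xa41a00b0010201]) (.cons (.leaf 0 [0xb61a00b0010201]) (.cons (.leaf 0
   [0xc61a00c01200b00100a0010080380501]) .nil)))) .nil)))) (.cons (.splS 1 (.cons (.splT 3 (.cons
   (.leaf 0 [0xa01a00c00900b2010301]) (.cons (.leaf 0 [0x1361a00a00900b2010301]) (.cons (.splT 4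
   (.cons (.leaf 0 [0x1242200b00900c2010301]) (.cons (.leaf 0 [0x1362200b00900c2010301]) (.cons
   (.splT 2 (.cons (.leaf 0 [0xa01200b00900a2010301]) (.cons (.leaf 0 [0xb01200c00900a2010301])
   (.cons (.leaf 0 [0x1401201462201461a01300900a00900b2010122010100400801]) .nil)))) .nil))))
   .nil)))) (.cons (.splT 3 (.cons (.leaf 0 [0xa01a00c20900a2090122010402]) (.cons (.leaf 0
   [0xb61a00a20900a2010301]) (.cons (.splT 4 (.cons (.leaf 0 [0xa42200b20900a2010301]) (.cons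
   (.leaf 0 [0xb62200b20900a2010301]) (.cons (.leaf 0 [0xc62200c01a00b20900a2090122010080400601])
   .nil)))) .nil)))) (.cons (.leaf 0 [0xa40900a00b00b2010301]) (.cons (.leaf 0
   [0xb60900b00b00c2010301]) .nil))))) (.cons (.leaf 0 [0xa4010101]) (.cons (.leaf 0 [0xb6010101])
   .nil)))))⟩,
   ⟨15, 29, [0, 1, 2, 3], [0, 2, 3, 4], 6, (.splS 0 (.cons (.leaf 0 [0x80010101]) (.cons (.splS 1
   (.cons (.leaf 0 [0x80090082010201]) (.cons (.leaf 0 [0x820900a2010201]) (.cons (.leaf 0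
   [0x840900b2010201]) (.cons (.leaf 0 [0x860900c2010201]) .nil))))) (.cons (.leaf 0 [0xa4010101])
   (.cons (.leaf 0 [0xb6010101]) .nil)))))⟩,
   ⟨15, 30, [0, 1, 2, 3], [1, 2, 3, 4], 8, (.splS 0 (.cons (.splT 2 (.cons (.leaf 0
   [0x901200b00100a0010302]) (.cons (.leaf 0 [0xa01200c00100a0010302]) (.cons (.leaf 0
   [0xb61200a0010201]) (.cons (.splT 1 (.cons (.leaf 0 [0x900a00a0010090010302]) (.cons (.leaf 0
   [0xa00a00b0010090010302]) (.cons (.leaf 0 [0xb00a00c0010090010302]) (.cons (.leaf 0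
   [0xc00a00c61200a0010090010080300501]) .nil))))) .nil))))) (.cons (.leaf 0 [0x92010101]) (.cons
   (.leaf 0 [0xa4010101]) (.cons (.leaf 0 [0xb6010101]) .nil)))))⟩,
   ⟨15, 31, [0, 1, 2, 3], [0, 1, 2, 3, 4], 6, (.splS 0 (.cons (.leaf 0 [0x80010101]) (.cons (.leaf
   0 [0x92010101]) (.cons (.leaf 0 [0xa4010101]) (.cons (.leaf 0 [0xb6010101]) .nil)))))⟩,
   ⟨16, 16, [4], [4], 6, (.splS 0 (.cons (.leaf 0 [0xc8010101]) .nil))⟩,
   ⟨16, 17, [4], [0, 4], 6, (.splS 0 (.cons (.leaf 0 [0xc8010101]) .nil))⟩,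
   ⟨16, 18, [4], [1, 4], 6, (.splS 0 (.cons (.leaf 0 [0xc8010101]) .nil))⟩,
   ⟨16, 19, [4], [0, 1, 4], 6, (.splS 0 (.cons (.leaf 0 [0xc8010101]) .nil))⟩,
   ⟨16, 20, [4], [2, 4], 6, (.splS 0 (.cons (.leaf 0 [0xc8010101]) .nil))⟩,
   ⟨16, 21, [4], [0, 2, 4], 6, (.splS 0 (.cons (.leaf 0 [0xc8010101]) .nil))⟩,
   ⟨16, 22, [4], [1, 2, 4], 6, (.splS 0 (.cons (.leaf 0 [0xc8010101]) .nil))⟩,
   ⟨16, 23, [4], [0, 1, 2, 4], 6, (.splS 0 (.cons (.leaf 0 [0xc8010101]) .nil))⟩,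
   ⟨16, 24, [4], [3, 4], 6, (.splS 0 (.cons (.leaf 0 [0xc8010101]) .nil))⟩,
   ⟨16, 25, [4], [0, 3, 4], 6, (.splS 0 (.cons (.leaf 0 [0xc8010101]) .nil))⟩,
   ⟨16, 26, [4], [1, 3, 4], 6, (.splS 0 (.cons (.leaf 0 [0xc8010101]) .nil))⟩,
   ⟨16, 27, [4], [0, 1, 3, 4], 6, (.splS 0 (.cons (.leaf 0 [0xc8010101]) .nil))⟩,
   ⟨16, 28, [4], [2, 3, 4], 6, (.splS 0 (.cons (.leaf 0 [0xc8010101]) .nil))⟩,
   ⟨16, 29, [4], [0, 2, 3, 4], 6, (.splS 0 (.cons (.leaf 0 [0xc8010101]) .nil))⟩,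
   ⟨16, 30, [4], [1, 2, 3, 4], 6, (.splS 0 (.cons (.leaf 0 [0xc8010101]) .nil))⟩,
   ⟨16, 31, [4], [0, 1, 2, 3, 4], 6, (.splS 0 (.cons (.leaf 0 [0xc8010101]) .nil))⟩,
   ⟨17, 16, [0, 4], [4], 10, (.splS 0 (.cons (.splT 4 (.cons (.leaf 0 [0xc82200c0010201]) .nil))
   (.cons (.leaf 0 [0xc8010101]) .nil)))⟩,
   ⟨17, 17, [0, 4], [0, 4], 6, (.splS 0 (.cons (.leaf 0 [0x80010101]) (.cons (.leaf 0
   [0xc8010101]) .nil)))⟩,
   ⟨17, 18, [0, 4], [1, 4], 8, (.splS 0 (.cons (.splT 1 (.cons (.splS 2 (.cons (.splT 3 (.cons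
   (.leaf 0 [0x901a00901100900a00c0010090010502]) (.cons (.leaf 0 [0xc81a00901100900a0090010401])
   .nil))) (.cons (.leaf 0 [0xc81100900a0090010301]) .nil))) (.cons (.leaf 0 [0xc80a0090010201])
   .nil))) (.cons (.leaf 0 [0xc8010101]) .nil)))⟩,
   ⟨17, 19, [0, 4], [0, 1, 4], 6, (.splS 0 (.cons (.leaf 0 [0x80010101]) (.cons (.leaf 0
   [0xc8010101]) .nil)))⟩,
   ⟨17, 20, [0, 4], [2, 4], 8, (.splS 0 (.cons (.splT 2 (.cons (.leaf 0 [0xa01200c00100a0010302])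
   (.cons (.leaf 0 [0xc81200a0010201]) .nil))) (.cons (.leaf 0 [0xc8010101]) .nil)))⟩,
   ⟨17, 21, [0, 4], [0, 2, 4], 6, (.splS 0 (.cons (.leaf 0 [0x80010101]) (.cons (.leaf 0
   [0xc8010101]) .nil)))⟩,
   ⟨17, 22, [0, 4], [1, 2, 4], 10, (.splS 0 (.cons (.splT 1 (.cons (.leaf 0
   [0x900a00a0010090010302]) (.cons (.splS 3 (.cons (.splT 2 (.cons (.splT 4 (.cons (.leaf 0
   [0x1102200a01900a80a0140010090010503]) (.cons (.leaf 0 [0xa02200981200901900a0010401]) (.cons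
   (.leaf 0 [0xc82200c0010201]) .nil)))) (.cons (.leaf 0 [0xa01200c00100a0010302]) (.cons (.leaf 0
   [0xc81200a0010201]) .nil)))) (.cons (.leaf 0 [0xc81900a00a0090010301]) .nil))) (.cons (.leaf 0
   [0xc80a0090010201]) .nil)))) (.cons (.leaf 0 [0xc8010101]) .nil)))⟩,
   ⟨17, 23, [0, 4], [0, 1, 2, 4], 6, (.splS 0 (.cons (.leaf 0 [0x80010101]) (.cons (.leaf 0
   [0xc8010101]) .nil)))⟩,
   ⟨17, 24, [0, 4], [3, 4], 10, (.splS 0 (.cons (.splT 3 (.cons (.splT 4 (.cons (.leaf 0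
   [0xb02200b81a00c00100b0010080300501]) (.cons (.leaf 0 [0xc82200c0010201]) .nil))) (.cons (.leaf
   0 [0xc81a00b0010201]) .nil))) (.cons (.leaf 0 [0xc8010101]) .nil)))⟩,
   ⟨17, 25, [0, 4], [0, 3, 4], 6, (.splS 0 (.cons (.leaf 0 [0x80010101]) (.cons (.leaf 0
   [0xc8010101]) .nil)))⟩,
   ⟨17, 26, [0, 4], [1, 3, 4], 8, (.splS 0 (.cons (.splT 1 (.cons (.splS 2 (.cons (.splT 3 (.cons
   (.leaf 0 [0x901a00c00100b0010302]) (.cons (.leaf 0 [0xb01a00881300b0010301]) (.cons (.leaf 0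
   [0xc81a00b0010201]) .nil)))) (.cons (.leaf 0 [0xc81100900a0090010301]) .nil))) (.cons (.leaf 0
   [0xb00a00c0010090010302]) (.cons (.leaf 0 [0xc80a0090010201]) .nil)))) (.cons (.leaf 0
   [0xc8010101]) .nil)))⟩,
   ⟨17, 27, [0, 4], [0, 1, 3, 4], 6, (.splS 0 (.cons (.leaf 0 [0x80010101]) (.cons (.leaf 0
   [0xc8010101]) .nil)))⟩,
   ⟨17, 28, [0, 4], [2, 3, 4], 10, (.splS 0 (.cons (.splT 2 (.cons (.leaf 0
   [0xa01200c00100a0010302]) (.cons (.splS 1 (.cons (.leaf 0 [0x880b00b01200a0010301]) (.cons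
   (.splS 5 (.cons (.splT 4 (.cons (.leaf 0 [0xa02200b81200c00100a0010080280501]) (.cons (.leaf 0
   [0xb02200a02900b01200c00100a0010502]) (.cons (.leaf 0 [0xc82200c0010201]) .nil)))) (.cons
   (.leaf 0 [0xc82900b01200a0010301]) .nil))) .nil))) (.cons (.leaf 0 [0xc81200a0010201]) .nil))))
   (.cons (.leaf 0 [0xc8010101]) .nil)))⟩,
   ⟨17, 29, [0, 4], [0, 2, 3, 4], 6, (.splS 0 (.cons (.leaf 0 [0x80010101]) (.cons (.leaf 0
   [0xc8010101]) .nil)))⟩,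
   ⟨17, 30, [0, 4], [1, 2, 3, 4], 6, (.splS 0 (.cons (.splT 1 (.cons (.leaf 0
   [0x900a00a0010090010302]) (.cons (.leaf 0 [0xa00a00b0010090010302]) (.cons (.leaf 0
   [0xb00a00c0010090010302]) (.cons (.leaf 0 [0xc80a0090010201]) .nil))))) (.cons (.leaf 0
   [0xc8010101]) .nil)))⟩,
   ⟨17, 31, [0, 4], [0, 1, 2, 3, 4], 6, (.splS 0 (.cons (.leaf 0 [0x80010101]) (.cons (.leaf 0
   [0xc8010101]) .nil)))⟩,
   ⟨18, 16, [1, 4], [4], 12, (.splS 0 (.cons (.splS 1 (.cons (.splT 4 (.cons (.splS 2 (.cons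
   (.splT 5 (.cons (.splS 3 (.cons (.splT 7 (.cons (.splT 6 (.cons (.leaf 0
   [0xc83200c83a00c21900c82a00c21100c20900c2010701]) .nil)) .nil)) (.cons (.splT 6 (.cons (.leaf 0
   [0xc83200c81900c82a00c21100c82200c20900c2010701]) .nil)) .nil))) .nil)) (.cons (.splT 5 (.cons
   (.leaf 0 [0xc82a00c81100c82200c20900c2010501]) .nil)) .nil))) .nil)) (.cons (.splT 4 (.cons
   (.leaf 0 [0xc82200c80900c2010301]) .nil)) .nil))) (.cons (.leaf 0 [0xc8010101]) .nil)))⟩,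
   ⟨18, 17, [1, 4], [0, 4], 8, (.splS 0 (.cons (.splS 1 (.cons (.splS 2 (.cons (.splS 3 (.cons
   (.leaf 0 [0x821900821100820900c2010401]) (.cons (.leaf 0 [0xc8190082110082090082010401])
   .nil))) (.cons (.leaf 0 [0xc8110082090082010301]) .nil))) (.cons (.leaf 0 [0xc8090082010201])
   .nil))) (.cons (.leaf 0 [0xc8010101]) .nil)))⟩,
   ⟨18, 18, [1, 4], [1, 4], 6, (.splS 0 (.cons (.leaf 0 [0x92010101]) (.cons (.leaf 0
   [0xc8010101]) .nil)))⟩,
   ⟨18, 19, [1, 4], [0, 1, 4], 6, (.splS 0 (.cons (.leaf 0 [0x92010101]) (.cons (.leaf 0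
   [0xc8010101]) .nil)))⟩,
   ⟨18, 20, [1, 4], [2, 4], 10, (.splS 0 (.cons (.splS 1 (.cons (.splT 3 (.cons (.splT 4 (.cons
   (.splT 5 (.cons (.leaf 0 [0xa22a00a22200a81a00a21a0142090122090222010704]) (.cons (.leaf 0
   [0xc82a00c20900a2010301]) .nil))) (.cons (.leaf 0 [0xc82200a21a00c20900a2090122010502]) .nil)))
   (.cons (.leaf 0 [0xc81a00a20900a2010301]) .nil))) (.cons (.splT 2 (.cons (.splT 4 (.cons (.leaf
   0 [0xa22200a81201480900c20b0142010502]) (.cons (.leaf 0 [0xc82200c80900c2010301]) .nil)))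
   (.cons (.leaf 0 [0xc81200c80900a2010301]) .nil))) .nil))) (.cons (.leaf 0 [0xc8010101])
   .nil)))⟩,
   ⟨18, 21, [1, 4], [0, 2, 4], 6, (.splS 0 (.cons (.splS 1 (.cons (.leaf 0 [0x820900a2010201])
   (.cons (.leaf 0 [0xc8090082010201]) .nil))) (.cons (.leaf 0 [0xc8010101]) .nil)))⟩,
   ⟨18, 22, [1, 4], [1, 2, 4], 6, (.splS 0 (.cons (.leaf 0 [0x92010101]) (.cons (.leaf 0
   [0xc8010101]) .nil)))⟩,
   ⟨18, 23, [1, 4], [0, 1, 2, 4], 6, (.splS 0 (.cons (.leaf 0 [0x92010101]) (.cons (.leaf 0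
   [0xc8010101]) .nil)))⟩,
   ⟨18, 24, [1, 4], [3, 4], 12, (.splS 0 (.cons (.splS 1 (.cons (.splS 2 (.cons (.splT 5 (.cons
   (.splT 3 (.cons (.splT 4 (.cons (.leaf 0 [0xb82200b81c00b22a00b21100b20900b2010601]) (.cons
   (.leaf 0 [0x1482200b21a00c21100b2090132010080080601]) .nil))) (.cons (.splT 4 (.cons (.splT 6
   (.cons (.leaf 0 [0x1323201382201382a01421100b21100c20901320901b2010803]) (.cons (.leaf 0
   [0x1c83200b82200b22a01421100c20900b2090132010080380801]) .nil))) (.cons (.splT 6 (.cons (.leaf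
   0 [0xb23201c82200c21a00b82a00c21100b21101320901b2010080400080080a01]) (.cons (.leaf 0
   [0xc83200c82200c21100b20900b2010501]) .nil))) .nil))) .nil))) (.cons (.leaf 0
   [0x1482a00b21100c20900b2010401]) .nil))) (.cons (.splT 4 (.cons (.splT 3 (.cons (.splT 5 (.cons
   (.leaf 0 [0x1322a01381a01382201c81101420900b20900c2010132010803]) (.cons (.leaf 0
   [0x1c82a00b81a00b22201481101420900c20100b2010080300801]) .nil))) (.cons (.splT 5 (.cons (.leaf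
   0 [0xb22a01c81a00b82201481100c21300c20900b2090132010080380901]) (.cons (.leaf 0
   [0xc82a00c81a00c81100c20900b2010501]) .nil))) .nil))) (.cons (.leaf 0
   [0x1482200c81100b20900c2010401]) .nil))) .nil))) (.cons (.splT 3 (.cons (.splT 4 (.cons (.splT
   2 (.cons (.leaf 0 [0xb81400b22200b81a01480900c20100b2010602]) (.cons (.leaf 0
   [0xc81200b22200b81a01480900c20b00c20100b2010080300801]) .nil))) (.cons (.leaf 0
   [0xc82200c80900c2010301]) .nil))) (.cons (.leaf 0 [0xc81a00c80900b2010301]) .nil))) .nil)))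
   (.cons (.leaf 0 [0xc8010101]) .nil)))⟩,
   ⟨18, 25, [1, 4], [0, 3, 4], 8, (.splS 0 (.cons (.splS 1 (.cons (.splS 2 (.cons (.leaf 0
   [0x821100820900b2010301]) (.cons (.leaf 0 [0xc8110082090082010301]) .nil))) (.cons (.leaf 0
   [0xc8090082010201]) .nil))) (.cons (.leaf 0 [0xc8010101]) .nil)))⟩,
   ⟨18, 26, [1, 4], [1, 3, 4], 6, (.splS 0 (.cons (.leaf 0 [0x92010101]) (.cons (.leaf 0
   [0xc8010101]) .nil)))⟩,
   ⟨18, 27, [1, 4], [0, 1, 3, 4], 6, (.splS 0 (.cons (.leaf 0 [0x92010101]) (.cons (.leaf 0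
   [0xc8010101]) .nil)))⟩,
   ⟨18, 28, [1, 4], [2, 3, 4], 10, (.splS 0 (.cons (.splS 1 (.cons (.splT 3 (.cons (.splT 4 (.cons
   (.leaf 0 [0xa22200a21a00a61c00c20900a2090122010602]) (.cons (.leaf 0
   [0xb22200a81a00a21a00c20901220901a2010603]) (.cons (.leaf 0
   [0xc82200a21a00c20900a2090122010502]) .nil)))) (.cons (.splT 4 (.cons (.splT 5 (.cons (.leaf 0
   [0xa22a00b81a00c20900a2090122010502]) (.cons (.leaf 0 [0xb22a00a82200c20900b2090122010502])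
   (.cons (.leaf 0 [0xc82a00c20900a2010301]) .nil)))) (.cons (.leaf 0
   [0xb42400b81a00a20900a2010401]) (.cons (.leaf 0 [0xc82200b20900a2010301]) .nil)))) (.cons
   (.leaf 0 [0xc81a00a20900a2010301]) .nil)))) (.cons (.splS 5 (.cons (.splT 2 (.cons (.splT 3
   (.cons (.leaf 0 [0xa21a00a21200a61401480900c20100a2010602]) (.cons (.leaf 0
   [0xb21a00a81200a21201c80900c2010122010603]) (.cons (.leaf 0 [0xc81a00c80900b2010301]) .nil))))
   (.cons (.splT 4 (.cons (.leaf 0 [0xa22200b81201480900c20100a2010502]) (.cons (.leaf 0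
   [0xb22200b81200a22900b80900a2010501]) (.cons (.leaf 0 [0xc82200c80900c2010301]) .nil)))) (.cons
   (.leaf 0 [0xc81200c80900a2010301]) .nil)))) (.cons (.splT 2 (.cons (.splT 3 (.cons (.leaf 0
   [0xa21a00a21200a61401480900c20100a2010602]) (.cons (.leaf 0
   [0xb21a00a81201480900b20100a2010502]) (.cons (.leaf 0 [0xc81a00a21201480900c20100a2010502])
   .nil)))) (.cons (.splT 3 (.cons (.splT 4 (.cons (.leaf 0 [0xa22200b81201480900c20100a2010502])
   (.cons (.leaf 0 [0xb22200a81a01480900c20100b2010502]) (.cons (.leaf 0 [0xc82200c80900c2010301])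
   .nil)))) (.cons (.leaf 0 [0xb41c00b81200c80900a2010401]) (.cons (.leaf 0
   [0xc81a00c80900b2010301]) .nil)))) (.cons (.leaf 0 [0xc81200c80900a2010301]) .nil)))) .nil)))
   .nil))) (.cons (.leaf 0 [0xc8010101]) .nil)))⟩]

theorem certs5_ok : AllB certs5 := allB_of_okB (by decide +kernel)

/-- Certificates. -/
def certs6 : List BCert :=
  [
   ⟨18, 29, [1, 4], [0, 2, 3, 4], 6, (.splS 0 (.cons (.splS 1 (.cons (.leaf 0 [0x820900a2010201])
   (.cons (.leaf 0 [0xc8090082010201]) .nil))) (.cons (.leaf 0 [0xc8010101]) .nil)))⟩,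
   ⟨18, 30, [1, 4], [1, 2, 3, 4], 6, (.splS 0 (.cons (.leaf 0 [0x92010101]) (.cons (.leaf 0
   [0xc8010101]) .nil)))⟩,
   ⟨18, 31, [1, 4], [0, 1, 2, 3, 4], 6, (.splS 0 (.cons (.leaf 0 [0x92010101]) (.cons (.leaf 0
   [0xc8010101]) .nil)))⟩,
   ⟨19, 16, [0, 1, 4], [4], 12, (.splS 0 (.cons (.splT 4 (.cons (.leaf 0 [0xc82200c0010201])
   .nil)) (.cons (.splS 1 (.cons (.splT 5 (.cons (.splT 4 (.cons (.leaf 0
   [0xc82200c82a00c00900c2010401]) .nil)) .nil)) (.cons (.splT 4 (.cons (.splS 2 (.cons (.splT 6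
   (.cons (.splT 5 (.cons (.leaf 0 [0xc82a00c83200c01100c82200c20900c2010601]) .nil)) .nil))
   (.cons (.splT 5 (.cons (.splS 3 (.cons (.splT 7 (.cons (.splT 6 (.cons (.leaf 0
   [0xc83200c83a00c01900c82a00c21100c82200c20900c2010801]) .nil)) .nil)) (.cons (.splT 7 (.cons
   (.splT 6 (.cons (.leaf 0 [0xc83200c83a00c21900c82a00c21100c20900c2010701]) .nil)) .nil)) (.cons
   (.splT 6 (.cons (.leaf 0 [0xc83200c81900c82a00c21100c82200c20900c2010701]) .nil)) .nil))))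
   .nil)) (.cons (.splT 5 (.cons (.leaf 0 [0xc82a00c81100c82200c20900c2010501]) .nil)) .nil))))
   .nil)) (.cons (.splT 4 (.cons (.leaf 0 [0xc82200c80900c2010301]) .nil)) .nil)))) (.cons (.leaf
   0 [0xc8010101]) .nil))))⟩,
   ⟨19, 17, [0, 1, 4], [0, 4], 8, (.splS 0 (.cons (.leaf 0 [0x80010101]) (.cons (.splS 1 (.cons
   (.leaf 0 [0x80090082010201]) (.cons (.splS 2 (.cons (.leaf 0 [0x80110082090082010301]) (.cons
   (.splS 3 (.cons (.leaf 0 [0x80190082110082090082010401]) (.cons (.leaf 0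
   [0x821900821100820900c2010401]) (.cons (.leaf 0 [0xc8190082110082090082010401]) .nil)))) (.cons
   (.leaf 0 [0xc8110082090082010301]) .nil)))) (.cons (.leaf 0 [0xc8090082010201]) .nil)))) (.cons
   (.leaf 0 [0xc8010101]) .nil))))⟩,
   ⟨19, 18, [0, 1, 4], [1, 4], 6, (.splS 0 (.cons (.splT 1 (.cons (.leaf 0 [0x920a0090010201])
   (.cons (.leaf 0 [0xc80a0090010201]) .nil))) (.cons (.leaf 0 [0x92010101]) (.cons (.leaf 0
   [0xc8010101]) .nil))))⟩,
   ⟨19, 19, [0, 1, 4], [0, 1, 4], 6, (.splS 0 (.cons (.leaf 0 [0x80010101]) (.cons (.leaf 0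
   [0x92010101]) (.cons (.leaf 0 [0xc8010101]) .nil))))⟩,
   ⟨19, 20, [0, 1, 4], [2, 4], 8, (.splS 0 (.cons (.splT 2 (.cons (.leaf 0
   [0xa01200c00100a0010302]) (.cons (.leaf 0 [0xc81200a0010201]) .nil))) (.cons (.splS 1 (.cons
   (.splT 2 (.cons (.splT 3 (.cons (.leaf 0 [0xa01a00a01200c00900a00900c20100a2010602]) (.cons
   (.leaf 0 [0x1481a00a01201200900c20100a2010502]) .nil))) (.cons (.splT 3 (.cons (.leaf 0
   [0xa01a01481200c00900a0090122010502]) (.cons (.leaf 0 [0xc81a00c81200a00900a2010401]) .nil)))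
   .nil))) (.cons (.splT 3 (.cons (.leaf 0 [0xa01a00c20900a2090122010402]) (.cons (.leaf 0
   [0xc81a00a20900a2010301]) .nil))) (.cons (.splT 2 (.cons (.leaf 0
   [0xa01201480900c20100a2010402]) (.cons (.leaf 0 [0xc81200c80900a2010301]) .nil))) .nil))))
   (.cons (.leaf 0 [0xc8010101]) .nil))))⟩,
   ⟨19, 21, [0, 1, 4], [0, 2, 4], 6, (.splS 0 (.cons (.leaf 0 [0x80010101]) (.cons (.splS 1 (.cons
   (.leaf 0 [0x80090082010201]) (.cons (.leaf 0 [0x820900a2010201]) (.cons (.leaf 0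
   [0xc8090082010201]) .nil)))) (.cons (.leaf 0 [0xc8010101]) .nil))))⟩,
   ⟨19, 22, [0, 1, 4], [1, 2, 4], 8, (.splS 0 (.cons (.splT 2 (.cons (.leaf 0 [0x921200a0010201])
   (.cons (.leaf 0 [0xa01200c00100a0010302]) (.cons (.leaf 0 [0xc81200a0010201]) .nil)))) (.cons
   (.leaf 0 [0x92010101]) (.cons (.leaf 0 [0xc8010101]) .nil))))⟩,
   ⟨19, 23, [0, 1, 4], [0, 1, 2, 4], 6, (.splS 0 (.cons (.leaf 0 [0x80010101]) (.cons (.leaf 0
   [0x92010101]) (.cons (.leaf 0 [0xc8010101]) .nil))))⟩,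
   ⟨19, 24, [0, 1, 4], [3, 4], 12, (.splS 0 (.cons (.splT 3 (.cons (.splT 4 (.cons (.leaf 0
   [0xb02200b81a00c00100b0010080300501]) (.cons (.leaf 0 [0xc82200c0010201]) .nil))) (.cons (.leaf
   0 [0xc81a00b0010201]) .nil))) (.cons (.splS 1 (.cons (.splT 4 (.cons (.splT 3 (.cons (.splT 5
   (.cons (.leaf 0 [0x1322a01381a01382201400900b00900c2010132010703]) (.cons (.leaf 0
   [0xc82a00c22a00b81a00b02201400900c20100b2010080480801]) .nil))) (.cons (.splT 5 (.cons (.leaf 0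
   [0xb02a01481a00b82200c00900b0090132010080380701]) (.cons (.leaf 0
   [0xc82a00c81a00c00900b2010401]) .nil))) .nil))) (.cons (.leaf 0 [0x1482200b00900c2010301])
   .nil))) (.cons (.splT 3 (.cons (.splS 2 (.cons (.splT 4 (.cons (.leaf 0
   [0xb02200c01100b81a00b20900b2010501]) (.cons (.leaf 0 [0xc82200c01100b01a00b20900b2010501])
   .nil))) (.cons (.splT 4 (.cons (.leaf 0 [0xb02200c21100b81c00b20900b2010501]) (.cons (.leaf 0
   [0xc82200c21100b01a00b2090132010080080601]) .nil))) (.cons (.splT 4 (.cons (.splT 5 (.cons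
   (.leaf 0 [0x1322a01382201c81101381a01420900b20900c2010132010803]) (.cons (.leaf 0
   [0xc82a00c22a00b02201481100b81a01420900c20100b2010080480901]) .nil))) (.cons (.leaf 0
   [0x1482200c81100b20900c2010401]) .nil))) .nil)))) (.cons (.splS 2 (.cons (.splT 5 (.cons (.splT
   4 (.cons (.splT 6 (.cons (.leaf 0
   [0x1323201382201382a01401100b01101c81a00c20901320901b2010903]) (.cons (.leaf 0
   [0xc83200c23200b82200b02a01401101481a00c20900b2090132010080500a01]) .nil))) (.cons (.splT 6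
   (.cons (.leaf 0 [0xb03201482200b82a00c01100b01101481a0132090132010080400901]) (.cons (.leaf 0
   [0xc83200c82200c01100c81a00b20900b2010601]) .nil))) .nil))) (.cons (.leaf 0
   [0x1482a00b01100c81a00c20900b2010501]) .nil))) (.cons (.splT 5 (.cons (.splT 4 (.cons (.splT 6
   (.cons (.leaf 0 [0x1323201382201382a01421100b21100c20901320901b2010803]) (.cons (.leaf 0
   [0xc83200c23200b82200b02a01421100c20900b2090132010080500901]) .nil))) (.cons (.splT 6 (.cons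
   (.leaf 0 [0xb03201482200b82a00c21100b2110132090132010080400801]) (.cons (.leaf 0
   [0xc83200c82200c21100b20900b2010501]) .nil))) .nil))) (.cons (.leaf 0
   [0x1482a00b21100c20900b2010401]) .nil))) (.cons (.splT 4 (.cons (.splT 5 (.cons (.leaf 0
   [0xb02a00b82201481101481a00c20900b2090132010080380801]) (.cons (.leaf 0
   [0xc82a00c81100c81a00c20900b2010501]) .nil))) (.cons (.leaf 0
   [0xc82200c81100c81a00b20900b2010501]) .nil))) .nil)))) .nil))) (.cons (.splT 3 (.cons (.splT 4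
   (.cons (.leaf 0 [0xb02200b81a01480900c20100b2010080300601]) (.cons (.leaf 0
   [0xc82200c80900c2010301]) .nil))) (.cons (.leaf 0 [0xc81a00c80900b2010301]) .nil))) .nil))))
   (.cons (.leaf 0 [0xc8010101]) .nil))))⟩,
   ⟨19, 25, [0, 1, 4], [0, 3, 4], 8, (.splS 0 (.cons (.leaf 0 [0x80010101]) (.cons (.splS 1 (.cons
   (.leaf 0 [0x80090082010201]) (.cons (.splS 2 (.cons (.leaf 0 [0x80110082090082010301]) (.cons
   (.leaf 0 [0x821100820900b2010301]) (.cons (.leaf 0 [0xc8110082090082010301]) .nil)))) (.cons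
   (.leaf 0 [0xc8090082010201]) .nil)))) (.cons (.leaf 0 [0xc8010101]) .nil))))⟩,
   ⟨19, 26, [0, 1, 4], [1, 3, 4], 6, (.splS 0 (.cons (.splT 1 (.cons (.leaf 0 [0x920a0090010201])
   (.cons (.leaf 0 [0xb00a00c0010090010302]) (.cons (.leaf 0 [0xc80a0090010201]) .nil)))) (.cons
   (.leaf 0 [0x92010101]) (.cons (.leaf 0 [0xc8010101]) .nil))))⟩,
   ⟨19, 27, [0, 1, 4], [0, 1, 3, 4], 6, (.splS 0 (.cons (.leaf 0 [0x80010101]) (.cons (.leaf 0
   [0x92010101]) (.cons (.leaf 0 [0xc8010101]) .nil))))⟩,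
   ⟨19, 28, [0, 1, 4], [2, 3, 4], 10, (.splS 0 (.cons (.splT 2 (.cons (.leaf 0
   [0xa01200c00100a0010302]) (.cons (.splT 4 (.cons (.leaf 0 [0xa22200b81200c00100a0010402])
   (.cons (.leaf 0 [0xb22200b01200c00100a0010080380501]) (.cons (.leaf 0 [0xc82200c0010201])
   .nil)))) (.cons (.leaf 0 [0xc81200a0010201]) .nil)))) (.cons (.splS 1 (.cons (.splT 3 (.cons
   (.leaf 0 [0xa01a00c00900b2010301]) (.cons (.splT 2 (.cons (.leaf 0 [0xa01200b00900a2010301])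
   (.cons (.leaf 0 [0xb01200c00900a2010301]) (.cons (.splT 5 (.cons (.leaf 0
   [0xa22a01481200b81a00c00900a0090122010602]) (.cons (.leaf 0
   [0xb22a01481200b01a00c00900a0090122010080400701]) (.cons (.leaf 0
   [0xc82a00c81200c00900a2010401]) .nil)))) .nil)))) (.cons (.leaf 0 [0x1481a00a00900b2010301])
   .nil)))) (.cons (.splT 3 (.cons (.leaf 0 [0xa01a00c20900a2090122010402]) (.cons (.splT 5 (.cons
   (.leaf 0 [0xa22a00b81a00c20900a2090122010502]) (.cons (.leaf 0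
   [0xb22a00b01a00c20900a2090122010080400601]) (.cons (.leaf 0 [0xc82a00c20900a2010301]) .nil))))
   (.cons (.leaf 0 [0xc81a00a20900a2010301]) .nil)))) (.cons (.splT 2 (.cons (.leaf 0
   [0xa01201480900c20100a2010402]) (.cons (.splT 4 (.cons (.leaf 0
   [0xa22200b81201480900c20100a2010502]) (.cons (.leaf 0
   [0xb22200b01201480900c20100a2010080380601]) (.cons (.leaf 0 [0xc82200c80900c2010301]) .nil))))
   (.cons (.leaf 0 [0xc81200c80900a2010301]) .nil)))) .nil)))) (.cons (.leaf 0 [0xc8010101])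
   .nil))))⟩,
   ⟨19, 29, [0, 1, 4], [0, 2, 3, 4], 6, (.splS 0 (.cons (.leaf 0 [0x80010101]) (.cons (.splS 1
   (.cons (.leaf 0 [0x80090082010201]) (.cons (.leaf 0 [0x820900a2010201]) (.cons (.leaf 0
   [0xc8090082010201]) .nil)))) (.cons (.leaf 0 [0xc8010101]) .nil))))⟩,
   ⟨19, 30, [0, 1, 4], [1, 2, 3, 4], 6, (.splS 0 (.cons (.splT 1 (.cons (.leaf 0
   [0x900a00a0010090010302]) (.cons (.leaf 0 [0xa00a00b0010090010302]) (.cons (.leaf 0
   [0xb00a00c0010090010302]) (.cons (.leaf 0 [0xc80a0090010201]) .nil))))) (.cons (.leaf 0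
   [0x92010101]) (.cons (.leaf 0 [0xc8010101]) .nil))))⟩,
   ⟨19, 31, [0, 1, 4], [0, 1, 2, 3, 4], 6, (.splS 0 (.cons (.leaf 0 [0x80010101]) (.cons (.leaf 0
   [0x92010101]) (.cons (.leaf 0 [0xc8010101]) .nil))))⟩,
   ⟨20, 16, [2, 4], [4], 12, (.splS 0 (.cons (.splS 1 (.cons (.splS 2 (.cons (.splT 6 (.cons
   (.leaf 0 [0xc83200c41100c4010301]) .nil)) (.cons (.splT 4 (.cons (.leaf 0
   [0xc82200c81100c4010301]) .nil)) .nil))) (.cons (.splS 2 (.cons (.splT 6 (.cons (.leaf 0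
   [0xc83200c41100c4010301]) .nil)) (.cons (.splT 4 (.cons (.leaf 0 [0xc82200c81100c4010301])
   .nil)) .nil))) .nil))) (.cons (.leaf 0 [0xc8010101]) .nil)))⟩,
   ⟨20, 17, [2, 4], [0, 4], 8, (.splS 0 (.cons (.splS 2 (.cons (.leaf 0 [0x841100c4010201]) (.cons
   (.leaf 0 [0xc8110084010201]) .nil))) (.cons (.leaf 0 [0xc8010101]) .nil)))⟩,
   ⟨20, 19, [2, 4], [0, 1, 4], 8, (.splS 0 (.cons (.splS 2 (.cons (.leaf 0 [0x841100c4010201])
   (.cons (.leaf 0 [0xc8110084010201]) .nil))) (.cons (.leaf 0 [0xc8010101]) .nil)))⟩,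
   ⟨20, 20, [2, 4], [2, 4], 6, (.splS 0 (.cons (.leaf 0 [0xa4010101]) (.cons (.leaf 0
   [0xc8010101]) .nil)))⟩,
   ⟨20, 21, [2, 4], [0, 2, 4], 6, (.splS 0 (.cons (.leaf 0 [0xa4010101]) (.cons (.leaf 0
   [0xc8010101]) .nil)))⟩,
   ⟨20, 22, [2, 4], [1, 2, 4], 6, (.splS 0 (.cons (.leaf 0 [0xa4010101]) (.cons (.leaf 0
   [0xc8010101]) .nil)))⟩,
   ⟨20, 23, [2, 4], [0, 1, 2, 4], 6, (.splS 0 (.cons (.leaf 0 [0xa4010101]) (.cons (.leaf 0
   [0xc8010101]) .nil)))⟩,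
   ⟨20, 24, [2, 4], [3, 4], 12, (.splS 0 (.cons (.splS 1 (.cons (.splS 2 (.cons (.splT 5 (.cons
   (.splT 6 (.cons (.leaf 0 [0xb43200b82a00c41100b4110144010502]) (.cons (.leaf 0
   [0xc83200c41100c4010301]) .nil))) (.cons (.leaf 0 [0xc82a00b41100c4010301]) .nil))) (.cons
   (.splT 3 (.cons (.splT 4 (.cons (.leaf 0 [0xb42200b81a01481100c40100b4010502]) (.cons (.leaf 0
   [0xc82200c81100c4010301]) .nil))) (.cons (.leaf 0 [0xc81a00c81100b4010301]) .nil))) .nil)))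
   (.cons (.splS 2 (.cons (.splT 3 (.cons (.leaf 0 [0xb41a00c41100c40b00c4010401]) (.cons (.leaf 0
   [0xc81a00b41100c40b00c4010401]) .nil))) (.cons (.splT 3 (.cons (.splT 4 (.cons (.leaf 0
   [0xb42200b81a01481100c40100b4010502]) (.cons (.leaf 0 [0xc82200c81100c4010301]) .nil))) (.cons
   (.leaf 0 [0xc81a00c81100b4010301]) .nil))) .nil))) .nil))) (.cons (.leaf 0 [0xc8010101])
   .nil)))⟩,
   ⟨20, 25, [2, 4], [0, 3, 4], 8, (.splS 0 (.cons (.splS 2 (.cons (.leaf 0 [0x841100c4010201])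
   (.cons (.leaf 0 [0xc8110084010201]) .nil))) (.cons (.leaf 0 [0xc8010101]) .nil)))⟩,
   ⟨20, 27, [2, 4], [0, 1, 3, 4], 8, (.splS 0 (.cons (.splS 2 (.cons (.leaf 0 [0x841100c4010201])
   (.cons (.leaf 0 [0xc8110084010201]) .nil))) (.cons (.leaf 0 [0xc8010101]) .nil)))⟩,
   ⟨20, 28, [2, 4], [2, 3, 4], 6, (.splS 0 (.cons (.leaf 0 [0xa4010101]) (.cons (.leaf 0
   [0xc8010101]) .nil)))⟩,
   ⟨20, 29, [2, 4], [0, 2, 3, 4], 6, (.splS 0 (.cons (.leaf 0 [0xa4010101]) (.cons (.leaf 0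
   [0xc8010101]) .nil)))⟩,
   ⟨20, 30, [2, 4], [1, 2, 3, 4], 6, (.splS 0 (.cons (.leaf 0 [0xa4010101]) (.cons (.leaf 0
   [0xc8010101]) .nil)))⟩,
   ⟨20, 31, [2, 4], [0, 1, 2, 3, 4], 6, (.splS 0 (.cons (.leaf 0 [0xa4010101]) (.cons (.leaf 0
   [0xc8010101]) .nil)))⟩,
   ⟨21, 16, [0, 2, 4], [4], 12, (.splS 0 (.cons (.splT 4 (.cons (.leaf 0 [0xc82200c0010201])
   .nil)) (.cons (.splS 1 (.cons (.splT 5 (.cons (.splS 2 (.cons (.splT 6 (.cons (.splT 4 (.cons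
   (.leaf 0 [0xc82200c83200c01100c4010401]) .nil)) .nil)) (.cons (.splT 6 (.cons (.leaf 0
   [0xc83200c41100c4010301]) .nil)) (.cons (.splT 4 (.cons (.leaf 0 [0xc82200c81100c4010301])
   .nil)) .nil)))) .nil)) (.cons (.splS 2 (.cons (.splT 6 (.cons (.splT 4 (.cons (.leaf 0
   [0xc82200c83200c01100c4010401]) .nil)) .nil)) (.cons (.splT 6 (.cons (.leaf 0
   [0xc83200c41100c4010301]) .nil)) (.cons (.splT 4 (.cons (.leaf 0 [0xc82200c81100c4010301])
   .nil)) .nil)))) (.cons (.splS 2 (.cons (.splT 6 (.cons (.splT 4 (.cons (.leaf 0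
   [0xc82200c83200c01100c4010401]) .nil)) .nil)) (.cons (.splT 6 (.cons (.leaf 0
   [0xc83200c41100c4010301]) .nil)) (.cons (.splT 4 (.cons (.leaf 0 [0xc82200c81100c4010301])
   .nil)) .nil)))) .nil)))) (.cons (.leaf 0 [0xc8010101]) .nil))))⟩,
   ⟨21, 17, [0, 2, 4], [0, 4], 8, (.splS 0 (.cons (.leaf 0 [0x80010101]) (.cons (.splS 2 (.cons
   (.leaf 0 [0x80110084010201]) (.cons (.leaf 0 [0x841100c4010201]) (.cons (.leaf 0
   [0xc8110084010201]) .nil)))) (.cons (.leaf 0 [0xc8010101]) .nil))))⟩,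
   ⟨21, 18, [0, 2, 4], [1, 4], 8, (.splS 0 (.cons (.splT 1 (.cons (.leaf 0
   [0x900a0090010084030301]) (.cons (.leaf 0 [0xc80a0090010201]) .nil))) (.cons (.splS 2 (.cons
   (.splT 1 (.cons (.splT 3 (.cons (.leaf 0 [0x901a00901100c4010301]) (.cons (.leaf 0
   [0x1481a00900a0110110094010401]) .nil))) (.cons (.splT 3 (.cons (.leaf 0
   [0x941a00c80a00c20c00901100c4010094010602]) (.cons (.leaf 0 [0xc81a00c80a0090110094010401])
   .nil))) .nil))) (.cons (.splT 3 (.cons (.leaf 0 [0x901a0094110144010080100401]) (.cons (.leaf 0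
   [0xc81a00941100c4010301]) .nil))) (.cons (.splT 1 (.cons (.leaf 0 [0x900a0148110094010301])
   (.cons (.leaf 0 [0xc80a00c8110094010301]) .nil))) .nil)))) (.cons (.leaf 0 [0xc8010101])
   .nil))))⟩,
   ⟨21, 19, [0, 2, 4], [0, 1, 4], 8, (.splS 0 (.cons (.leaf 0 [0x80010101]) (.cons (.splS 2 (.cons
   (.leaf 0 [0x80110084010201]) (.cons (.leaf 0 [0x841100c4010201]) (.cons (.leaf 0
   [0xc8110084010201]) .nil)))) (.cons (.leaf 0 [0xc8010101]) .nil))))⟩,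
   ⟨21, 20, [0, 2, 4], [2, 4], 8, (.splS 0 (.cons (.splT 2 (.cons (.leaf 0
   [0xa01200c00100a0010302]) (.cons (.leaf 0 [0xc81200a0010201]) .nil))) (.cons (.leaf 0
   [0xa4010101]) (.cons (.leaf 0 [0xc8010101]) .nil))))⟩,
   ⟨21, 21, [0, 2, 4], [0, 2, 4], 6, (.splS 0 (.cons (.leaf 0 [0x80010101]) (.cons (.leaf 0
   [0xa4010101]) (.cons (.leaf 0 [0xc8010101]) .nil))))⟩,
   ⟨21, 22, [0, 2, 4], [1, 2, 4], 6, (.splS 0 (.cons (.splT 1 (.cons (.leaf 0
   [0x900a00a0010090010302]) (.cons (.leaf 0 [0xa40a0090010201]) (.cons (.leaf 0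
   [0xc80a0090010201]) .nil)))) (.cons (.leaf 0 [0xa4010101]) (.cons (.leaf 0 [0xc8010101])
   .nil))))⟩,
   ⟨21, 23, [0, 2, 4], [0, 1, 2, 4], 6, (.splS 0 (.cons (.leaf 0 [0x80010101]) (.cons (.leaf 0
   [0xa4010101]) (.cons (.leaf 0 [0xc8010101]) .nil))))⟩,
   ⟨21, 24, [0, 2, 4], [3, 4], 12, (.splS 0 (.cons (.splT 3 (.cons (.splT 4 (.cons (.leaf 0
   [0xb42200b81a00c00100b0010402]) (.cons (.leaf 0 [0xc82200c0010201]) .nil))) (.cons (.leaf 0
   [0xc81a00b0010201]) .nil))) (.cons (.splS 1 (.cons (.splT 4 (.cons (.splS 2 (.cons (.splT 5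
   (.cons (.leaf 0 [0xb42a00b01100b82200c4010401]) (.cons (.splT 3 (.cons (.leaf 0
   [0xb01a00c01100b4010301]) (.cons (.leaf 0 [0xc81a00c82a00b01100b4010401]) .nil))) .nil)))
   (.cons (.splT 5 (.cons (.leaf 0 [0xb42a00b41100b82400c4010401]) (.cons (.leaf 0
   [0xc82a00b41100c4010301]) .nil))) (.cons (.splT 3 (.cons (.leaf 0
   [0xb81a01481100b42200c40100b4010502]) (.cons (.leaf 0 [0xc81a00c81100b4010301]) .nil)))
   .nil)))) (.cons (.splS 2 (.cons (.splT 5 (.cons (.splT 6 (.cons (.leaf 0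
   [0xb43200b82a00c01100b0110148220144010602]) (.cons (.leaf 0 [0xc83200c01100c82200c4010401])
   .nil))) (.cons (.leaf 0 [0xc82a00b01100c82200c4010401]) .nil))) (.cons (.splT 5 (.cons (.splT 6
   (.cons (.leaf 0 [0xb43200b82a00c41100b4110144010502]) (.cons (.leaf 0 [0xc83200c41100c4010301])
   .nil))) (.cons (.leaf 0 [0xc82a00b41100c4010301]) .nil))) (.cons (.leaf 0
   [0xc81100c82200c4010301]) .nil)))) .nil))) (.cons (.splT 4 (.cons (.splS 2 (.cons (.splT 5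
   (.cons (.leaf 0 [0xb42a00b01100b82400a00b00b4010501]) (.cons (.leaf 0
   [0xc82a00b01100a00b00b4010401]) .nil))) (.cons (.splT 5 (.cons (.leaf 0
   [0xb42a00b41100b82400c4010401]) (.cons (.leaf 0 [0xc82a00b41100c4010301]) .nil))) (.cons (.leaf
   0 [0xc81100a00b00b4010301]) .nil)))) (.cons (.splS 2 (.cons (.splT 5 (.cons (.splT 6 (.cons
   (.leaf 0 [0xb43200b82a00c01100b01101200b0134010602]) (.cons (.leaf 0
   [0xc83200c01100a00b00b4010401]) .nil))) (.cons (.leaf 0 [0xc82a00b01100a00b00b4010401]) .nil)))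
   (.cons (.splT 5 (.cons (.splT 6 (.cons (.leaf 0 [0xb43200b82a00c41100b4110144010502]) (.cons
   (.leaf 0 [0xc83200c41100c4010301]) .nil))) (.cons (.leaf 0 [0xc82a00b41100c4010301]) .nil)))
   (.cons (.leaf 0 [0xc81100a00b00b4010301]) .nil)))) .nil))) (.cons (.splS 2 (.cons (.splT 3
   (.cons (.leaf 0 [0xb01a00c01100b4010301]) (.cons (.leaf 0 [0xc81a00b01100c00b00b4010401])
   .nil))) (.cons (.leaf 0 [0xb41100c00b00c4010301]) (.cons (.splT 3 (.cons (.splT 4 (.cons (.leaf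
   0 [0xb42200b81a01481100c40100b4010502]) (.cons (.leaf 0 [0xc82200c81100c4010301]) .nil)))
   (.cons (.leaf 0 [0xc81a00c81100b4010301]) .nil))) .nil)))) .nil)))) (.cons (.leaf 0
   [0xc8010101]) .nil))))⟩,
   ⟨21, 25, [0, 2, 4], [0, 3, 4], 8, (.splS 0 (.cons (.leaf 0 [0x80010101]) (.cons (.splS 2 (.cons
   (.leaf 0 [0x80110084010201]) (.cons (.leaf 0 [0x841100c4010201]) (.cons (.leaf 0
   [0xc8110084010201]) .nil)))) (.cons (.leaf 0 [0xc8010101]) .nil))))⟩,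
   ⟨21, 26, [0, 2, 4], [1, 3, 4], 8, (.splS 0 (.cons (.splT 1 (.cons (.leaf 0
   [0x900a0090010084030301]) (.cons (.leaf 0 [0xb00a00c0010090010302]) (.cons (.leaf 0
   [0xc80a0090010201]) .nil)))) (.cons (.splS 2 (.cons (.splT 3 (.cons (.leaf 0
   [0x901a00901100c4010301]) (.cons (.leaf 0 [0xb01a00c01100b4010301]) (.cons (.leaf 0
   [0x1481a00901100b4010301]) .nil)))) (.cons (.splT 3 (.cons (.leaf 0
   [0x901a0094110144010080100401]) (.cons (.leaf 0 [0xb01a00c4110094110144010402]) (.cons (.leaf 0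
   [0xc81a00941100c4010301]) .nil)))) (.cons (.splT 1 (.cons (.leaf 0 [0x900a0148110094010301])
   (.cons (.leaf 0 [0xb20c00c4010201]) (.cons (.leaf 0 [0xc80a00c8110094010301]) .nil)))) .nil))))
   (.cons (.leaf 0 [0xc8010101]) .nil))))⟩,
   ⟨21, 27, [0, 2, 4], [0, 1, 3, 4], 8, (.splS 0 (.cons (.leaf 0 [0x80010101]) (.cons (.splS 2
   (.cons (.leaf 0 [0x80110084010201]) (.cons (.leaf 0 [0x841100c4010201]) (.cons (.leaf 0
   [0xc8110084010201]) .nil)))) (.cons (.leaf 0 [0xc8010101]) .nil))))⟩,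
   ⟨21, 28, [0, 2, 4], [2, 3, 4], 8, (.splS 0 (.cons (.splT 2 (.cons (.leaf 0
   [0xa01200c00100a0010302]) (.cons (.splT 3 (.cons (.leaf 0 [0xa41a00b0010201]) (.cons (.leaf 0
   [0xb41a00b81200b00100a0010402]) (.cons (.leaf 0 [0xc81a00b0010201]) .nil)))) (.cons (.leaf 0
   [0xc81200a0010201]) .nil)))) (.cons (.leaf 0 [0xa4010101]) (.cons (.leaf 0 [0xc8010101])
   .nil))))⟩,
   ⟨21, 29, [0, 2, 4], [0, 2, 3, 4], 6, (.splS 0 (.cons (.leaf 0 [0x80010101]) (.cons (.leaf 0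
   [0xa4010101]) (.cons (.leaf 0 [0xc8010101]) .nil))))⟩,
   ⟨21, 30, [0, 2, 4], [1, 2, 3, 4], 6, (.splS 0 (.cons (.splT 1 (.cons (.leaf 0
   [0x900a00a0010090010302]) (.cons (.leaf 0 [0xa00a00b0010090010302]) (.cons (.leaf 0
   [0xb00a00c0010090010302]) (.cons (.leaf 0 [0xc80a0090010201]) .nil))))) (.cons (.leaf 0
   [0xa4010101]) (.cons (.leaf 0 [0xc8010101]) .nil))))⟩,
   ⟨21, 31, [0, 2, 4], [0, 1, 2, 3, 4], 6, (.splS 0 (.cons (.leaf 0 [0x80010101]) (.cons (.leaf 0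
   [0xa4010101]) (.cons (.leaf 0 [0xc8010101]) .nil))))⟩,
   ⟨22, 16, [1, 2, 4], [4], 14, (.splS 0 (.cons (.splS 1 (.cons (.splS 2 (.cons (.splS 3 (.cons
   (.splT 7 (.cons (.splT 5 (.cons (.splT 6 (.cons (.leaf 0
   [0xc83200c82a00c83a00c21900c21100c20900c2010701]) .nil)) .nil)) .nil)) (.cons (.splT 7 (.cons
   (.splT 4 (.cons (.splT 6 (.cons (.leaf 0 [0xc83200c82200c83a00c41900c21100c20900c2010701])
   .nil)) .nil)) .nil)) (.cons (.splT 4 (.cons (.splT 5 (.cons (.splT 6 (.cons (.leaf 0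
   [0xc83200c82a00c82200c81900c21100c20900c2010701]) .nil)) .nil)) .nil)) .nil)))) (.cons (.splT 6
   (.cons (.splT 5 (.cons (.leaf 0 [0xc82a00c83200c41100c20900c2010501]) .nil)) .nil)) (.cons
   (.splT 4 (.cons (.splT 5 (.cons (.leaf 0 [0xc82a00c82200c81100c20900c2010501]) .nil)) .nil))
   .nil)))) (.cons (.splT 4 (.cons (.splS 2 (.cons (.splS 3 (.cons (.splT 7 (.cons (.splT 5 (.cons
   (.leaf 0 [0xc82a00c83a00c21900c40900c2010501]) .nil)) .nil)) (.cons (.splT 7 (.cons (.leaf 0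
   [0xc83a00c41900c82200c40900c2010501]) .nil)) (.cons (.splT 5 (.cons (.leaf 0
   [0xc82a00c81900c82200c40900c2010501]) .nil)) .nil)))) (.cons (.splT 5 (.cons (.leaf 0
   [0xc82a00a21300c40900c2010401]) .nil)) (.cons (.splS 3 (.cons (.splT 7 (.cons (.splT 5 (.cons
   (.leaf 0 [0xc82a00c83a00c21900c40900c2010501]) .nil)) .nil)) (.cons (.splT 7 (.cons (.leaf 0
   [0xc83a00c41900c82200c40900c2010501]) .nil)) (.cons (.splT 5 (.cons (.leaf 0
   [0xc82a00c81900c82200c40900c2010501]) .nil)) .nil)))) .nil)))) .nil)) (.cons (.splT 4 (.cons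
   (.leaf 0 [0xc82200c80900c2010301]) .nil)) .nil)))) (.cons (.splS 1 (.cons (.splS 2 (.cons
   (.splS 3 (.cons (.splT 7 (.cons (.splT 6 (.cons (.leaf 0 [0xc83200c83a00c21900c21100c4010501])
   .nil)) .nil)) (.cons (.splT 6 (.cons (.splS 5 (.cons (.splT 4 (.cons (.splT 7 (.cons (.splT 9
   (.cons (.leaf 0 [0xc84a00c83a00c82200c22900c41900c21100c4010701]) .nil)) .nil)) .nil)) (.cons
   (.splT 9 (.cons (.splT 4 (.cons (.leaf 0 [0xc82200c84a00c42900c83200c41900c21100c4010701])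
   .nil)) .nil)) (.cons (.splT 4 (.cons (.splT 7 (.cons (.leaf 0
   [0xc83a00c82200c82900c83200c41900c21100c4010701]) .nil)) .nil)) .nil)))) .nil)) (.cons (.splT 6
   (.cons (.splT 4 (.cons (.leaf 0 [0xc82200c83200c81900c21100c4010501]) .nil)) .nil)) .nil))))
   (.cons (.splT 6 (.cons (.leaf 0 [0xc83200c41100c4010301]) .nil)) (.cons (.splT 4 (.cons (.leaf
   0 [0xc82200c81100c4010301]) .nil)) .nil)))) (.cons (.splS 2 (.cons (.splT 4 (.cons (.splS 3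
   (.cons (.splT 7 (.cons (.leaf 0 [0xc83a00c21900a20b00c4010401]) .nil)) (.cons (.splS 5 (.cons
   (.splT 7 (.cons (.splT 9 (.cons (.leaf 0 [0xc84a00c83a00c22900c41900c82200c21100c4010701])
   .nil)) .nil)) (.cons (.splT 9 (.cons (.leaf 0 [0xc84a00c42900c41900c82200a20b00c4010601])
   .nil)) (.cons (.splT 7 (.cons (.leaf 0 [0xc83a00c82900c41900c82200a20b00c4010601]) .nil))
   .nil)))) (.cons (.leaf 0 [0xc81900c82200a20b00c4010401]) .nil)))) .nil)) (.cons (.leaf 0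
   [0xa21300a20b00c4010301]) (.cons (.splT 4 (.cons (.leaf 0 [0xc82200c81100c4010301]) .nil))
   .nil)))) (.cons (.splS 3 (.cons (.leaf 0 [0x941b00c20b00c4010301]) (.cons (.splS 2 (.cons
   (.splT 6 (.cons (.splT 4 (.cons (.splS 5 (.cons (.splT 9 (.cons (.leaf 0
   [0xc84a00c22900c82200c21100c40b00c4010601]) .nil)) (.cons (.splT 9 (.cons (.leaf 0
   [0xc84a00c42900c82200c83200c21100c41900c4010701]) .nil)) (.cons (.leaf 0
   [0xc82900c82200c20b00c4010401]) .nil)))) .nil)) .nil)) (.cons (.splT 6 (.cons (.leaf 0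
   [0xc83200c41100c4010301]) .nil)) (.cons (.splT 4 (.cons (.leaf 0 [0xc82200c81100c4010301])
   .nil)) .nil)))) (.cons (.splS 2 (.cons (.splT 6 (.cons (.splT 4 (.cons (.leaf 0
   [0xc82200c83200c21100c81900c4010501]) .nil)) .nil)) (.cons (.splT 6 (.cons (.leaf 0
   [0xc83200c41100c4010301]) .nil)) (.cons (.splT 4 (.cons (.leaf 0 [0xc82200c81100c4010301])
   .nil)) .nil)))) .nil)))) .nil)))) (.cons (.leaf 0 [0xc8010101]) .nil))))⟩]

theorem certs6_ok : AllB certs6 := allB_of_okB (by decide +kernel)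

/-- Certificates. -/
def certs7 : List BCert :=
  [
   ⟨22, 17, [1, 2, 4], [0, 4], 10, (.splS 0 (.cons (.splS 1 (.cons (.splS 2 (.cons (.splS 3 (.cons
   (.leaf 0 [0x821900821100820900c2010401]) (.cons (.leaf 0 [0x841900821100c2090082010401]) (.cons
   (.leaf 0 [0xc8190082110082090082010401]) .nil)))) (.cons (.leaf 0 [0x841100820900c2010301])
   (.cons (.leaf 0 [0xc8110082090082010301]) .nil)))) (.cons (.splS 3 (.cons (.leaf 0
   [0x821900840900c2010301]) (.cons (.leaf 0 [0x841900c4090082010301]) (.cons (.leaf 0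
   [0xc8190084090082010301]) .nil)))) (.cons (.leaf 0 [0xc8090082010201]) .nil)))) (.cons (.splS 2
   (.cons (.splS 3 (.cons (.leaf 0 [0x821900821100c4010301]) (.cons (.splS 5 (.cons (.leaf 0
   [0x822900841900c2110084010401]) (.cons (.leaf 0 [0x842900c4190082110084010401]) (.cons (.leaf 0
   [0xc8290084190082110084010401]) .nil)))) (.cons (.leaf 0 [0xc8190082110084010301]) .nil))))
   (.cons (.leaf 0 [0x841100c4010201]) (.cons (.leaf 0 [0xc8110084010201]) .nil)))) (.cons (.leaf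
   0 [0xc8010101]) .nil))))⟩,
   ⟨22, 18, [1, 2, 4], [1, 4], 8, (.splS 0 (.cons (.leaf 0 [0x92010101]) (.cons (.splS 2 (.cons
   (.splT 1 (.cons (.leaf 0 [0x920a0092110094010301]) (.cons (.leaf 0 [0xc80a0092110094010301])
   .nil))) (.cons (.splT 3 (.cons (.leaf 0 [0x921a00941100c4010301]) (.cons (.leaf 0
   [0xc81a00941100c4010301]) .nil))) (.cons (.splT 1 (.cons (.leaf 0 [0x920a00c8110094010301])
   (.cons (.leaf 0 [0xc80a00c8110094010301]) .nil))) .nil)))) (.cons (.leaf 0 [0xc8010101])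
   .nil))))⟩,
   ⟨22, 19, [1, 2, 4], [0, 1, 4], 8, (.splS 0 (.cons (.leaf 0 [0x92010101]) (.cons (.splS 2 (.cons
   (.leaf 0 [0x92110084010201]) (.cons (.leaf 0 [0x841100c4010201]) (.cons (.leaf 0
   [0xc8110084010201]) .nil)))) (.cons (.leaf 0 [0xc8010101]) .nil))))⟩,
   ⟨22, 20, [1, 2, 4], [2, 4], 8, (.splS 0 (.cons (.splS 1 (.cons (.splT 3 (.cons (.leaf 0
   [0xa41a00a20900a2010301]) (.cons (.leaf 0 [0xc81a00a20900a2010301]) .nil))) (.cons (.splT 2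
   (.cons (.leaf 0 [0xa41200a40900a2010301]) (.cons (.leaf 0 [0xc81200a40900a2010301]) .nil)))
   (.cons (.splT 2 (.cons (.leaf 0 [0xa41200c80900a2010301]) (.cons (.leaf 0
   [0xc81200c80900a2010301]) .nil))) .nil)))) (.cons (.leaf 0 [0xa4010101]) (.cons (.leaf 0
   [0xc8010101]) .nil))))⟩,
   ⟨22, 21, [1, 2, 4], [0, 2, 4], 6, (.splS 0 (.cons (.splS 1 (.cons (.leaf 0 [0x820900a2010201])
   (.cons (.leaf 0 [0xa4090082010201]) (.cons (.leaf 0 [0xc8090082010201]) .nil)))) (.cons (.leaf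
   0 [0xa4010101]) (.cons (.leaf 0 [0xc8010101]) .nil))))⟩,
   ⟨22, 22, [1, 2, 4], [1, 2, 4], 6, (.splS 0 (.cons (.leaf 0 [0x92010101]) (.cons (.leaf 0
   [0xa4010101]) (.cons (.leaf 0 [0xc8010101]) .nil))))⟩,
   ⟨22, 23, [1, 2, 4], [0, 1, 2, 4], 6, (.splS 0 (.cons (.leaf 0 [0x92010101]) (.cons (.leaf 0
   [0xa4010101]) (.cons (.leaf 0 [0xc8010101]) .nil))))⟩,
   ⟨22, 24, [1, 2, 4], [3, 4], 12, (.splS 0 (.cons (.splS 1 (.cons (.splS 2 (.cons (.splT 5 (.cons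
   (.splT 4 (.cons (.leaf 0 [0xb82200b42a00b21100b20900b2010501]) (.cons (.splT 6 (.cons (.leaf 0
   [0xb43201482200b82a00c21100b2110132090132010702]) (.cons (.leaf 0
   [0xc83200c82200c21100b20900b2010501]) .nil))) .nil))) (.cons (.leaf 0
   [0x1482a00b21100c20900b2010401]) .nil))) (.cons (.splT 5 (.cons (.splT 6 (.cons (.leaf 0
   [0xb43200b82a00c41100c20900c2010501]) (.cons (.leaf 0 [0x1483200c41100a81300b20900c2010501])
   .nil))) (.cons (.leaf 0 [0x1482a00b41100c20900c2010401]) .nil))) (.cons (.splT 4 (.cons (.splT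
   3 (.cons (.leaf 0 [0xb81a00b42200c81100b20900b2010501]) (.cons (.splT 5 (.cons (.leaf 0
   [0xb42a01481a00b82201481100c20900b2090132010702]) (.cons (.leaf 0
   [0xc82a00c81a00c81100c20900b2010501]) .nil))) .nil))) (.cons (.leaf 0
   [0x1482200c81100b20900c2010401]) .nil))) .nil)))) (.cons (.splT 4 (.cons (.splT 5 (.cons (.leaf
   0 [0xb42a00b82200c40900b4090132010502]) (.cons (.leaf 0 [0xc82a00c40900b2010301]) .nil)))
   (.cons (.leaf 0 [0xc82200b40900b2010301]) .nil))) (.cons (.splT 3 (.cons (.splT 4 (.cons (.leaf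
   0 [0xb42200b81a01480900c20100b2010502]) (.cons (.leaf 0 [0xc82200c80900c2010301]) .nil)))
   (.cons (.leaf 0 [0xc81a00c80900b2010301]) .nil))) .nil)))) (.cons (.splS 1 (.cons (.splS 2
   (.cons (.splT 5 (.cons (.splT 6 (.cons (.leaf 0 [0xb43200b82a00c21100b2110134010502]) (.cons
   (.leaf 0 [0xc83200c21100b4010301]) .nil))) (.cons (.leaf 0 [0xc82a00b21100b4010301]) .nil)))
   (.cons (.splT 5 (.cons (.splT 6 (.cons (.leaf 0 [0xb43200b82a00c41100b4110144010502]) (.cons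
   (.leaf 0 [0xc83200c41100c4010301]) .nil))) (.cons (.leaf 0 [0xc82a00b41100c4010301]) .nil)))
   (.cons (.splT 3 (.cons (.splT 4 (.cons (.leaf 0 [0xb42200b81a01481100c40100b4010502]) (.cons
   (.leaf 0 [0xc82200c81100c4010301]) .nil))) (.cons (.leaf 0 [0xc81a00c81100b4010301]) .nil)))
   .nil)))) (.cons (.leaf 0 [0xa20b00b4010201]) (.cons (.splS 2 (.cons (.splT 1 (.cons (.leaf 0
   [0xb80c00c20b00c4010301]) (.cons (.leaf 0 [0xc20a00b21100b40100a2030401]) .nil))) (.cons (.splT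
   1 (.cons (.leaf 0 [0xb80c00c20b00c4010301]) (.cons (.leaf 0 [0xc20a00b41100c40100a2030401])
   .nil))) (.cons (.splT 3 (.cons (.splT 4 (.cons (.leaf 0 [0xb42200b81a01481100c40100b4010502])
   (.cons (.leaf 0 [0xc82200c81100c4010301]) .nil))) (.cons (.leaf 0 [0xc81a00c81100b4010301])
   .nil))) .nil)))) .nil)))) (.cons (.leaf 0 [0xc8010101]) .nil))))⟩,
   ⟨22, 25, [1, 2, 4], [0, 3, 4], 8, (.splS 0 (.cons (.splS 1 (.cons (.splS 2 (.cons (.leaf 0
   [0x821100820900b2010301]) (.cons (.leaf 0 [0x841100820900c2010301]) (.cons (.leaf 0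
   [0xc8110082090082010301]) .nil)))) (.cons (.leaf 0 [0x840900b2010201]) (.cons (.leaf 0
   [0xc8090082010201]) .nil)))) (.cons (.splS 2 (.cons (.leaf 0 [0x821100b4010201]) (.cons (.leaf
   0 [0x841100c4010201]) (.cons (.leaf 0 [0xc8110084010201]) .nil)))) (.cons (.leaf 0
   [0xc8010101]) .nil))))⟩,
   ⟨22, 26, [1, 2, 4], [1, 3, 4], 8, (.splS 0 (.cons (.leaf 0 [0x92010101]) (.cons (.splS 2 (.cons
   (.splT 1 (.cons (.leaf 0 [0x920a0092110094010301]) (.cons (.leaf 0 [0xb20c00c4010201]) (.cons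
   (.leaf 0 [0xc20a00b21100b4010094010402]) .nil)))) (.cons (.splT 3 (.cons (.leaf 0
   [0x921a00941100c4010301]) (.cons (.leaf 0 [0xb21a00c41100b4010301]) (.cons (.leaf 0
   [0xc81a00941100c4010301]) .nil)))) (.cons (.splT 1 (.cons (.leaf 0 [0x920a00c8110094010301])
   (.cons (.leaf 0 [0xb20c00c4010201]) (.cons (.leaf 0 [0xc80a00c8110094010301]) .nil)))) .nil))))
   (.cons (.leaf 0 [0xc8010101]) .nil))))⟩,
   ⟨22, 27, [1, 2, 4], [0, 1, 3, 4], 8, (.splS 0 (.cons (.leaf 0 [0x92010101]) (.cons (.splS 2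
   (.cons (.leaf 0 [0x821100b4010201]) (.cons (.leaf 0 [0x841100c4010201]) (.cons (.leaf 0
   [0xc8110084010201]) .nil)))) (.cons (.leaf 0 [0xc8010101]) .nil))))⟩,
   ⟨22, 28, [1, 2, 4], [2, 3, 4], 10, (.splS 0 (.cons (.splS 1 (.cons (.splT 3 (.cons (.leaf 0
   [0xa41a00a20900a2010301]) (.cons (.splT 4 (.cons (.leaf 0 [0xa42200b20900a2010301]) (.cons
   (.leaf 0 [0xb42200b81a00b20900a2090122010502]) (.cons (.leaf 0 [0xc82200b20900a2010301])
   .nil)))) (.cons (.leaf 0 [0xc81a00a20900a2010301]) .nil)))) (.cons (.splT 2 (.cons (.leaf 0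
   [0xa21200b40900a2010301]) (.cons (.leaf 0 [0xb21200c40900a2010301]) (.cons (.leaf 0
   [0xc81200a40900a2010301]) .nil)))) (.cons (.splT 2 (.cons (.leaf 0 [0xa41200c80900a2010301])
   (.cons (.splT 3 (.cons (.leaf 0 [0xa41a00c80900b2010301]) (.cons (.leaf 0
   [0xb41a00b81201480900b20100a2010502]) (.cons (.leaf 0 [0xc81a00c80900b2010301]) .nil)))) (.cons
   (.leaf 0 [0xc81200c80900a2010301]) .nil)))) .nil)))) (.cons (.leaf 0 [0xa4010101]) (.cons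
   (.leaf 0 [0xc8010101]) .nil))))⟩,
   ⟨22, 29, [1, 2, 4], [0, 2, 3, 4], 6, (.splS 0 (.cons (.splS 1 (.cons (.leaf 0
   [0x820900a2010201]) (.cons (.leaf 0 [0x840900b2010201]) (.cons (.leaf 0 [0xc8090082010201])
   .nil)))) (.cons (.leaf 0 [0xa4010101]) (.cons (.leaf 0 [0xc8010101]) .nil))))⟩,
   ⟨22, 30, [1, 2, 4], [1, 2, 3, 4], 6, (.splS 0 (.cons (.leaf 0 [0x92010101]) (.cons (.leaf 0
   [0xa4010101]) (.cons (.leaf 0 [0xc8010101]) .nil))))⟩,
   ⟨22, 31, [1, 2, 4], [0, 1, 2, 3, 4], 6, (.splS 0 (.cons (.leaf 0 [0x92010101]) (.cons (.leaf 0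
   [0xa4010101]) (.cons (.leaf 0 [0xc8010101]) .nil))))⟩,
   ⟨23, 16, [0, 1, 2, 4], [4], 14, (.splS 0 (.cons (.splT 4 (.cons (.leaf 0 [0xc82200c0010201])
   .nil)) (.cons (.splS 1 (.cons (.splT 5 (.cons (.splT 4 (.cons (.leaf 0
   [0xc82200c82a00c00900c2010401]) .nil)) .nil)) (.cons (.splS 2 (.cons (.splT 6 (.cons (.splT 4
   (.cons (.splT 5 (.cons (.leaf 0 [0xc82a00c82200c83200c01100c20900c2010601]) .nil)) .nil))
   .nil)) (.cons (.splS 3 (.cons (.splT 7 (.cons (.splT 4 (.cons (.splT 5 (.cons (.splT 6 (.cons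
   (.leaf 0 [0xc83200c82a00c82200c83a00c01900c21100c20900c2010801]) .nil)) .nil)) .nil)) .nil))
   (.cons (.splT 7 (.cons (.splT 5 (.cons (.splT 6 (.cons (.leaf 0
   [0xc83200c82a00c83a00c21900c21100c20900c2010701]) .nil)) .nil)) .nil)) (.cons (.splT 7 (.cons
   (.splT 4 (.cons (.splT 6 (.cons (.leaf 0 [0xc83200c82200c83a00c41900c21100c20900c2010701])
   .nil)) .nil)) .nil)) (.cons (.splT 4 (.cons (.splT 5 (.cons (.splT 6 (.cons (.leaf 0
   [0xc83200c82a00c82200c81900c21100c20900c2010701]) .nil)) .nil)) .nil)) .nil))))) (.cons (.splT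
   6 (.cons (.splT 5 (.cons (.leaf 0 [0xc82a00c83200c41100c20900c2010501]) .nil)) .nil)) (.cons
   (.splT 4 (.cons (.splT 5 (.cons (.leaf 0 [0xc82a00c82200c81100c20900c2010501]) .nil)) .nil))
   .nil))))) (.cons (.splT 4 (.cons (.splS 2 (.cons (.splT 5 (.cons (.leaf 0
   [0xc82a00821300c82200c40900c2010501]) .nil)) (.cons (.splS 3 (.cons (.splT 7 (.cons (.splT 5
   (.cons (.leaf 0 [0xc82a00c83a00c01900c82200c40900c2010601]) .nil)) .nil)) (.cons (.splT 7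
   (.cons (.splT 5 (.cons (.leaf 0 [0xc82a00c83a00c21900c40900c2010501]) .nil)) .nil)) (.cons
   (.splT 7 (.cons (.leaf 0 [0xc83a00c41900c82200c40900c2010501]) .nil)) (.cons (.splT 5 (.cons
   (.leaf 0 [0xc82a00c81900c82200c40900c2010501]) .nil)) .nil))))) (.cons (.splT 5 (.cons (.leaf 0
   [0xc82a00a21300c40900c2010401]) .nil)) (.cons (.splS 3 (.cons (.splT 7 (.cons (.splT 5 (.cons
   (.leaf 0 [0xc82a00c83a00c01900c82200c40900c2010601]) .nil)) .nil)) (.cons (.splT 7 (.cons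
   (.splT 5 (.cons (.leaf 0 [0xc82a00c83a00c21900c40900c2010501]) .nil)) .nil)) (.cons (.splT 7
   (.cons (.leaf 0 [0xc83a00c41900c82200c40900c2010501]) .nil)) (.cons (.splT 5 (.cons (.leaf 0
   [0xc82a00c81900c82200c40900c2010501]) .nil)) .nil))))) .nil))))) .nil)) (.cons (.splT 4 (.cons
   (.leaf 0 [0xc82200c80900c2010301]) .nil)) .nil))))) (.cons (.splS 1 (.cons (.splT 4 (.cons
   (.leaf 0 [0xc82200820b00c4010301]) .nil)) (.cons (.splS 2 (.cons (.splT 6 (.cons (.splT 4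
   (.cons (.leaf 0 [0xc82200c83200c01100c4010401]) .nil)) .nil)) (.cons (.splS 3 (.cons (.splT 7
   (.cons (.splT 4 (.cons (.splT 6 (.cons (.leaf 0 [0xc83200c82200c83a00c01900c21100c4010601])
   .nil)) .nil)) .nil)) (.cons (.splT 7 (.cons (.splT 6 (.cons (.leaf 0
   [0xc83200c83a00c21900c21100c4010501]) .nil)) .nil)) (.cons (.splT 6 (.cons (.splS 5 (.cons
   (.splT 9 (.cons (.splT 4 (.cons (.splT 7 (.cons (.leaf 0
   [0xc83a00c82200c84a00c02900c83200c41900c21100c4010801]) .nil)) .nil)) .nil)) (.cons (.splT 4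
   (.cons (.splT 7 (.cons (.splT 9 (.cons (.leaf 0
   [0xc84a00c83a00c82200c22900c41900c21100c4010701]) .nil)) .nil)) .nil)) (.cons (.splT 9 (.cons
   (.splT 4 (.cons (.leaf 0 [0xc82200c84a00c42900c83200c41900c21100c4010701]) .nil)) .nil)) (.cons
   (.splT 4 (.cons (.splT 7 (.cons (.leaf 0 [0xc83a00c82200c82900c83200c41900c21100c4010701])
   .nil)) .nil)) .nil))))) .nil)) (.cons (.splT 6 (.cons (.splT 4 (.cons (.leaf 0
   [0xc82200c83200c81900c21100c4010501]) .nil)) .nil)) .nil))))) (.cons (.splT 6 (.cons (.leaf 0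
   [0xc83200c41100c4010301]) .nil)) (.cons (.splT 4 (.cons (.leaf 0 [0xc82200c81100c4010301])
   .nil)) .nil))))) (.cons (.splS 2 (.cons (.splT 4 (.cons (.leaf 0
   [0xc82200821300a20b00c4010401]) .nil)) (.cons (.splT 4 (.cons (.splS 3 (.cons (.splT 7 (.cons
   (.leaf 0 [0xc83a00c01900c82200a20b00c4010501]) .nil)) (.cons (.splT 7 (.cons (.leaf 0
   [0xc83a00c21900a20b00c4010401]) .nil)) (.cons (.splS 5 (.cons (.splT 7 (.cons (.splT 9 (.cons
   (.leaf 0 [0xc84a00c83a00c02900c41900c82200a20b00c4010701]) .nil)) .nil)) (.cons (.splT 7 (.cons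
   (.splT 9 (.cons (.leaf 0 [0xc84a00c83a00c22900c41900c82200c21100c4010701]) .nil)) .nil)) (.cons
   (.splT 9 (.cons (.leaf 0 [0xc84a00c42900c41900c82200a20b00c4010601]) .nil)) (.cons (.splT 7
   (.cons (.leaf 0 [0xc83a00c82900c41900c82200a20b00c4010601]) .nil)) .nil))))) (.cons (.leaf 0
   [0xc81900c82200a20b00c4010401]) .nil))))) .nil)) (.cons (.leaf 0 [0xa21300a20b00c4010301])
   (.cons (.splT 4 (.cons (.leaf 0 [0xc82200c81100c4010301]) .nil)) .nil))))) (.cons (.splS 3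
   (.cons (.splT 4 (.cons (.leaf 0 [0xc82200841b00c20b00c4010401]) .nil)) (.cons (.leaf 0
   [0x941b00c20b00c4010301]) (.cons (.splS 2 (.cons (.splT 6 (.cons (.splT 4 (.cons (.leaf 0
   [0xc82200c83200c01100c4010401]) .nil)) .nil)) (.cons (.splT 6 (.cons (.splT 4 (.cons (.splS 8
   (.cons (.leaf 0 [0x844300c22200c43200c21100c40b00c4010601]) (.cons (.splS 5 (.cons (.leaf 0
   [0xc02900822b00944300c82200c22200c43201420b0144010802]) (.cons (.leaf 0
   [0xc22900944300c82200c22200c43201421101440b0144010802]) (.cons (.leaf 0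
   [0xc42900944300c82200c22200c43200c21100c41900c20b0144010902]) (.cons (.leaf 0
   [0xc82900c82200c20b00c4010401]) .nil))))) (.cons (.splS 5 (.cons (.splT 9 (.cons (.leaf 0
   [0xc84a00c02900c82200c20b00c4010501]) .nil)) (.cons (.splT 9 (.cons (.leaf 0
   [0xc84a00c22900c82200c21100c40b00c4010601]) .nil)) (.cons (.splT 9 (.cons (.leaf 0
   [0xc84a00c42900c82200c83200c21100c41900c4010701]) .nil)) (.cons (.leaf 0
   [0xc82900c82200c20b00c4010401]) .nil))))) (.cons (.leaf 0 [0xc84100c22200c20b00c4010401])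
   .nil))))) .nil)) .nil)) (.cons (.splT 6 (.cons (.leaf 0 [0xc83200c41100c4010301]) .nil)) (.cons
   (.splT 4 (.cons (.leaf 0 [0xc82200c81100c4010301]) .nil)) .nil))))) (.cons (.splS 2 (.cons
   (.splT 6 (.cons (.splT 4 (.cons (.leaf 0 [0xc82200c83200c01100c4010401]) .nil)) .nil)) (.cons
   (.splT 6 (.cons (.splT 4 (.cons (.leaf 0 [0xc82200c83200c21100c81900c4010501]) .nil)) .nil))
   (.cons (.splT 6 (.cons (.leaf 0 [0xc83200c41100c4010301]) .nil)) (.cons (.splT 4 (.cons (.leaf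
   0 [0xc82200c81100c4010301]) .nil)) .nil))))) .nil))))) .nil))))) (.cons (.leaf 0 [0xc8010101])
   .nil)))))⟩,
   ⟨23, 17, [0, 1, 2, 4], [0, 4], 10, (.splS 0 (.cons (.leaf 0 [0x80010101]) (.cons (.splS 1
   (.cons (.leaf 0 [0x80090082010201]) (.cons (.splS 2 (.cons (.leaf 0 [0x80110082090082010301])
   (.cons (.splS 3 (.cons (.leaf 0 [0x80190082110082090082010401]) (.cons (.leaf 0
   [0x821900821100820900c2010401]) (.cons (.leaf 0 [0x841900821100c2090082010401]) (.cons (.leaf 0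
   [0xc8190082110082090082010401]) .nil))))) (.cons (.leaf 0 [0x841100820900c2010301]) (.cons
   (.leaf 0 [0xc8110082090082010301]) .nil))))) (.cons (.splS 3 (.cons (.leaf 0
   [0x80190084090082010301]) (.cons (.leaf 0 [0x821900840900c2010301]) (.cons (.leaf 0
   [0x841900c4090082010301]) (.cons (.leaf 0 [0xc8190084090082010301]) .nil))))) (.cons (.leaf 0
   [0xc8090082010201]) .nil))))) (.cons (.splS 2 (.cons (.leaf 0 [0x80110084010201]) (.cons (.splS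
   3 (.cons (.leaf 0 [0x80190082110084010301]) (.cons (.leaf 0 [0x821900821100c4010301]) (.cons
   (.splS 5 (.cons (.leaf 0 [0x80290084190082110084010401]) (.cons (.leaf 0
   [0x822900841900c2110084010401]) (.cons (.leaf 0 [0x842900c4190082110084010401]) (.cons (.leaf 0
   [0xc8290084190082110084010401]) .nil))))) (.cons (.leaf 0 [0xc8190082110084010301]) .nil)))))
   (.cons (.leaf 0 [0x841100c4010201]) (.cons (.leaf 0 [0xc8110084010201]) .nil))))) (.cons (.leaf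
   0 [0xc8010101]) .nil)))))⟩,
   ⟨23, 18, [0, 1, 2, 4], [1, 4], 8, (.splS 0 (.cons (.splT 1 (.cons (.leaf 0 [0x920a0090010201])
   (.cons (.leaf 0 [0xc80a0090010201]) .nil))) (.cons (.leaf 0 [0x92010101]) (.cons (.splS 2
   (.cons (.splT 3 (.cons (.leaf 0 [0x901a00901100c4010301]) (.cons (.splT 1 (.cons (.leaf 0
   [0x920a00c81a0090110094010401]) (.cons (.leaf 0 [0xc80a00c81a0090110094010401]) .nil))) .nil)))
   (.cons (.splT 1 (.cons (.leaf 0 [0x920a0092110094010301]) (.cons (.leaf 0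
   [0xc80a0092110094010301]) .nil))) (.cons (.splT 3 (.cons (.leaf 0 [0x921a00941100c4010301])
   (.cons (.leaf 0 [0xc81a00941100c4010301]) .nil))) (.cons (.splT 1 (.cons (.leaf 0
   [0x920a00c8110094010301]) (.cons (.leaf 0 [0xc80a00c8110094010301]) .nil))) .nil))))) (.cons
   (.leaf 0 [0xc8010101]) .nil)))))⟩,
   ⟨23, 19, [0, 1, 2, 4], [0, 1, 4], 8, (.splS 0 (.cons (.leaf 0 [0x80010101]) (.cons (.leaf 0
   [0x92010101]) (.cons (.splS 2 (.cons (.leaf 0 [0x80110084010201]) (.cons (.leaf 0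
   [0x92110084010201]) (.cons (.leaf 0 [0x841100c4010201]) (.cons (.leaf 0 [0xc8110084010201])
   .nil))))) (.cons (.leaf 0 [0xc8010101]) .nil)))))⟩,
   ⟨23, 20, [0, 1, 2, 4], [2, 4], 8, (.splS 0 (.cons (.splT 2 (.cons (.leaf 0
   [0xa01200c00100a0010302]) (.cons (.leaf 0 [0xc81200a0010201]) .nil))) (.cons (.splS 1 (.cons
   (.splT 3 (.cons (.splT 2 (.cons (.leaf 0 [0xa01200a01a00c00900a00900c20100a2010602]) (.cons
   (.leaf 0 [0x1481200a01a00c00900a0090122010502]) .nil))) (.cons (.splT 2 (.cons (.leaf 0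
   [0xa01201481a01200900c20100a2010502]) (.cons (.leaf 0 [0xc81200c81a00a00900a2010401]) .nil)))
   .nil))) (.cons (.splT 3 (.cons (.leaf 0 [0xa01a00c20900a2090122010402]) (.cons (.leaf 0
   [0xc81a00a20900a2010301]) .nil))) (.cons (.splT 2 (.cons (.leaf 0
   [0xa01201240900c20100a2010402]) (.cons (.leaf 0 [0xc81200a40900a2010301]) .nil))) (.cons (.splT
   2 (.cons (.leaf 0 [0xa01201480900c20100a2010402]) (.cons (.leaf 0 [0xc81200c80900a2010301])
   .nil))) .nil))))) (.cons (.leaf 0 [0xa4010101]) (.cons (.leaf 0 [0xc8010101]) .nil)))))⟩,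
   ⟨23, 21, [0, 1, 2, 4], [0, 2, 4], 6, (.splS 0 (.cons (.leaf 0 [0x80010101]) (.cons (.splS 1
   (.cons (.leaf 0 [0x80090082010201]) (.cons (.leaf 0 [0x820900a2010201]) (.cons (.leaf 0
   [0xa4090082010201]) (.cons (.leaf 0 [0xc8090082010201]) .nil))))) (.cons (.leaf 0 [0xa4010101])
   (.cons (.leaf 0 [0xc8010101]) .nil)))))⟩,
   ⟨23, 22, [0, 1, 2, 4], [1, 2, 4], 6, (.splS 0 (.cons (.splT 1 (.cons (.leaf 0
   [0x900a00a0010090010302]) (.cons (.leaf 0 [0xa40a0090010201]) (.cons (.leaf 0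
   [0xc80a0090010201]) .nil)))) (.cons (.leaf 0 [0x92010101]) (.cons (.leaf 0 [0xa4010101]) (.cons
   (.leaf 0 [0xc8010101]) .nil)))))⟩,
   ⟨23, 23, [0, 1, 2, 4], [0, 1, 2, 4], 6, (.splS 0 (.cons (.leaf 0 [0x80010101]) (.cons (.leaf 0
   [0x92010101]) (.cons (.leaf 0 [0xa4010101]) (.cons (.leaf 0 [0xc8010101]) .nil)))))⟩,
   ⟨23, 24, [0, 1, 2, 4], [3, 4], 12, (.splS 0 (.cons (.splT 3 (.cons (.splT 4 (.cons (.leaf 0
   [0xb42200b81a00c00100b0010402]) (.cons (.leaf 0 [0xc82200c0010201]) .nil))) (.cons (.leaf 0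
   [0xc81a00b0010201]) .nil))) (.cons (.splS 1 (.cons (.splT 4 (.cons (.splT 3 (.cons (.leaf 0
   [0xb81a00b42200b00900b2010401]) (.cons (.splT 5 (.cons (.leaf 0
   [0xb42a01481a00b82200c00900b0090132010602]) (.cons (.leaf 0 [0xc82a00c81a00c00900b2010401])
   .nil))) .nil))) (.cons (.leaf 0 [0x1482200b00900c2010301]) .nil))) (.cons (.splS 2 (.cons
   (.splT 5 (.cons (.splT 4 (.cons (.leaf 0 [0x1b82201b42a01301100c20900b2090142010602]) (.cons
   (.splT 6 (.cons (.leaf 0 [0xb43202482200b82a00c01100b0110132090142010702]) (.cons (.leaf 0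
   [0xc83201482200c01100b20900c2010501]) .nil))) .nil))) (.cons (.splT 3 (.cons (.leaf 0
   [0xb01a00c82a00c01100c20900b2010501]) (.cons (.leaf 0 [0xc81a01482a00b01100c20900b2010501])
   .nil))) .nil))) (.cons (.splT 5 (.cons (.splT 4 (.cons (.leaf 0
   [0xb82200b42a00b21100b20900b2010501]) (.cons (.splT 6 (.cons (.leaf 0
   [0xb43201482200b82a00c21100b2110132090132010702]) (.cons (.leaf 0
   [0xc83200c82200c21100b20900b2010501]) .nil))) .nil))) (.cons (.leaf 0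
   [0x1482a00b21100c20900b2010401]) .nil))) (.cons (.splT 5 (.cons (.splT 6 (.cons (.leaf 0
   [0xb43200b82a00c41100b4110120130132090142010702]) (.cons (.leaf 0
   [0xc83200c41100a01300b20900c2010501]) .nil))) (.cons (.leaf 0
   [0xc82a00b41100a01300b20900c2010501]) .nil))) (.cons (.splT 4 (.cons (.splT 3 (.cons (.leaf 0
   [0xb81a00b42200c81100b20900b2010501]) (.cons (.splT 5 (.cons (.leaf 0
   [0xb42a01481a00b82201481100c20900b2090132010702]) (.cons (.leaf 0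
   [0xc82a00c81a00c81100c20900b2010501]) .nil))) .nil))) (.cons (.leaf 0
   [0x1482200c81100b20900c2010401]) .nil))) .nil))))) (.cons (.splT 4 (.cons (.splT 5 (.cons
   (.leaf 0 [0xb42a00b82200c40900b4090132010502]) (.cons (.leaf 0 [0xc82a00c40900b2010301])
   .nil))) (.cons (.leaf 0 [0xc82200b40900b2010301]) .nil))) (.cons (.splT 3 (.cons (.splT 4
   (.cons (.leaf 0 [0xb42200b81a01480900c20100b2010502]) (.cons (.leaf 0 [0xc82200c80900c2010301])
   .nil))) (.cons (.leaf 0 [0xc81a00c80900b2010301]) .nil))) .nil))))) (.cons (.splS 1 (.cons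
   (.splT 3 (.cons (.splT 4 (.cons (.leaf 0 [0xb42200b81a01020b00c40100b4010502]) (.cons (.leaf 0
   [0xc82200820b00c4010301]) .nil))) (.cons (.leaf 0 [0xc81a00820b00b4010301]) .nil))) (.cons
   (.splS 2 (.cons (.splT 3 (.cons (.leaf 0 [0xb01a00c01100b4010301]) (.cons (.splT 5 (.cons
   (.splT 6 (.cons (.leaf 0 [0xb43200b82a01481a00c01100b0110134010602]) (.cons (.leaf 0
   [0xc83200c81a00c01100b4010401]) .nil))) (.cons (.leaf 0 [0xc82a00c81a00b01100b4010401]) .nil)))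
   .nil))) (.cons (.splT 5 (.cons (.splT 6 (.cons (.leaf 0 [0xb43200b82a00c21100b2110134010502])
   (.cons (.leaf 0 [0xc83200c21100b4010301]) .nil))) (.cons (.leaf 0 [0xc82a00b21100b4010301])
   .nil))) (.cons (.splT 5 (.cons (.splT 6 (.cons (.leaf 0 [0xb43200b82a00c41100b4110144010502])
   (.cons (.leaf 0 [0xc83200c41100c4010301]) .nil))) (.cons (.leaf 0 [0xc82a00b41100c4010301])
   .nil))) (.cons (.splT 3 (.cons (.splT 4 (.cons (.leaf 0 [0xb42200b81a01481100c40100b4010502])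
   (.cons (.leaf 0 [0xc82200c81100c4010301]) .nil))) (.cons (.leaf 0 [0xc81a00c81100b4010301])
   .nil))) .nil))))) (.cons (.leaf 0 [0xa20b00b4010201]) (.cons (.splS 2 (.cons (.splT 3 (.cons
   (.leaf 0 [0xb41a00881300c20b00b4010401]) (.cons (.leaf 0 [0x1481a00b01100c20b0134010402])
   .nil))) (.cons (.leaf 0 [0xb21100901300c20b0134010402]) (.cons (.leaf 0
   [0xb41100a01300c20b0144010402]) (.cons (.splT 3 (.cons (.splT 4 (.cons (.leaf 0
   [0xb42200b81a01481100c40100b4010502]) (.cons (.leaf 0 [0xc82200c81100c4010301]) .nil))) (.cons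
   (.leaf 0 [0xc81a00c81100b4010301]) .nil))) .nil))))) .nil))))) (.cons (.leaf 0 [0xc8010101])
   .nil)))))⟩,
   ⟨23, 25, [0, 1, 2, 4], [0, 3, 4], 8, (.splS 0 (.cons (.leaf 0 [0x80010101]) (.cons (.splS 1
   (.cons (.leaf 0 [0x80090082010201]) (.cons (.splS 2 (.cons (.leaf 0 [0x80110082090082010301])
   (.cons (.leaf 0 [0x821100820900b2010301]) (.cons (.leaf 0 [0x841100820900c2010301]) (.cons
   (.leaf 0 [0xc8110082090082010301]) .nil))))) (.cons (.leaf 0 [0x840900b2010201]) (.cons (.leaf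
   0 [0xc8090082010201]) .nil))))) (.cons (.splS 2 (.cons (.leaf 0 [0x80110084010201]) (.cons
   (.leaf 0 [0x821100b4010201]) (.cons (.leaf 0 [0x841100c4010201]) (.cons (.leaf 0
   [0xc8110084010201]) .nil))))) (.cons (.leaf 0 [0xc8010101]) .nil)))))⟩,
   ⟨23, 26, [0, 1, 2, 4], [1, 3, 4], 8, (.splS 0 (.cons (.splT 1 (.cons (.leaf 0
   [0x920a0090010201]) (.cons (.leaf 0 [0xb00a00c0010090010302]) (.cons (.leaf 0
   [0xc80a0090010201]) .nil)))) (.cons (.leaf 0 [0x92010101]) (.cons (.splS 2 (.cons (.splT 3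
   (.cons (.leaf 0 [0x901a00901100c4010301]) (.cons (.leaf 0 [0xb01a00c01100b4010301]) (.cons
   (.leaf 0 [0x1481a00901100b4010301]) .nil)))) (.cons (.leaf 0 [0x921100901300b4010301]) (.cons
   (.splT 3 (.cons (.leaf 0 [0x921a00941100c4010301]) (.cons (.leaf 0
   [0xb01a00c4110094110144010402]) (.cons (.leaf 0 [0xc81a00941100c4010301]) .nil)))) (.cons
   (.splT 1 (.cons (.leaf 0 [0x920a00c8110094010301]) (.cons (.leaf 0 [0xb20c00c4010201]) (.cons
   (.leaf 0 [0xc80a00c8110094010301]) .nil)))) .nil))))) (.cons (.leaf 0 [0xc8010101]) .nil)))))⟩,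
   ⟨23, 27, [0, 1, 2, 4], [0, 1, 3, 4], 8, (.splS 0 (.cons (.leaf 0 [0x80010101]) (.cons (.leaf 0
   [0x92010101]) (.cons (.splS 2 (.cons (.leaf 0 [0x80110084010201]) (.cons (.leaf 0
   [0x821100b4010201]) (.cons (.leaf 0 [0x841100c4010201]) (.cons (.leaf 0 [0xc8110084010201])
   .nil))))) (.cons (.leaf 0 [0xc8010101]) .nil)))))⟩,
   ⟨23, 28, [0, 1, 2, 4], [2, 3, 4], 10, (.splS 0 (.cons (.splT 2 (.cons (.leaf 0
   [0xa01200c00100a0010302]) (.cons (.splT 3 (.cons (.leaf 0 [0xa41a00b0010201]) (.cons (.leaf 0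
   [0xb41a00b81200b00100a0010402]) (.cons (.leaf 0 [0xc81a00b0010201]) .nil)))) (.cons (.leaf 0
   [0xc81200a0010201]) .nil)))) (.cons (.splS 1 (.cons (.splT 3 (.cons (.leaf 0
   [0xa01a00c00900b2010301]) (.cons (.splT 4 (.cons (.leaf 0 [0x1242200b00900c2010301]) (.cons
   (.leaf 0 [0xb42200b81a00b00900b2010401]) (.cons (.leaf 0 [0x1482200b00900c2010301]) .nil))))
   (.cons (.leaf 0 [0x1481a00a00900b2010301]) .nil)))) (.cons (.splT 3 (.cons (.leaf 0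
   [0xa01a00c20900a2090122010402]) (.cons (.splT 4 (.cons (.leaf 0 [0xa42200b20900a2010301])
   (.cons (.leaf 0 [0xb42200b81a00b20900a2090122010502]) (.cons (.leaf 0 [0xc82200b20900a2010301])
   .nil)))) (.cons (.leaf 0 [0xc81a00a20900a2010301]) .nil)))) (.cons (.leaf 0
   [0xa40900a00b00b2010301]) (.cons (.splT 2 (.cons (.leaf 0 [0xa01201480900c20100a2010402])
   (.cons (.splT 3 (.cons (.leaf 0 [0xa41a00c80900b2010301]) (.cons (.leaf 0
   [0xb41a00b81201480900b20100a2010502]) (.cons (.leaf 0 [0xc81a00c80900b2010301]) .nil)))) (.cons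
   (.leaf 0 [0xc81200c80900a2010301]) .nil)))) .nil))))) (.cons (.leaf 0 [0xa4010101]) (.cons
   (.leaf 0 [0xc8010101]) .nil)))))⟩,
   ⟨23, 29, [0, 1, 2, 4], [0, 2, 3, 4], 6, (.splS 0 (.cons (.leaf 0 [0x80010101]) (.cons (.splS 1
   (.cons (.leaf 0 [0x80090082010201]) (.cons (.leaf 0 [0x820900a2010201]) (.cons (.leaf 0
   [0x840900b2010201]) (.cons (.leaf 0 [0xc8090082010201]) .nil))))) (.cons (.leaf 0 [0xa4010101])
   (.cons (.leaf 0 [0xc8010101]) .nil)))))⟩,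
   ⟨23, 30, [0, 1, 2, 4], [1, 2, 3, 4], 6, (.splS 0 (.cons (.splT 1 (.cons (.leaf 0
   [0x900a00a0010090010302]) (.cons (.leaf 0 [0xa00a00b0010090010302]) (.cons (.leaf 0
   [0xb00a00c0010090010302]) (.cons (.leaf 0 [0xc80a0090010201]) .nil))))) (.cons (.leaf 0
   [0x92010101]) (.cons (.leaf 0 [0xa4010101]) (.cons (.leaf 0 [0xc8010101]) .nil)))))⟩,
   ⟨23, 31, [0, 1, 2, 4], [0, 1, 2, 3, 4], 6, (.splS 0 (.cons (.leaf 0 [0x80010101]) (.cons (.leaf
   0 [0x92010101]) (.cons (.leaf 0 [0xa4010101]) (.cons (.leaf 0 [0xc8010101]) .nil)))))⟩,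
   ⟨24, 24, [3, 4], [3, 4], 6, (.splS 0 (.cons (.leaf 0 [0xb6010101]) (.cons (.leaf 0
   [0xc8010101]) .nil)))⟩,
   ⟨24, 25, [3, 4], [0, 3, 4], 6, (.splS 0 (.cons (.leaf 0 [0xb6010101]) (.cons (.leaf 0
   [0xc8010101]) .nil)))⟩,
   ⟨24, 26, [3, 4], [1, 3, 4], 6, (.splS 0 (.cons (.leaf 0 [0xb6010101]) (.cons (.leaf 0
   [0xc8010101]) .nil)))⟩,
   ⟨24, 27, [3, 4], [0, 1, 3, 4], 6, (.splS 0 (.cons (.leaf 0 [0xb6010101]) (.cons (.leaf 0
   [0xc8010101]) .nil)))⟩,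
   ⟨24, 28, [3, 4], [2, 3, 4], 6, (.splS 0 (.cons (.leaf 0 [0xb6010101]) (.cons (.leaf 0
   [0xc8010101]) .nil)))⟩,
   ⟨24, 29, [3, 4], [0, 2, 3, 4], 6, (.splS 0 (.cons (.leaf 0 [0xb6010101]) (.cons (.leaf 0
   [0xc8010101]) .nil)))⟩,
   ⟨24, 30, [3, 4], [1, 2, 3, 4], 6, (.splS 0 (.cons (.leaf 0 [0xb6010101]) (.cons (.leaf 0
   [0xc8010101]) .nil)))⟩,
   ⟨24, 31, [3, 4], [0, 1, 2, 3, 4], 6, (.splS 0 (.cons (.leaf 0 [0xb6010101]) (.cons (.leaf 0
   [0xc8010101]) .nil)))⟩,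
   ⟨25, 24, [0, 3, 4], [3, 4], 8, (.splS 0 (.cons (.splT 3 (.cons (.leaf 0 [0xb61a00b0010201])
   (.cons (.leaf 0 [0xc81a00b0010201]) .nil))) (.cons (.leaf 0 [0xb6010101]) (.cons (.leaf 0
   [0xc8010101]) .nil))))⟩,
   ⟨25, 25, [0, 3, 4], [0, 3, 4], 6, (.splS 0 (.cons (.leaf 0 [0x80010101]) (.cons (.leaf 0
   [0xb6010101]) (.cons (.leaf 0 [0xc8010101]) .nil))))⟩,
   ⟨25, 26, [0, 3, 4], [1, 3, 4], 8, (.splS 0 (.cons (.splT 3 (.cons (.leaf 0
   [0x901a00c00100b0010302]) (.cons (.leaf 0 [0xb61a00b0010201]) (.cons (.leaf 0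
   [0xc81a00b0010201]) .nil)))) (.cons (.leaf 0 [0xb6010101]) (.cons (.leaf 0 [0xc8010101])
   .nil))))⟩,
   ⟨25, 27, [0, 3, 4], [0, 1, 3, 4], 6, (.splS 0 (.cons (.leaf 0 [0x80010101]) (.cons (.leaf 0
   [0xb6010101]) (.cons (.leaf 0 [0xc8010101]) .nil))))⟩,
   ⟨25, 28, [0, 3, 4], [2, 3, 4], 8, (.splS 0 (.cons (.splT 2 (.cons (.leaf 0
   [0xa01200c00100a0010302]) (.cons (.leaf 0 [0xb61200a0010201]) (.cons (.leaf 0
   [0xc81200a0010201]) .nil)))) (.cons (.leaf 0 [0xb6010101]) (.cons (.leaf 0 [0xc8010101])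
   .nil))))⟩,
   ⟨25, 29, [0, 3, 4], [0, 2, 3, 4], 6, (.splS 0 (.cons (.leaf 0 [0x80010101]) (.cons (.leaf 0
   [0xb6010101]) (.cons (.leaf 0 [0xc8010101]) .nil))))⟩,
   ⟨25, 30, [0, 3, 4], [1, 2, 3, 4], 6, (.splS 0 (.cons (.splT 1 (.cons (.leaf 0
   [0x900a00a0010090010302]) (.cons (.leaf 0 [0xa00a00b0010090010302]) (.cons (.leaf 0
   [0xb00a00c0010090010302]) (.cons (.leaf 0 [0xc80a0090010201]) .nil))))) (.cons (.leaf 0
   [0xb6010101]) (.cons (.leaf 0 [0xc8010101]) .nil))))⟩,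
   ⟨25, 31, [0, 3, 4], [0, 1, 2, 3, 4], 6, (.splS 0 (.cons (.leaf 0 [0x80010101]) (.cons (.leaf 0
   [0xb6010101]) (.cons (.leaf 0 [0xc8010101]) .nil))))⟩,
   ⟨26, 24, [1, 3, 4], [3, 4], 10, (.splS 0 (.cons (.splS 1 (.cons (.splT 3 (.cons (.splS 2 (.cons
   (.splT 4 (.cons (.leaf 0 [0x1362200c21100b21a00b2090132010080080601]) (.cons (.leaf 0
   [0x1482200c21100b21a00b2090132010080080601]) .nil))) (.cons (.leaf 0
   [0xb61100b21301361a00c20900b2010501]) (.cons (.splT 4 (.cons (.leaf 0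
   [0xb62200c81100b61a00b20900b2010501]) (.cons (.leaf 0 [0xc82200c81100b61a00b20900b2010501])
   .nil))) .nil)))) (.cons (.splS 2 (.cons (.splT 5 (.cons (.leaf 0
   [0x1362a00b21100c20900b2010401]) (.cons (.leaf 0 [0x1482a00b21100c20900b2010401]) .nil)))
   (.cons (.leaf 0 [0xb61100b21301481a00c20900b2010501]) (.cons (.splT 4 (.cons (.leaf 0
   [0x1362200c81100b20900c2010401]) (.cons (.leaf 0 [0xc82200c81100c81a00b20900b2010501]) .nil)))
   .nil)))) .nil))) (.cons (.splT 2 (.cons (.leaf 0 [0xb61200b60900b20b00c2010401]) (.cons (.leaf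
   0 [0xc81200b60900b20b00c2010401]) .nil))) (.cons (.splT 3 (.cons (.leaf 0
   [0xb61a00c80900b2010301]) (.cons (.leaf 0 [0xc81a00c80900b2010301]) .nil))) .nil)))) (.cons
   (.leaf 0 [0xb6010101]) (.cons (.leaf 0 [0xc8010101]) .nil))))⟩,
   ⟨26, 25, [1, 3, 4], [0, 3, 4], 8, (.splS 0 (.cons (.splS 1 (.cons (.splS 2 (.cons (.leaf 0
   [0x821100820900b2010301]) (.cons (.leaf 0 [0x861100c2090082010301]) (.cons (.leaf 0
   [0xc8110082090082010301]) .nil)))) (.cons (.leaf 0 [0x860900c2010201]) (.cons (.leaf 0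
   [0xc8090082010201]) .nil)))) (.cons (.leaf 0 [0xb6010101]) (.cons (.leaf 0 [0xc8010101])
   .nil))))⟩,
   ⟨26, 26, [1, 3, 4], [1, 3, 4], 6, (.splS 0 (.cons (.leaf 0 [0x92010101]) (.cons (.leaf 0
   [0xb6010101]) (.cons (.leaf 0 [0xc8010101]) .nil))))⟩]

theorem certs7_ok : AllB certs7 := allB_of_okB (by decide +kernel)

/-- Certificates. -/
def certs8 : List BCert :=
  [
   ⟨26, 27, [1, 3, 4], [0, 1, 3, 4], 6, (.splS 0 (.cons (.leaf 0 [0x92010101]) (.cons (.leaf 0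
   [0xb6010101]) (.cons (.leaf 0 [0xc8010101]) .nil))))⟩,
   ⟨26, 28, [1, 3, 4], [2, 3, 4], 10, (.splS 0 (.cons (.splS 1 (.cons (.splT 3 (.cons (.splT 4
   (.cons (.leaf 0 [0xa22200a61a00a21a00c20901220901a2010603]) (.cons (.leaf 0
   [0xb22200a81a00a21a00c20901220901a2010603]) (.cons (.leaf 0
   [0xc82200a21a00c20900a2090122010502]) .nil)))) (.cons (.leaf 0 [0xb61a00a20900a2010301]) (.cons
   (.leaf 0 [0xc81a00a20900a2010301]) .nil)))) (.cons (.splT 3 (.cons (.leaf 0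
   [0xa21a00c60900b2010301]) (.cons (.leaf 0 [0xb61a00a60900c2010301]) (.cons (.leaf 0
   [0xc81a00a60900c2010301]) .nil)))) (.cons (.splT 2 (.cons (.leaf 0 [0xa61200b80900a2010301])
   (.cons (.leaf 0 [0xb61200c80900a2010301]) (.cons (.leaf 0 [0xc81200c80900a2010301]) .nil))))
   .nil)))) (.cons (.leaf 0 [0xb6010101]) (.cons (.leaf 0 [0xc8010101]) .nil))))⟩,
   ⟨26, 29, [1, 3, 4], [0, 2, 3, 4], 6, (.splS 0 (.cons (.splS 1 (.cons (.leaf 0
   [0x820900a2010201]) (.cons (.leaf 0 [0x860900c2010201]) (.cons (.leaf 0 [0xc8090082010201])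
   .nil)))) (.cons (.leaf 0 [0xb6010101]) (.cons (.leaf 0 [0xc8010101]) .nil))))⟩,
   ⟨26, 30, [1, 3, 4], [1, 2, 3, 4], 6, (.splS 0 (.cons (.leaf 0 [0x92010101]) (.cons (.leaf 0
   [0xb6010101]) (.cons (.leaf 0 [0xc8010101]) .nil))))⟩,
   ⟨26, 31, [1, 3, 4], [0, 1, 2, 3, 4], 6, (.splS 0 (.cons (.leaf 0 [0x92010101]) (.cons (.leaf 0
   [0xb6010101]) (.cons (.leaf 0 [0xc8010101]) .nil))))⟩,
   ⟨27, 24, [0, 1, 3, 4], [3, 4], 10, (.splS 0 (.cons (.splT 3 (.cons (.leaf 0 [0xb61a00b0010201])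
   (.cons (.leaf 0 [0xc81a00b0010201]) .nil))) (.cons (.splS 1 (.cons (.splT 4 (.cons (.leaf 0
   [0x1362200b00900c2010301]) (.cons (.leaf 0 [0x1482200b00900c2010301]) .nil))) (.cons (.splT 3
   (.cons (.splS 2 (.cons (.splT 4 (.cons (.leaf 0 [0xb02200c01100b81a00b20900b2010501]) (.cons
   (.leaf 0 [0xc82200c01100b01a00b20900b2010501]) .nil))) (.cons (.splT 4 (.cons (.leaf 0
   [0xb02200c21100b81c00b20900b2010501]) (.cons (.leaf 0
   [0xc82200c21100b01a00b2090132010080080601]) .nil))) (.cons (.leaf 0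
   [0xc61100b01a00c20900b2010401]) (.cons (.splT 4 (.cons (.leaf 0
   [0xb62200c81100b61a00b20900b2010501]) (.cons (.leaf 0 [0xc82200c81100b61a00b20900b2010501])
   .nil))) .nil))))) (.cons (.splS 2 (.cons (.splT 5 (.cons (.leaf 0
   [0x1362a00b01100c81a00c20900b2010501]) (.cons (.leaf 0 [0x1482a00b01100c81a00c20900b2010501])
   .nil))) (.cons (.splT 5 (.cons (.leaf 0 [0x1362a00b21100c20900b2010401]) (.cons (.leaf 0
   [0x1482a00b21100c20900b2010401]) .nil))) (.cons (.leaf 0 [0xb61100b01300c81a00c20900b2010501])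
   (.cons (.splT 4 (.cons (.leaf 0 [0x1362200c81100b20900c2010401]) (.cons (.leaf 0
   [0xc82200c81100c81a00b20900b2010501]) .nil))) .nil))))) .nil))) (.cons (.leaf 0
   [0xb60900b00b00c2010301]) (.cons (.splT 3 (.cons (.leaf 0 [0xb61a00c80900b2010301]) (.cons
   (.leaf 0 [0xc81a00c80900b2010301]) .nil))) .nil))))) (.cons (.leaf 0 [0xb6010101]) (.cons
   (.leaf 0 [0xc8010101]) .nil)))))⟩,
   ⟨27, 25, [0, 1, 3, 4], [0, 3, 4], 8, (.splS 0 (.cons (.leaf 0 [0x80010101]) (.cons (.splS 1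
   (.cons (.leaf 0 [0x80090082010201]) (.cons (.splS 2 (.cons (.leaf 0 [0x80110082090082010301])
   (.cons (.leaf 0 [0x821100820900b2010301]) (.cons (.leaf 0 [0x861100c2090082010301]) (.cons
   (.leaf 0 [0xc8110082090082010301]) .nil))))) (.cons (.leaf 0 [0x860900c2010201]) (.cons (.leaf
   0 [0xc8090082010201]) .nil))))) (.cons (.leaf 0 [0xb6010101]) (.cons (.leaf 0 [0xc8010101])
   .nil)))))⟩,
   ⟨27, 26, [0, 1, 3, 4], [1, 3, 4], 6, (.splS 0 (.cons (.splT 1 (.cons (.leaf 0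
   [0x920a0090010201]) (.cons (.leaf 0 [0xb00a00c0010090010302]) (.cons (.leaf 0
   [0xc80a0090010201]) .nil)))) (.cons (.leaf 0 [0x92010101]) (.cons (.leaf 0 [0xb6010101]) (.cons
   (.leaf 0 [0xc8010101]) .nil)))))⟩,
   ⟨27, 27, [0, 1, 3, 4], [0, 1, 3, 4], 6, (.splS 0 (.cons (.leaf 0 [0x80010101]) (.cons (.leaf 0
   [0x92010101]) (.cons (.leaf 0 [0xb6010101]) (.cons (.leaf 0 [0xc8010101]) .nil)))))⟩,
   ⟨27, 28, [0, 1, 3, 4], [2, 3, 4], 8, (.splS 0 (.cons (.splT 2 (.cons (.leaf 0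
   [0xa01200c00100a0010302]) (.cons (.leaf 0 [0xb61200a0010201]) (.cons (.leaf 0
   [0xc81200a0010201]) .nil)))) (.cons (.splS 1 (.cons (.splT 3 (.cons (.leaf 0
   [0xa01a00c00900b2010301]) (.cons (.leaf 0 [0x1361a00a00900b2010301]) (.cons (.leaf 0
   [0x1481a00a00900b2010301]) .nil)))) (.cons (.splT 3 (.cons (.leaf 0
   [0xa01a00c20900a2090122010402]) (.cons (.leaf 0 [0xb61a00a20900a2010301]) (.cons (.leaf 0
   [0xc81a00a20900a2010301]) .nil)))) (.cons (.leaf 0 [0xb60900b00b00c2010301]) (.cons (.splT 2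
   (.cons (.leaf 0 [0xa01201480900c20100a2010402]) (.cons (.leaf 0 [0xb61200c80900a2010301])
   (.cons (.leaf 0 [0xc81200c80900a2010301]) .nil)))) .nil))))) (.cons (.leaf 0 [0xb6010101])
   (.cons (.leaf 0 [0xc8010101]) .nil)))))⟩,
   ⟨27, 29, [0, 1, 3, 4], [0, 2, 3, 4], 6, (.splS 0 (.cons (.leaf 0 [0x80010101]) (.cons (.splS 1
   (.cons (.leaf 0 [0x80090082010201]) (.cons (.leaf 0 [0x820900a2010201]) (.cons (.leaf 0
   [0x860900c2010201]) (.cons (.leaf 0 [0xc8090082010201]) .nil))))) (.cons (.leaf 0 [0xb6010101])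
   (.cons (.leaf 0 [0xc8010101]) .nil)))))⟩,
   ⟨27, 30, [0, 1, 3, 4], [1, 2, 3, 4], 6, (.splS 0 (.cons (.splT 1 (.cons (.leaf 0
   [0x900a00a0010090010302]) (.cons (.leaf 0 [0xa00a00b0010090010302]) (.cons (.leaf 0
   [0xb00a00c0010090010302]) (.cons (.leaf 0 [0xc80a0090010201]) .nil))))) (.cons (.leaf 0
   [0x92010101]) (.cons (.leaf 0 [0xb6010101]) (.cons (.leaf 0 [0xc8010101]) .nil)))))⟩,
   ⟨27, 31, [0, 1, 3, 4], [0, 1, 2, 3, 4], 6, (.splS 0 (.cons (.leaf 0 [0x80010101]) (.cons (.leaf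
   0 [0x92010101]) (.cons (.leaf 0 [0xb6010101]) (.cons (.leaf 0 [0xc8010101]) .nil)))))⟩,
   ⟨28, 24, [2, 3, 4], [3, 4], 10, (.splS 0 (.cons (.splS 1 (.cons (.splT 4 (.cons (.splS 2 (.cons
   (.splT 5 (.cons (.leaf 0 [0xb62a00b41100c4010301]) (.cons (.leaf 0 [0xc82a00b41100c4010301])
   .nil))) (.cons (.leaf 0 [0xb61100b62200c4010301]) (.cons (.leaf 0 [0xc81100b62200c4010301])
   .nil)))) (.cons (.splS 2 (.cons (.splT 5 (.cons (.leaf 0 [0xb62a00b41100c4010301]) (.cons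
   (.leaf 0 [0xc82a00b41100c4010301]) .nil))) (.cons (.leaf 0 [0xb61100c82200c4010301]) (.cons
   (.leaf 0 [0xc81100c82200c4010301]) .nil)))) .nil))) (.cons (.splS 2 (.cons (.splT 5 (.cons
   (.leaf 0 [0xb62a00b41100c4010301]) (.cons (.leaf 0 [0xc82a00b41100c4010301]) .nil))) (.cons
   (.splT 3 (.cons (.leaf 0 [0xb41a00c61100b4010301]) (.cons (.leaf 0 [0xc81a00b61100b4010301])
   .nil))) (.cons (.splT 3 (.cons (.leaf 0 [0xb61a00c81100b4010301]) (.cons (.leaf 0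
   [0xc81a00c81100b4010301]) .nil))) .nil)))) (.cons (.splS 2 (.cons (.splT 3 (.cons (.leaf 0
   [0xb41a00c41100c40b00c4010401]) (.cons (.leaf 0 [0xc81a00b41100c40b00c4010401]) .nil))) (.cons
   (.splT 3 (.cons (.leaf 0 [0xb41a00c61100b4010301]) (.cons (.leaf 0 [0xc81a00b61100b4010301])
   .nil))) (.cons (.splT 3 (.cons (.leaf 0 [0xb61a00c81100b4010301]) (.cons (.leaf 0
   [0xc81a00c81100b4010301]) .nil))) .nil)))) .nil)))) (.cons (.leaf 0 [0xb6010101]) (.cons (.leaf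
   0 [0xc8010101]) .nil))))⟩,
   ⟨28, 25, [2, 3, 4], [0, 3, 4], 8, (.splS 0 (.cons (.splS 2 (.cons (.leaf 0 [0x841100c4010201])
   (.cons (.leaf 0 [0xb6110084010201]) (.cons (.leaf 0 [0xc8110084010201]) .nil)))) (.cons (.leaf
   0 [0xb6010101]) (.cons (.leaf 0 [0xc8010101]) .nil))))⟩,
   ⟨28, 27, [2, 3, 4], [0, 1, 3, 4], 8, (.splS 0 (.cons (.splS 2 (.cons (.leaf 0
   [0x841100c4010201]) (.cons (.leaf 0 [0xb6110084010201]) (.cons (.leaf 0 [0xc8110084010201])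
   .nil)))) (.cons (.leaf 0 [0xb6010101]) (.cons (.leaf 0 [0xc8010101]) .nil))))⟩,
   ⟨28, 28, [2, 3, 4], [2, 3, 4], 6, (.splS 0 (.cons (.leaf 0 [0xa4010101]) (.cons (.leaf 0
   [0xb6010101]) (.cons (.leaf 0 [0xc8010101]) .nil))))⟩,
   ⟨28, 29, [2, 3, 4], [0, 2, 3, 4], 6, (.splS 0 (.cons (.leaf 0 [0xa4010101]) (.cons (.leaf 0
   [0xb6010101]) (.cons (.leaf 0 [0xc8010101]) .nil))))⟩,
   ⟨28, 30, [2, 3, 4], [1, 2, 3, 4], 6, (.splS 0 (.cons (.leaf 0 [0xa4010101]) (.cons (.leaf 0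
   [0xb6010101]) (.cons (.leaf 0 [0xc8010101]) .nil))))⟩,
   ⟨28, 31, [2, 3, 4], [0, 1, 2, 3, 4], 6, (.splS 0 (.cons (.leaf 0 [0xa4010101]) (.cons (.leaf 0
   [0xb6010101]) (.cons (.leaf 0 [0xc8010101]) .nil))))⟩,
   ⟨29, 24, [0, 2, 3, 4], [3, 4], 10, (.splS 0 (.cons (.splT 3 (.cons (.leaf 0 [0xb61a00b0010201])
   (.cons (.leaf 0 [0xc81a00b0010201]) .nil))) (.cons (.splS 1 (.cons (.splT 4 (.cons (.splS 2
   (.cons (.splT 5 (.cons (.leaf 0 [0xb42a00b01100b82200c4010401]) (.cons (.leaf 0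
   [0xc82a00b01100b62200c4010401]) .nil))) (.cons (.splT 5 (.cons (.leaf 0
   [0xb62a00b41100c4010301]) (.cons (.leaf 0 [0xc82a00b41100c4010301]) .nil))) (.cons (.leaf 0
   [0xb61100b62200c4010301]) (.cons (.leaf 0 [0xc81100b62200c4010301]) .nil))))) (.cons (.splS 2
   (.cons (.splT 5 (.cons (.leaf 0 [0xb62a00b01100c82200c4010401]) (.cons (.leaf 0
   [0xc82a00b01100c82200c4010401]) .nil))) (.cons (.splT 5 (.cons (.leaf 0
   [0xb62a00b41100c4010301]) (.cons (.leaf 0 [0xc82a00b41100c4010301]) .nil))) (.cons (.leaf 0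
   [0xb61100c82200c4010301]) (.cons (.leaf 0 [0xc81100c82200c4010301]) .nil))))) .nil))) (.cons
   (.splT 4 (.cons (.splS 2 (.cons (.splT 5 (.cons (.leaf 0 [0xb62a00b01100a00b00b4010401]) (.cons
   (.leaf 0 [0xc82a00b01100a00b00b4010401]) .nil))) (.cons (.splT 5 (.cons (.leaf 0
   [0xb62a00b41100c4010301]) (.cons (.leaf 0 [0xc82a00b41100c4010301]) .nil))) (.cons (.leaf 0
   [0xb61100a00b00b4010301]) (.cons (.leaf 0 [0xc81100a00b00b4010301]) .nil))))) (.cons (.splS 2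
   (.cons (.splT 5 (.cons (.leaf 0 [0xb62a00b01100a00b00b4010401]) (.cons (.leaf 0
   [0xc82a00b01100a00b00b4010401]) .nil))) (.cons (.splT 5 (.cons (.leaf 0
   [0xb62a00b41100c4010301]) (.cons (.leaf 0 [0xc82a00b41100c4010301]) .nil))) (.cons (.leaf 0
   [0xb61100a00b00b4010301]) (.cons (.leaf 0 [0xc81100a00b00b4010301]) .nil))))) .nil))) (.cons
   (.splS 2 (.cons (.splT 5 (.cons (.leaf 0 [0xb62a00b01100b00b00c4010401]) (.cons (.leaf 0
   [0xc82a00b01100b00b00c4010401]) .nil))) (.cons (.splT 5 (.cons (.leaf 0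
   [0xb62a00b41100c4010301]) (.cons (.leaf 0 [0xc82a00b41100c4010301]) .nil))) (.cons (.leaf 0
   [0xb61100b00b00c4010301]) (.cons (.leaf 0 [0xc81100b00b00c4010301]) .nil))))) (.cons (.splS 2
   (.cons (.splT 3 (.cons (.leaf 0 [0xb01a00c01100b4010301]) (.cons (.leaf 0
   [0xc81a00b01100c00b00b4010401]) .nil))) (.cons (.leaf 0 [0xb41100c00b00c4010301]) (.cons (.splT
   3 (.cons (.leaf 0 [0xb41a00c61100b4010301]) (.cons (.leaf 0 [0xc81a00b61100b4010301]) .nil)))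
   (.cons (.splT 3 (.cons (.leaf 0 [0xb61a00c81100b4010301]) (.cons (.leaf 0
   [0xc81a00c81100b4010301]) .nil))) .nil))))) .nil))))) (.cons (.leaf 0 [0xb6010101]) (.cons
   (.leaf 0 [0xc8010101]) .nil)))))⟩,
   ⟨29, 25, [0, 2, 3, 4], [0, 3, 4], 8, (.splS 0 (.cons (.leaf 0 [0x80010101]) (.cons (.splS 2
   (.cons (.leaf 0 [0x80110084010201]) (.cons (.leaf 0 [0x841100c4010201]) (.cons (.leaf 0
   [0xb6110084010201]) (.cons (.leaf 0 [0xc8110084010201]) .nil))))) (.cons (.leaf 0 [0xb6010101])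
   (.cons (.leaf 0 [0xc8010101]) .nil)))))⟩,
   ⟨29, 26, [0, 2, 3, 4], [1, 3, 4], 8, (.splS 0 (.cons (.splT 1 (.cons (.leaf 0
   [0x900a0090010084030301]) (.cons (.leaf 0 [0xb00a00c0010090010302]) (.cons (.leaf 0
   [0xc80a0090010201]) .nil)))) (.cons (.splS 2 (.cons (.splT 3 (.cons (.leaf 0
   [0x901a00901100c4010301]) (.cons (.leaf 0 [0xb01a00c01100b4010301]) (.cons (.leaf 0
   [0x1481a00901100b4010301]) .nil)))) (.cons (.splT 3 (.cons (.leaf 0
   [0x901a0094110144010080100401]) (.cons (.leaf 0 [0xb01a00c4110094110144010402]) (.cons (.leaf 0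
   [0xc81a00941100c4010301]) .nil)))) (.cons (.splT 1 (.cons (.leaf 0 [0x900a0136110094010301])
   (.cons (.leaf 0 [0xb20c00c4010201]) (.cons (.leaf 0 [0xc80a00b6110094010301]) .nil)))) (.cons
   (.splT 1 (.cons (.leaf 0 [0x900a0148110094010301]) (.cons (.leaf 0 [0xb20c00c4010201]) (.cons
   (.leaf 0 [0xc80a00c8110094010301]) .nil)))) .nil))))) (.cons (.leaf 0 [0xb6010101]) (.cons
   (.leaf 0 [0xc8010101]) .nil)))))⟩,
   ⟨29, 27, [0, 2, 3, 4], [0, 1, 3, 4], 8, (.splS 0 (.cons (.leaf 0 [0x80010101]) (.cons (.splS 2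
   (.cons (.leaf 0 [0x80110084010201]) (.cons (.leaf 0 [0x841100c4010201]) (.cons (.leaf 0
   [0xb6110084010201]) (.cons (.leaf 0 [0xc8110084010201]) .nil))))) (.cons (.leaf 0 [0xb6010101])
   (.cons (.leaf 0 [0xc8010101]) .nil)))))⟩,
   ⟨29, 28, [0, 2, 3, 4], [2, 3, 4], 8, (.splS 0 (.cons (.splT 2 (.cons (.leaf 0
   [0xa01200c00100a0010302]) (.cons (.leaf 0 [0xb61200a0010201]) (.cons (.leaf 0
   [0xc81200a0010201]) .nil)))) (.cons (.leaf 0 [0xa4010101]) (.cons (.leaf 0 [0xb6010101]) (.cons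
   (.leaf 0 [0xc8010101]) .nil)))))⟩,
   ⟨29, 29, [0, 2, 3, 4], [0, 2, 3, 4], 6, (.splS 0 (.cons (.leaf 0 [0x80010101]) (.cons (.leaf 0
   [0xa4010101]) (.cons (.leaf 0 [0xb6010101]) (.cons (.leaf 0 [0xc8010101]) .nil)))))⟩,
   ⟨29, 30, [0, 2, 3, 4], [1, 2, 3, 4], 6, (.splS 0 (.cons (.splT 1 (.cons (.leaf 0
   [0x900a00a0010090010302]) (.cons (.leaf 0 [0xa00a00b0010090010302]) (.cons (.leaf 0
   [0xb00a00c0010090010302]) (.cons (.leaf 0 [0xc80a0090010201]) .nil))))) (.cons (.leaf 0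
   [0xa4010101]) (.cons (.leaf 0 [0xb6010101]) (.cons (.leaf 0 [0xc8010101]) .nil)))))⟩,
   ⟨29, 31, [0, 2, 3, 4], [0, 1, 2, 3, 4], 6, (.splS 0 (.cons (.leaf 0 [0x80010101]) (.cons (.leaf
   0 [0xa4010101]) (.cons (.leaf 0 [0xb6010101]) (.cons (.leaf 0 [0xc8010101]) .nil)))))⟩,
   ⟨30, 24, [1, 2, 3, 4], [3, 4], 10, (.splS 0 (.cons (.splS 1 (.cons (.splS 2 (.cons (.splT 5
   (.cons (.leaf 0 [0x1362a00b21100c20900b2010401]) (.cons (.leaf 0
   [0x1482a00b21100c20900b2010401]) .nil))) (.cons (.splT 5 (.cons (.leaf 0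
   [0x1362a00b41100c20900c2010401]) (.cons (.leaf 0 [0x1482a00b41100c20900c2010401]) .nil)))
   (.cons (.splT 3 (.cons (.leaf 0 [0xb61a00b41a00c61100b21300c20900b2010601]) (.cons (.leaf 0
   [0x1481a00b61100b21300c20900b2010501]) .nil))) (.cons (.splT 4 (.cons (.leaf 0
   [0x1362200c81100b20900c2010401]) (.cons (.leaf 0 [0x1482200c81100b20900c2010401]) .nil)))
   .nil))))) (.cons (.splT 4 (.cons (.leaf 0 [0xb62200b40900b2010301]) (.cons (.leaf 0
   [0xc82200b40900b2010301]) .nil))) (.cons (.splT 2 (.cons (.leaf 0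
   [0xb41200c60900b20b00c2010401]) (.cons (.leaf 0 [0xc81200b60900b20b00c2010401]) .nil))) (.cons
   (.splT 3 (.cons (.leaf 0 [0xb61a00c80900b2010301]) (.cons (.leaf 0 [0xc81a00c80900b2010301])
   .nil))) .nil))))) (.cons (.splS 1 (.cons (.splS 2 (.cons (.splT 5 (.cons (.leaf 0
   [0xb62a00b21100b4010301]) (.cons (.leaf 0 [0xc82a00b21100b4010301]) .nil))) (.cons (.splT 5
   (.cons (.leaf 0 [0xb62a00b41100c4010301]) (.cons (.leaf 0 [0xc82a00b41100c4010301]) .nil)))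
   (.cons (.splT 3 (.cons (.leaf 0 [0xb41a00c61100b4010301]) (.cons (.leaf 0
   [0xc81a00b61100b4010301]) .nil))) (.cons (.splT 3 (.cons (.leaf 0 [0xb61a00c81100b4010301])
   (.cons (.leaf 0 [0xc81a00c81100b4010301]) .nil))) .nil))))) (.cons (.leaf 0 [0xa20b00b4010201])
   (.cons (.leaf 0 [0xb20b00c4010201]) (.cons (.splS 2 (.cons (.leaf 0 [0x961300c20b00b4010301])
   (.cons (.leaf 0 [0xa61300c20b00c4010301]) (.cons (.splT 3 (.cons (.leaf 0
   [0xb41a00c61100b4010301]) (.cons (.leaf 0 [0xc81a00b61100b4010301]) .nil))) (.cons (.splT 3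
   (.cons (.leaf 0 [0xb61a00c81100b4010301]) (.cons (.leaf 0 [0xc81a00c81100b4010301]) .nil)))
   .nil))))) .nil))))) (.cons (.leaf 0 [0xb6010101]) (.cons (.leaf 0 [0xc8010101]) .nil)))))⟩,
   ⟨30, 25, [1, 2, 3, 4], [0, 3, 4], 8, (.splS 0 (.cons (.splS 1 (.cons (.splS 2 (.cons (.leaf 0
   [0x821100820900b2010301]) (.cons (.leaf 0 [0x841100820900c2010301]) (.cons (.leaf 0
   [0x861100c2090082010301]) (.cons (.leaf 0 [0xc8110082090082010301]) .nil))))) (.cons (.leaf 0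
   [0x840900b2010201]) (.cons (.leaf 0 [0x860900c2010201]) (.cons (.leaf 0 [0xc8090082010201])
   .nil))))) (.cons (.splS 2 (.cons (.leaf 0 [0x821100b4010201]) (.cons (.leaf 0
   [0x841100c4010201]) (.cons (.leaf 0 [0xb6110084010201]) (.cons (.leaf 0 [0xc8110084010201])
   .nil))))) (.cons (.leaf 0 [0xb6010101]) (.cons (.leaf 0 [0xc8010101]) .nil)))))⟩,
   ⟨30, 26, [1, 2, 3, 4], [1, 3, 4], 8, (.splS 0 (.cons (.leaf 0 [0x92010101]) (.cons (.splS 2
   (.cons (.splT 1 (.cons (.leaf 0 [0x920a0092110094010301]) (.cons (.leaf 0 [0xb20c00c4010201])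
   (.cons (.leaf 0 [0xc20c00961300b4010301]) .nil)))) (.cons (.splT 3 (.cons (.leaf 0
   [0x921a00941100c4010301]) (.cons (.leaf 0 [0xb21a00c41100b4010301]) (.cons (.leaf 0
   [0xc81a00941100c4010301]) .nil)))) (.cons (.splT 1 (.cons (.leaf 0 [0x920a00b6110094010301])
   (.cons (.leaf 0 [0xb20c00c4010201]) (.cons (.leaf 0 [0xc80a00b6110094010301]) .nil)))) (.cons
   (.splT 1 (.cons (.leaf 0 [0x920a00c8110094010301]) (.cons (.leaf 0 [0xb20c00c4010201]) (.cons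
   (.leaf 0 [0xc80a00c8110094010301]) .nil)))) .nil))))) (.cons (.leaf 0 [0xb6010101]) (.cons
   (.leaf 0 [0xc8010101]) .nil)))))⟩,
   ⟨30, 27, [1, 2, 3, 4], [0, 1, 3, 4], 8, (.splS 0 (.cons (.leaf 0 [0x92010101]) (.cons (.splS 2
   (.cons (.leaf 0 [0x821100b4010201]) (.cons (.leaf 0 [0x841100c4010201]) (.cons (.leaf 0
   [0xb6110084010201]) (.cons (.leaf 0 [0xc8110084010201]) .nil))))) (.cons (.leaf 0 [0xb6010101])
   (.cons (.leaf 0 [0xc8010101]) .nil)))))⟩,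
   ⟨30, 28, [1, 2, 3, 4], [2, 3, 4], 8, (.splS 0 (.cons (.splS 1 (.cons (.splT 3 (.cons (.leaf 0
   [0xa41a00a20900a2010301]) (.cons (.leaf 0 [0xb61a00a20900a2010301]) (.cons (.leaf 0
   [0xc81a00a20900a2010301]) .nil)))) (.cons (.splT 2 (.cons (.leaf 0 [0xa21200b40900a2010301])
   (.cons (.leaf 0 [0xb21200c40900a2010301]) (.cons (.leaf 0 [0xc81200a40900a2010301]) .nil))))
   (.cons (.splT 2 (.cons (.leaf 0 [0xa41200b60900a2010301]) (.cons (.leaf 0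
   [0xb41200c60900a2010301]) (.cons (.leaf 0 [0xc81200b60900a2010301]) .nil)))) (.cons (.splT 2
   (.cons (.leaf 0 [0xa41200c80900a2010301]) (.cons (.leaf 0 [0xb61200c80900a2010301]) (.cons
   (.leaf 0 [0xc81200c80900a2010301]) .nil)))) .nil))))) (.cons (.leaf 0 [0xa4010101]) (.cons
   (.leaf 0 [0xb6010101]) (.cons (.leaf 0 [0xc8010101]) .nil)))))⟩,
   ⟨30, 29, [1, 2, 3, 4], [0, 2, 3, 4], 6, (.splS 0 (.cons (.splS 1 (.cons (.leaf 0
   [0x820900a2010201]) (.cons (.leaf 0 [0x840900b2010201]) (.cons (.leaf 0 [0x860900c2010201])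
   (.cons (.leaf 0 [0xc8090082010201]) .nil))))) (.cons (.leaf 0 [0xa4010101]) (.cons (.leaf 0
   [0xb6010101]) (.cons (.leaf 0 [0xc8010101]) .nil)))))⟩,
   ⟨30, 30, [1, 2, 3, 4], [1, 2, 3, 4], 6, (.splS 0 (.cons (.leaf 0 [0x92010101]) (.cons (.leaf 0
   [0xa4010101]) (.cons (.leaf 0 [0xb6010101]) (.cons (.leaf 0 [0xc8010101]) .nil)))))⟩,
   ⟨30, 31, [1, 2, 3, 4], [0, 1, 2, 3, 4], 6, (.splS 0 (.cons (.leaf 0 [0x92010101]) (.cons (.leaf
   0 [0xa4010101]) (.cons (.leaf 0 [0xb6010101]) (.cons (.leaf 0 [0xc8010101]) .nil)))))⟩,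
   ⟨31, 24, [0, 1, 2, 3, 4], [3, 4], 10, (.splS 0 (.cons (.splT 3 (.cons (.leaf 0
   [0xb61a00b0010201]) (.cons (.leaf 0 [0xc81a00b0010201]) .nil))) (.cons (.splS 1 (.cons (.splT 4
   (.cons (.leaf 0 [0x1362200b00900c2010301]) (.cons (.leaf 0 [0x1482200b00900c2010301]) .nil)))
   (.cons (.splS 2 (.cons (.splT 5 (.cons (.splT 3 (.cons (.leaf 0
   [0xb01a00b62a00c01100c20900b2010501]) (.cons (.leaf 0 [0xc81a01362a00b01100c20900b2010501])
   .nil))) (.cons (.splT 3 (.cons (.leaf 0 [0xb01a00c82a00c01100c20900b2010501]) (.cons (.leaf 0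
   [0xc81a01482a00b01100c20900b2010501]) .nil))) .nil))) (.cons (.splT 5 (.cons (.leaf 0
   [0x1362a00b21100c20900b2010401]) (.cons (.leaf 0 [0x1482a00b21100c20900b2010401]) .nil)))
   (.cons (.splT 5 (.cons (.leaf 0 [0xb62a00b41100a01300b20900c2010501]) (.cons (.leaf 0
   [0xc82a00b41100a01300b20900c2010501]) .nil))) (.cons (.splT 3 (.cons (.leaf 0
   [0xb01a00c61100c20900b2010401]) (.cons (.leaf 0 [0xc81a00b61100b01300c20900b2010501]) .nil)))
   (.cons (.splT 4 (.cons (.leaf 0 [0x1362200c81100b20900c2010401]) (.cons (.leaf 0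
   [0x1482200c81100b20900c2010401]) .nil))) .nil)))))) (.cons (.splT 4 (.cons (.leaf 0
   [0xb62200b40900b2010301]) (.cons (.leaf 0 [0xc82200b40900b2010301]) .nil))) (.cons (.leaf 0
   [0xb60900b00b00c2010301]) (.cons (.splT 3 (.cons (.leaf 0 [0xb61a00c80900b2010301]) (.cons
   (.leaf 0 [0xc81a00c80900b2010301]) .nil))) .nil)))))) (.cons (.splS 1 (.cons (.splT 3 (.cons
   (.leaf 0 [0xb61a00820b00b4010301]) (.cons (.leaf 0 [0xc81a00820b00b4010301]) .nil))) (.cons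
   (.splS 2 (.cons (.splT 5 (.cons (.splT 3 (.cons (.leaf 0 [0xb01a00c01100b4010301]) (.cons
   (.leaf 0 [0xc81a00b62a00b01100b4010401]) .nil))) (.cons (.splT 3 (.cons (.leaf 0
   [0xb01a00c01100b4010301]) (.cons (.leaf 0 [0xc81a00c82a00b01100b4010401]) .nil))) .nil)))
   (.cons (.splT 5 (.cons (.leaf 0 [0xb62a00b21100b4010301]) (.cons (.leaf 0
   [0xc82a00b21100b4010301]) .nil))) (.cons (.splT 5 (.cons (.leaf 0 [0xb62a00b41100c4010301])
   (.cons (.leaf 0 [0xc82a00b41100c4010301]) .nil))) (.cons (.splT 3 (.cons (.leaf 0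
   [0xb41a00c61100b4010301]) (.cons (.leaf 0 [0xc81a00b61100b4010301]) .nil))) (.cons (.splT 3
   (.cons (.leaf 0 [0xb61a00c81100b4010301]) (.cons (.leaf 0 [0xc81a00c81100b4010301]) .nil)))
   .nil)))))) (.cons (.leaf 0 [0xa20b00b4010201]) (.cons (.leaf 0 [0xb20b00c4010201]) (.cons
   (.splS 2 (.cons (.splT 3 (.cons (.leaf 0 [0xb41a00881300c20b00b4010401]) (.cons (.leaf 0
   [0xc81a00861300c20b00b4010401]) .nil))) (.cons (.leaf 0 [0x961300c20b00b4010301]) (.cons (.leaf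
   0 [0xa61300c20b00c4010301]) (.cons (.splT 3 (.cons (.leaf 0 [0xb41a00c61100b4010301]) (.cons
   (.leaf 0 [0xc81a00b61100b4010301]) .nil))) (.cons (.splT 3 (.cons (.leaf 0
   [0xb61a00c81100b4010301]) (.cons (.leaf 0 [0xc81a00c81100b4010301]) .nil))) .nil))))))
   .nil)))))) (.cons (.leaf 0 [0xb6010101]) (.cons (.leaf 0 [0xc8010101]) .nil))))))⟩,
   ⟨31, 25, [0, 1, 2, 3, 4], [0, 3, 4], 8, (.splS 0 (.cons (.leaf 0 [0x80010101]) (.cons (.splS 1
   (.cons (.leaf 0 [0x80090082010201]) (.cons (.splS 2 (.cons (.leaf 0 [0x80110082090082010301])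
   (.cons (.leaf 0 [0x821100820900b2010301]) (.cons (.leaf 0 [0x841100820900c2010301]) (.cons
   (.leaf 0 [0x861100c2090082010301]) (.cons (.leaf 0 [0xc8110082090082010301]) .nil)))))) (.cons
   (.leaf 0 [0x840900b2010201]) (.cons (.leaf 0 [0x860900c2010201]) (.cons (.leaf 0
   [0xc8090082010201]) .nil)))))) (.cons (.splS 2 (.cons (.leaf 0 [0x80110084010201]) (.cons
   (.leaf 0 [0x821100b4010201]) (.cons (.leaf 0 [0x841100c4010201]) (.cons (.leaf 0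
   [0xb6110084010201]) (.cons (.leaf 0 [0xc8110084010201]) .nil)))))) (.cons (.leaf 0
   [0xb6010101]) (.cons (.leaf 0 [0xc8010101]) .nil))))))⟩,
   ⟨31, 26, [0, 1, 2, 3, 4], [1, 3, 4], 8, (.splS 0 (.cons (.splT 1 (.cons (.leaf 0
   [0x920a0090010201]) (.cons (.leaf 0 [0xb00a00c0010090010302]) (.cons (.leaf 0
   [0xc80a0090010201]) .nil)))) (.cons (.leaf 0 [0x92010101]) (.cons (.splS 2 (.cons (.splT 3
   (.cons (.leaf 0 [0x901a00901100c4010301]) (.cons (.leaf 0 [0xb01a00c01100b4010301]) (.cons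
   (.leaf 0 [0x1481a00901100b4010301]) .nil)))) (.cons (.leaf 0 [0x921100901300b4010301]) (.cons
   (.splT 3 (.cons (.leaf 0 [0x921a00941100c4010301]) (.cons (.leaf 0
   [0xb01a00c4110094110144010402]) (.cons (.leaf 0 [0xc81a00941100c4010301]) .nil)))) (.cons
   (.splT 1 (.cons (.leaf 0 [0x920a00b6110094010301]) (.cons (.leaf 0 [0xb20c00c4010201]) (.cons
   (.leaf 0 [0xc80a00b6110094010301]) .nil)))) (.cons (.splT 1 (.cons (.leaf 0
   [0x920a00c8110094010301]) (.cons (.leaf 0 [0xb20c00c4010201]) (.cons (.leaf 0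
   [0xc80a00c8110094010301]) .nil)))) .nil)))))) (.cons (.leaf 0 [0xb6010101]) (.cons (.leaf 0
   [0xc8010101]) .nil))))))⟩,
   ⟨31, 27, [0, 1, 2, 3, 4], [0, 1, 3, 4], 8, (.splS 0 (.cons (.leaf 0 [0x80010101]) (.cons (.leaf
   0 [0x92010101]) (.cons (.splS 2 (.cons (.leaf 0 [0x80110084010201]) (.cons (.leaf 0
   [0x821100b4010201]) (.cons (.leaf 0 [0x841100c4010201]) (.cons (.leaf 0 [0xb6110084010201])
   (.cons (.leaf 0 [0xc8110084010201]) .nil)))))) (.cons (.leaf 0 [0xb6010101]) (.cons (.leaf 0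
   [0xc8010101]) .nil))))))⟩,
   ⟨31, 28, [0, 1, 2, 3, 4], [2, 3, 4], 8, (.splS 0 (.cons (.splT 2 (.cons (.leaf 0
   [0xa01200c00100a0010302]) (.cons (.leaf 0 [0xb61200a0010201]) (.cons (.leaf 0
   [0xc81200a0010201]) .nil)))) (.cons (.splS 1 (.cons (.splT 3 (.cons (.leaf 0
   [0xa01a00c00900b2010301]) (.cons (.leaf 0 [0x1361a00a00900b2010301]) (.cons (.leaf 0
   [0x1481a00a00900b2010301]) .nil)))) (.cons (.splT 3 (.cons (.leaf 0
   [0xa01a00c20900a2090122010402]) (.cons (.leaf 0 [0xb61a00a20900a2010301]) (.cons (.leaf 0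
   [0xc81a00a20900a2010301]) .nil)))) (.cons (.leaf 0 [0xa40900a00b00b2010301]) (.cons (.leaf 0
   [0xb60900b00b00c2010301]) (.cons (.splT 2 (.cons (.leaf 0 [0xa01201480900c20100a2010402])
   (.cons (.leaf 0 [0xb61200c80900a2010301]) (.cons (.leaf 0 [0xc81200c80900a2010301]) .nil))))
   .nil)))))) (.cons (.leaf 0 [0xa4010101]) (.cons (.leaf 0 [0xb6010101]) (.cons (.leaf 0
   [0xc8010101]) .nil))))))⟩,
   ⟨31, 29, [0, 1, 2, 3, 4], [0, 2, 3, 4], 6, (.splS 0 (.cons (.leaf 0 [0x80010101]) (.cons (.splS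
   1 (.cons (.leaf 0 [0x80090082010201]) (.cons (.leaf 0 [0x820900a2010201]) (.cons (.leaf 0
   [0x840900b2010201]) (.cons (.leaf 0 [0x860900c2010201]) (.cons (.leaf 0 [0xc8090082010201])
   .nil)))))) (.cons (.leaf 0 [0xa4010101]) (.cons (.leaf 0 [0xb6010101]) (.cons (.leaf 0
   [0xc8010101]) .nil))))))⟩,
   ⟨31, 30, [0, 1, 2, 3, 4], [1, 2, 3, 4], 6, (.splS 0 (.cons (.splT 1 (.cons (.leaf 0
   [0x900a00a0010090010302]) (.cons (.leaf 0 [0xa00a00b0010090010302]) (.cons (.leaf 0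
   [0xb00a00c0010090010302]) (.cons (.leaf 0 [0xc80a0090010201]) .nil))))) (.cons (.leaf 0
   [0x92010101]) (.cons (.leaf 0 [0xa4010101]) (.cons (.leaf 0 [0xb6010101]) (.cons (.leaf 0
   [0xc8010101]) .nil))))))⟩,
   ⟨31, 31, [0, 1, 2, 3, 4], [0, 1, 2, 3, 4], 6, (.splS 0 (.cons (.leaf 0 [0x80010101]) (.cons
   (.leaf 0 [0x92010101]) (.cons (.leaf 0 [0xa4010101]) (.cons (.leaf 0 [0xb6010101]) (.cons
   (.leaf 0 [0xc8010101]) .nil))))))⟩]

theorem certs8_ok : AllB certs8 := allB_of_okB (by decide +kernel)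

end Pool.Agent.RatRec
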