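import Pool.Agent.Lib_helper86.RatW.Lim

/-!
Families of cases with pinned patterns: the elementary arguments.
-/

set_option autoImplicit false

namespace Pool.Agent.RatRec

/-- A bounded positive sequence can not grow geometrically. -/
theorem no_growth {z : ℕ → ℝ} {t : ℝ} (ht : 1 < t) (hz : ∀ j, 0 < z j) (hz1 : ∀ j, z j ≤ 1)
    (h : ∀ j, t * z j ≤ z (j + 1)) : False := by
  have h1 : ∀ j, t ^ j * z 0 ≤ z j := by
    intro j
    induction j with
    | zero => simp
    | succ j ih =>
      have h2 := mul_le_mul_of_nonneg_left ih (by linarith : (0 : ℝ) ≤ t)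
      have h3 := h j
      calc t ^ (j + 1) * z 0 = t * (t ^ j * z 0) := by ring
        _ ≤ t * z j := h2
        _ ≤ _ := h3
  obtain ⟨n, hn⟩ := pow_unbounded_of_one_lt (1 / z 0) ht
  have h2 := h1 n
  have h3 := hz1 n
  rw [div_lt_iff₀ (hz 0)] at hn
  linarith

/-- A positive sequence can not decrease by a fixed amount. -/
theorem no_decrease {s : ℕ → ℝ} {t : ℝ} (ht : 0 < t) (hs : ∀ j, 0 < s j)
    (h : ∀ j, s (j + 1) ≤ s j - t) : False := by
  have h1 : ∀ j : ℕ, s j ≤ s 0 - j * t := by
    intro j
    induction j with
    | zero => simp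
    | succ j ih =>
      have := h j
      push_cast
      linarith
  obtain ⟨n, hn⟩ := exists_nat_gt (s 0 / t)
  have h2 := h1 n
  have h3 := hs n
  rw [div_lt_iff₀ ht] at hn
  linarith

/-- The first elementary argument. -/
theorem no_seq_G {A B B' p a κ : ℝ} (hB : 0 ≤ B) (hB' : 0 ≤ B')
    (hp : 0 < p) (ha : 0 < a) (hκ : 0 < κ)
    (hcond : p < a → p * (a - p) < A * (a - p) + (B + B') * κ)
    {z s : ℕ → ℝ} (hz : ∀ j, 0 < z j) (hz1 : ∀ j, z j ≤ 1) (hs : ∀ j, 0 < s j)
    (h1 : ∀ j, z j * (A + B * s j + B' * s (j + 1)) = p * z (j + 1))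
    (h2 : ∀ j, s j * a = κ + p * s (j + 1)) : False := by
  by_cases hpa : a ≤ p
  · apply no_decrease (t := κ / p) (div_pos hκ hp) hs
    intro j
    have e1 := h2 j
    have e2 := hs j
    rw [← sub_nonneg]
    have e3 : 0 ≤ p * (s j - κ / p - s (j + 1)) := by
      have : p * (s j - κ / p - s (j + 1)) = p * s j - κ - p * s (j + 1) := by
        field_simp
      rw [this]
      nlinarith
    exact nonneg_of_mul_nonneg_right e3 hp
  · push Not at hpa
    have hap : 0 < a - p := by linarith
    set st := κ / (a - p) with hst
    have hst1 : st * (a - p) = κ := by rw [hst]; field_simp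
    have hge : ∀ j, st ≤ s j := by
      intro j
      by_contra hcon
      push Not at hcon
      -- geometric decrease below the fixed point
      have e1 : ∀ n, s (j + n) - st ≤ (a / p) ^ n * (s j - st) := by
        intro n
        induction n with
        | zero => simp
        | succ n ih =>
          have e2 := h2 (j + n)
          have e3 : p * (s (j + n + 1) - st) = a * (s (j + n) - st) := by
            have : κ = st * a - st * p := by rw [← hst1]; ring
            linarith
          have e4 : s (j + n + 1) - st = a / p * (s (j + n) - st) := by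
            field_simp
            linarith
          have e5 : j + (n + 1) = j + n + 1 := by ring
          rw [e5, e4, pow_succ]
          have e6 : 0 < a / p := div_pos ha hp
          calc a / p * (s (j + n) - st) ≤ a / p * ((a / p) ^ n * (s j - st)) :=
                mul_le_mul_of_nonneg_left ih e6.le
            _ = _ := by ring
      have hap1 : 1 < a / p := by rw [lt_div_iff₀ hp]; linarith
      have hd : 0 < st - s j := by linarith
      obtain ⟨n, hn⟩ := pow_unbounded_of_one_lt (st / (st - s j)) hap1
      have e7 := e1 n
      have e8 := hs (j + n)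
      rw [div_lt_iff₀ hd] at hn
      nlinarith
    have hth : 1 < (A + (B + B') * st) / p := by
      rw [lt_div_iff₀ hp, one_mul]
      have e1 := hcond hpa
      rw [← hst1] at e1
      have e2 : p * (a - p) < (A + (B + B') * st) * (a - p) := by linarith
      exact lt_of_mul_lt_mul_right e2 hap.le
    apply no_growth hth hz hz1
    intro j
    have e1 := h1 j
    have e2 := hge j
    have e3 := hge (j + 1)
    have e4 := hz j
    rw [div_mul_eq_mul_div, div_le_iff₀ hp]
    have e5 : A + (B + B') * st ≤ A + B * s j + B' * s (j + 1) := by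
      have := mul_le_mul_of_nonneg_left e2 hB
      have := mul_le_mul_of_nonneg_left e3 hB'
      linarith
    have e6 := mul_le_mul_of_nonneg_left e5 e4.le
    linarith

end Pool.Agent.RatRec
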