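import Pool.Agent.Lib_helper86.RatW.Pin
import Pool.Agent.Lib_helper53.Rat.Lyness

/-!
The cases `(4,18)`, `(4,24)`, `(4,26)` of problem MP_88c4fb_an: the general part.
-/

set_option autoImplicit false

namespace Pool.Agent.RatRec

/-- Two consecutive terms are not both much smaller than the inverse of the largest term. -/
theorem pair_lower {β B1 B3 B4 : ℝ} (hβ : 0 < β) (h1 : 0 ≤ B1) (h3 : 0 ≤ B3) (h4 : 0 < B4)
    {x : ℕ → ℝ} (hx : ∀ n, 0 < x n)
    (heq : ∀ n, x (n + 4) * (B1 * x (n + 3) + B3 * x (n + 1) + B4 * x n) = β * x (n + 2)) :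
    ∃ ε0 : ℝ, 0 < ε0 ∧ ∀ (N : ℕ) (R : ℝ), 1 ≤ R → (∀ j, j < N → x j ≤ R) → ∀ n, n + 1 ≤ N →
      ε0 / R ≤ x n ∨ ε0 / R ≤ x (n + 1) := by
  obtain ⟨i0, _, hmin⟩ := Finset.exists_min_image (Finset.range 8) x ⟨0, by simp⟩
  set σ := B1 + B3 + B4 with hσ
  have hσ0 : 0 < σ := by positivity
  set ε0 := min (x i0) (min (β / (4 * σ)) (β ^ 2 / (4 * σ ^ 2))) with hε
  have hε0 : 0 < ε0 := by
    have := hx i0
    have h5 : 0 < β / (4 * σ) := by positivity
    have h6 : 0 < β ^ 2 / (4 * σ ^ 2) := by positivity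
    exact lt_min this (lt_min h5 h6)
  have e1 : ε0 ≤ x i0 := min_le_left _ _
  have e2 : ε0 * (4 * σ) ≤ β := by
    have : ε0 ≤ β / (4 * σ) := (min_le_right _ _).trans (min_le_left _ _)
    rwa [le_div_iff₀ (by positivity)] at this
  have e3 : ε0 * (4 * σ ^ 2) ≤ β ^ 2 := by
    have : ε0 ≤ β ^ 2 / (4 * σ ^ 2) := (min_le_right _ _).trans (min_le_right _ _)
    rwa [le_div_iff₀ (by positivity)] at this
  refine ⟨ε0, hε0, ?_⟩
  intro N R hR hbd n
  set ε := ε0 / R with hεR
  have hR0 : 0 < R := by linarith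
  have hεp : 0 < ε := div_pos hε0 hR0
  have hεle : ε ≤ ε0 := div_le_self hε0.le hR
  have hεmul : ε * R = ε0 := by rw [hεR]; field_simp
  induction n with
  | zero =>
    intro _
    left
    exact hεle.trans (e1.trans (hmin 0 (by simp)))
  | succ n ih =>
    intro hn
    by_cases hn8 : n + 1 < 8
    · left
      exact hεle.trans (e1.trans (hmin (n + 1) (by simpa using hn8)))
    by_contra hcon
    push Not at hcon
    obtain ⟨k, rfl⟩ : ∃ k, n = k + 4 := ⟨n - 4, by omega⟩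
    have c1 : x (k + 5) < ε := hcon.1
    have c2 : x (k + 6) < ε := hcon.2
    have c3 : ε ≤ x (k + 4) := by
      rcases ih (by omega) with h | h
      · exact h
      · exact absurd h (not_le.mpr c1)
    have E0 : x (k + 4) * (B1 * x (k + 3) + B3 * x (k + 1) + B4 * x k) = β * x (k + 2) := heq k
    have E1 : x (k + 5) * (B1 * x (k + 4) + B3 * x (k + 2) + B4 * x (k + 1)) = β * x (k + 3) :=
      heq (k + 1)
    have E2 : x (k + 6) * (B1 * x (k + 5) + B3 * x (k + 3) + B4 * x (k + 2)) = β * x (k + 4) :=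
      heq (k + 2)
    have p0 := hx k
    have p1 := hx (k + 1)
    have p2 := hx (k + 2)
    have p3 := hx (k + 3)
    have p4 := hx (k + 4)
    have p5 := hx (k + 5)
    have p6 := hx (k + 6)
    have r0 := hbd k (by omega)
    have r1 := hbd (k + 1) (by omega)
    have r2 := hbd (k + 2) (by omega)
    have r3 := hbd (k + 3) (by omega)
    have r4 := hbd (k + 4) (by omega)
    have r5 := hbd (k + 5) (by omega)
    have hB1 : B1 ≤ σ := by linarith
    have hB3 : B3 ≤ σ := by linarith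
    have hB4 : B4 ≤ σ := by linarith
    -- (a)
    have a0 : B1 * x (k + 4) + B3 * x (k + 2) + B4 * x (k + 1) ≤ σ * R := by
      have := mul_le_mul_of_nonneg_left r4 h1
      have := mul_le_mul_of_nonneg_left r2 h3
      have := mul_le_mul_of_nonneg_left r1 h4.le
      rw [hσ]; nlinarith
    have a1 : β * x (k + 3) ≤ ε0 * σ := by
      rw [← E1, ← hεmul]
      have q0 : 0 ≤ B1 * x (k + 4) + B3 * x (k + 2) + B4 * x (k + 1) := by positivity
      calc x (k + 5) * (B1 * x (k + 4) + B3 * x (k + 2) + B4 * x (k + 1))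
          ≤ ε * (σ * R) := mul_le_mul c1.le a0 q0 hεp.le
        _ = ε * R * σ := by ring
    have a2 : B3 * x (k + 3) ≤ β / 4 := by
      have q1 : β * (B3 * x (k + 3)) ≤ β * (β / 4) := by
        calc β * (B3 * x (k + 3)) = B3 * (β * x (k + 3)) := by ring
          _ ≤ σ * (ε0 * σ) := mul_le_mul hB3 a1 (by positivity) hσ0.le
          _ = (ε0 * (4 * σ ^ 2)) / 4 := by ring
          _ ≤ β ^ 2 / 4 := by linarith
          _ = β * (β / 4) := by ring
      exact le_of_mul_le_mul_left q1 hβ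
    have b1 : B1 * x (k + 5) ≤ β / 4 := by
      calc B1 * x (k + 5) ≤ σ * ε0 :=
            mul_le_mul hB1 (c1.le.trans hεle) p5.le hσ0.le
        _ ≤ β / 4 := by linarith
    have d1 : β * x (k + 4) ≤ ε * (β / 2 + B4 * x (k + 2)) := by
      rw [← E2]
      have q0 : 0 ≤ B1 * x (k + 5) + B3 * x (k + 3) + B4 * x (k + 2) := by positivity
      exact mul_le_mul c2.le (by linarith) q0 hεp.le
    have d2 : β / 2 ≤ B4 * x (k + 2) := by
      have q1 : ε * β ≤ ε * (β / 2 + B4 * x (k + 2)) := by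
        calc ε * β = β * ε := by ring
          _ ≤ β * x (k + 4) := mul_le_mul_of_nonneg_left c3 hβ.le
          _ ≤ _ := d1
      have := le_of_mul_le_mul_left q1 hεp
      linarith
    have d3 : β * x (k + 4) ≤ ε * (2 * (B4 * x (k + 2))) :=
      d1.trans (mul_le_mul_of_nonneg_left (by linarith) hεp.le)
    have f1 : β * x (k + 2) ≤ x (k + 4) * (σ * R) := by
      rw [← E0]
      apply mul_le_mul_of_nonneg_left _ p4.le
      have := mul_le_mul_of_nonneg_left r3 h1
      have := mul_le_mul_of_nonneg_left r1 h3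
      have := mul_le_mul_of_nonneg_left r0 h4.le
      rw [hσ]; nlinarith
    have g1 : β ^ 2 * x (k + 2) ≤ (β ^ 2 / 2) * x (k + 2) := by
      calc β ^ 2 * x (k + 2) = β * (β * x (k + 2)) := by ring
        _ ≤ β * (x (k + 4) * (σ * R)) := mul_le_mul_of_nonneg_left f1 hβ.le
        _ = (β * x (k + 4)) * (σ * R) := by ring
        _ ≤ (ε * (2 * (B4 * x (k + 2)))) * (σ * R) :=
            mul_le_mul_of_nonneg_right d3 (by positivity)
        _ = (2 * σ * x (k + 2) * (ε * R)) * B4 := by ring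
        _ ≤ (2 * σ * x (k + 2) * (ε * R)) * σ :=
            mul_le_mul_of_nonneg_left hB4 (by positivity)
        _ = (ε0 * (4 * σ ^ 2)) * x (k + 2) / 2 := by rw [hεmul]; ring
        _ ≤ β ^ 2 * x (k + 2) / 2 := by
            have := mul_le_mul_of_nonneg_right e3 p2.le
            linarith
        _ = (β ^ 2 / 2) * x (k + 2) := by ring
    have g2 := le_of_mul_le_mul_right g1 p2
    have : 0 < β ^ 2 := by positivity
    linarith

/-- The identity over twelve steps, at a record. -/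
theorem twelve {γ x0 x2 x4 x6 x8 x10 x12 E0 E2 E6 E8 : ℝ} (p2 : 0 < x2)
    (p4 : 0 < x4) (p6 : 0 < x6) (p8 : 0 < x8) (p10 : 0 < x10) (p12 : 0 < x12)
    (q0 : 0 ≤ E0) (q2 : 0 ≤ E2)
    (h0 : x0 * x4 * (1 + E0) = γ * x2) (h2 : x2 * x6 * (1 + E2) = γ * x4)
    (h6 : x6 * x10 * (1 + E6) = γ * x8) (h8 : x8 * x12 * (1 + E8) = γ * x10)
    (hrec : x12 ≤ x0) : (1 + E0) * (1 + E2) ≤ (1 + E6) * (1 + E8) := by
  have f1 : x0 * x6 * ((1 + E0) * (1 + E2)) = γ ^ 2 := by
    have : (x2 * x4) * (x0 * x6 * ((1 + E0) * (1 + E2))) = (x2 * x4) * γ ^ 2 := by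
      calc (x2 * x4) * (x0 * x6 * ((1 + E0) * (1 + E2)))
          = (x0 * x4 * (1 + E0)) * (x2 * x6 * (1 + E2)) := by ring
        _ = (γ * x2) * (γ * x4) := by rw [h0, h2]
        _ = (x2 * x4) * γ ^ 2 := by ring
    exact mul_left_cancel₀ (mul_pos p2 p4).ne' this
  have f2 : x6 * x12 * ((1 + E6) * (1 + E8)) = γ ^ 2 := by
    have : (x8 * x10) * (x6 * x12 * ((1 + E6) * (1 + E8))) = (x8 * x10) * γ ^ 2 := by
      calc (x8 * x10) * (x6 * x12 * ((1 + E6) * (1 + E8)))
          = (x6 * x10 * (1 + E6)) * (x8 * x12 * (1 + E8)) := by ring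
        _ = (γ * x8) * (γ * x10) := by rw [h6, h8]
        _ = (x8 * x10) * γ ^ 2 := by ring
    exact mul_left_cancel₀ (mul_pos p8 p10).ne' this
  have f3 : x0 * ((1 + E0) * (1 + E2)) = x12 * ((1 + E6) * (1 + E8)) := by
    have : x6 * (x0 * ((1 + E0) * (1 + E2))) = x6 * (x12 * ((1 + E6) * (1 + E8))) := by
      linear_combination f1 - f2
    exact mul_left_cancel₀ p6.ne' this
  have f4 : x12 * ((1 + E0) * (1 + E2)) ≤ x12 * ((1 + E6) * (1 + E8)) := by
    rw [← f3]
    exact mul_le_mul_of_nonneg_right hrec (by positivity)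
  exact le_of_mul_le_mul_left f4 p12

/-- The contradiction. -/
theorem twelve_contra {E E0 E2 E6 E8 η K : ℝ} (hE : 0 < E) (hEE : E = E0 ∨ E = E2)
    (q0 : 0 ≤ E0) (q2 : 0 ≤ E2) (q6 : 0 ≤ E6) (q8 : 0 ≤ E8) (hη : 0 ≤ η)
    (h6 : E6 ≤ η * E) (h8 : E8 ≤ η * E) (hK : E ≤ K) (hsmall : 2 * η + η ^ 2 * K < 1)
    (h : (1 + E0) * (1 + E2) ≤ (1 + E6) * (1 + E8)) : False := by
  have f1 : 1 + E ≤ (1 + E0) * (1 + E2) := by
    rcases hEE with rfl | rfl <;> nlinarith [mul_nonneg q0 q2]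
  have f2 : (1 + E6) * (1 + E8) ≤ (1 + η * E) * (1 + η * E) :=
    mul_le_mul (by linarith) (by linarith) (by linarith)
      (by have := mul_nonneg hη hE.le; linarith)
  have f3 : (1 + η * E) * (1 + η * E) = 1 + E * (2 * η + η ^ 2 * E) := by ring
  have f4 : 2 * η + η ^ 2 * E ≤ 2 * η + η ^ 2 * K := by
    have := mul_le_mul_of_nonneg_left hK (sq_nonneg η)
    linarith
  have f5 : E * (2 * η + η ^ 2 * E) < E * 1 := mul_lt_mul_of_pos_left (by linarith) hE
  linarith

/-- The form `∑ p.2 y_{p.1}`. -/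
def frm (l : List (ℕ × ℤ)) : List ℤ := l.foldr (fun p f => addAt p.2 p.1 f) []

theorem ev_frm (y : ℕ → ℝ) (l : List (ℕ × ℤ)) :
    ev y 0 (frm l) = (l.map fun p => (p.2 : ℝ) * y p.1).sum := by
  induction l with
  | nil => simp [frm, ev]
  | cons p l ih =>
    have : frm (p :: l) = addAt p.2 p.1 (frm l) := rfl
    rw [this, ev_addAt, ih]
    simp

/-- The members `1`, `3` of the mask. -/
def ratI (m : ℕ) : List ℕ := [1, 3].filter (fun i => m.testBit i)

/-- The forms of the alternative `(s, i0)`. -/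
def altForms (I : List ℕ) (s i0 : ℕ) : List (List ℤ) :=
  ([6, 8].flatMap fun d => I.map fun i =>
    frm [(d + i, 2), (d + 4, -2), (s + i0, -2), (s + 4, 2), (0, 1)]) ++
    I.map (fun i => frm [(s + i, 1), (s + 4, -1)])

/-- The alternatives. -/
def alts4 (m : ℕ) : List (List (List ℤ)) :=
  [[1]] :: ([0, 2].flatMap fun s => (ratI m).map fun i0 => altForms (ratI m) s i0)

/-- Data of a certificate: indices, packed alternatives, tree. -/
structure C4 where
  lT : List ℕ
  pa : List (List (ℕ × ℕ))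
  t : BTree

/-- The simple part of the check of a certificate. -/
def ok41 (m k : ℕ) (c : C4) : Bool :=
  Nat.blt 0 k && Nat.blt m 32 && decide (c.lT = bits m) &&
    decide (c.pa = (alts4 m).map packAlt) &&
    (alts4 m).all (fun a => a.all (fun f => Nat.ble (absSum f) 65536))

/-- The check of a certificate. -/
noncomputable def ok4 (m W k : ℕ) (c : C4) : Bool :=
  bn (ok41 m k c) (chkB ⟨4, m, [2], c.lT, W, MM, c.pa, k⟩ c.t 0 0 none)

theorem apply_ok4 {m W k : ℕ} {c4 : C4} (hok : ok4 m W k c4 = true) {b B : Fin 5 → ℝ}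
    (hb : SupportedOn b (fs 4)) (hB : SupportedOn B (fs m)) (hT : bits m ≠ []) {x : ℕ → ℝ}
    (hx : PosSolution b B x) {N : ℕ} (hN : W ≤ N + 1) {c : ℝ} (hc : wc b B ≤ c)
    (hrec : ∀ j, j ≤ N → x j ≤ x N) (hk : - back x N k - back x N 0 ≤ c) :
    back x N 0 ≤ MM * c ∨ ∃ s, (s = 0 ∨ s = 2) ∧ ∃ i0 ∈ ratI m,
      (∀ d, (d = 6 ∨ d = 8) → ∀ i ∈ ratI m,
        2 * (back x N (d + i) - back x N (d + 4)) -
          2 * (back x N (s + i0) - back x N (s + 4)) + back x N 0 ≤ MM * c) ∧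
      ∀ i ∈ ratI m, back x N (s + i) - back x N (s + 4) ≤ MM * c := by
  have hw := (window_back hb hB hx hN).mono hc
  have hwc := wc_nonneg b B
  have hc0 : 0 ≤ c := hwc.trans hc
  have hr : ∀ t, t ≤ W - 1 → back x N t ≤ back x N 0 + c := by
    intro t _
    have h1 : x (N - t) ≤ x N := hrec _ (Nat.sub_le _ _)
    have h2 := Real.log_le_log (hx.pos _) h1
    simp only [back, Nat.sub_zero]
    linarith
  have hok' : bn (ok41 m k c4) (chkB ⟨4, m, [2], c4.lT, W, MM, c4.pa, k⟩ c4.t 0 0 none) = true :=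
    hok
  rw [bn_iff] at hok'
  obtain ⟨h1, hchk⟩ := hok'
  simp only [ok41, Bool.and_eq_true, Nat.blt_eq, decide_eq_true_eq, List.all_eq_true,
    Nat.ble_eq] at h1
  obtain ⟨⟨⟨⟨hk0, hmT⟩, hlT⟩, hpa⟩, habs⟩ := h1
  have hB' : BHolds ⟨4, m, [2], c4.lT, W, MM, c4.pa, k⟩ c (back x N) :=
    bHolds_of_window (D := ⟨4, m, [2], c4.lT, W, MM, c4.pa, k⟩) (by norm_num) hmT hc0 hw hr
      (fun _ => by
        show 0 ≤ back x N k + back x N 0 + c
        linarith)
  have hF : List.Forall₂ (List.Forall₂ (FormRep (back x N))) (alts4 m) c4.pa := by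
    have := forall₂_packAlts (back x N) (alts4 m) habs
    rw [← hpa] at this
    exact this
  have hl4 : [2] = bits 4 := by decide
  have hn4 : bits 4 ≠ [] := by decide
  obtain ⟨alt, halt, hall⟩ := (chkB_sound hB' hl4 hlT (by norm_num) hmT hn4 hT hF
    c4.t 0 0 none hchk (by
      intro t ht
      rw [bt_iff] at ht
      simp at ht)).1 rfl
  have hMM : (((⟨4, m, [2], c4.lT, W, MM, c4.pa, k⟩ : BData).M : ℕ) : ℝ) = (MM : ℝ) := rfl
  rw [hMM] at hall
  rcases List.mem_cons.mp halt with rfl | halt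
  · left
    have := hall [1] (by simp)
    simpa [ev] using this
  · right
    rw [List.mem_flatMap] at halt
    obtain ⟨s, hs, halt⟩ := halt
    rw [List.mem_map] at halt
    obtain ⟨i0, hi0, rfl⟩ := halt
    refine ⟨s, by simpa using hs, i0, hi0, ?_, ?_⟩
    · intro d hd i hi
      have h1 := hall (frm [(d + i, 2), (d + 4, -2), (s + i0, -2), (s + 4, 2), (0, 1)]) (by
        unfold altForms
        rw [List.mem_append]
        left
        rw [List.mem_flatMap]
        refine ⟨d, by simpa using hd, ?_⟩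
        rw [List.mem_map]
        exact ⟨i, hi, rfl⟩)
      rw [ev_frm] at h1
      simp only [List.map_cons, List.map_nil, List.sum_cons, List.sum_nil] at h1
      push_cast at h1
      linarith
    · intro i hi
      have h1 := hall (frm [(s + i, 1), (s + 4, -1)]) (by
        unfold altForms
        rw [List.mem_append]
        right
        rw [List.mem_map]
        exact ⟨i, hi, rfl⟩)
      rw [ev_frm] at h1
      simp only [List.map_cons, List.map_nil, List.sum_cons, List.sum_nil] at h1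
      push_cast at h1
      linarith

/-- Large records of an unbounded sequence. -/
theorem exists_record {x : ℕ → ℝ} (h : ¬ ∃ M, ∀ n, x n ≤ M) (K : ℝ) (W : ℕ) :
    ∃ N, W ≤ N ∧ K < x N ∧ ∀ j, j ≤ N → x j ≤ x N := by
  classical
  push Not at h
  obtain ⟨M, hM⟩ : ∃ M, ∀ n, n < W → x n ≤ M := by
    rcases Nat.eq_zero_or_pos W with rfl | hW
    · exact ⟨0, fun n hn => by omega⟩
    · obtain ⟨i, _, hi⟩ := Finset.exists_max_image (Finset.range W) x ⟨0, by simpa using hW⟩
      exact ⟨x i, fun n hn => hi n (by simpa using hn)⟩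
  have hex : ∃ n, max K M < x n := h (max K M)
  refine ⟨Nat.find hex, ?_, ?_, ?_⟩
  · by_contra hlt
    push Not at hlt
    have h1 := hM _ hlt
    have h2 := Nat.find_spec hex
    have h3 := le_max_right K M
    linarith
  · exact lt_of_le_of_lt (le_max_left _ _) (Nat.find_spec hex)
  · intro j hj
    rcases Nat.lt_or_eq_of_le hj with hj | hj
    · have h1 := Nat.find_min hex hj
      push Not at h1
      exact h1.trans (Nat.find_spec hex).le
    · rw [hj]

/-- The coefficients of the three cases. -/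
structure Coef4 (m : ℕ) (b B : Fin 5 → ℝ) : Prop where
  b0 : b 0 = 0
  b1 : b 1 = 0
  b2 : 0 < b 2
  b3 : b 3 = 0
  b4 : b 4 = 0
  B0 : B 0 = 0
  B1 : 0 ≤ B 1
  B2 : B 2 = 0
  B3 : 0 ≤ B 3
  B4 : 0 < B 4
  m1 : (1 ∈ ratI m ∧ 0 < B 1) ∨ (1 ∉ ratI m ∧ B 1 = 0)
  m3 : (3 ∈ ratI m ∧ 0 < B 3) ∨ (3 ∉ ratI m ∧ B 3 = 0)

theorem Coef4.lin_num {m : ℕ} {b B : Fin 5 → ℝ} (h : Coef4 m b B) (x : ℕ → ℝ) (n : ℕ) :
    lin b x n = b 2 * x (n + 2) := by
  simp [lin, h.b0, h.b1, h.b3, h.b4]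

theorem Coef4.lin_den {m : ℕ} {b B : Fin 5 → ℝ} (h : Coef4 m b B) (x : ℕ → ℝ) (n : ℕ) :
    lin B x n = B 1 * x (n + 3) + B 3 * x (n + 1) + B 4 * x n := by
  simp [lin, h.B0, h.B2]

theorem mem_ratI {m i : ℕ} (h : i ∈ ratI m) : i = 1 ∨ i = 3 := by
  unfold ratI at h
  have := List.mem_of_mem_filter h
  simpa using this

theorem final4 {m : ℕ} {b B : Fin 5 → ℝ} (hc : Coef4 m b B) {x : ℕ → ℝ} (hx : ∀ n, 0 < x n)
    (heq : ∀ n, x (n + 4) * (B 1 * x (n + 3) + B 3 * x (n + 1) + B 4 * x n) = b 2 * x (n + 2))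
    {N : ℕ} (hN : 12 ≤ N) (hrec : ∀ j, j ≤ N → x j ≤ x N) {C : ℝ} {s i0 : ℕ}
    (hs : s = 0 ∨ s = 2) (hi0 : i0 ∈ ratI m)
    (H1 : ∀ d, (d = 6 ∨ d = 8) → ∀ i ∈ ratI m,
        2 * (back x N (d + i) - back x N (d + 4)) -
          2 * (back x N (s + i0) - back x N (s + 4)) + back x N 0 ≤ C)
    (H2 : ∀ i ∈ ratI m, back x N (s + i) - back x N (s + 4) ≤ C)
    (hbig : 2 * Real.log (4 * (1 + (B 1 + B 3) / B 4 * Real.exp C) *
      ((B 1 + B 3) * ((B 1)⁻¹ + (B 3)⁻¹) + 1) * Real.exp (C / 2)) ≤ back x N 0) : False := by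
  have hB1 := hc.B1
  have hB3 := hc.B3
  have hB4 := hc.B4
  set P : ℝ := (B 1 + B 3) * ((B 1)⁻¹ + (B 3)⁻¹) + 1 with hP
  set K : ℝ := (B 1 + B 3) / B 4 * Real.exp C with hK
  have hK0 : 0 ≤ K := by positivity
  have hP0 : 0 < P := by
    have : 0 ≤ (B 1 + B 3) * ((B 1)⁻¹ + (B 3)⁻¹) := by positivity
    linarith
  set h : ℝ := Real.exp ((C - back x N 0) / 2) with hh
  have hh0 : 0 < h := Real.exp_pos _
  set Q : ℝ := 4 * (1 + K) * P * Real.exp (C / 2) with hQ
  have hQ0 : 0 < Q := by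
    have := Real.exp_pos (C / 2)
    positivity
  -- smallness
  have hη : P * h * (4 * (1 + K)) ≤ 1 := by
    have e1 : Real.exp (- (back x N 0) / 2) ≤ Q⁻¹ := by
      have : - (back x N 0) / 2 ≤ - Real.log Q := by linarith
      calc Real.exp (- (back x N 0) / 2) ≤ Real.exp (- Real.log Q) := Real.exp_le_exp.mpr this
        _ = Q⁻¹ := by rw [Real.exp_neg, Real.exp_log hQ0]
    have e2 : h = Real.exp (C / 2) * Real.exp (- (back x N 0) / 2) := by
      rw [hh, ← Real.exp_add]; congr 1; ring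
    calc P * h * (4 * (1 + K)) = Q * Real.exp (- (back x N 0) / 2) := by rw [e2, hQ]; ring
      _ ≤ Q * Q⁻¹ := mul_le_mul_of_nonneg_left e1 hQ0.le
      _ = 1 := mul_inv_cancel₀ hQ0.ne'
  set E : ℕ → ℝ := fun d =>
    (B 1 * x (N - (d + 1)) + B 3 * x (N - (d + 3))) / (B 4 * x (N - (d + 4))) with hE
  have hE0 : ∀ d, 0 ≤ E d := by
    intro d
    have := (hx (N - (d + 1))).le
    have := (hx (N - (d + 3))).le
    have := (hx (N - (d + 4))).le
    simp only [hE]
    positivity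
  have hEeq : ∀ d, d + 4 ≤ N →
      x (N - d) * x (N - (d + 4)) * (1 + E d) = (b 2 / B 4) * x (N - (d + 2)) := by
    intro d hd
    have h1 := heq (N - (d + 4))
    have i1 : N - (d + 4) + 4 = N - d := by omega
    have i2 : N - (d + 4) + 3 = N - (d + 1) := by omega
    have i3 : N - (d + 4) + 1 = N - (d + 3) := by omega
    have i4 : N - (d + 4) + 2 = N - (d + 2) := by omega
    rw [i1, i2, i3, i4] at h1
    have p4 := hx (N - (d + 4))
    simp only [hE]
    field_simp
    linear_combination h1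
  -- the ratio of the alternative
  set ρ : ℝ := x (N - (s + i0)) / x (N - (s + 4)) with hρ
  have hρ0 : 0 < ρ := div_pos (hx _) (hx _)
  have hlogρ : Real.log ρ = back x N (s + i0) - back x N (s + 4) := by
    rw [hρ, Real.log_div (hx _).ne' (hx _).ne']
    rfl
  -- ratio bounds
  have hr : ∀ d, (d = 6 ∨ d = 8) → ∀ i ∈ ratI m,
      x (N - (d + i)) ≤ h * ρ * x (N - (d + 4)) := by
    intro d hd i hi
    have h1 := H1 d hd i hi
    rw [← hlogρ] at h1
    have h2 : Real.log (x (N - (d + i))) ≤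
        (C - back x N 0) / 2 + Real.log ρ + Real.log (x (N - (d + 4))) := by
      have e1 : back x N (d + i) = Real.log (x (N - (d + i))) := rfl
      have e2 : back x N (d + 4) = Real.log (x (N - (d + 4))) := rfl
      rw [e1, e2] at h1
      linarith
    calc x (N - (d + i)) = Real.exp (Real.log (x (N - (d + i)))) := (Real.exp_log (hx _)).symm
      _ ≤ Real.exp ((C - back x N 0) / 2 + Real.log ρ + Real.log (x (N - (d + 4)))) :=
          Real.exp_le_exp.mpr h2
      _ = h * ρ * x (N - (d + 4)) := by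
          rw [Real.exp_add, Real.exp_add, Real.exp_log hρ0, Real.exp_log (hx _)]
  have hr2 : ∀ i ∈ ratI m, x (N - (s + i)) ≤ Real.exp C * x (N - (s + 4)) := by
    intro i hi
    have h1 := H2 i hi
    have h2 : Real.log (x (N - (s + i))) ≤ C + Real.log (x (N - (s + 4))) := by
      have e1 : back x N (s + i) = Real.log (x (N - (s + i))) := rfl
      have e2 : back x N (s + 4) = Real.log (x (N - (s + 4))) := rfl
      rw [e1, e2] at h1
      linarith
    calc x (N - (s + i)) = Real.exp (Real.log (x (N - (s + i)))) := (Real.exp_log (hx _)).symm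
      _ ≤ Real.exp (C + Real.log (x (N - (s + 4)))) := Real.exp_le_exp.mpr h2
      _ = _ := by rw [Real.exp_add, Real.exp_log (hx _)]
  -- bound of `E d` by `ρ`
  have hEρ : ∀ d, (d = 6 ∨ d = 8) → E d ≤ (B 1 + B 3) * h * ρ / B 4 := by
    intro d hd
    have p4 := hx (N - (d + 4))
    have t1 : B 1 * x (N - (d + 1)) ≤ B 1 * (h * ρ * x (N - (d + 4))) := by
      rcases hc.m1 with ⟨h1, _⟩ | ⟨_, h1⟩
      · exact mul_le_mul_of_nonneg_left (hr d hd 1 h1) hB1
      · rw [h1]; simp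
    have t3 : B 3 * x (N - (d + 3)) ≤ B 3 * (h * ρ * x (N - (d + 4))) := by
      rcases hc.m3 with ⟨h1, _⟩ | ⟨_, h1⟩
      · exact mul_le_mul_of_nonneg_left (hr d hd 3 h1) hB3
      · rw [h1]; simp
    simp only [hE]
    rw [div_le_div_iff₀ (mul_pos hB4 p4) hB4]
    have t5 : B 1 * x (N - (d + 1)) + B 3 * x (N - (d + 3)) ≤
        (B 1 + B 3) * h * ρ * x (N - (d + 4)) := by
      calc B 1 * x (N - (d + 1)) + B 3 * x (N - (d + 3))
          ≤ B 1 * (h * ρ * x (N - (d + 4))) + B 3 * (h * ρ * x (N - (d + 4))) := add_le_add t1 t3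
        _ = _ := by ring
    calc (B 1 * x (N - (d + 1)) + B 3 * x (N - (d + 3))) * B 4
        ≤ ((B 1 + B 3) * h * ρ * x (N - (d + 4))) * B 4 := mul_le_mul_of_nonneg_right t5 hB4.le
      _ = (B 1 + B 3) * h * ρ * (B 4 * x (N - (d + 4))) := by ring
  have hEK : E s ≤ K := by
    have p4 := hx (N - (s + 4))
    have t1 : B 1 * x (N - (s + 1)) ≤ B 1 * (Real.exp C * x (N - (s + 4))) := by
      rcases hc.m1 with ⟨h1, _⟩ | ⟨_, h1⟩
      · exact mul_le_mul_of_nonneg_left (hr2 1 h1) hB1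
      · rw [h1]; simp
    have t3 : B 3 * x (N - (s + 3)) ≤ B 3 * (Real.exp C * x (N - (s + 4))) := by
      rcases hc.m3 with ⟨h1, _⟩ | ⟨_, h1⟩
      · exact mul_le_mul_of_nonneg_left (hr2 3 h1) hB3
      · rw [h1]; simp
    simp only [hE]
    rw [div_le_iff₀ (mul_pos hB4 p4)]
    calc B 1 * x (N - (s + 1)) + B 3 * x (N - (s + 3))
        ≤ B 1 * (Real.exp C * x (N - (s + 4))) + B 3 * (Real.exp C * x (N - (s + 4))) :=
          add_le_add t1 t3
      _ = K * (B 4 * x (N - (s + 4))) := by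
          rw [hK]
          field_simp
  -- lower bound of `E s`
  obtain ⟨q, hq0, hqP, hqE⟩ : ∃ q : ℝ, 0 < q ∧ (B 1 + B 3) * q⁻¹ ≤ P ∧ q * ρ / B 4 ≤ E s := by
    have p4 := hx (N - (s + 4))
    have p1 := (hx (N - (s + 1))).le
    have p3 := (hx (N - (s + 3))).le
    have u1 : 0 ≤ (B 1)⁻¹ := inv_nonneg.mpr hB1
    have u3 : 0 ≤ (B 3)⁻¹ := inv_nonneg.mpr hB3
    have u : 0 ≤ B 1 + B 3 := by linarith
    rcases mem_ratI hi0 with rfl | rfl
    · have hp : 0 < B 1 := by
        rcases hc.m1 with ⟨_, h1⟩ | ⟨h1, _⟩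
        · exact h1
        · exact absurd hi0 h1
      refine ⟨B 1, hp, ?_, ?_⟩
      · have := mul_nonneg u u3
        rw [hP]
        nlinarith
      · simp only [hE, hρ]
        rw [div_le_div_iff₀ hB4 (mul_pos hB4 p4)]
        have := mul_nonneg hB3 p3
        have e : B 1 * (x (N - (s + 1)) / x (N - (s + 4))) * (B 4 * x (N - (s + 4))) =
            B 1 * x (N - (s + 1)) * B 4 := by
          field_simp
        rw [e]
        exact mul_le_mul_of_nonneg_right (by linarith) hB4.le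
    · have hp : 0 < B 3 := by
        rcases hc.m3 with ⟨_, h1⟩ | ⟨h1, _⟩
        · exact h1
        · exact absurd hi0 h1
      refine ⟨B 3, hp, ?_, ?_⟩
      · have := mul_nonneg u u1
        rw [hP]
        nlinarith
      · simp only [hE, hρ]
        rw [div_le_div_iff₀ hB4 (mul_pos hB4 p4)]
        have := mul_nonneg hB1 p1
        have e : B 3 * (x (N - (s + 3)) / x (N - (s + 4))) * (B 4 * x (N - (s + 4))) =
            B 3 * x (N - (s + 3)) * B 4 := by
          field_simp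
        rw [e]
        exact mul_le_mul_of_nonneg_right (by linarith) hB4.le
  have hEs : 0 < E s := lt_of_lt_of_le (by positivity) hqE
  have hEd : ∀ d, (d = 6 ∨ d = 8) → E d ≤ P * h * E s := by
    intro d hd
    have u : 0 ≤ B 1 + B 3 := by linarith
    calc E d ≤ (B 1 + B 3) * h * ρ / B 4 := hEρ d hd
      _ = ((B 1 + B 3) * q⁻¹) * h * (q * ρ / B 4) := by field_simp
      _ ≤ P * h * (q * ρ / B 4) := by
          apply mul_le_mul_of_nonneg_right _ (by positivity)
          exact mul_le_mul_of_nonneg_right hqP hh0.le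
      _ ≤ P * h * E s := mul_le_mul_of_nonneg_left hqE (by positivity)
  have e0 := hEeq 0 (by omega)
  have e2 := hEeq 2 (by omega)
  have e6 := hEeq 6 (by omega)
  have e8 := hEeq 8 (by omega)
  simp only [Nat.sub_zero, Nat.zero_add, Nat.reduceAdd] at e0 e2 e6 e8
  have hmain := twelve (hx _) (hx _) (hx _) (hx _) (hx _) (hx _) (hE0 0) (hE0 2) e0 e2 e6 e8
    (hrec (N - 12) (Nat.sub_le _ _))
  refine twelve_contra (E := E s) (η := P * h) (K := K) hEs ?_ (hE0 0) (hE0 2) (hE0 6) (hE0 8)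
    (by positivity) (hEd 6 (Or.inl rfl)) (hEd 8 (Or.inr rfl)) hEK ?_ hmain
  · rcases hs with rfl | rfl
    · exact Or.inl rfl
    · exact Or.inr rfl
  · have v0 : 0 < P * h := by positivity
    have v3 : 0 ≤ P * h * K := mul_nonneg v0.le hK0
    have v4 : P * h * (4 * (1 + K)) = 4 * (P * h) + 4 * (P * h * K) := by ring
    rw [v4] at hη
    have v1 : P * h ≤ 1 / 4 := by linarith
    have v2 : P * h * K ≤ 1 / 4 := by linarith
    have v5 : (P * h) ^ 2 * K = (P * h) * (P * h * K) := by ring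
    rw [v5]
    have v6 : (P * h) * (P * h * K) ≤ 1 / 4 * (1 / 4) :=
      mul_le_mul v1 v2 v3 (by norm_num)
    linarith

end Pool.Agent.RatRec
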