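import Pool.Agent.Lib_helper86.RatW.Pin

/-!
Limit solutions: if the records of positive solutions are not bounded, then there is a positive
solution, infinite to the left, of the recurrence reduced to its dominant terms.
-/

set_option autoImplicit false

namespace Pool.Agent.RatRec

open Filter Topology

/-- The exponent of the argument `k` at the backward time `d`. -/
def vv (v : ℕ → ℤ) (d : ℕ) (k : Fin 5) : ℤ := if k = 0 then 0 else v (d + k)

/-- The value of the argument `k` at the backward time `d`. -/
def uu (u : ℕ → ℝ) (d : ℕ) (k : Fin 5) : ℝ := if k = 0 then 1 else u (d + k)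

/-- A limit solution for the exponents `v`. -/
structure LimSol (kap : ℤ) (v : ℕ → ℤ) (b B : Fin 5 → ℝ) (S T : Finset (Fin 5)) (u : ℕ → ℝ) :
    Prop where
  pos : ∀ i, 0 < u i
  le_one : ∀ i, v i = kap → u i ≤ 1
  eq : ∀ (d : ℕ) (e : ℤ), (∀ k ∈ T, v d + vv v d k ≤ e) → (∀ k ∈ S, vv v d k ≤ e) →
    ∑ k, (if v d + vv v d k = e then B k * (u d * uu u d k) else 0) =
      ∑ k, if vv v d k = e then b k * uu u d k else 0

theorem LimSol.shift {kap : ℤ} {v : ℕ → ℤ} {b B : Fin 5 → ℝ} {S T : Finset (Fin 5)}
    {u : ℕ → ℝ} (h : LimSol kap v b B S T u) (a : ℕ) :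
    LimSol kap (fun i => v (i + a)) b B S T (fun i => u (i + a)) := by
  have e1 : ∀ d k, vv (fun i => v (i + a)) d k = vv v (d + a) k := by
    intro d k
    simp only [vv]
    split_ifs
    · rfl
    · congr 1; omega
  have e2 : ∀ d k, uu (fun i => u (i + a)) d k = uu u (d + a) k := by
    intro d k
    simp only [uu]
    split_ifs
    · rfl
    · congr 1; omega
  refine ⟨fun i => h.pos _, fun i hi => h.le_one _ hi, ?_⟩
  intro d e hT hS
  simp only [e1] at hT hS
  have := h.eq (d + a) e hT hS
  simp only [e1, e2]
  exact this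

theorem phase_unique {D : PinData} (hD : D.ok = true) {s s' q q' : ℕ} (hs : s ∈ D.phases)
    (hs' : s' ∈ D.phases) {y : ℕ → ℝ} {C C' : ℝ} (h : Pinned D s q y C)
    (h' : Pinned D s' q' y C') (hq : D.ov ≤ q) (hq' : D.ov ≤ q') (hy : C + C' < y 0) :
    s = s' := by
  apply ok_distinct hD hs hs'
  intro t _ ht2
  by_contra hne
  have e1 := h t (by omega)
  have e2 := h' t (by omega)
  have e4 : (1 : ℝ) ≤ |(D.vf (t + s) : ℝ) - (D.vf (t + s') : ℝ)| := by
    have : (1 : ℤ) ≤ |D.vf (t + s) - D.vf (t + s')| := by
      apply Int.one_le_abs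
      exact sub_ne_zero.mpr hne
    exact_mod_cast this
  have e5 : |((D.vf (t + s) : ℝ) - (D.vf (t + s') : ℝ)) * y 0| ≤ C + C' := by
    have : ((D.vf (t + s) : ℝ) - (D.vf (t + s') : ℝ)) * y 0 =
        ((D.kap : ℝ) * y t - (D.vf (t + s') : ℝ) * y 0) -
        ((D.kap : ℝ) * y t - (D.vf (t + s) : ℝ) * y 0) := by ring
    rw [this]
    refine (abs_sub _ _).trans ?_
    linarith
  rw [abs_mul] at e5
  have e6 : y 0 ≤ |y 0| := le_abs_self _
  have e7 : |y 0| ≤ |(D.vf (t + s) : ℝ) - (D.vf (t + s') : ℝ)| * |y 0| := by
    have := mul_le_mul_of_nonneg_right e4 (abs_nonneg (y 0))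
    linarith
  linarith

/-- The limit solution. -/
theorem exists_limSol {D : PinData} (hD : D.ok = true) {b B : Fin 5 → ℝ}
    (hb : SupportedOn b (fs D.S)) (hB : SupportedOn B (fs D.T)) (hnr : ¬ RecordBound b B) :
    ∃ u, LimSol D.kap D.vf b B (fs D.S) (fs D.T) u := by
  -- the sequence of solutions with large records
  have h0 : ∀ k : ℕ, ∃ x : ℕ → ℝ, PosSolution b B x ∧ ∃ N, k ≤ N ∧ (∀ m, m < N → x m ≤ x N) ∧
      Real.exp k < x N := by
    intro k
    by_contra hcon
    push Not at hcon
    exact hnr ⟨Real.exp k, k, fun x hx N hN hr => hcon x hx N hN hr⟩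
  choose x hx N hN hrec hbig using h0
  set U : Ultrafilter ℕ := hyperfilter ℕ with hU
  have hUle : (U : Filter ℕ) ≤ atTop := by
    rw [hU]; exact Nat.hyperfilter_le_atTop
  set y0 : ℕ → ℝ := fun k => Real.log (x k (N k)) with hy0
  have hy0k : ∀ k : ℕ, (k : ℝ) < y0 k := by
    intro k
    have := Real.log_lt_log (Real.exp_pos _) (hbig k)
    rwa [Real.log_exp] at this
  have hy0top : Tendsto y0 U atTop := by
    refine (tendsto_atTop_mono (fun k => (hy0k k).le) tendsto_natCast_atTop_atTop).mono_left hUle
  have hback0 : ∀ k, back (x k) (N k) 0 = y0 k := fun k => by simp [back, hy0]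
  have hquasi : ∀ k, Quasi (x k) (N k) 0 := by
    intro k m hm
    rw [add_zero]
    apply Real.log_le_log ((hx k).pos m)
    rcases Nat.lt_or_ge m (N k) with h | h
    · exact hrec k m h
    · have : m = N k := le_antisymm hm h
      rw [this]
  -- the phases
  have h1 : ∀ n : ℕ, ∃ C : ℝ, 0 ≤ C ∧ ∃ s ∈ D.phases,
      ∀ᶠ k in (U : Filter ℕ), Pinned D s (D.q + n * D.per) (back (x k) (N k)) C := by
    intro n
    obtain ⟨C, K, hC, hCK⟩ := pin_far hD hb hB n 0 le_rfl
    refine ⟨C, hC, ?_⟩
    have hev : ∀ᶠ k in (U : Filter ℕ), ∃ s ∈ D.phases,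
        Pinned D s (D.q + n * D.per) (back (x k) (N k)) C := by
      have e1 : ∀ᶠ k in (U : Filter ℕ), K < y0 k := hy0top.eventually_gt_atTop K
      have e2 : ∀ᶠ k in (U : Filter ℕ), D.W + n * D.per ≤ k :=
        hUle (eventually_ge_atTop _)
      filter_upwards [e1, e2] with k hk1 hk2
      exact hCK (x k) (hx k) (N k) (hk2.trans (hN k)) (hquasi k) hk1
    have hfin : (D.phases.toFinset : Set ℕ).Finite := Finset.finite_toSet _
    by_contra hcon
    push Not at hcon
    have hall : ∀ᶠ k in (U : Filter ℕ), ∀ s ∈ (D.phases.toFinset : Set ℕ),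
        ¬ Pinned D s (D.q + n * D.per) (back (x k) (N k)) C := by
      rw [eventually_all_finite hfin]
      intro s hs
      have hs' : s ∈ D.phases := by simpa using hs
      exact hcon s hs'
    obtain ⟨k, ⟨s, hs, hp⟩, hk2⟩ := (hev.and hall).exists
    exact hk2 s (by simpa using hs) hp
  choose C hC0 s hs hpin using h1
  have hqov := ok_q hD
  have hper := ok_per hD
  have hss : ∀ n, s n = s 0 := by
    intro n
    have e1 : ∀ᶠ k in (U : Filter ℕ), C n + C 0 < y0 k := hy0top.eventually_gt_atTop _
    obtain ⟨k, ⟨hk1, hk2⟩, hk3⟩ := (((hpin n).and (hpin 0)).and e1).exists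
    refine phase_unique hD (hs n) (hs 0) hk1 hk2 (by nlinarith) (by omega) ?_
    rw [hback0]; exact hk3
  set s0 := s 0 with hs0
  set κ : ℝ := (D.kap : ℝ) with hκ
  have hκ1 : (1 : ℝ) ≤ κ := by
    have : (1 : ℝ) ≤ (D.kap : ℝ) := by exact_mod_cast ok_kap hD
    exact this
  have hκ0 : 0 < κ := by linarith
  -- normalised values
  set w : ℕ → ℕ → ℝ := fun i k =>
    Real.exp (back (x k) (N k) i - (D.vf (i + s0) : ℝ) * y0 k / κ) with hw
  have hwmem : ∀ i, ∀ᶠ k in (U : Filter ℕ), w i k ∈ Set.Icc (Real.exp (-C i)) (Real.exp (C i)) := by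
    intro i
    filter_upwards [hpin i] with k hk
    rw [hss i] at hk
    have e1 := hk i (by nlinarith)
    rw [hback0] at e1
    have e2 : |back (x k) (N k) i - (D.vf (i + s0) : ℝ) * y0 k / κ| ≤ C i := by
      have e3 : κ * back (x k) (N k) i - (D.vf (i + s0) : ℝ) * y0 k =
          κ * (back (x k) (N k) i - (D.vf (i + s0) : ℝ) * y0 k / κ) := by
        field_simp
      rw [e3, abs_mul, abs_of_pos hκ0] at e1
      have e4 := abs_nonneg (back (x k) (N k) i - (D.vf (i + s0) : ℝ) * y0 k / κ)
      nlinarith
    rw [abs_le] at e2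
    exact ⟨Real.exp_le_exp.mpr e2.1, Real.exp_le_exp.mpr e2.2⟩
  have hlim : ∀ i, ∃ a, 0 < a ∧ Tendsto (w i) U (𝓝 a) := by
    intro i
    have hmem : Set.Icc (Real.exp (-C i)) (Real.exp (C i)) ∈ (U.map (w i)) := by
      rw [Ultrafilter.mem_map]
      exact hwmem i
    obtain ⟨a, ha, hle⟩ := isCompact_Icc.ultrafilter_le_nhds' _ hmem
    refine ⟨a, lt_of_lt_of_le (Real.exp_pos _) ha.1, ?_⟩
    rw [Ultrafilter.coe_map] at hle
    exact hle
  choose u hu0 hu using hlim
  -- the value of `x` in terms of `w`
  have hxw : ∀ i k, x k (N k - i) = w i k * Real.exp ((D.vf (i + s0) : ℝ) * y0 k / κ) := by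
    intro i k
    rw [hw]
    simp only
    rw [← Real.exp_add, sub_add_cancel]
    simp only [back]
    rw [Real.exp_log ((hx k).pos _)]
  -- exponentials tend to zero
  have hexp0 : ∀ m : ℤ, m < 0 → Tendsto (fun k => Real.exp ((m : ℝ) * y0 k / κ)) U (𝓝 0) := by
    intro m hm
    apply Real.tendsto_exp_atBot.comp
    have hm' : ((m : ℝ) / κ) < 0 := div_neg_of_neg_of_pos (by exact_mod_cast hm) hκ0
    have := Tendsto.const_mul_atTop_of_neg hm' hy0top
    refine this.congr (fun k => ?_)
    ring
  -- the limit solution in the phase `s0`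
  have key : LimSol D.kap (fun i => D.vf (i + s0)) b B (fs D.S) (fs D.T) u := by
    refine ⟨hu0, ?_, ?_⟩
    · intro i hi
      refine le_of_tendsto (hu i) ?_
      refine Eventually.of_forall (fun k => ?_)
      simp only [hw]
      rw [hi]
      have e1 := hquasi k (N k - i) (Nat.sub_le _ _)
      rw [add_zero] at e1
      have e2 : back (x k) (N k) i ≤ y0 k := e1
      have e3 : ((D.kap : ℤ) : ℝ) * y0 k / κ = y0 k := by
        have : ((D.kap : ℤ) : ℝ) = κ := by rw [hκ]; push_cast; rfl
        rw [this]; field_simp
      rw [e3]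
      rw [← Real.exp_zero]
      exact Real.exp_le_exp.mpr (by linarith)
    · intro d e hT hS
      set vd : ℤ := D.vf (d + s0) with hvd
      set vk : Fin 5 → ℤ := fun k => vv (fun i => D.vf (i + s0)) d k with hvk
      set wk : Fin 5 → ℕ → ℝ := fun i k => if i = 0 then 1 else w (d + i) k with hwk
      have hwkl : ∀ i, Tendsto (wk i) U (𝓝 (uu u d i)) := by
        intro i
        simp only [hwk, uu]
        split_ifs
        · exact tendsto_const_nhds
        · exact hu _
      -- the equation for `k`
      have heqk : ∀ᶠ k in (U : Filter ℕ),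
          ∑ i, B i * (w d k * wk i k * Real.exp (((vd + vk i - e : ℤ) : ℝ) * y0 k / κ)) =
            ∑ i, b i * (wk i k * Real.exp (((vk i - e : ℤ) : ℝ) * y0 k / κ)) := by
        have e2 : ∀ᶠ k in (U : Filter ℕ), d + 4 ≤ k := hUle (eventually_ge_atTop _)
        filter_upwards [e2] with k hk
        have hNk : d + 4 ≤ N k := hk.trans (hN k)
        set n := N k - d - 4 with hn
        have harg : ∀ i : Fin 5, arg (x k) n i =
            wk i k * Real.exp ((vk i : ℝ) * y0 k / κ) := by
          intro i
          by_cases hi : i = 0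
          · subst hi
            simp [arg, hwk, hvk, vv]
          · simp only [hwk, hvk, vv, hi, if_false]
            rw [← hxw]
            fin_cases i
            · exact absurd rfl hi
            · have : N k - (d + 1) = n + 3 := by omega
              simp [arg, this]
            · have : N k - (d + 2) = n + 2 := by omega
              simp [arg, this]
            · have : N k - (d + 3) = n + 1 := by omega
              simp [arg, this]
            · have : N k - (d + 4) = n := by omega
              simp [arg, this]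
        have hstep : x k (N k - d) * ∑ i, B i * arg (x k) n i = ∑ i, b i * arg (x k) n i := by
          have e3 : N k - d = n + 4 := by omega
          rw [e3, (hx k).step, lin_eq_sum, lin_eq_sum]
          apply div_mul_cancel₀
          have hT' : (fs D.T).Nonempty := by
            obtain ⟨a, l, hl⟩ := List.exists_cons_of_ne_nil (ok_T hD)
            obtain ⟨i, _, hi⟩ := mem_bits (m := D.T) (k := a) (by rw [hl]; simp)
            exact ⟨i, hi⟩
          have := lin_pos hB hT' ((hx k).pos n) ((hx k).pos _) ((hx k).pos _) ((hx k).pos _)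
          rw [lin_eq_sum] at this
          exact this.ne'
        have hE : Real.exp (-((e : ℝ) * y0 k / κ)) ≠ 0 := (Real.exp_pos _).ne'
        have hmul := congrArg (fun z => Real.exp (-((e : ℝ) * y0 k / κ)) * z) hstep
        simp only [Finset.mul_sum] at hmul
        have hl : ∀ i, Real.exp (-((e : ℝ) * y0 k / κ)) * (x k (N k - d) * (B i * arg (x k) n i)) =
            B i * (w d k * wk i k * Real.exp (((vd + vk i - e : ℤ) : ℝ) * y0 k / κ)) := by
          intro i
          rw [hxw d k, harg i]
          have : Real.exp (((vd + vk i - e : ℤ) : ℝ) * y0 k / κ) =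
              Real.exp (-((e : ℝ) * y0 k / κ)) * Real.exp ((D.vf (d + s0) : ℝ) * y0 k / κ) *
              Real.exp ((vk i : ℝ) * y0 k / κ) := by
            rw [← Real.exp_add, ← Real.exp_add]
            congr 1
            push_cast
            rw [hvd]
            ring
          rw [this]
          ring
        have hr : ∀ i, Real.exp (-((e : ℝ) * y0 k / κ)) * (b i * arg (x k) n i) =
            b i * (wk i k * Real.exp (((vk i - e : ℤ) : ℝ) * y0 k / κ)) := by
          intro i
          rw [harg i]
          have : Real.exp (((vk i - e : ℤ) : ℝ) * y0 k / κ) =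
              Real.exp (-((e : ℝ) * y0 k / κ)) * Real.exp ((vk i : ℝ) * y0 k / κ) := by
            rw [← Real.exp_add]
            congr 1
            push_cast
            ring
          rw [this]
          ring
        rw [Finset.sum_congr rfl (fun i _ => hl i), Finset.sum_congr rfl (fun i _ => hr i)] at hmul
        exact hmul
      -- the limits of both sides
      have hLl : Tendsto (fun k => ∑ i, B i * (w d k * wk i k *
          Real.exp (((vd + vk i - e : ℤ) : ℝ) * y0 k / κ))) U
          (𝓝 (∑ i, (if vd + vk i = e then B i * (u d * uu u d i) else 0))) := by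
        apply tendsto_finsetSum
        intro i _
        by_cases hi : i ∈ fs D.T
        · by_cases hz : vd + vk i = e
          · simp only [hz, if_true, sub_self, Int.cast_zero, zero_mul, zero_div, Real.exp_zero,
              mul_one]
            exact ((hu d).mul (hwkl i)).const_mul _
          · simp only [hz, if_false]
            have hlt : vd + vk i - e < 0 := by
              have := hT i hi
              have : vd + vk i ≤ e := this
              omega
            have := (((hu d).mul (hwkl i)).mul (hexp0 _ hlt)).const_mul (B i)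
            simpa using this
        · have hBi : B i = 0 := hB.2 i hi
          simp [hBi]
      have hLr : Tendsto (fun k => ∑ i, b i * (wk i k *
          Real.exp (((vk i - e : ℤ) : ℝ) * y0 k / κ))) U
          (𝓝 (∑ i, (if vk i = e then b i * uu u d i else 0))) := by
        apply tendsto_finsetSum
        intro i _
        by_cases hi : i ∈ fs D.S
        · by_cases hz : vk i = e
          · simp only [hz, if_true, sub_self, Int.cast_zero, zero_mul, zero_div, Real.exp_zero,
              mul_one]
            exact (hwkl i).const_mul _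
          · simp only [hz, if_false]
            have hlt : vk i - e < 0 := by
              have := hS i hi
              have : vk i ≤ e := this
              omega
            have := ((hwkl i).mul (hexp0 _ hlt)).const_mul (b i)
            simpa using this
        · have hbi : b i = 0 := hb.2 i hi
          simp [hbi]
      exact tendsto_nhds_unique_of_eventuallyEq hLl hLr heqk
  -- shift to the phase zero
  have hs0' : s0 ∈ D.phases := hs 0
  have hs0lt := (ok_phase hD hs0').2
  refine ⟨fun i => u (i + (D.per - s0)), ?_⟩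
  have hsh : LimSol D.kap (fun i => D.vf (i + (D.per - s0) + s0)) b B (fs D.S) (fs D.T)
      (fun i => u (i + (D.per - s0))) := key.shift (D.per - s0)
  have hfun : (fun i => D.vf (i + (D.per - s0) + s0)) = D.vf := by
    funext i
    have : i + (D.per - s0) + s0 = i + D.per := by omega
    rw [this, vf_add_per hD]
  rw [hfun] at hsh
  exact hsh

/-- Boundedness from a pinned pattern without limit solutions. -/
theorem boundedOnly_of_pin {D : PinData} (hD : D.ok = true)
    (hno : ∀ b B : Fin 5 → ℝ, SupportedOn b (fs D.S) → SupportedOn B (fs D.T) →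
      ∀ u, ¬ LimSol D.kap D.vf b B (fs D.S) (fs D.T) u) :
    BoundedOnly (fs D.S) (fs D.T) := by
  have hS' : (fs D.S).Nonempty := by
    obtain ⟨a, l, hl⟩ := List.exists_cons_of_ne_nil (ok_S hD)
    obtain ⟨i, _, hi⟩ := mem_bits (m := D.S) (k := a) (by rw [hl]; simp)
    exact ⟨i, hi⟩
  have hT' : (fs D.T).Nonempty := by
    obtain ⟨a, l, hl⟩ := List.exists_cons_of_ne_nil (ok_T hD)
    obtain ⟨i, _, hi⟩ := mem_bits (m := D.T) (k := a) (by rw [hl]; simp)
    exact ⟨i, hi⟩
  apply boundedOnly_of_record hS' hT'
  intro b B hb hB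
  by_contra hnr
  obtain ⟨u, hu⟩ := exists_limSol hD hb hB hnr
  exact hno b B hb hB u hu

end Pool.Agent.RatRec
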