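import Pool.Agent.Lib_helper86.RatW.PinData1
import Pool.Agent.Lib_helper86.RatW.PinData2
import Pool.Agent.Lib_helper86.RatW.PinData3
import Pool.Agent.Lib_helper86.RatW.PinData4
import Pool.Agent.Lib_helper86.RatW.PinData5
import Pool.Agent.Lib_helper86.RatW.PinData6
import Pool.Agent.Lib_helper86.RatW.PinData7
import Pool.Agent.Lib_helper86.RatW.PinData8

/-!
All certificates of the pinned patterns.
-/
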